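import Pool.Agent.H11.FC.Ext

/-! # Free products

`C = A × B`, `ι = Unit`, `x = xx ()`. `κ : A * B → FP C Unit`, `κ (inl a) = inl (a, 1)`, `κ (inr b) = x * inl (1, b) * x⁻¹`.
`κ` IS INJECTIVE: every `w ≠ 1` in `A * B` is `inl a₀ * inr b₁ * inl a₁ * ... * inr b_k * inl a_k` with `b_i ≠ 1` for all `i`, `a_i ≠ 1` for `0 < i < k`
(`k = 0`: `a₀ ≠ 1`; existence as in `exists_red`: closed under left multiplication by `inl a` and `inr b`). Its image is `ev (a₀,1) [((), 1, (1,b₁)), ((), -1, (a₁,1)), ((), 1, (1,b₂)), ...]`, a reduced expression (`Red`: all consecutive indices are equal, the inner elements are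
`(1,b_i) ≠ 1` and `(a_i,1) ≠ 1` for `0 < i < k`; the last element may be `1`). A reduced expression `ev a₀ L` with `L ≠ []` is not `1`: `word_rep` with `G = C`, `κ = id`, `V = QA C` (left regular
representation), `Fl 0 = ⊤`, `Fl i = ⊥` (`i ≥ 1`), `m = 1`, `K = {1}`: `NonSc ρ c` for `c ≠ 1` (`gr c ≠ q • 1`). (`ev_ne_one` below.)
PROOF of `vrtfn_amal`. `Φ : MulAut (FP C Unit)`: `Φ (inl (a,b)) = inl (α a, β b)`, `Φ x = inl (c, 1) * x`; inverse `inl (a,b) ↦ inl (α⁻¹ a, β⁻¹ b)`, `x ↦ inl ((α⁻¹ c)⁻¹, 1) * x`.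
`Φ ∘ κ = κ ∘ φ` (check on `inl a`, `inr b`). So `MT (A * B) φ → MT (FP C Unit) Φ`, `(w, t^j) ↦ (κ w, t^j)`, is an injective homomorphism (`SemidirectProduct.map`). `VRTFN (MT C (α × β))`:
`MT C (α×β)` embeds into `MT A α × MT B β`, `((a,b),t^j) ↦ ((a,t^j),(b,t^j))`, `VRTFN_prod`, `VRTFN_of_inj`. `C` is f.g. `vrtfn_split` for `Φ` (`u = (c,1)`, `v = 1`, `ε = 1`). -/

set_option autoImplicit false

namespace Pool.H11.FC

private theorem amal_nonsc {A : Type} [Group A] (c : A) (hc : c ≠ 1) (q : ℚ) :
    (gr c : QA A) * 1 ≠ q • (1 : QA A) := by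
  classical
  intro h
  rw [mul_one] at h
  have h1 := congrArg (fun r : QA A => r.coeff c) h
  simp only [MonoidAlgebra.of_apply, MonoidAlgebra.coeff_single, MonoidAlgebra.one_def,
    MonoidAlgebra.smul_single] at h1
  rw [Finsupp.single_apply, Finsupp.single_apply, if_pos rfl, if_neg (Ne.symm hc)] at h1
  exact one_ne_zero h1

theorem ev_ne_one {A : Type} [Group A] {ι : Type} (a₀ : A) (L : List (ι × ℤ × A)) (hL : Red L)
    (h : L ≠ []) : (ev a₀ L : FP A ι) ≠ 1 := by
  let ρ : Representation ℚ A (QA A) :=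
    { toFun := fun g => LinearMap.mulLeft ℚ (gr g)
      map_one' := by
        refine LinearMap.ext fun v => ?_
        exact one_mul v
      map_mul' := fun g g' => by
        refine LinearMap.ext fun v => ?_
        change gr (g * g') * v = gr g * (gr g' * v)
        rw [← mul_assoc, ← map_mul] }
  have hρ : ∀ (g : A) (v : QA A), ρ g v = gr g * v := fun g v => rfl
  have hF : Flag ρ ({1} : Set A) (fun i => if i = 0 then ⊤ else ⊥) 1 := by
    refine ⟨?_, by simp, by simp, ?_, ?_⟩
    · intro i j hij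
      by_cases hi : i = 0
      · simp [hi]
      · have hj : j ≠ 0 := by omega
        simp [hi, hj]
    · intro g i v hv
      by_cases hi : i = 0
      · simp [hi]
      · simp only [hi, if_false, Submodule.mem_bot] at hv ⊢
        rw [hv, map_zero]
    · intro g hg i v hv
      rw [Set.mem_singleton_iff] at hg
      subst hg
      rw [map_one, Module.End.one_apply, sub_self]
      exact Submodule.zero_mem _
  have hne : Nontrivial (QA A) := inferInstance
  obtain ⟨W, iW1, iW2, σ, Fl', M, -, -, -, -, -, -, hσ⟩ :=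
    word_rep (MonoidHom.id A) ρ {1} (fun i => if i = 0 then ⊤ else ⊥) 1 hF a₀ L hL
      (fun h0 => absurd h0 h) (fun t _ ht => ⟨1, fun q => amal_nonsc t.2.2 ht q⟩)
  intro hev
  apply hσ
  rw [hev, map_one]

/-- Expressions in `A * B`. -/
private def amal_ev {A B : Type} [Group A] [Group B] (a₀ : A) (M : List (B × A)) :
    Monoid.Coprod A B :=
  Monoid.Coprod.inl a₀ * (M.map fun t => Monoid.Coprod.inr t.1 * Monoid.Coprod.inl t.2).prod

private def amal_red {A B : Type} [Group A] [Group B] (M : List (B × A)) : Prop :=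
  (∀ t ∈ M, t.1 ≠ 1) ∧ M.IsChain fun s _ => s.2 ≠ 1

private theorem amal_exists {A B : Type} [Group A] [Group B] (w : Monoid.Coprod A B) :
    ∃ (a₀ : A) (M : List (B × A)), amal_red M ∧ w = amal_ev a₀ M := by
  induction w using Monoid.Coprod.induction_on' with
  | one =>
    refine ⟨1, [], ⟨by simp, List.isChain_nil⟩, ?_⟩
    simp [amal_ev]
  | inl_mul a x ih =>
    obtain ⟨a₀, M, hM, rfl⟩ := ih
    refine ⟨a * a₀, M, hM, ?_⟩
    unfold amal_ev
    rw [map_mul, mul_assoc]
  | inr_mul b x ih =>
    obtain ⟨a₀, M, hM, rfl⟩ := ih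
    by_cases hb : b = 1
    · subst hb
      exact ⟨a₀, M, hM, by rw [map_one, one_mul]⟩
    by_cases ha : a₀ = 1
    · subst ha
      cases M with
      | nil =>
        refine ⟨1, [(b, 1)], ⟨by simpa using hb, List.isChain_singleton _⟩, ?_⟩
        simp [amal_ev]
      | cons t M =>
        by_cases hbt : b * t.1 = 1
        · refine ⟨t.2, M, ⟨fun u hu => hM.1 u (List.mem_cons_of_mem _ hu), hM.2.tail⟩, ?_⟩
          simp only [amal_ev, List.map_cons, List.prod_cons, map_one, one_mul]
          rw [← mul_assoc, ← mul_assoc, ← map_mul, hbt, map_one, one_mul]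
        · refine ⟨1, (b * t.1, t.2) :: M, ⟨?_, ?_⟩, ?_⟩
          · intro u hu
            rcases List.mem_cons.1 hu with rfl | hu
            · exact hbt
            · exact hM.1 u (List.mem_cons_of_mem _ hu)
          · have h2 := hM.2
            cases M with
            | nil => exact List.isChain_singleton _
            | cons s M =>
              rw [List.isChain_cons_cons] at h2 ⊢
              exact h2
          · simp only [amal_ev, List.map_cons, List.prod_cons, map_one, one_mul]
            rw [map_mul, mul_assoc, mul_assoc, mul_assoc]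
    · refine ⟨1, (b, a₀) :: M, ⟨?_, ?_⟩, ?_⟩
      · intro u hu
        rcases List.mem_cons.1 hu with rfl | hu
        · exact hb
        · exact hM.1 u hu
      · cases M with
        | nil => exact List.isChain_singleton _
        | cons s M => exact List.isChain_cons_cons.2 ⟨ha, hM.2⟩
      · simp only [amal_ev, List.map_cons, List.prod_cons, map_one, one_mul]
        rw [mul_assoc]

/-- The embedding of `A * B`. -/
private def amal_kap (A B : Type) [Group A] [Group B] : Monoid.Coprod A B →* FP (A × B) Unit :=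
  Monoid.Coprod.lift
    ((Monoid.Coprod.inl : A × B →* FP (A × B) Unit).comp (MonoidHom.inl A B))
    ((MulAut.conj (xx () : FP (A × B) Unit)).toMonoidHom.comp
      ((Monoid.Coprod.inl : A × B →* FP (A × B) Unit).comp (MonoidHom.inr A B)))

private theorem amal_kap_inl {A B : Type} [Group A] [Group B] (a : A) :
    amal_kap A B (Monoid.Coprod.inl a) = Monoid.Coprod.inl (a, 1) := by
  unfold amal_kap
  rw [Monoid.Coprod.lift_apply_inl]
  rfl

private theorem amal_kap_inr {A B : Type} [Group A] [Group B] (b : B) :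
    amal_kap A B (Monoid.Coprod.inr b) =
      xx () * Monoid.Coprod.inl ((1 : A), b) * (xx ())⁻¹ := by
  unfold amal_kap
  rw [Monoid.Coprod.lift_apply_inr]
  rfl

/-- The list of the image. -/
private def amal_list {A B : Type} [Group A] [Group B] : List (B × A) → List (Unit × ℤ × (A × B))
  | [] => []
  | t :: M => ((), 1, ((1 : A), t.1)) :: ((), -1, (t.2, (1 : B))) :: amal_list M

private theorem amal_list_ev {A B : Type} [Group A] [Group B] (M : List (B × A)) :
    amal_kap A B (M.map fun t => Monoid.Coprod.inr t.1 * Monoid.Coprod.inl t.2).prod =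
      ((amal_list M).map fun t => (xx t.1 : FP (A × B) Unit) ^ t.2.1 *
        Monoid.Coprod.inl t.2.2).prod := by
  induction M with
  | nil => simp [amal_list]
  | cons t M ih =>
    rw [List.map_cons, List.prod_cons, map_mul, map_mul, ih, amal_kap_inl, amal_kap_inr]
    simp only [amal_list, List.map_cons, List.prod_cons, zpow_one, zpow_neg, mul_assoc]

private theorem amal_list_red {A B : Type} [Group A] [Group B] (M : List (B × A))
    (hM : amal_red M) : Red (amal_list M) := by
  induction M with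
  | nil => exact ⟨by simp [amal_list], List.isChain_nil⟩
  | cons t M ih =>
    have hM' : amal_red M := ⟨fun u hu => hM.1 u (List.mem_cons_of_mem _ hu), hM.2.tail⟩
    have ih' := ih hM'
    have ht : t.1 ≠ 1 := hM.1 t List.mem_cons_self
    refine ⟨?_, ?_⟩
    · intro u hu
      rcases List.mem_cons.1 hu with rfl | hu
      · exact one_ne_zero
      · rcases List.mem_cons.1 hu with rfl | hu
        · norm_num
        · exact ih'.1 u hu
    · change List.IsChain _ (((), 1, ((1 : A), t.1)) :: ((), -1, (t.2, (1 : B))) :: amal_list M)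
      rw [List.isChain_cons_cons]
      refine ⟨fun _ hh => ht (congrArg Prod.snd hh), ?_⟩
      cases M with
      | nil => exact List.isChain_singleton _
      | cons s M =>
        have h3 := (List.isChain_cons_cons.1 hM.2).1
        exact List.isChain_cons_cons.2 ⟨fun _ hh => h3 (congrArg Prod.fst hh), ih'.2⟩

private theorem amal_kap_inj {A B : Type} [Group A] [Group B] :
    Function.Injective (amal_kap A B) := by
  rw [injective_iff_map_eq_one]
  intro w hw
  obtain ⟨a₀, M, hM, rfl⟩ := amal_exists w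
  unfold amal_ev at hw
  rw [map_mul, amal_kap_inl, amal_list_ev] at hw
  cases M with
  | nil =>
    simp only [amal_list, List.map_nil, List.prod_nil, mul_one] at hw
    have h1 : ((a₀, 1) : A × B) = 1 := by
      apply Monoid.Coprod.inl_injective (N := FreeGroup Unit)
      rw [hw, map_one]
    have h2 : a₀ = 1 := congrArg Prod.fst h1
    rw [h2]
    simp [amal_ev]
  | cons t M =>
    exact absurd hw (ev_ne_one (a₀, 1) (amal_list (t :: M)) (amal_list_red _ hM) (by
      simp [amal_list]))

/-- The automorphism. -/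
private theorem amal_Phi {C : Type} [Group C] (γ : MulAut C) (c : C) :
    ∃ Φ : MulAut (FP C Unit), (∀ a, Φ (Monoid.Coprod.inl a) = Monoid.Coprod.inl (γ a)) ∧
      Φ (xx ()) = Monoid.Coprod.inl c * xx () := by
  have key : ∀ (γ : MulAut C) (c : C), ∃ f : FP C Unit →* FP C Unit,
      (∀ a, f (Monoid.Coprod.inl a) = Monoid.Coprod.inl (γ a)) ∧
      f (xx ()) = Monoid.Coprod.inl c * xx () := by
    intro γ c
    refine ⟨Monoid.Coprod.lift
      ((Monoid.Coprod.inl : C →* FP C Unit).comp (γ : C →* C))
      (FreeGroup.lift fun _ => Monoid.Coprod.inl c * xx ()), ?_, ?_⟩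
    · intro a
      rw [Monoid.Coprod.lift_apply_inl]
      rfl
    · unfold xx
      rw [Monoid.Coprod.lift_apply_inr, FreeGroup.lift_apply_of]
  obtain ⟨f, hf1, hf2⟩ := key γ c
  obtain ⟨g, hg1, hg2⟩ := key γ⁻¹ (γ⁻¹ c)⁻¹
  have hext : ∀ (u v : FP C Unit →* FP C Unit),
      (∀ a, u (Monoid.Coprod.inl a) = v (Monoid.Coprod.inl a)) → u (xx ()) = v (xx ()) →
      u = v := by
    intro u v h1 h2
    apply Monoid.Coprod.hom_ext
    · exact MonoidHom.ext h1
    · apply FreeGroup.ext_hom
      intro i
      exact h2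
  have h1 : g.comp f = MonoidHom.id _ := by
    apply hext
    · intro a
      rw [MonoidHom.comp_apply, hf1, hg1, MulAut.inv_apply_self]
      rfl
    · rw [MonoidHom.comp_apply, hf2, map_mul, hg1, hg2, ← mul_assoc, ← map_mul,
        mul_inv_cancel, map_one, one_mul]
      rfl
  have h2 : f.comp g = MonoidHom.id _ := by
    apply hext
    · intro a
      rw [MonoidHom.comp_apply, hg1, hf1, MulAut.apply_inv_self]
      rfl
    · rw [MonoidHom.comp_apply, hg2, map_mul, hf1, hf2, ← mul_assoc, ← map_mul, map_inv,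
        MulAut.apply_inv_self, inv_mul_cancel, map_one, one_mul]
      rfl
  exact ⟨MonoidHom.toMulEquiv f g h1 h2, hf1, hf2⟩

private theorem amal_zpow {F F' : Type} [Group F] [Group F'] (f : F →* F') (φ : MulAut F)
    (φ' : MulAut F') (h : ∀ x, f (φ x) = φ' (f x)) (k : ℤ) (x : F) :
    f ((φ ^ k) x) = (φ' ^ k) (f x) := by
  have hpow : ∀ (ψ : MulAut F) (ψ' : MulAut F'), (∀ x, f (ψ x) = ψ' (f x)) →
      ∀ (n : ℕ) (x : F), f ((ψ ^ n) x) = (ψ' ^ n) (f x) := by
    intro ψ ψ' hψ n
    induction n with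
    | zero => intro x; rfl
    | succ n ih =>
      intro x
      rw [pow_succ, pow_succ, MulAut.mul_apply, MulAut.mul_apply, ih, hψ]
  have hinv : ∀ x, f (φ⁻¹ x) = φ'⁻¹ (f x) := by
    intro x
    apply φ'.injective
    rw [← h, MulAut.apply_inv_self, MulAut.apply_inv_self]
  cases k with
  | ofNat n =>
    rw [Int.ofNat_eq_natCast, zpow_natCast, zpow_natCast]
    exact hpow φ φ' h n x
  | negSucc n =>
    rw [zpow_negSucc, zpow_negSucc, ← inv_pow, ← inv_pow]
    exact hpow φ⁻¹ φ'⁻¹ hinv (n + 1) x

private theorem amal_map {F F' : Type} [Group F] [Group F'] (f : F →* F') (φ : MulAut F)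
    (φ' : MulAut F') (h : ∀ x, f (φ x) = φ' (f x)) :
    ∃ g : MT F φ →* MT F' φ', ∀ x, (g x).left = f x.left ∧ (g x).right = x.right := by
  refine ⟨SemidirectProduct.map f (MonoidHom.id _) ?_, fun x => ⟨rfl, rfl⟩⟩
  intro t
  refine MonoidHom.ext fun x => ?_
  exact amal_zpow f φ φ' h (Multiplicative.toAdd t) x

theorem vrtfn_amal {A B : Type} [Group A] [Group B] (hA : Group.FG A) (hB : Group.FG B)
    (α : MulAut A) (β : MulAut B) (φ : MulAut (Monoid.Coprod A B)) (c : A)
    (h1 : ∀ a : A, φ (Monoid.Coprod.inl a) = Monoid.Coprod.inl (α a))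
    (h2 : ∀ b : B, φ (Monoid.Coprod.inr b) =
      Monoid.Coprod.inl c * Monoid.Coprod.inr (β b) * (Monoid.Coprod.inl c)⁻¹)
    (hα : VRTFN (MT A α)) (hβ : VRTFN (MT B β)) : VRTFN (MT (Monoid.Coprod A B) φ) := by
  let γ : MulAut (A × B) := MulEquiv.prodCongr α β
  have hγ : ∀ x : A × B, γ x = (α x.1, β x.2) := fun x => rfl
  obtain ⟨Φ, hΦ1, hΦ2⟩ := amal_Phi γ ((c, 1) : A × B)
  have hfg : Group.FG (A × B) := by
    constructor
    rw [← Subgroup.top_prod_top]
    exact hA.out.prod hB.out
  have hint : ∀ w, amal_kap A B (φ w) = Φ (amal_kap A B w) := by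
    intro w
    have h3 : (amal_kap A B).comp (φ : Monoid.Coprod A B →* Monoid.Coprod A B) =
        (Φ : FP (A × B) Unit →* FP (A × B) Unit).comp (amal_kap A B) := by
      apply Monoid.Coprod.hom_ext
      · refine MonoidHom.ext fun a => ?_
        change amal_kap A B (φ (Monoid.Coprod.inl a)) = Φ (amal_kap A B (Monoid.Coprod.inl a))
        rw [h1, amal_kap_inl, amal_kap_inl, hΦ1, hγ, map_one]
      · refine MonoidHom.ext fun b => ?_
        change amal_kap A B (φ (Monoid.Coprod.inr b)) = Φ (amal_kap A B (Monoid.Coprod.inr b))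
        rw [h2, map_mul, map_mul, map_inv, amal_kap_inl, amal_kap_inr, amal_kap_inr, map_mul,
          map_mul, map_inv, hΦ1, hΦ2, hγ, map_one]
        simp only [mul_assoc, mul_inv_rev]
    exact DFunLike.congr_fun h3 w
  have hC : VRTFN (MT (A × B) γ) := by
    obtain ⟨g1, hg1⟩ := amal_map (MonoidHom.fst A B) γ α (fun x => rfl)
    obtain ⟨g2, hg2⟩ := amal_map (MonoidHom.snd A B) γ β (fun x => rfl)
    refine VRTFN_of_inj (g1.prod g2) ?_ (VRTFN_prod hα hβ)
    intro x y hxy
    have e1 : g1 x = g1 y := congrArg Prod.fst hxy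
    have e2 : g2 x = g2 y := congrArg Prod.snd hxy
    have l1 : x.left.1 = y.left.1 := by
      have := congrArg SemidirectProduct.left e1
      rw [(hg1 x).1, (hg1 y).1] at this
      exact this
    have l2 : x.left.2 = y.left.2 := by
      have := congrArg SemidirectProduct.left e2
      rw [(hg2 x).1, (hg2 y).1] at this
      exact this
    have r1 : x.right = y.right := by
      have := congrArg SemidirectProduct.right e1
      rwa [(hg1 x).2, (hg1 y).2] at this
    exact SemidirectProduct.ext (Prod.ext l1 l2) r1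
  have hV : VRTFN (MT (FP (A × B) Unit) Φ) := by
    refine vrtfn_split hfg γ Φ hΦ1 ?_ hC
    intro i
    refine ⟨(c, 1), 1, (), 1, Or.inl rfl, ?_⟩
    rw [zpow_one, map_one, mul_one]
    exact hΦ2
  obtain ⟨g, hg⟩ := amal_map (amal_kap A B) φ Φ hint
  refine VRTFN_of_inj g ?_ hV
  intro x y hxy
  have l1 := congrArg SemidirectProduct.left hxy
  have r1 := congrArg SemidirectProduct.right hxy
  rw [(hg x).1, (hg y).1] at l1
  rw [(hg x).2, (hg y).2] at r1
  exact SemidirectProduct.ext (amal_kap_inj l1) r1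

end Pool.H11.FC
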