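import Pool.Agent.H11.FC.Quot

/-! # Augmentation powers and unipotent representations

PROOFS. `aug_map`: induction on `Aug`. `augFilt`: the sets `{r | Aug G i r}` are submodules: scalars `c • r = (c • 1) * r` with `Aug.top`
and `Aug.mul` (`0 + i = i`), negatives as `(-1) • r`; antitone by `Aug.mono` (`antitone_nat_of_succ_le`).
`not_aug_of_rep`: by induction on `Aug`, `Aug G i r → ∀ j w, w ∈ Fl j → (ρ.asAlgebraHom r) w ∈ Fl (j + i)`: for `top` use that every
`ρ g` preserves each `Fl j` (`ρ g w = w + (ρ g w - w)`), so every `r` does (`MonoidAlgebra` induction, or write `r` as a finite sum); `gen`: `hr`;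
`mul`: compose, `j + (i + i')`; etc. If `Aug G m (gr g - 1)` then `(ρ g - 1) w ∈ Fl (0 + m) = ⊥` for all `w`, so `ρ g = 1`.
`RU_of_inj`: by `aug_map` (contrapositive) and `gmap_gr`. `RU_of_equiv` is a special case.
`rep_of_RU`: choose `n` with `¬ Aug G n (gr g - 1)`; `n ≠ 0` by `Aug.top`. Apply `quot_rep (augFilt G) n 1 _ _` (the automorphism `1`, `gmap` of it is the
identity, `gmap_id`), `Fl i = (C i).map q`, `m = n`; it is raised by all of `G` since `gr g - 1 ∈ C 1`. Non-scalar at `v = q 1`: if `ρ g v = c • v` then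
`gr g - c • 1 ∈ C n ≤ C 1`; the augmentation (`MonoidAlgebra.lift` of the trivial character, it kills `Aug G 1`; induction on `Aug`, for all `i ≥ 1`)
gives `1 - c = 0`, so `gr g - 1 ∈ C n`, a contradiction. -/

set_option autoImplicit false

namespace Pool.H11.FC

theorem aug_map {G G' : Type} [Group G] [Group G'] (f : G →* G') {i : ℕ} {r : QA G}
    (h : Aug G i r) : Aug G' i (gmap f r) := by
  induction h with
  | top r => exact Aug.top _
  | gen g =>
    rw [map_sub, map_one, gmap_gr]
    exact Aug.gen _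
  | mul _ _ ih1 ih2 =>
    rw [map_mul]
    exact Aug.mul ih1 ih2
  | add _ _ ih1 ih2 =>
    rw [map_add]
    exact Aug.add ih1 ih2
  | zero i =>
    rw [map_zero]
    exact Aug.zero i
  | mono _ ih => exact Aug.mono ih

theorem exists_augFilt (G : Type) [Group G] :
    ∃ C : Filt (QA G), ∀ (i : ℕ) (r : QA G), r ∈ C.C i ↔ Aug G i r := by
  let C : ℕ → Submodule ℚ (QA G) := fun i =>
    { carrier := {r | Aug G i r}
      add_mem' := fun h1 h2 => Aug.add h1 h2
      zero_mem' := Aug.zero i
      smul_mem' := fun c r h => by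
        have h1 := Aug.mul (Aug.top (c • (1 : QA G))) h
        rw [zero_add, smul_one_mul] at h1
        exact h1 }
  refine ⟨⟨C, ?_, ?_, ?_⟩, fun i r => Iff.rfl⟩
  · rw [eq_top_iff]
    intro r _
    exact Aug.top r
  · exact antitone_nat_of_succ_le fun i r hr => Aug.mono hr
  · intro i j r s hr hs
    exact Aug.mul hr hs

theorem not_aug_of_rep {G W : Type} [Group G] [AddCommGroup W] [Module ℚ W]
    (ρ : Representation ℚ G W) (Fl : ℕ → Submodule ℚ W) (m : ℕ) (hanti : Antitone Fl)
    (htop : Fl 0 = ⊤) (hbot : Fl m = ⊥)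
    (hr : ∀ (g : G) (i : ℕ) (v : W), v ∈ Fl i → ρ g v - v ∈ Fl (i + 1)) (g : G) (hg : ρ g ≠ 1) :
    ¬ Aug G m (gr g - 1) := by
  have hpres : ∀ (r : QA G) (j : ℕ) (w : W), w ∈ Fl j → ρ.asAlgebraHom r w ∈ Fl j := by
    intro r
    induction r using MonoidAlgebra.induction_on with
    | of g =>
      intro j w hw
      rw [Representation.asAlgebraHom_of]
      have h1 : ρ g w = (ρ g w - w) + w := by abel
      rw [h1]
      exact (Fl j).add_mem (hanti (Nat.le_succ j) (hr g j w hw)) hw
    | add r s ihr ihs =>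
      intro j w hw
      rw [map_add, LinearMap.add_apply]
      exact (Fl j).add_mem (ihr j w hw) (ihs j w hw)
    | smul c r ihr =>
      intro j w hw
      rw [map_smul, LinearMap.smul_apply]
      exact (Fl j).smul_mem c (ihr j w hw)
  have key : ∀ (i : ℕ) (r : QA G), Aug G i r → ∀ (j : ℕ) (w : W), w ∈ Fl j →
      ρ.asAlgebraHom r w ∈ Fl (j + i) := by
    intro i r h
    induction h with
    | top r => exact fun j w hw => hpres r j w hw
    | gen g =>
      intro j w hw
      rw [map_sub, map_one, Representation.asAlgebraHom_of, LinearMap.sub_apply]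
      exact hr g j w hw
    | @mul i j r s _ _ ih1 ih2 =>
      intro k w hw
      rw [map_mul, Module.End.mul_apply]
      have h1 := ih1 (k + j) _ (ih2 k w hw)
      rwa [show k + j + i = k + (i + j) by omega] at h1
    | add _ _ ih1 ih2 =>
      intro j w hw
      rw [map_add, LinearMap.add_apply]
      exact (Fl _).add_mem (ih1 j w hw) (ih2 j w hw)
    | zero i =>
      intro j w _
      rw [map_zero, LinearMap.zero_apply]
      exact (Fl _).zero_mem
    | @mono i r _ ih =>
      intro j w hw
      exact hanti (by omega : j + i ≤ j + (i + 1)) (ih j w hw)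
  intro h
  apply hg
  ext w
  have h1 := key m _ h 0 w (by rw [htop]; exact Submodule.mem_top)
  rw [zero_add, hbot, Submodule.mem_bot, map_sub, map_one, Representation.asAlgebraHom_of,
    LinearMap.sub_apply, sub_eq_zero] at h1
  exact h1

theorem RU_of_inj {G G' : Type} [Group G] [Group G'] (f : G →* G') (hf : Function.Injective f)
    (h : RU G') : RU G := by
  intro g hg
  have h1 : f g ≠ 1 := fun h2 => hg (hf (by rw [h2, map_one]))
  obtain ⟨n, hn⟩ := h (f g) h1
  refine ⟨n, fun ha => hn ?_⟩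
  have h3 := aug_map f ha
  rwa [map_sub, map_one, gmap_gr] at h3

/-- The augmentation. -/
private noncomputable def augrep_eps (G : Type) [Group G] : QA G →ₐ[ℚ] ℚ :=
  MonoidAlgebra.lift ℚ ℚ G (1 : G →* ℚ)

private theorem augrep_eps_gr {G : Type} [Group G] (g : G) : augrep_eps G (gr g) = 1 := by
  simp [augrep_eps, gr]

private theorem augrep_eps_aug {G : Type} [Group G] {i : ℕ} {r : QA G} (h : Aug G i r) :
    1 ≤ i → augrep_eps G r = 0 := by
  induction h with
  | top r => intro h0; omega
  | gen g =>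
    intro _
    rw [map_sub, map_one, augrep_eps_gr, sub_self]
  | @mul i j r s _ _ ih1 ih2 =>
    intro h0
    rw [map_mul]
    rcases Nat.eq_zero_or_pos i with h1 | h1
    · rw [ih2 (by omega), mul_zero]
    · rw [ih1 h1, zero_mul]
  | add _ _ ih1 ih2 =>
    intro h0
    rw [map_add, ih1 h0, ih2 h0, add_zero]
  | zero i =>
    intro _
    rw [map_zero]
  | mono _ ih =>
    intro h0
    exact ih (by omega)

theorem rep_of_RU {G : Type} [Group G] (h : RU G) (g : G) (hg : g ≠ 1) :
    ∃ (W : Type) (_ : AddCommGroup W) (_ : Module ℚ W) (ρ : Representation ℚ G W)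
      (Fl : ℕ → Submodule ℚ W) (m : ℕ), Flag ρ Set.univ Fl m ∧ NonSc ρ g := by
  obtain ⟨n, hn⟩ := h g hg
  have hn1 : 1 ≤ n := by
    rcases Nat.eq_zero_or_pos n with h0 | h0
    · subst h0
      exact absurd (Aug.top _) hn
    · exact h0
  obtain ⟨C, hC⟩ := exists_augFilt G
  have e1 : ((1 : MulAut G) : G →* G) = MonoidHom.id G := by
    ext x
    rfl
  obtain ⟨W, i1, i2, ρ, T, q, hq, hker, hρ, _⟩ := quot_rep C n 1
    (fun i r hr => by rw [e1, gmap_id]; exact hr)
    (fun i r hr => by rw [inv_one, e1, gmap_id]; exact hr)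
  have htop0 : ∀ r : QA G, r ∈ C.C 0 := fun r => by
    rw [C.top]
    exact Submodule.mem_top
  refine ⟨W, i1, i2, ρ, fun i => (C.C i).map q, n, ⟨?_, ?_, ?_, ?_, ?_⟩, q 1, ?_⟩
  · intro i j hij
    exact Submodule.map_mono (C.anti hij)
  · rw [C.top, Submodule.map_top, LinearMap.range_eq_top]
    exact hq
  · rw [eq_bot_iff]
    rintro _ ⟨r, hr, rfl⟩
    rw [Submodule.mem_bot]
    exact (hker r).mpr hr
  · rintro f i _ ⟨r, hr, rfl⟩
    rw [hρ]
    refine Submodule.mem_map_of_mem ?_
    have h1 := C.mul (htop0 (gr f)) hr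
    rwa [zero_add] at h1
  · rintro f _ i _ ⟨r, hr, rfl⟩
    rw [hρ, ← map_sub]
    refine Submodule.mem_map_of_mem ?_
    have h1 : gr f - 1 ∈ C.C 1 := (hC 1 _).mpr (Aug.gen f)
    have h2 := C.mul h1 hr
    rw [sub_mul, one_mul, add_comm] at h2
    exact h2
  · intro c hc
    rw [hρ, mul_one, ← map_smul, ← sub_eq_zero, ← map_sub, hker, hC] at hc
    have h1 := augrep_eps_aug hc hn1
    rw [map_sub, map_smul, map_one, augrep_eps_gr, smul_eq_mul, mul_one, sub_eq_zero] at h1
    rw [← h1, one_smul] at hc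
    exact hn hc

end Pool.H11.FC
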