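import Pool.Agent.H11.FC.Quot

/-! # The filtration `BG` acts on flagged representations of the mapping torus

PROOF. `R r := ρ.asAlgebraHom (gmap inl r)`. Induction on `BG`: `top`: every `ρ x` preserves `Fl j` (`hF.pres`), so every element of the group algebra does.
`gen`: `hF.raise`. `mul`, `add`, `zero`, `mono` (`hF.anti`) clear. `dd`: in `MT A α`, with `t = inr (ofAdd 1)`: `inl (α a) = t * inl a * t⁻¹`
(`SemidirectProduct.inl_aut` or direct), so `R (gmap α r) = ρ t ∘ R r ∘ ρ t⁻¹` (linear in `r`, check on group elements), and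
`R (gmap α r) - R r = ((ρ t - 1) R r - R r (ρ t - 1)) ρ t⁻¹`: for `v ∈ Fl j`, `w = ρ t⁻¹ v ∈ Fl j`, `(ρ t - 1) (R r w) ∈ Fl (j+i+1)` and `(ρ t - 1) w ∈ Fl (j+1)`,
`R r ((ρ t - 1) w) ∈ Fl (j+1+i)`. `ds`: `R (gmap α⁻¹ r) = ρ t⁻¹ ∘ R r ∘ ρ t`. -/

set_option autoImplicit false

namespace Pool.H11.FC

/-- The group algebra preserves the flag. -/
private theorem brep_pres {G V : Type} [Group G] [AddCommGroup V] [Module ℚ V]
    (ρ : Representation ℚ G V) (K : Set G) (Fl : ℕ → Submodule ℚ V) (m : ℕ)
    (hF : Flag ρ K Fl m) (r : QA G) (j : ℕ) (v : V) (hv : v ∈ Fl j) :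
    (Representation.asAlgebraHom ρ r) v ∈ Fl j := by
  induction r using MonoidAlgebra.induction_on with
  | of g =>
    rw [Representation.asAlgebraHom_of]
    exact hF.pres g j v hv
  | add a b ha hb =>
    rw [map_add, LinearMap.add_apply]
    exact Submodule.add_mem _ ha hb
  | smul c a ha =>
    rw [map_smul, LinearMap.smul_apply]
    exact Submodule.smul_mem _ _ ha

private theorem brep_conj {A : Type} [Group A] (α : MulAut A) (a : A) :
    (SemidirectProduct.inl (α a) : MT A α) =
      SemidirectProduct.inr (Multiplicative.ofAdd (1 : ℤ)) * SemidirectProduct.inl a *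
        (SemidirectProduct.inr (Multiplicative.ofAdd (1 : ℤ)))⁻¹ := by
  have h := SemidirectProduct.inl_aut (φ := zpowersHom (MulAut A) α)
    (Multiplicative.ofAdd (1 : ℤ)) a
  have h1 : (zpowersHom (MulAut A) α) (Multiplicative.ofAdd (1 : ℤ)) = α := by
    rw [zpowersHom_apply]
    exact zpow_one α
  rw [h1] at h
  rw [h, map_inv]

private theorem brep_conj' {A : Type} [Group A] (α : MulAut A) (a : A) :
    (SemidirectProduct.inl ((α⁻¹ : MulAut A) a) : MT A α) =
      (SemidirectProduct.inr (Multiplicative.ofAdd (1 : ℤ)))⁻¹ * SemidirectProduct.inl a *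
        SemidirectProduct.inr (Multiplicative.ofAdd (1 : ℤ)) := by
  have h := brep_conj α ((α⁻¹ : MulAut A) a)
  have h1 : α ((α⁻¹ : MulAut A) a) = a := MulAut.apply_inv_self A α a
  rw [h1] at h
  rw [h]
  group

private theorem brep_gmap {A G : Type} [Group A] [Group G] (κ : A →* G) (β : A →* A) (t s : G)
    (h : ∀ a, κ (β a) = t * κ a * s) (r : QA A) :
    gmap κ (gmap β r) = gr t * gmap κ r * gr s := by
  induction r using MonoidAlgebra.induction_on with
  | of g =>
    have h1 := gmap_gr β g
    have h2 := gmap_gr κ g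
    have h3 := gmap_gr κ (β g)
    rw [h1, h2, h3, h g]
    rw [show (gr (t * κ g * s) : QA G) = gr t * gr (κ g) * gr s from by
      rw [show (gr (t * κ g * s) : QA G) = gr (t * κ g) * gr s from
        map_mul (MonoidAlgebra.of ℚ G) _ _,
        show (gr (t * κ g) : QA G) = gr t * gr (κ g) from map_mul (MonoidAlgebra.of ℚ G) _ _]]
  | add a b ha hb =>
    rw [map_add, map_add, map_add, ha, hb, mul_add, add_mul]
  | smul c a ha =>
    rw [map_smul, map_smul, map_smul, ha, mul_smul_comm, smul_mul_assoc]

private theorem brep_triple {G V : Type} [Group G] [AddCommGroup V] [Module ℚ V]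
    (ρ : Representation ℚ G V) (t s : G) (r : QA G) (v : V) :
    (Representation.asAlgebraHom ρ (gr t * r * gr s)) v =
      ρ t ((Representation.asAlgebraHom ρ r) (ρ s v)) := by
  rw [map_mul, map_mul]
  rw [show (Representation.asAlgebraHom ρ (gr t)) = ρ t from Representation.asAlgebraHom_of ρ t,
    show (Representation.asAlgebraHom ρ (gr s)) = ρ s from Representation.asAlgebraHom_of ρ s]
  rfl

theorem bg_raise {A : Type} [Group A] (N : Subgroup A) (α : MulAut A) (K : Set (MT A α))
    (hN : ∀ n ∈ N, (SemidirectProduct.inl n : MT A α) ∈ K)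
    (ht : (SemidirectProduct.inr (Multiplicative.ofAdd (1 : ℤ)) : MT A α) ∈ K)
    {V : Type} [AddCommGroup V] [Module ℚ V] (ρ : Representation ℚ (MT A α) V)
    (Fl : ℕ → Submodule ℚ V) (m : ℕ) (hF : Flag ρ K Fl m) (i : ℕ) (r : QA A) (hr : BG N α i r)
    (j : ℕ) (v : V) (hv : v ∈ Fl j) :
    (Representation.asAlgebraHom ρ (gmap (SemidirectProduct.inl : A →* MT A α) r)) v
      ∈ Fl (j + i) := by
  induction hr generalizing j v with
  | top r => exact brep_pres ρ K Fl m hF _ j v hv
  | gen g hg =>
    rw [map_sub, map_one, gmap_gr, map_sub, map_one, LinearMap.sub_apply]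
    rw [show (Representation.asAlgebraHom ρ (gr (SemidirectProduct.inl g : MT A α))) =
      ρ (SemidirectProduct.inl g) from Representation.asAlgebraHom_of ρ _]
    exact hF.raise _ (hN g hg) j v hv
  | @mul i i' r s _ _ ihr ihs =>
    rw [map_mul, map_mul]
    have h := ihr (j + i') _ (ihs j v hv)
    rw [show j + i' + i = j + (i + i') by ring] at h
    exact h
  | add _ _ iha ihb =>
    rw [map_add, map_add, LinearMap.add_apply]
    exact Submodule.add_mem _ (iha j v hv) (ihb j v hv)
  | zero i =>
    rw [map_zero, map_zero, LinearMap.zero_apply]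
    exact Submodule.zero_mem _
  | @mono i r _ ih =>
    exact hF.anti (by omega : j + i ≤ j + (i + 1)) (ih j v hv)
  | @dd i r _ ih =>
    rw [map_sub, map_sub, LinearMap.sub_apply,
      brep_gmap (SemidirectProduct.inl : A →* MT A α) (α : A →* A) _ _ (brep_conj α) r,
      brep_triple]
    set t : MT A α := SemidirectProduct.inr (Multiplicative.ofAdd (1 : ℤ)) with htdef
    set R := Representation.asAlgebraHom ρ (gmap (SemidirectProduct.inl : A →* MT A α) r)
      with hR
    set w : V := ρ t⁻¹ v with hw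
    have hwj : w ∈ Fl j := hF.pres _ j v hv
    have hvw : v = ρ t w := by
      rw [hw, ← Module.End.mul_apply, ← map_mul, mul_inv_cancel, map_one]
      rfl
    have h1 := hF.raise t ht (j + i) (R w) (ih j w hwj)
    have h2 := ih (j + 1) (ρ t w - w) (hF.raise t ht j w hwj)
    rw [show j + 1 + i = j + i + 1 by ring, map_sub] at h2
    have h3 := Submodule.sub_mem _ h1 h2
    rw [sub_sub_sub_cancel_right, ← hvw] at h3
    exact h3
  | @ds i r _ ih =>
    rw [brep_gmap (SemidirectProduct.inl : A →* MT A α) ((α⁻¹ : MulAut A) : A →* A) _ _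
      (brep_conj' α) r, brep_triple]
    exact hF.pres _ _ _ (ih j _ (hF.pres _ j v hv))

end Pool.H11.FC
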