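import Mathlib

/-! # Free factors of free groups of finite rank

PROOF. `A` and `B` embed in `A * B` (`Monoid.Coprod.inl_injective`), hence in the free group `FreeGroup (Fin n)`; by Nielsen-Schreier (`subgroupIsFreeOfIsFree`, applied to the ranges) they are free:
`A ≃* FreeGroup X`, `B ≃* FreeGroup Y` (`IsFreeGroup.toFreeGroup`). Let `C = Multiplicative (ZMod 2)`. `Hom(FreeGroup X, C) ≃ (X → C)` (`FreeGroup.lift`), `Hom(A * B, C) ≃ Hom(A, C) × Hom(B, C)`
(`Monoid.Coprod.liftEquiv`). So `(Fin n → C) ≃ (X → C) × (Y → C)`; the left side is finite, so `X` and `Y` are finite (`X → C` is infinite if `X` is: it contains the characteristic functions of points), and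
`2 ^ n = 2 ^ |X| * 2 ^ |Y|`, `n = |X| + |Y|`. `FreeGroup X ≃* FreeGroup (Fin |X|)` (`FreeGroup.freeGroupCongr`). -/

set_option autoImplicit false

namespace Pool.H11.FC

private theorem rb_free {A : Type} [Group A] {n : ℕ} (φ : A →* FreeGroup (Fin n))
    (hφ : Function.Injective φ) : ∃ X : Type, Nonempty (A ≃* FreeGroup X) := by
  have h1 : A ≃* φ.range := MonoidHom.ofInjective hφ
  have h2 : IsFreeGroup φ.range := inferInstance
  exact ⟨IsFreeGroup.Generators φ.range, ⟨h1.trans (IsFreeGroup.toFreeGroup φ.range)⟩⟩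

private abbrev rb_C : Type := Multiplicative (ZMod 2)

private noncomputable def rb_congr {G H : Type} [Group G] [Group H] (e : G ≃* H) : (G →* rb_C) ≃ (H →* rb_C) where
  toFun f := f.comp e.symm.toMonoidHom
  invFun f := f.comp e.toMonoidHom
  left_inv f := by
    ext g
    change f (e.symm (e g)) = f g
    rw [e.symm_apply_apply]
  right_inv f := by
    ext g
    change f (e (e.symm g)) = f g
    rw [e.apply_symm_apply]

private theorem rb_finite {X : Type} (h : Finite (X → rb_C)) : Finite X := by
  classical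
  refine Finite.of_injective (fun x : X => (fun y => if y = x then Multiplicative.ofAdd (1 : ZMod 2) else
    Multiplicative.ofAdd (0 : ZMod 2) : X → rb_C)) fun x x' hx => ?_
  have h1 := congrFun hx x
  by_contra hne
  have h2 : (if x = x then Multiplicative.ofAdd (1 : ZMod 2) else Multiplicative.ofAdd (0 : ZMod 2)) =
    if x = x' then Multiplicative.ofAdd (1 : ZMod 2) else Multiplicative.ofAdd (0 : ZMod 2) := h1
  rw [if_pos rfl, if_neg hne] at h2
  have h3 : (1 : ZMod 2) = 0 := Multiplicative.ofAdd.injective h2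
  exact absurd h3 (by decide)

theorem rank_factor {A B : Type} [Group A] [Group B] (n : ℕ)
    (e : FreeGroup (Fin n) ≃* Monoid.Coprod A B) :
    ∃ a b : ℕ, a + b = n ∧ Nonempty (A ≃* FreeGroup (Fin a)) ∧
      Nonempty (B ≃* FreeGroup (Fin b)) := by
  obtain ⟨X, ⟨eX⟩⟩ := rb_free (e.symm.toMonoidHom.comp (Monoid.Coprod.inl : A →* Monoid.Coprod A B))
    (e.symm.injective.comp Monoid.Coprod.inl_injective)
  obtain ⟨Y, ⟨eY⟩⟩ := rb_free (e.symm.toMonoidHom.comp (Monoid.Coprod.inr : B →* Monoid.Coprod A B))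
    (e.symm.injective.comp Monoid.Coprod.inr_injective)
  have E : (Fin n → rb_C) ≃ (X → rb_C) × (Y → rb_C) :=
    (FreeGroup.lift (α := Fin n) (β := rb_C)).trans ((rb_congr e).trans
      ((Monoid.Coprod.liftEquiv (M := A) (N := B) (P := rb_C)).symm.trans
        (Equiv.prodCongr ((rb_congr eX).trans (FreeGroup.lift (α := X) (β := rb_C)).symm)
          ((rb_congr eY).trans (FreeGroup.lift (α := Y) (β := rb_C)).symm))))
  have hfin : Finite ((X → rb_C) × (Y → rb_C)) := Finite.of_equiv _ E
  have hX : Finite X := rb_finite (Finite.prod_left (Y → rb_C))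
  have hY : Finite Y := rb_finite (Finite.prod_right (X → rb_C))
  have hc : Nat.card rb_C = 2 := by
    rw [Nat.card_eq_fintype_card]
    rfl
  have h1 := Nat.card_congr E
  rw [Nat.card_prod, Nat.card_fun, Nat.card_fun, Nat.card_fun, hc, Nat.card_eq_fintype_card (α := Fin n),
    Fintype.card_fin, ← pow_add] at h1
  have h2 : n = Nat.card X + Nat.card Y := Nat.pow_right_injective le_rfl h1
  exact ⟨Nat.card X, Nat.card Y, h2.symm, ⟨eX.trans (FreeGroup.freeGroupCongr (Finite.equivFin X))⟩,
    ⟨eY.trans (FreeGroup.freeGroupCongr (Finite.equivFin Y))⟩⟩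

end Pool.H11.FC
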