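import Pool.Agent.H11.FC.RA
import Pool.Agent.H11.FC.RB
import Pool.Agent.H11.FC.Amal

/-! # Reduction to automorphisms without invariant free splitting

PROOF of `reduction`: strong induction on `n`. If `PowSplit φ` fails use `H`. Otherwise `p > 0`, `g`, `ψ = conj g * φ^p` with `InvSplit ψ`. By `VRTFN_conj` and `VRTFN_of_pow` it suffices to show
`VRTFN (MT _ ψ)`, and by `VRTFN_congr` (with `e`) to show it for the automorphism `ψ' = e ψ e⁻¹` of `A * B` resp. `FP A Unit`.
First case: `rank_factor`: `A ≃* FreeGroup (Fin a)`, `B ≃* FreeGroup (Fin b)`, `a + b = n`, `a, b ≥ 1` since `A`, `B` are nontrivial; so `a, b < n` and the induction hypothesis with `VRTFN_congr` gives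
`VRTFN (MT A α)`, `VRTFN (MT B β)`. `A`, `B` are f.g. `vrtfn_amal`.
Second case: `FP A Unit = Coprod A (FreeGroup Unit)`; `rank_factor`: `a + b = n` with `FreeGroup Unit ≃* FreeGroup (Fin b)`, `b ≠ 0` (nontrivial), so `a < n`; `VRTFN (MT A α)` by induction; `vrtfn_split`
with `ι = Unit`. -/

set_option autoImplicit false

namespace Pool.H11.FC

/-- `φ` preserves a free splitting (with one orbit of edges): `A * B` with both factors nontrivial,
or `A * ⟨x⟩`. -/
def InvSplit {F : Type} [Group F] (φ : MulAut F) : Prop :=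
  (∃ (A B : Type) (_ : Group A) (_ : Group B) (_ : Nontrivial A) (_ : Nontrivial B)
    (e : F ≃* Monoid.Coprod A B) (α : MulAut A) (β : MulAut B) (c : A),
    (∀ a : A, e (φ (e.symm (Monoid.Coprod.inl a))) = Monoid.Coprod.inl (α a)) ∧
    ∀ b : B, e (φ (e.symm (Monoid.Coprod.inr b))) =
      Monoid.Coprod.inl c * Monoid.Coprod.inr (β b) * (Monoid.Coprod.inl c)⁻¹) ∨
  (∃ (A : Type) (_ : Group A) (e : F ≃* FP A Unit) (α : MulAut A) (u v : A) (ε : ℤ),
    (ε = 1 ∨ ε = -1) ∧
    (∀ a : A, e (φ (e.symm (Monoid.Coprod.inl a))) = Monoid.Coprod.inl (α a)) ∧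
    e (φ (e.symm (xx ()))) = Monoid.Coprod.inl u * xx () ^ ε * Monoid.Coprod.inl v)

/-- Some power of `φ` preserves a free splitting, up to an inner automorphism. -/
def PowSplit {F : Type} [Group F] (φ : MulAut F) : Prop :=
  ∃ (p : ℕ) (g : F), 0 < p ∧ InvSplit (MulAut.conj g * φ ^ p)

/-- A factor of rank `a`. -/
private theorem rc_factor {A : Type} [Group A] {a : ℕ} (e : A ≃* FreeGroup (Fin a))
    (α : MulAut A) (ih : ∀ φ : MulAut (FreeGroup (Fin a)), VRTFN (MT (FreeGroup (Fin a)) φ)) :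
    VRTFN (MT A α) := by
  refine VRTFN_congr e.symm ((e.symm.trans α).trans e) α (fun x => ?_) (ih _)
  change e.symm (e (α (e.symm x))) = α (e.symm x)
  rw [MulEquiv.symm_apply_apply]

private theorem rc_ne_zero {A : Type} [Group A] [Nontrivial A] {a : ℕ}
    (e : A ≃* FreeGroup (Fin a)) : a ≠ 0 := by
  rintro rfl
  exact not_subsingleton A e.toEquiv.subsingleton

private theorem rc_fg {A : Type} [Group A] {a : ℕ} (e : A ≃* FreeGroup (Fin a)) : Group.FG A :=
  Group.fg_of_surjective (f := e.symm.toMonoidHom) e.symm.surjective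

theorem reduction
    (H : ∀ (n : ℕ) (φ : MulAut (FreeGroup (Fin n))), ¬ PowSplit φ →
      VRTFN (MT (FreeGroup (Fin n)) φ))
    (n : ℕ) (φ : MulAut (FreeGroup (Fin n))) : VRTFN (MT (FreeGroup (Fin n)) φ) := by
  induction n using Nat.strong_induction_on with
  | _ n ih =>
  by_cases hP : PowSplit φ
  swap
  · exact H n φ hP
  obtain ⟨p, g, hp, hI⟩ := hP
  apply VRTFN_of_pow φ p hp
  apply VRTFN_conj (φ ^ p) g
  rcases hI with ⟨A, B, iA, iB, nA, nB, e, α, β, c, h1, h2⟩ |
    ⟨A, iA, e, α, u, v, ε, hε, h1, h2⟩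
  · obtain ⟨a, b, hab, ⟨eA⟩, ⟨eB⟩⟩ := rank_factor n e
    have ha := rc_ne_zero eA
    have hb := rc_ne_zero eB
    have hA := rc_factor eA α (fun ψ => ih a (by omega) ψ)
    have hB := rc_factor eB β (fun ψ => ih b (by omega) ψ)
    refine VRTFN_congr e.symm ((e.symm.trans (MulAut.conj g * φ ^ p)).trans e) _ (fun x => ?_)
      (vrtfn_amal (rc_fg eA) (rc_fg eB) α β _ c h1 h2 hA hB)
    change e.symm (e ((MulAut.conj g * φ ^ p) (e.symm x))) = _
    rw [MulEquiv.symm_apply_apply]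
  · obtain ⟨a, b, hab, ⟨eA⟩, ⟨eB⟩⟩ := rank_factor n e
    have hb := rc_ne_zero eB
    have hA := rc_factor eA α (fun ψ => ih a (by omega) ψ)
    refine VRTFN_congr e.symm ((e.symm.trans (MulAut.conj g * φ ^ p)).trans e) _ (fun x => ?_)
      (vrtfn_split (rc_fg eA) (ι := Unit) α _ h1 (fun i => ?_) hA)
    · change e.symm (e ((MulAut.conj g * φ ^ p) (e.symm x))) = _
      rw [MulEquiv.symm_apply_apply]
    · exact ⟨u, v, (), ε, hε, h2⟩

end Pool.H11.FC
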