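import Pool.Agent.H11.FC.Ext
import Pool.Agent.H11.FC.Amal
import Pool.Agent.H11.FC.RC

/-! # The reduction in bounded rank; finite generation -/

set_option autoImplicit false

namespace Pool.H11.FC

private theorem bl_factor {A : Type} [Group A] {a : ℕ} (e : A ≃* FreeGroup (Fin a))
    (α : MulAut A) (ih : ∀ φ : MulAut (FreeGroup (Fin a)), VRTFN (MT (FreeGroup (Fin a)) φ)) :
    VRTFN (MT A α) := by
  refine VRTFN_congr e.symm ((e.symm.trans α).trans e) α (fun x => ?_) (ih _)
  change e.symm (e (α (e.symm x))) = α (e.symm x)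
  rw [MulEquiv.symm_apply_apply]

private theorem bl_ne_zero {A : Type} [Group A] [Nontrivial A] {a : ℕ}
    (e : A ≃* FreeGroup (Fin a)) : a ≠ 0 := by
  rintro rfl
  exact not_subsingleton A e.toEquiv.subsingleton

private theorem bl_fg {A : Type} [Group A] {a : ℕ} (e : A ≃* FreeGroup (Fin a)) : Group.FG A :=
  Group.fg_of_surjective (f := e.symm.toMonoidHom) e.symm.surjective

/-- The reduction in rank at most `n`. -/
theorem reduction_le (n : ℕ)
    (H : ∀ m, m ≤ n → ∀ φ : MulAut (FreeGroup (Fin m)), ¬ PowSplit φ →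
      VRTFN (MT (FreeGroup (Fin m)) φ))
    (φ : MulAut (FreeGroup (Fin n))) : VRTFN (MT (FreeGroup (Fin n)) φ) := by
  induction n using Nat.strong_induction_on with
  | _ n ih =>
  by_cases hP : PowSplit φ
  swap
  · exact H n le_rfl φ hP
  have ih' : ∀ m, m < n → ∀ ψ : MulAut (FreeGroup (Fin m)), VRTFN (MT (FreeGroup (Fin m)) ψ) :=
    fun m hm => ih m hm fun k hk => H k (hk.trans hm.le)
  obtain ⟨p, g, hp, hI⟩ := hP
  apply VRTFN_of_pow φ p hp
  apply VRTFN_conj (φ ^ p) g
  rcases hI with ⟨A, B, iA, iB, nA, nB, e, α, β, c, h1, h2⟩ |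
    ⟨A, iA, e, α, u, v, ε, hε, h1, h2⟩
  · obtain ⟨a, b, hab, ⟨eA⟩, ⟨eB⟩⟩ := rank_factor n e
    have ha := bl_ne_zero eA
    have hb := bl_ne_zero eB
    have hA := bl_factor eA α (fun ψ => ih' a (by omega) ψ)
    have hB := bl_factor eB β (fun ψ => ih' b (by omega) ψ)
    refine VRTFN_congr e.symm ((e.symm.trans (MulAut.conj g * φ ^ p)).trans e) _ (fun x => ?_)
      (vrtfn_amal (bl_fg eA) (bl_fg eB) α β _ c h1 h2 hA hB)
    change e.symm (e ((MulAut.conj g * φ ^ p) (e.symm x))) = _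
    rw [MulEquiv.symm_apply_apply]
  · obtain ⟨a, b, hab, ⟨eA⟩, ⟨eB⟩⟩ := rank_factor n e
    have hb := bl_ne_zero eB
    have hA := bl_factor eA α (fun ψ => ih' a (by omega) ψ)
    refine VRTFN_congr e.symm ((e.symm.trans (MulAut.conj g * φ ^ p)).trans e) _ (fun x => ?_)
      (vrtfn_split (bl_fg eA) (ι := Unit) α _ h1 (fun i => ?_) hA)
    · change e.symm (e ((MulAut.conj g * φ ^ p) (e.symm x))) = _
      rw [MulEquiv.symm_apply_apply]
    · exact ⟨u, v, (), ε, hε, h2⟩

/-- Free products of finitely generated groups are finitely generated. -/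
theorem fg_coprod {A B : Type} [Group A] [Group B] (hA : Group.FG A) (hB : Group.FG B) :
    Group.FG (Monoid.Coprod A B) := by
  obtain ⟨S, hS⟩ := Group.fg_def.1 hA
  obtain ⟨T, hT⟩ := Group.fg_def.1 hB
  classical
  refine Group.fg_def.2 ⟨S.image Monoid.Coprod.inl ∪ T.image Monoid.Coprod.inr, ?_⟩
  rw [Finset.coe_union, Finset.coe_image, Finset.coe_image, Subgroup.closure_union]
  have h1 : Subgroup.closure ((Monoid.Coprod.inl : A →* Monoid.Coprod A B) '' (S : Set A)) =
      (Monoid.Coprod.inl : A →* Monoid.Coprod A B).range := by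
    rw [← MonoidHom.map_closure, hS, MonoidHom.range_eq_map]
  have h2 : Subgroup.closure ((Monoid.Coprod.inr : B →* Monoid.Coprod A B) '' (T : Set B)) =
      (Monoid.Coprod.inr : B →* Monoid.Coprod A B).range := by
    rw [← MonoidHom.map_closure, hT, MonoidHom.range_eq_map]
  rw [h1, h2]
  exact Monoid.Coprod.range_inl_sup_range_inr

end Pool.H11.FC
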