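import Pool.Agent.H11.FC.Quot
import Pool.Agent.H11.FC.AugRep

/-! # Nilpotence of `φ - 1` on graded pieces: the Leibniz rule

`D = DD φ`, `D r = gmap φ r - r`. `D (r s) = D r * s + r * D s + D r * D s`. `D` preserves `C.C i` (`hφ`).
PROOF of `dnil_mul`: induction on `a + b`. If `D r ∈ C (i+1)` (case `a = 0`) and `D s ∈ C (j+1)` (case `b = 0`) clear. In general
`D^{a+b+1} (r s) = D^{a+b} (D r * s + r * D s + D r * D s)`:
* the terms with `D r`: if `a = 0` then `D r ∈ C (i+1)`, so `D r * s`, `D r * D s ∈ C (i+j+1)`, stable under `D`; if `a = a' + 1` apply the induction hypothesis to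
  `(D r, s)` with `(a', b)`: `D^{a'+b+1} = D^{a+b}`; for `(D r, D s)`: if `b = 0` it is in `C (i+j+1)`, else the induction hypothesis with `(a', b')` and one more `D`.
* `r * D s`: if `b = 0` it is in `C (i+j+1)`; if `b = b' + 1` the induction hypothesis for `(r, D s)` with `(a, b')`.
PROOF of `dnil_aug`: for `g : G`, `δ g = φ g * g⁻¹`: `D (gr g - 1) = gr (φ g) - gr g = (gr (δ g) - 1) * gr g ≡ gr (δ g) - 1` mod `Aug 2`. So
`D^e (gr g - 1) - (gr (δ^[e] g) - 1) ∈ Aug 2` (induction on `e`, `D` preserves `Aug 2`), hence `D^e (gr g - 1) ∈ Aug 2`. Then by induction on `Aug`: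
`top`: `D r ∈ Aug 1` for all `r` (linear in `r`, `D (gr g) = (gr (δ g) - 1) * gr g`); `gen`: above; `mul`: `dnil_mul` with `a = e * i`, `b = e * j`
(for the filtration of `exists_augFilt`); `add`, `zero` clear; `mono`: `r ∈ Aug (i+1)` and `D` preserves it. -/

set_option autoImplicit false

namespace Pool.H11.FC

private theorem dnil_DD_apply {F : Type} [Group F] (φ : MulAut F) (r : QA F) :
    (DD φ) r = gmap (φ : F →* F) r - r := by
  simp [DD]

private theorem dnil_leib {F : Type} [Group F] (φ : MulAut F) (r s : QA F) :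
    (DD φ) (r * s) = (DD φ) r * s + r * (DD φ) s + (DD φ) r * (DD φ) s := by
  simp only [dnil_DD_apply, map_mul]
  noncomm_ring

private theorem dnil_stab {F : Type} [Group F] (φ : MulAut F) (C : Filt (QA F))
    (hφ : ∀ (i : ℕ) (r : QA F), r ∈ C.C i → gmap (φ : F →* F) r ∈ C.C i)
    {i : ℕ} {r : QA F} (hr : r ∈ C.C i) (n : ℕ) : ((DD φ) ^ n) r ∈ C.C i := by
  induction n generalizing r with
  | zero => simpa using hr
  | succ n ih =>
    rw [pow_succ, Module.End.mul_apply]
    apply ih
    rw [dnil_DD_apply]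
    exact (C.C i).sub_mem (hφ i r hr) hr

private theorem dnil_mul_aux {F : Type} [Group F] (φ : MulAut F) (C : Filt (QA F))
    (hφ : ∀ (i : ℕ) (r : QA F), r ∈ C.C i → gmap (φ : F →* F) r ∈ C.C i)
    {i j : ℕ} (n : ℕ) : ∀ {a b : ℕ} {r s : QA F}, a + b = n → r ∈ C.C i →
      ((DD φ) ^ (a + 1)) r ∈ C.C (i + 1) → s ∈ C.C j → ((DD φ) ^ (b + 1)) s ∈ C.C (j + 1) →
    ((DD φ) ^ (a + b + 1)) (r * s) ∈ C.C (i + j + 1) := by
  induction n using Nat.strong_induction_on with
  | _ n ih =>
    intro a b r s hab hr hra hs hsb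
    have hDr : (DD φ) r ∈ C.C i := by simpa using dnil_stab φ C hφ hr 1
    have hDs : (DD φ) s ∈ C.C j := by simpa using dnil_stab φ C hφ hs 1
    rw [pow_succ, Module.End.mul_apply, dnil_leib, map_add, map_add]
    refine (C.C (i + j + 1)).add_mem ((C.C (i + j + 1)).add_mem ?_ ?_) ?_
    · rcases a with _ | a
      · have h1 : (DD φ) r ∈ C.C (i + 1) := by simpa using hra
        have h2 : (DD φ) r * s ∈ C.C (i + j + 1) := by
          have := C.mul h1 hs
          have e : i + 1 + j = i + j + 1 := by omega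
          rwa [e] at this
        exact dnil_stab φ C hφ h2 _
      · have h1 : ((DD φ) ^ (a + 1)) ((DD φ) r) ∈ C.C (i + 1) := by
          rw [← Module.End.mul_apply, ← pow_succ]; exact hra
        have h2 := ih (a + b) (by omega) rfl hDr h1 hs hsb
        have e : a + 1 + b = a + b + 1 := by omega
        rw [e]; exact h2
    · rcases b with _ | b
      · have h1 : (DD φ) s ∈ C.C (j + 1) := by simpa using hsb
        have h2 : r * (DD φ) s ∈ C.C (i + j + 1) := by
          have := C.mul hr h1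
          have e : i + (j + 1) = i + j + 1 := by omega
          rwa [e] at this
        exact dnil_stab φ C hφ h2 _
      · have h1 : ((DD φ) ^ (b + 1)) ((DD φ) s) ∈ C.C (j + 1) := by
          rw [← Module.End.mul_apply, ← pow_succ]; exact hsb
        have h2 := ih (a + b) (by omega) rfl hr hra hDs h1
        have e : a + (b + 1) = a + b + 1 := by omega
        rw [e]; exact h2
    · rcases a with _ | a
      · have h1 : (DD φ) r ∈ C.C (i + 1) := by simpa using hra
        have h2 : (DD φ) r * (DD φ) s ∈ C.C (i + j + 1) := by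
          have := C.mul h1 hDs
          have e : i + 1 + j = i + j + 1 := by omega
          rwa [e] at this
        exact dnil_stab φ C hφ h2 _
      · rcases b with _ | b
        · have h1 : (DD φ) s ∈ C.C (j + 1) := by simpa using hsb
          have h2 : (DD φ) r * (DD φ) s ∈ C.C (i + j + 1) := by
            have := C.mul hDr h1
            have e : i + (j + 1) = i + j + 1 := by omega
            rwa [e] at this
          exact dnil_stab φ C hφ h2 _
        · have h1 : ((DD φ) ^ (a + 1)) ((DD φ) r) ∈ C.C (i + 1) := by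
            rw [← Module.End.mul_apply, ← pow_succ]; exact hra
          have h1' : ((DD φ) ^ (b + 1)) ((DD φ) s) ∈ C.C (j + 1) := by
            rw [← Module.End.mul_apply, ← pow_succ]; exact hsb
          have h2 := ih (a + b) (by omega) rfl hDr h1 hDs h1'
          have e : a + 1 + (b + 1) = 1 + (a + b + 1) := by omega
          rw [e, pow_add, Module.End.mul_apply]
          exact dnil_stab φ C hφ h2 1

theorem dnil_mul {F : Type} [Group F] (φ : MulAut F) (C : Filt (QA F))
    (hφ : ∀ (i : ℕ) (r : QA F), r ∈ C.C i → gmap (φ : F →* F) r ∈ C.C i)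
    {i j a b : ℕ} {r s : QA F} (hr : r ∈ C.C i) (hra : ((DD φ) ^ (a + 1)) r ∈ C.C (i + 1))
    (hs : s ∈ C.C j) (hsb : ((DD φ) ^ (b + 1)) s ∈ C.C (j + 1)) :
    ((DD φ) ^ (a + b + 1)) (r * s) ∈ C.C (i + j + 1) :=
  dnil_mul_aux φ C hφ (a + b) rfl hr hra hs hsb

private theorem dnil_step {G : Type} [Group G] (φ : MulAut G) (g : G) :
    (DD φ) (gr g - 1) = (gr (φ g * g⁻¹) - 1) + (gr (φ g * g⁻¹) - 1) * (gr g - 1) := by
  have h1 : (gr (φ g * g⁻¹) : QA G) * gr g = gr (φ g) := by
    rw [← map_mul]; simp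
  have h2 : gmap (φ : G →* G) (gr g) = gr (φ g) := by
    rw [gmap_gr]; rfl
  rw [dnil_DD_apply, map_sub, map_one, h2]
  have : (gr (φ g * g⁻¹) - 1 : QA G) + (gr (φ g * g⁻¹) - 1) * (gr g - 1)
      = gr (φ g * g⁻¹) * gr g - gr g := by noncomm_ring
  rw [this, h1]
  abel

theorem dnil_aug {G : Type} [Group G] (φ : MulAut G) (e : ℕ)
    (he : ∀ g : G, (fun x => φ x * x⁻¹)^[e] g = 1) (j : ℕ) (r : QA G) (hr : Aug G j r) :
    Aug G (j + 1) (((DD φ) ^ (e * j + 1)) r) := by
  obtain ⟨C, hC⟩ := exists_augFilt G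
  have hφ : ∀ (i : ℕ) (r : QA G), r ∈ C.C i → gmap (φ : G →* G) r ∈ C.C i := by
    intro i r hr
    rw [hC] at hr ⊢
    exact aug_map _ hr
  have hgen : ∀ g : G, (gr g - 1 : QA G) ∈ C.C 1 := fun g => (hC _ _).2 (Aug.gen g)
  have hpow : ∀ (n : ℕ) (g : G),
      ((DD φ) ^ n) (gr g - 1) - (gr ((fun x => φ x * x⁻¹)^[n] g) - 1) ∈ C.C 2 := by
    intro n
    induction n with
    | zero => intro g; simp
    | succ n ih =>
      intro g
      rw [pow_succ', Module.End.mul_apply, Function.iterate_succ', Function.comp_apply]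
      have h1 := ih g
      set y : G := (fun x => φ x * x⁻¹)^[n] g with hy
      have h2 : (DD φ) (((DD φ) ^ n) (gr g - 1)) - (gr (φ y * y⁻¹) - 1)
          = (DD φ) (((DD φ) ^ n) (gr g - 1) - (gr y - 1))
            + (gr (φ y * y⁻¹) - 1) * (gr y - 1) := by
        rw [map_sub (DD φ) (((DD φ) ^ n) (gr g - 1)) (gr y - 1), dnil_step]
        abel
      show (DD φ) (((DD φ) ^ n) (gr g - 1)) - (gr (φ y * y⁻¹) - 1) ∈ C.C 2
      rw [h2]
      refine (C.C 2).add_mem ?_ ?_
      · simpa using dnil_stab φ C hφ h1 1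
      · exact C.mul (hgen _) (hgen _)
  rw [← hC]
  induction hr with
  | top r =>
    have h0 : ∀ r : QA G, (DD φ) r ∈ C.C 1 := by
      intro r
      have hlin : ∀ g : G, (DD φ) (gr g) ∈ C.C 1 := by
        intro g
        have e1 : (DD φ) (gr g) = (DD φ) (gr g - 1) := by
          rw [map_sub]
          have : (DD φ) (1 : QA G) = 0 := by rw [dnil_DD_apply]; simp
          rw [this, sub_zero]
        rw [e1, dnil_step]
        refine (C.C 1).add_mem (hgen _) ?_
        exact C.anti (by norm_num : (1:ℕ) ≤ 1 + 1) (C.mul (hgen _) (hgen _))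
      induction r using MonoidAlgebra.induction_on with
      | of g => exact hlin g
      | add a b ha hb => rw [map_add]; exact (C.C 1).add_mem ha hb
      | smul c a ha => rw [map_smul]; exact (C.C 1).smul_mem c ha
    simpa using h0 r
  | gen g =>
    have h1 := hpow e g
    have h10 : (gr (1 : G) : QA G) - 1 = 0 := by
      have : (gr (1 : G) : QA G) = 1 := map_one (MonoidAlgebra.of ℚ G)
      rw [this, sub_self]
    rw [he g, h10, sub_zero] at h1
    have h2 : e * 1 + 1 = 1 + e := by omega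
    rw [h2, pow_add, Module.End.mul_apply]
    exact dnil_stab φ C hφ h1 1
  | @mul i j r s hr hs ihr ihs =>
    have h := dnil_mul φ C hφ ((hC _ _).2 hr) ihr ((hC _ _).2 hs) ihs
    have e1 : e * (i + j) + 1 = e * i + e * j + 1 := by ring
    rw [e1]; exact h
  | @add i r s hr hs ihr ihs =>
    rw [map_add]; exact (C.C _).add_mem ihr ihs
  | zero i => rw [map_zero]; exact (C.C _).zero_mem
  | @mono i r hr ihr => exact dnil_stab φ C hφ ((hC _ _).2 hr) _

end Pool.H11.FC
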