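import Pool.Agent.H11.FC.CGS
import Pool.Agent.H11.FC.DNil

/-! # `φ - 1` is nilpotent on the graded pieces of `CG`

Let `C` be the filtration of `exists_cgFilt`, `D = DD φ`, `H = (th ι N).ker` (normal, `φ H = H` by `th_comp`), `δ h = φ h * h⁻¹`.
STEP 1 (`cg_relS`): `s ∈ relS ι N → D (gr s - 1) ∈ C 2`. Let `Y = {h ∈ H | D (gr h - 1) ∈ C 2}`. `Y` is a subgroup: `gr (hh') - 1 = (gr h - 1) + (gr h' - 1) + (gr h - 1)(gr h' - 1)`,
the product is in `C 2` and `D` preserves `C 2` (`cg_stable`); inverse: `gr h⁻¹ - 1 = -(gr h - 1) - (gr h⁻¹ - 1)(gr h - 1)`. `Y` contains `⁅H, H⁆`: for `s = ⁅h,h'⁆`,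
`gr s - 1 = ((gr h - 1)(gr h' - 1) - (gr h' - 1)(gr h - 1)) gr (h⁻¹ h'⁻¹) ∈ C 2`. `Y` contains all `f * inl n * f⁻¹`, `n ∈ N`: it is in `H`, and
`D (gr f * r * gr f⁻¹)` with `r = gmap inl (gr n - 1) ∈ C 1`: `= gr (φ f) * gmap φ r * gr (φ f⁻¹) - gr f * r * gr f⁻¹`, where `gr (φ f) - gr f = (gr (φ f * f⁻¹) - 1) gr f ∈ C 1` since
`φ f * f⁻¹ ∈ H` (`th_comp`), same for `f⁻¹`, and `gmap φ r - r = gmap inl (gmap α b - b)`, `b = gr n - 1 ∈ BG 1`, is in `C 2` (`BG.dd`, `CG.a`). So `D (...) ∈ C 2`. Hence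
`relS ι N ≤ Y` (`Subgroup.normalClosure_le_normal`/`normalClosure` = closure of conjugates; `relS ≤ H`).
STEP 2: for `h ∈ H`, `D (gr h - 1) = (gr (δ h) - 1) gr h ≡ gr (δ h) - 1` mod `C 2` (`δ h ∈ H`). So `D^e (gr h - 1) ≡ gr (δ^[e] h) - 1` mod `C 2`, and `D^{e+1} (gr h - 1) ∈ C 2` by `he`
and Step 1.
STEP 3: induction on `CG`: `CG j r → D^{(e+1) j + 1} r ∈ C (j+1)`. `top`: `D r ∈ C 1`: linear in `r`, for `r = gr f`: `(gr (φ f * f⁻¹) - 1) gr f`, `cg_ker`. `a`: `D (gmap inl b) =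
gmap inl (gmap α b - b) ∈ C (i+1)`, then `D` preserves. `x`: Step 2 with `xx i ∈ H`. `mul`: `dnil_mul` with `a = (e+1) i`, `b = (e+1) j`. `mono`: `D` preserves `C (i+1)`. -/

set_option autoImplicit false

namespace Pool.H11.FC

section

variable {A : Type} [Group A] {ι : Type} (N : Subgroup A) [N.Normal] (α : MulAut A)

private theorem cgd_DD_apply {G : Type} [Group G] (φ : MulAut G) (r : QA G) :
    (DD φ) r = gmap (φ : G →* G) r - r := rfl

private theorem cgd_gr_mul {G : Type} [Group G] (g h : G) :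
    (gr (g * h) : QA G) = gr g * gr h := map_mul (MonoidAlgebra.of ℚ G) g h

private theorem cgd_gr_one {G : Type} [Group G] : (gr (1 : G) : QA G) = 1 :=
  map_one (MonoidAlgebra.of ℚ G)

/-- `D` preserves the filtration. -/
private theorem cgd_D (hα : ∀ a, α a * a⁻¹ ∈ N) (φ : MulAut (FP A ι))
    (hφ : ∀ a : A, φ (Monoid.Coprod.inl a) = Monoid.Coprod.inl (α a))
    (hx : ∀ i : ι, th ι N (φ (xx i)) = 1) (C : Filt (QA (FP A ι)))
    (hC : ∀ (i : ℕ) (r : QA (FP A ι)), r ∈ C.C i ↔ CG N α i r) {i : ℕ} {r : QA (FP A ι)}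
    (hr : r ∈ C.C i) : (DD φ) r ∈ C.C i := by
  rw [cgd_DD_apply]
  apply Submodule.sub_mem _ _ hr
  rw [hC] at hr ⊢
  exact cg_stable N α hα φ hφ hx hr

private theorem cgd_Dn (hα : ∀ a, α a * a⁻¹ ∈ N) (φ : MulAut (FP A ι))
    (hφ : ∀ a : A, φ (Monoid.Coprod.inl a) = Monoid.Coprod.inl (α a))
    (hx : ∀ i : ι, th ι N (φ (xx i)) = 1) (C : Filt (QA (FP A ι)))
    (hC : ∀ (i : ℕ) (r : QA (FP A ι)), r ∈ C.C i ↔ CG N α i r) {i : ℕ} {r : QA (FP A ι)}
    (hr : r ∈ C.C i) (n : ℕ) : ((DD φ) ^ n) r ∈ C.C i := by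
  induction n with
  | zero => exact hr
  | succ n ih =>
    rw [pow_succ']
    exact cgd_D N α hα φ hφ hx C hC ih

private theorem cgd_ker (C : Filt (QA (FP A ι)))
    (hC : ∀ (i : ℕ) (r : QA (FP A ι)), r ∈ C.C i ↔ CG N α i r) {h : FP A ι}
    (hh : h ∈ (th ι N).ker) : (gr h - 1 : QA (FP A ι)) ∈ C.C 1 := by
  rw [hC]
  exact cg_ker N α h hh

/-- `gr (φ c) - gr c` is in the first step. -/
private theorem cgd_sub (hα : ∀ a, α a * a⁻¹ ∈ N) (φ : MulAut (FP A ι))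
    (hφ : ∀ a : A, φ (Monoid.Coprod.inl a) = Monoid.Coprod.inl (α a))
    (hx : ∀ i : ι, th ι N (φ (xx i)) = 1) (C : Filt (QA (FP A ι)))
    (hC : ∀ (i : ℕ) (r : QA (FP A ι)), r ∈ C.C i ↔ CG N α i r) (c : FP A ι) :
    φ c * c⁻¹ ∈ (th ι N).ker ∧ (gr (φ c) - gr c : QA (FP A ι)) ∈ C.C 1 := by
  have h1 : φ c * c⁻¹ ∈ (th ι N).ker := by
    rw [MonoidHom.mem_ker, map_mul, map_inv, th_comp N α hα φ hφ hx c, mul_inv_cancel]
  refine ⟨h1, ?_⟩
  have h2 : (gr (φ c) - gr c : QA (FP A ι)) = (gr (φ c * c⁻¹) - 1) * gr c := by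
    rw [sub_mul, one_mul, ← cgd_gr_mul, inv_mul_cancel_right]
  rw [h2]
  have h3 := C.mul (cgd_ker N α C hC h1) (s := gr c) (j := 0) (by rw [C.top]; exact Submodule.mem_top)
  exact h3

private theorem cgd_mul0 {R : Type} [Ring R] [Algebra ℚ R] (C : Filt R) {i : ℕ} {r : R}
    (hr : r ∈ C.C i) (s : R) : r * s ∈ C.C i :=
  C.mul (j := 0) hr (by rw [C.top]; exact Submodule.mem_top)

private theorem cgd_0mul {R : Type} [Ring R] [Algebra ℚ R] (C : Filt R) {i : ℕ} {r : R}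
    (hr : r ∈ C.C i) (s : R) : s * r ∈ C.C i := by
  have h := C.mul (i := 0) (r := s) (by rw [C.top]; exact Submodule.mem_top) hr
  rwa [zero_add] at h

/-- The subgroup of the elements of the kernel with `D (gr h - 1)` in the second step. -/
private def cgd_Y (hα : ∀ a, α a * a⁻¹ ∈ N) (φ : MulAut (FP A ι))
    (hφ : ∀ a : A, φ (Monoid.Coprod.inl a) = Monoid.Coprod.inl (α a))
    (hx : ∀ i : ι, th ι N (φ (xx i)) = 1) (C : Filt (QA (FP A ι)))
    (hC : ∀ (i : ℕ) (r : QA (FP A ι)), r ∈ C.C i ↔ CG N α i r) : Subgroup (FP A ι) where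
  carrier := {h | h ∈ (th ι N).ker ∧ (DD φ) (gr h - 1) ∈ C.C 2}
  mul_mem' := by
    intro a b ha hb
    refine ⟨(th ι N).ker.mul_mem ha.1 hb.1, ?_⟩
    have h1 : (gr (a * b) - 1 : QA (FP A ι)) =
        (gr a - 1) + (gr b - 1) + (gr a - 1) * (gr b - 1) := by
      rw [cgd_gr_mul]
      noncomm_ring
    rw [h1, map_add, map_add]
    exact Submodule.add_mem _ (Submodule.add_mem _ ha.2 hb.2)
      (cgd_D N α hα φ hφ hx C hC (C.mul (cgd_ker N α C hC ha.1) (cgd_ker N α C hC hb.1)))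
  one_mem' := by
    refine ⟨(th ι N).ker.one_mem, ?_⟩
    rw [cgd_gr_one, sub_self, map_zero]
    exact Submodule.zero_mem _
  inv_mem' := by
    intro a ha
    refine ⟨(th ι N).ker.inv_mem ha.1, ?_⟩
    have h2 : (gr a⁻¹ * gr a : QA (FP A ι)) = 1 := by
      rw [← cgd_gr_mul, inv_mul_cancel, cgd_gr_one]
    have h1 : (gr a⁻¹ - 1 : QA (FP A ι)) =
        -(gr a - 1) - (gr a⁻¹ - 1) * (gr a - 1) := by
      have h3 : (gr a⁻¹ - 1 : QA (FP A ι)) * (gr a - 1) = gr a⁻¹ * gr a - gr a⁻¹ - gr a + 1 := by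
        noncomm_ring
      rw [h3, h2]
      abel
    rw [h1, map_sub, map_neg]
    exact Submodule.sub_mem _ (Submodule.neg_mem _ ha.2)
      (cgd_D N α hα φ hφ hx C hC
        (C.mul (cgd_ker N α C hC ((th ι N).ker.inv_mem ha.1)) (cgd_ker N α C hC ha.1)))

open scoped commutatorElement in
private theorem cgd_relS (hα : ∀ a, α a * a⁻¹ ∈ N) (φ : MulAut (FP A ι))
    (hφ : ∀ a : A, φ (Monoid.Coprod.inl a) = Monoid.Coprod.inl (α a))
    (hx : ∀ i : ι, th ι N (φ (xx i)) = 1) (C : Filt (QA (FP A ι)))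
    (hC : ∀ (i : ℕ) (r : QA (FP A ι)), r ∈ C.C i ↔ CG N α i r) :
    relS ι N ≤ cgd_Y N α hα φ hφ hx C hC := by
  unfold relS
  refine sup_le ?_ ?_
  · rw [Subgroup.commutator_le]
    intro h hh h' hh'
    have hs : ⁅h, h'⁆ ∈ (th ι N).ker := by
      rw [MonoidHom.mem_ker, map_commutatorElement, MonoidHom.mem_ker.mp hh,
        MonoidHom.mem_ker.mp hh']
      simp
    refine ⟨hs, ?_⟩
    apply cgd_D N α hα φ hφ hx C hC
    have h1 : (gr ⁅h, h'⁆ - 1 : QA (FP A ι)) =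
        ((gr h - 1) * (gr h' - 1) - (gr h' - 1) * (gr h - 1)) * gr (h⁻¹ * h'⁻¹) := by
      have h2 : ((gr h - 1) * (gr h' - 1) - (gr h' - 1) * (gr h - 1) : QA (FP A ι)) =
          gr h * gr h' - gr h' * gr h := by
        noncomm_ring
      rw [h2, sub_mul, ← cgd_gr_mul, ← cgd_gr_mul, ← cgd_gr_mul, ← cgd_gr_mul]
      have h3 : h' * h * (h⁻¹ * h'⁻¹) = 1 := by group
      have h4 : h * h' * (h⁻¹ * h'⁻¹) = ⁅h, h'⁆ := by
        rw [commutatorElement_def]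
        group
      rw [h3, h4, cgd_gr_one]
    rw [h1]
    apply cgd_mul0
    have k1 := cgd_ker N α C hC hh
    have k2 := cgd_ker N α C hC hh'
    exact Submodule.sub_mem _ (C.mul k1 k2) (C.mul k2 k1)
  · unfold Subgroup.normalClosure
    rw [Subgroup.closure_le]
    intro x hxx
    rw [Group.mem_conjugatesOfSet_iff] at hxx
    obtain ⟨y, ⟨n, hn, rfl⟩, hconj⟩ := hxx
    rw [isConj_iff] at hconj
    obtain ⟨c, rfl⟩ := hconj
    have hker : (Monoid.Coprod.inl n : FP A ι) ∈ (th ι N).ker := by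
      rw [MonoidHom.mem_ker]
      have : th ι N (Monoid.Coprod.inl n) = QuotientGroup.mk' N n := by
        unfold th
        rw [Monoid.Coprod.lift_apply_inl]
      rw [this]
      exact (QuotientGroup.eq_one_iff n).mpr hn
    refine ⟨(inferInstance : (th ι N).ker.Normal).conj_mem _ hker c, ?_⟩
    set b : QA A := gr n - 1 with hb
    have hbB : BG N α 1 b := BG.gen n hn
    set r : QA (FP A ι) := gmap (Monoid.Coprod.inl : A →* FP A ι) b with hr
    have hr' : r = gr (Monoid.Coprod.inl n) - 1 := by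
      rw [hr, hb, map_sub, map_one, gmap_gr]
    have hrC : r ∈ C.C 1 := by
      rw [hC]
      exact CG.a hbB
    have h1 : (gr (c * Monoid.Coprod.inl n * c⁻¹) - 1 : QA (FP A ι)) = gr c * r * gr c⁻¹ := by
      rw [hr', mul_sub, mul_one, sub_mul, ← cgd_gr_mul, ← cgd_gr_mul, ← cgd_gr_mul, mul_inv_cancel,
        cgd_gr_one]
    have h2 : gmap (φ : FP A ι →* FP A ι) r - r =
        gmap (Monoid.Coprod.inl : A →* FP A ι) (gmap (α : A →* A) b - b) := by
      have h2' : gmap (Monoid.Coprod.inl : A →* FP A ι) (gmap (α : A →* A) b - b) =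
          gmap (Monoid.Coprod.inl : A →* FP A ι) (gmap (α : A →* A) b) -
            gmap (Monoid.Coprod.inl : A →* FP A ι) b := map_sub _ _ _
      rw [h2', hr, gmap_comp, gmap_comp]
      congr 2
      congr 1
      ext a
      exact hφ a
    have h3 : gmap (φ : FP A ι →* FP A ι) r - r ∈ C.C 2 := by
      rw [h2, hC]
      exact CG.a (BG.dd hbB)
    have h4 : gmap (φ : FP A ι →* FP A ι) r ∈ C.C 1 := by
      rw [hC] at hrC ⊢
      exact cg_stable N α hα φ hφ hx hrC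
    have h5 : (DD φ) (gr (c * Monoid.Coprod.inl n * c⁻¹) - 1) =
        (gr (φ c) - gr c) * gmap (φ : FP A ι →* FP A ι) r * gr (φ c⁻¹) +
          gr c * (gmap (φ : FP A ι →* FP A ι) r - r) * gr (φ c⁻¹) +
          gr c * r * (gr (φ c⁻¹) - gr c⁻¹) := by
      rw [h1, cgd_DD_apply, map_mul, map_mul, gmap_gr, gmap_gr]
      have e1 : ((φ : FP A ι →* FP A ι) c) = φ c := rfl
      have e2 : ((φ : FP A ι →* FP A ι) c⁻¹) = φ c⁻¹ := rfl
      rw [e1, e2]
      noncomm_ring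
    rw [h5]
    have k1 := (cgd_sub N α hα φ hφ hx C hC c).2
    have k2 := (cgd_sub N α hα φ hφ hx C hC c⁻¹).2
    refine Submodule.add_mem _ (Submodule.add_mem _ ?_ ?_) ?_
    · exact cgd_mul0 C (C.mul k1 h4) _
    · exact cgd_mul0 C (cgd_0mul C h3 _) _
    · rw [mul_assoc]
      exact cgd_0mul C (C.mul hrC k2) _

end

theorem cg_relS {A : Type} [Group A] {ι : Type} (N : Subgroup A) [N.Normal] (α : MulAut A)
    (hα : ∀ a, α a * a⁻¹ ∈ N) (φ : MulAut (FP A ι))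
    (hφ : ∀ a : A, φ (Monoid.Coprod.inl a) = Monoid.Coprod.inl (α a))
    (hx : ∀ i : ι, th ι N (φ (xx i)) = 1) (s : FP A ι) (hs : s ∈ relS ι N) :
    CG N α 2 ((DD φ) (gr s - 1)) := by
  obtain ⟨C, hC⟩ := exists_cgFilt ι N α
  rw [← hC]
  exact (cgd_relS N α hα φ hφ hx C hC hs).2

section

variable {A : Type} [Group A] {ι : Type} (N : Subgroup A) [N.Normal] (α : MulAut A)

/-- One step: `D (gr h - 1)` is `gr (δ h) - 1` modulo the second step. -/
private theorem cgd_step (hα : ∀ a, α a * a⁻¹ ∈ N) (φ : MulAut (FP A ι))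
    (hφ : ∀ a : A, φ (Monoid.Coprod.inl a) = Monoid.Coprod.inl (α a))
    (hx : ∀ i : ι, th ι N (φ (xx i)) = 1) (C : Filt (QA (FP A ι)))
    (hC : ∀ (i : ℕ) (r : QA (FP A ι)), r ∈ C.C i ↔ CG N α i r) (h : FP A ι)
    (hh : h ∈ (th ι N).ker) :
    (DD φ) (gr h - 1) - (gr (φ h * h⁻¹) - 1) ∈ C.C 2 := by
  have h1 : (DD φ) (gr h - 1) - (gr (φ h * h⁻¹) - 1) = (gr (φ h * h⁻¹) - 1) * (gr h - 1) := by
    rw [cgd_DD_apply, map_sub, map_one, gmap_gr]
    have e1 : ((φ : FP A ι →* FP A ι) h) = φ h := rfl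
    have e2 : (gr (φ h) : QA (FP A ι)) = gr (φ h * h⁻¹) * gr h := by
      rw [← cgd_gr_mul, inv_mul_cancel_right]
    rw [e1, e2]
    noncomm_ring
  rw [h1]
  exact C.mul (cgd_ker N α C hC (cgd_sub N α hα φ hφ hx C hC h).1) (cgd_ker N α C hC hh)

private theorem cgd_iter (hα : ∀ a, α a * a⁻¹ ∈ N) (φ : MulAut (FP A ι))
    (hφ : ∀ a : A, φ (Monoid.Coprod.inl a) = Monoid.Coprod.inl (α a))
    (hx : ∀ i : ι, th ι N (φ (xx i)) = 1) (C : Filt (QA (FP A ι)))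
    (hC : ∀ (i : ℕ) (r : QA (FP A ι)), r ∈ C.C i ↔ CG N α i r) (e : ℕ) :
    ∀ h : FP A ι, h ∈ (th ι N).ker →
    ((DD φ) ^ e) (gr h - 1) - (gr ((fun x => φ x * x⁻¹)^[e] h) - 1) ∈ C.C 2 := by
  induction e with
  | zero =>
    intro h hh
    have : ((DD φ) ^ 0) (gr h - 1) - (gr ((fun x => φ x * x⁻¹)^[0] h) - 1) = 0 := by
      rw [pow_zero, Function.iterate_zero_apply]
      exact sub_self _
    rw [this]
    exact Submodule.zero_mem _
  | succ e ih =>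
    intro h hh
    have h1 := ih (φ h * h⁻¹) (cgd_sub N α hα φ hφ hx C hC h).1
    have h2 := cgd_Dn N α hα φ hφ hx C hC (cgd_step N α hα φ hφ hx C hC h hh) e
    rw [Function.iterate_succ_apply, pow_succ]
    have h3 := Submodule.add_mem _ h2 h1
    rw [map_sub, sub_add_sub_cancel] at h3
    exact h3

private theorem cgd_last (hα : ∀ a, α a * a⁻¹ ∈ N) (φ : MulAut (FP A ι))
    (hφ : ∀ a : A, φ (Monoid.Coprod.inl a) = Monoid.Coprod.inl (α a))
    (hx : ∀ i : ι, th ι N (φ (xx i)) = 1) (C : Filt (QA (FP A ι)))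
    (hC : ∀ (i : ℕ) (r : QA (FP A ι)), r ∈ C.C i ↔ CG N α i r) (e : ℕ)
    (he : ∀ h ∈ (th ι N).ker, (fun x => φ x * x⁻¹)^[e] h ∈ relS ι N)
    (h : FP A ι) (hh : h ∈ (th ι N).ker) :
    ((DD φ) ^ (e + 1)) (gr h - 1) ∈ C.C 2 := by
  have h1 := cgd_D N α hα φ hφ hx C hC (cgd_iter N α hα φ hφ hx C hC e h hh)
  have h2 := (cgd_relS N α hα φ hφ hx C hC (he h hh)).2
  rw [map_sub] at h1
  have h3 := Submodule.add_mem _ h1 h2
  rw [sub_add_cancel] at h3
  rw [pow_succ']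
  exact h3

private theorem cgd_top (hα : ∀ a, α a * a⁻¹ ∈ N) (φ : MulAut (FP A ι))
    (hφ : ∀ a : A, φ (Monoid.Coprod.inl a) = Monoid.Coprod.inl (α a))
    (hx : ∀ i : ι, th ι N (φ (xx i)) = 1) (C : Filt (QA (FP A ι)))
    (hC : ∀ (i : ℕ) (r : QA (FP A ι)), r ∈ C.C i ↔ CG N α i r) (r : QA (FP A ι)) :
    (DD φ) r ∈ C.C 1 := by
  induction r using MonoidAlgebra.induction_on with
  | of g =>
    rw [cgd_DD_apply]
    have h1 := gmap_gr (φ : FP A ι →* FP A ι) g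
    have h2 := (cgd_sub N α hα φ hφ hx C hC g).2
    rw [h1]
    exact h2
  | add a b ha hb =>
    rw [map_add]
    exact Submodule.add_mem _ ha hb
  | smul c a ha =>
    rw [map_smul]
    exact Submodule.smul_mem _ _ ha

end

theorem cg_dnil {A : Type} [Group A] {ι : Type} (N : Subgroup A) [N.Normal] (α : MulAut A)
    (hα : ∀ a, α a * a⁻¹ ∈ N) (φ : MulAut (FP A ι))
    (hφ : ∀ a : A, φ (Monoid.Coprod.inl a) = Monoid.Coprod.inl (α a))
    (hx : ∀ i : ι, th ι N (φ (xx i)) = 1) (e : ℕ)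
    (he : ∀ h ∈ (th ι N).ker, (fun x => φ x * x⁻¹)^[e] h ∈ relS ι N)
    (j : ℕ) (r : QA (FP A ι)) (hr : CG N α j r) :
    CG N α (j + 1) (((DD φ) ^ ((e + 1) * j + 1)) r) := by
  obtain ⟨C, hC⟩ := exists_cgFilt ι N α
  rw [← hC]
  induction hr with
  | top r =>
    rw [mul_zero, zero_add, pow_one]
    exact cgd_top N α hα φ hφ hx C hC r
  | @a i b hb =>
    rw [pow_succ]
    apply cgd_Dn N α hα φ hφ hx C hC _ ((e + 1) * i)
    have h2 : (DD φ) (gmap (Monoid.Coprod.inl : A →* FP A ι) b) =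
        gmap (Monoid.Coprod.inl : A →* FP A ι) (gmap (α : A →* A) b - b) := by
      rw [cgd_DD_apply, map_sub, gmap_comp, gmap_comp]
      congr 2
      congr 1
      ext a
      exact hφ a
    rw [h2, hC]
    exact CG.a (BG.dd hb)
  | x i =>
    have hk : (xx i : FP A ι) ∈ (th ι N).ker := by
      rw [MonoidHom.mem_ker]
      unfold th xx
      rw [Monoid.Coprod.lift_apply_inr]
      rfl
    have h1 := cgd_last N α hα φ hφ hx C hC e he (xx i) hk
    have h2 := cgd_D N α hα φ hφ hx C hC h1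
    rw [mul_one, pow_succ']
    exact h2
  | @mul i j r s hr hs ihr ihs =>
    have h1 := dnil_mul φ C (fun i r hr => by
      rw [hC] at hr ⊢
      exact cg_stable N α hα φ hφ hx hr) (i := i) (j := j) (a := (e + 1) * i)
      (b := (e + 1) * j) (r := r) (s := s) ((hC _ _).mpr hr) ihr ((hC _ _).mpr hs) ihs
    rw [mul_add]
    exact h1
  | add _ _ iha ihb =>
    rw [map_add]
    exact Submodule.add_mem _ iha ihb
  | zero i =>
    rw [map_zero]
    exact Submodule.zero_mem _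
  | @mono i r h _ =>
    exact cgd_Dn N α hα φ hφ hx C hC ((hC _ _).mpr h) _

end Pool.H11.FC
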