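import Pool.Agent.H11.FC.Quot

/-! # The filtration `CG` of the group algebra of `A * F(ι)`

`exists_cgFilt`: the sets `{r | CG N α i r}` are submodules (scalars: `c • r = (c • 1) * r` with `CG.top`, `CG.mul`, `0 + i = i`; negatives `(-1) • r`), `C 0 = ⊤`, antitone
(`CG.mono`), multiplicative. `exists_bgFilt`: the same for `BG`.
`cg_x_zpow`: `gr (xx i ^ n) - 1 ∈ C 1`, `n : ℤ`: for `xx i`: `CG.x`; inverse: `gr x⁻¹ - 1 = - gr x⁻¹ * (gr x - 1)`; products.
`cg_proj`: let `π : FP A ι →* A` be `Monoid.Coprod.lift (MonoidHom.id A) 1`. For all `f`: `gr f - gr (inl (π f)) ∈ C 1`: the set of such `f` contains `inl a`, `xx i`, is closed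
under products (`gr (f f') - gr (inl (π f)) gr (inl (π f')) = (gr f - gr (inl (π f))) gr f' + gr (inl (π f)) (gr f' - gr (inl (π f')))`) and inverses; use
`Monoid.Coprod.induction_on` and `FreeGroup.induction_on` (or closure arguments).
`cg_ker`: `h ∈ (th ι N).ker`: `th ι N h = QuotientGroup.mk' N (π h)` (equality of homomorphisms, `Monoid.Coprod.hom_ext`, `FreeGroup.ext_hom`), so `π h ∈ N` and
`gr (inl (π h)) - 1 = gmap inl (gr (π h) - 1) ∈ C 1` by `BG.gen`, `CG.a`. -/

set_option autoImplicit false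

namespace Pool.H11.FC

theorem exists_bgFilt {A : Type} [Group A] (N : Subgroup A) (α : MulAut A) :
    ∃ C : Filt (QA A), ∀ (i : ℕ) (r : QA A), r ∈ C.C i ↔ BG N α i r := by
  have hs : ∀ (i : ℕ) (c : ℚ) (r : QA A), BG N α i r → BG N α i (c • r) := by
    intro i c r h
    have h1 := BG.mul (BG.top (N := N) (α := α) (algebraMap ℚ (QA A) c)) h
    rw [zero_add, ← Algebra.smul_def] at h1
    exact h1
  refine ⟨⟨fun i => ⟨⟨⟨{r | BG N α i r}, fun h1 h2 => BG.add h1 h2⟩, BG.zero i⟩,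
    fun c {r} h => hs i c r h⟩, ?_, ?_, fun h1 h2 => BG.mul h1 h2⟩, fun i r => Iff.rfl⟩
  · rw [eq_top_iff]
    intro r _
    exact BG.top r
  · exact antitone_nat_of_succ_le (fun n r h => BG.mono h)

theorem exists_cgFilt {A : Type} [Group A] (ι : Type) (N : Subgroup A) (α : MulAut A) :
    ∃ C : Filt (QA (FP A ι)), ∀ (i : ℕ) (r : QA (FP A ι)), r ∈ C.C i ↔ CG N α i r := by
  have hs : ∀ (i : ℕ) (c : ℚ) (r : QA (FP A ι)), CG N α i r → CG N α i (c • r) := by
    intro i c r h
    have h1 := CG.mul (CG.top (N := N) (α := α) (algebraMap ℚ (QA (FP A ι)) c)) h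
    rw [zero_add, ← Algebra.smul_def] at h1
    exact h1
  refine ⟨⟨fun i => ⟨⟨⟨{r | CG N α i r}, fun h1 h2 => CG.add h1 h2⟩, CG.zero i⟩,
    fun c {r} h => hs i c r h⟩, ?_, ?_, fun h1 h2 => CG.mul h1 h2⟩, fun i r => Iff.rfl⟩
  · rw [eq_top_iff]
    intro r _
    exact CG.top r
  · exact antitone_nat_of_succ_le (fun n r h => CG.mono h)

private theorem cgf_gr_mul {G : Type} [Group G] (g h : G) : (gr (g * h) : QA G) = gr g * gr h :=
  map_mul (MonoidAlgebra.of ℚ G) g h

private theorem cgf_gr_one {G : Type} [Group G] : (gr (1 : G) : QA G) = 1 :=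
  map_one (MonoidAlgebra.of ℚ G)

/-- The subgroup of the `g` with `g - 1` in the first level. -/
private def cgf_K {A : Type} [Group A] (ι : Type) (N : Subgroup A) (α : MulAut A) :
    Subgroup (FP A ι) where
  carrier := {g | CG N α 1 (gr g - 1)}
  one_mem' := by
    have h : (gr (1 : FP A ι)) - 1 = 0 := by rw [cgf_gr_one, sub_self]
    show CG N α 1 (gr (1 : FP A ι) - 1)
    rw [h]
    exact CG.zero 1
  mul_mem' := by
    intro g h hg hh
    have e : (gr (g * h) : QA (FP A ι)) - 1 = gr g * (gr h - 1) + (gr g - 1) := by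
      rw [cgf_gr_mul, mul_sub, mul_one]
      abel
    show CG N α 1 (gr (g * h) - 1)
    rw [e]
    exact CG.add (CG.mul (i := 0) (j := 1) (CG.top _) hh) hg
  inv_mem' := by
    intro g hg
    have e : (gr g⁻¹ : QA (FP A ι)) - 1 = (-gr g⁻¹) * (gr g - 1) := by
      rw [neg_mul, mul_sub, mul_one, ← cgf_gr_mul, inv_mul_cancel, cgf_gr_one]
      abel
    show CG N α 1 (gr g⁻¹ - 1)
    rw [e]
    exact CG.mul (i := 0) (j := 1) (CG.top _) hg

theorem cg_x_zpow {A : Type} [Group A] {ι : Type} (N : Subgroup A) (α : MulAut A) (i : ι) (n : ℤ) :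
    CG N α 1 (gr ((xx i : FP A ι) ^ n) - 1) := by
  have h : (xx i : FP A ι) ∈ cgf_K ι N α := CG.x i
  exact (cgf_K ι N α).zpow_mem h n

private theorem cgf_inr {A : Type} [Group A] {ι : Type} (N : Subgroup A) (α : MulAut A)
    (w : FreeGroup ι) : (Monoid.Coprod.inr w : FP A ι) ∈ cgf_K ι N α := by
  induction w using FreeGroup.induction_on with
  | C1 =>
    rw [map_one]
    exact (cgf_K ι N α).one_mem
  | of i => exact CG.x i
  | inv_of i h =>
    rw [map_inv]
    exact (cgf_K ι N α).inv_mem h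
  | mul x y hx hy =>
    rw [map_mul]
    exact (cgf_K ι N α).mul_mem hx hy

private theorem cgf_proj {A : Type} [Group A] {ι : Type} (N : Subgroup A) (α : MulAut A)
    (f : FP A ι) : CG N α 1 (gr f -
      gr ((Monoid.Coprod.inl : A →* FP A ι)
        ((Monoid.Coprod.lift (MonoidHom.id A) 1 : FP A ι →* A) f))) := by
  induction f using Monoid.Coprod.induction_on with
  | inl a =>
    rw [Monoid.Coprod.lift_apply_inl, MonoidHom.id_apply, sub_self]
    exact CG.zero 1
  | inr w =>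
    rw [Monoid.Coprod.lift_apply_inr, MonoidHom.one_apply, map_one, cgf_gr_one]
    exact cgf_inr N α w
  | mul x y hx hy =>
    rw [map_mul (Monoid.Coprod.lift (MonoidHom.id A) 1 : FP A ι →* A)]
    set p := (Monoid.Coprod.lift (MonoidHom.id A) 1 : FP A ι →* A) x
    set q := (Monoid.Coprod.lift (MonoidHom.id A) 1 : FP A ι →* A) y
    have e : (gr (x * y) : QA (FP A ι)) - gr ((Monoid.Coprod.inl : A →* FP A ι) (p * q)) =
        (gr x - gr ((Monoid.Coprod.inl : A →* FP A ι) p)) * gr y +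
        gr ((Monoid.Coprod.inl : A →* FP A ι) p) *
          (gr y - gr ((Monoid.Coprod.inl : A →* FP A ι) q)) := by
      rw [map_mul, cgf_gr_mul, cgf_gr_mul, sub_mul, mul_sub]
      abel
    rw [e]
    exact CG.add (CG.mul (i := 1) (j := 0) hx (CG.top _)) (CG.mul (i := 0) (j := 1) (CG.top _) hy)

theorem cg_ker {A : Type} [Group A] {ι : Type} (N : Subgroup A) [N.Normal] (α : MulAut A)
    (h : FP A ι) (hh : h ∈ (th ι N).ker) : CG N α 1 (gr h - 1) := by
  have e1 : th ι N = (QuotientGroup.mk' N).comp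
      (Monoid.Coprod.lift (MonoidHom.id A) 1 : FP A ι →* A) := by
    apply Monoid.Coprod.hom_ext
    · ext a
      simp [th]
    · ext a
      simp [th]
  have e2 : (Monoid.Coprod.lift (MonoidHom.id A) 1 : FP A ι →* A) h ∈ N := by
    rw [MonoidHom.mem_ker, e1, MonoidHom.comp_apply] at hh
    exact (QuotientGroup.eq_one_iff _).mp hh
  set p := (Monoid.Coprod.lift (MonoidHom.id A) 1 : FP A ι →* A) h with hp
  have h1 := cgf_proj N α h
  rw [← hp] at h1
  have h2 : CG (ι := ι) N α 1 (gmap (Monoid.Coprod.inl : A →* FP A ι) (gr p - 1)) :=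
    CG.a (BG.gen p e2)
  rw [map_sub, map_one, gmap_gr] at h2
  have e3 : (gr h : QA (FP A ι)) - 1 = (gr h - gr ((Monoid.Coprod.inl : A →* FP A ι) p)) +
      (gr ((Monoid.Coprod.inl : A →* FP A ι) p) - 1) := by abel
  rw [e3]
  exact CG.add h1 h2

end Pool.H11.FC
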