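import Pool.Agent.H11.FC.CGF

/-! # Stability of the filtrations under the automorphism

PROOFS. `bg_alpha`: `gmap α r = (gmap α r - r) + r`, `BG.dd`, `BG.mono`, `BG.add`.
`th_comp`: both sides are homomorphisms `FP A ι →* A ⧸ N`; on `inl a`: `th (φ (inl a)) = mk (α a) = mk a` by `hα` (`α a * a⁻¹ ∈ N`, `N` normal); on `xx i` by `hx`.
`th_comp_inv`: apply `th_comp` to `φ⁻¹ f`.
`cg_stable`: induction on `CG`: `top`; `a`: `gmap φ (gmap inl b) = gmap inl (gmap α b)` (`gmap_comp`, `hφ`), `bg_alpha`; `x`: `gmap φ (gr (xx i) - 1) = gr (φ (xx i)) - 1`,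
`φ (xx i) ∈ (th ι N).ker`, `cg_ker`; the others clear (`gmap` is an algebra map).
`cg_stable_inv`: the same with `φ⁻¹`: `φ⁻¹ (inl a) = inl (α⁻¹ a)`, `BG.ds`, `th (φ⁻¹ (xx i)) = 1` by `th_comp_inv`. -/

set_option autoImplicit false

namespace Pool.H11.FC

theorem bg_alpha {A : Type} [Group A] {N : Subgroup A} {α : MulAut A} {i : ℕ} {r : QA A}
    (h : BG N α i r) : BG N α i (gmap (α : A →* A) r) := by
  have h1 := BG.add (BG.mono (BG.dd h)) h
  rwa [sub_add_cancel] at h1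

theorem th_comp {A : Type} [Group A] {ι : Type} (N : Subgroup A) [N.Normal] (α : MulAut A)
    (hα : ∀ a, α a * a⁻¹ ∈ N) (φ : MulAut (FP A ι))
    (hφ : ∀ a : A, φ (Monoid.Coprod.inl a) = Monoid.Coprod.inl (α a))
    (hx : ∀ i : ι, th ι N (φ (xx i)) = 1) (f : FP A ι) : th ι N (φ f) = th ι N f := by
  have key : (th ι N).comp (φ : FP A ι →* FP A ι) = th ι N := by
    apply Monoid.Coprod.hom_ext
    · ext a
      show th ι N (φ (Monoid.Coprod.inl a)) = th ι N (Monoid.Coprod.inl a)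
      rw [hφ]
      unfold th
      rw [Monoid.Coprod.lift_apply_inl, Monoid.Coprod.lift_apply_inl]
      show (QuotientGroup.mk (α a) : A ⧸ N) = QuotientGroup.mk a
      have h1 := hα a
      rw [QuotientGroup.eq_iff_div_mem, div_eq_mul_inv]
      exact h1
    · ext i
      show th ι N (φ (Monoid.Coprod.inr (FreeGroup.of i))) =
        th ι N (Monoid.Coprod.inr (FreeGroup.of i))
      have h1 := hx i
      unfold xx at h1
      rw [h1]
      unfold th
      rw [Monoid.Coprod.lift_apply_inr]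
      rfl
  exact DFunLike.congr_fun key f

theorem th_comp_inv {A : Type} [Group A] {ι : Type} (N : Subgroup A) [N.Normal] (α : MulAut A)
    (hα : ∀ a, α a * a⁻¹ ∈ N) (φ : MulAut (FP A ι))
    (hφ : ∀ a : A, φ (Monoid.Coprod.inl a) = Monoid.Coprod.inl (α a))
    (hx : ∀ i : ι, th ι N (φ (xx i)) = 1) (f : FP A ι) : th ι N (φ⁻¹ f) = th ι N f := by
  have h1 := th_comp N α hα φ hφ hx (φ⁻¹ f)
  rw [← h1]
  congr 1
  exact MulEquiv.apply_symm_apply φ f

private theorem cgs_gr {A : Type} [Group A] {G : Type} [Group G] (f : A →* G) (g : A) :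
    gmap f (gr g - 1) = gr (f g) - 1 := by
  rw [map_sub, map_one, gmap_gr]

private theorem cgs_aux {A : Type} [Group A] {ι : Type} (N : Subgroup A) [N.Normal]
    (α : MulAut A) (ψ : FP A ι →* FP A ι) (β : A →* A)
    (hβ : ∀ (i : ℕ) (b : QA A), BG N α i b → BG N α i (gmap β b))
    (hψ : ψ.comp Monoid.Coprod.inl = Monoid.Coprod.inl.comp β)
    (hx : ∀ i : ι, th ι N (ψ (xx i)) = 1) {i : ℕ} {r : QA (FP A ι)} (h : CG N α i r) :
    CG N α i (gmap ψ r) := by
  induction h with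
  | top r => exact CG.top _
  | a hb =>
    rw [gmap_comp, hψ, ← gmap_comp]
    exact CG.a (hβ _ _ hb)
  | x i =>
    rw [cgs_gr]
    exact cg_ker N α _ (MonoidHom.mem_ker.mpr (hx i))
  | mul _ _ h1 h2 =>
    rw [map_mul]
    exact CG.mul h1 h2
  | add _ _ h1 h2 =>
    rw [map_add]
    exact CG.add h1 h2
  | zero i =>
    rw [map_zero]
    exact CG.zero i
  | mono _ h1 => exact CG.mono h1

theorem cg_stable {A : Type} [Group A] {ι : Type} (N : Subgroup A) [N.Normal] (α : MulAut A)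
    (hα : ∀ a, α a * a⁻¹ ∈ N) (φ : MulAut (FP A ι))
    (hφ : ∀ a : A, φ (Monoid.Coprod.inl a) = Monoid.Coprod.inl (α a))
    (hx : ∀ i : ι, th ι N (φ (xx i)) = 1) {i : ℕ} {r : QA (FP A ι)} (h : CG N α i r) :
    CG N α i (gmap (φ : FP A ι →* FP A ι) r) := by
  have _ := hα
  apply cgs_aux N α (φ : FP A ι →* FP A ι) (α : A →* A) (fun _ _ hb => bg_alpha hb) ?_ hx h
  ext a
  exact hφ a

theorem cg_stable_inv {A : Type} [Group A] {ι : Type} (N : Subgroup A) [N.Normal] (α : MulAut A)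
    (hα : ∀ a, α a * a⁻¹ ∈ N) (φ : MulAut (FP A ι))
    (hφ : ∀ a : A, φ (Monoid.Coprod.inl a) = Monoid.Coprod.inl (α a))
    (hx : ∀ i : ι, th ι N (φ (xx i)) = 1) {i : ℕ} {r : QA (FP A ι)} (h : CG N α i r) :
    CG N α i (gmap ((φ⁻¹ : MulAut (FP A ι)) : FP A ι →* FP A ι) r) := by
  apply cgs_aux N α ((φ⁻¹ : MulAut (FP A ι)) : FP A ι →* FP A ι) ((α⁻¹ : MulAut A) : A →* A)
    (fun _ _ hb => BG.ds hb) ?_ ?_ h
  · ext a
    show φ⁻¹ (Monoid.Coprod.inl a) = Monoid.Coprod.inl (α⁻¹ a)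
    have h1 : φ (Monoid.Coprod.inl (α⁻¹ a)) = Monoid.Coprod.inl a := by
      rw [hφ]
      congr 1
      exact MulEquiv.apply_symm_apply α a
    rw [← h1]
    exact MulEquiv.symm_apply_apply φ _
  · intro i
    show th ι N (φ⁻¹ (xx i)) = 1
    rw [th_comp_inv N α hα φ hφ hx]
    unfold th xx
    rw [Monoid.Coprod.lift_apply_inr]
    rfl

end Pool.H11.FC
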