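import Mathlib

/-! # The upper central series of a torsion-free nilpotent group is isolated

PROOF of `center_pure`. Suppose `g ∉ center`, so some `y` has `⁅g, y⁆ ≠ 1`. Since `G = upperCentralSeries G n` for some `n` there is a least `i` such that some
`y ∈ upperCentralSeries G i` has `⁅g, y⁆ ≠ 1`; `i ≠ 0`, `i = i' + 1`. Then `z = ⁅g, y⁆ ∈ upperCentralSeries G i'` (as `⁅y, g⁆ ∈` it, inverse), so by minimality
`g` commutes with `z`. `g y g⁻¹ = z y`; hence `g^k y g^{-k} = z^k y` (induction, `g z g⁻¹ = z`). As `g^k` is central `z^k = 1`, so `z = 1`, contradiction.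
PROOF of `upper_pure`. Induction on `i`, for all groups `G`. `i = 0`: `g^k = 1`. `i + 1`: `Q = G ⧸ center G` is nilpotent and torsion-free by `center_pure`
(`q^k = 1` means `g^k ∈ center`), and `upperCentralSeries G (i+1)` is the preimage of `upperCentralSeries Q i`
(`comap_upperCentralSeries_quotient_center`). -/

set_option autoImplicit false

namespace Pool.H11.FC

open scoped commutatorElement

private theorem center_aux {G : Type} [Group G] (g y z : G) (hz : g * y = z * y * g) (hc : g * z = z * g) (k : ℕ) :
    g ^ k * y = z ^ k * y * g ^ k := by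
  induction k with
  | zero => simp
  | succ k ih =>
    have hck : g * z ^ k = z ^ k * g := (Commute.pow_right hc k)
    calc g ^ (k + 1) * y = g * (g ^ k * y) := by rw [pow_succ', mul_assoc]
      _ = g * (z ^ k * y * g ^ k) := by rw [ih]
      _ = (g * z ^ k) * y * g ^ k := by simp only [mul_assoc]
      _ = z ^ k * (g * y) * g ^ k := by rw [hck]; simp only [mul_assoc]
      _ = z ^ k * (z * y * g) * g ^ k := by rw [hz]
      _ = z ^ (k + 1) * y * g ^ (k + 1) := by rw [pow_succ z, pow_succ' g]; simp only [mul_assoc]

theorem center_pure {G : Type} [Group G] (hn : Group.IsNilpotent G)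
    (ht : ∀ g : G, ∀ k : ℕ, 0 < k → g ^ k = 1 → g = 1) (g : G) (k : ℕ) (hk : 0 < k)
    (h : g ^ k ∈ Subgroup.center G) : g ∈ Subgroup.center G := by
  have key : ∀ i : ℕ, ∀ y ∈ Subgroup.upperCentralSeries G i, g * y = y * g := by
    intro i
    induction i with
    | zero =>
      intro y hy
      rw [Subgroup.upperCentralSeries_zero, Subgroup.mem_bot] at hy
      simp [hy]
    | succ i ih =>
      intro y hy
      have h1 : ⁅y, g⁆ ∈ Subgroup.upperCentralSeries G i := Subgroup.mem_upperCentralSeries_succ_iff.mp hy g
      have h2 : ⁅g, y⁆ ∈ Subgroup.upperCentralSeries G i := by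
        rw [← commutatorElement_inv]
        exact inv_mem h1
      have hc := ih _ h2
      have hz : g * y = ⁅g, y⁆ * y * g := by
        rw [commutatorElement_def]
        group
      have h3 := center_aux g y ⁅g, y⁆ hz hc k
      have h4 := (Subgroup.mem_center_iff.mp h) y
      rw [← h4, mul_assoc] at h3
      have h5 : ⁅g, y⁆ ^ k = 1 := by
        have : (1 : G) * (y * g ^ k) = ⁅g, y⁆ ^ k * (y * g ^ k) := by rw [one_mul]; exact h3
        exact (mul_right_cancel this).symm
      have h6 := ht _ k hk h5
      rw [h6, one_mul] at hz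
      exact hz
  obtain ⟨n, hn'⟩ := hn.nilpotent'
  rw [Subgroup.mem_center_iff]
  intro y
  exact (key n y (by rw [hn']; exact Subgroup.mem_top y)).symm

theorem upper_pure {G : Type} [Group G] (hn : Group.IsNilpotent G)
    (ht : ∀ g : G, ∀ k : ℕ, 0 < k → g ^ k = 1 → g = 1) (i : ℕ) (g : G) (k : ℕ) (hk : 0 < k)
    (h : g ^ k ∈ Subgroup.upperCentralSeries G i) : g ∈ Subgroup.upperCentralSeries G i := by
  induction i generalizing G with
  | zero =>
    rw [Subgroup.upperCentralSeries_zero, Subgroup.mem_bot] at h ⊢
    exact ht g k hk h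
  | succ i ih =>
    have hnn := hn
    rw [← Subgroup.comap_upperCentralSeries_quotient_center (G := G) i, Subgroup.mem_comap] at h ⊢
    apply ih (G := G ⧸ Subgroup.center G) inferInstance _ _ (by rw [map_pow] at h; exact h)
    intro q m hm hq
    obtain ⟨a, rfl⟩ := QuotientGroup.mk_surjective q
    rw [← QuotientGroup.mk_pow, QuotientGroup.eq_one_iff] at hq
    rw [QuotientGroup.eq_one_iff]
    exact center_pure hn ht a m hm hq

end Pool.H11.FC
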