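import Pool.Agent.H11.FC.AugRep

/-! # Induced representations separate finite sets

PROOF. Induction on `S` (`Finset.induction`). Empty `S`: `V = ℚ`, trivial representation, `Fl 0 = ⊤`, `Fl i = ⊥` for `i ≥ 1`, `m = 1`.
Single element `g ≠ 1`: a representation `V_g` of `G` with a flag raised by `K` and `NonSc ρ g`:
* if `g ∈ K`: `rep_of_RU hK ⟨g,_⟩` gives `(W, τ, Fl, m)` for `K`, `v` with `τ g v ≠ c • v`. If `g ∉ K`: take `W = ℚ` with the trivial representation of `K`, `m = 1`, `v = 1`.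
* `V = {f : G → W | ∀ k ∈ K, ∀ x, f (k x) = τ k (f x)}` (a submodule of `G → W`), `(ρ x f) y = f (y x)`. `Fl_V i = {f | ∀ x, f x ∈ Fl i}`: antitone, `Fl_V 0 = ⊤`,
  `Fl_V m = ⊥`, preserved by `G`; for `k ∈ K`: `(ρ k f - f) y = f (y k y⁻¹ y) - f y = (τ (y k y⁻¹) - 1) (f y) ∈ Fl (i+1)` (`K` is normal).
* `f₀ x = if x ∈ K then τ x v else 0` is in `V`. If `g ∈ K`: `(ρ g f₀) 1 = τ g v ≠ c • v = (c • f₀) 1`. If `g ∉ K`: `(ρ g f₀) 1 = f₀ g = 0`, so `ρ g f₀ = c • f₀`
  would give `c • v = 0`, `c = 0`, `ρ g f₀ = 0`, but `(ρ g f₀) g⁻¹ = v ≠ 0`.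
Step: `V₁ × V₂` with `Fl i = (Fl₁ i).prod (Fl₂ i)`, `m = max m₁ m₂` (`Fl₁ m = ⊥` for `m ≥ m₁` by antitonicity); `NonSc` for either factor gives `NonSc` for the product. -/

set_option autoImplicit false

namespace Pool.H11.FC

/-- The space of the induced representation. -/
private def ind_V {G W : Type} [Group G] [AddCommGroup W] [Module ℚ W] (K : Subgroup G)
    (τ : Representation ℚ K W) : Submodule ℚ (G → W) where
  carrier := {f | ∀ (k : K) (x : G), f ((k : G) * x) = τ k (f x)}
  add_mem' := by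
    intro a b ha hb k x
    simp only [Pi.add_apply, map_add]
    rw [ha k x, hb k x]
  zero_mem' := by
    intro k x
    simp
  smul_mem' := by
    intro c f hf k x
    simp only [Pi.smul_apply, map_smul]
    rw [hf k x]

/-- The induced representation. -/
private def ind_ρ {G W : Type} [Group G] [AddCommGroup W] [Module ℚ W] (K : Subgroup G)
    (τ : Representation ℚ K W) : Representation ℚ G (ind_V K τ) where
  toFun g :=
    { toFun := fun f => ⟨fun y => f.1 (y * g), fun k x => by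
        have := f.2 k (x * g)
        rw [← mul_assoc] at this
        exact this⟩
      map_add' := fun f f' => rfl
      map_smul' := fun c f => rfl }
  map_one' := by
    ext f y
    simp
  map_mul' := by
    intro g g'
    ext f y
    simp [mul_assoc]

private theorem ind_ρ_apply {G W : Type} [Group G] [AddCommGroup W] [Module ℚ W] (K : Subgroup G)
    (τ : Representation ℚ K W) (g : G) (f : ind_V K τ) (y : G) :
    (ind_ρ K τ g f).1 y = f.1 (y * g) := rfl

/-- The flag of the induced representation. -/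
private def ind_Fl {G W : Type} [Group G] [AddCommGroup W] [Module ℚ W] (K : Subgroup G)
    (τ : Representation ℚ K W) (Fl : ℕ → Submodule ℚ W) (i : ℕ) : Submodule ℚ (ind_V K τ) where
  carrier := {f | ∀ x : G, f.1 x ∈ Fl i}
  add_mem' := by
    intro a b ha hb x
    exact (Fl i).add_mem (ha x) (hb x)
  zero_mem' := by
    intro x
    exact (Fl i).zero_mem
  smul_mem' := by
    intro c f hf x
    exact (Fl i).smul_mem c (hf x)

private theorem ind_flag {G W : Type} [Group G] [AddCommGroup W] [Module ℚ W] (K : Subgroup G)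
    [K.Normal] (τ : Representation ℚ K W) (Fl : ℕ → Submodule ℚ W) (m : ℕ)
    (hF : Flag τ Set.univ Fl m) : Flag (ind_ρ K τ) (K : Set G) (ind_Fl K τ Fl) m where
  anti := by
    intro i j hij f hf x
    exact hF.anti hij (hf x)
  top := by
    rw [eq_top_iff]
    intro f _ x
    rw [hF.top]
    exact Submodule.mem_top
  bot := by
    rw [eq_bot_iff]
    intro f hf
    rw [Submodule.mem_bot]
    apply Subtype.ext
    funext x
    have := hf x
    rw [hF.bot, Submodule.mem_bot] at this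
    exact this
  pres := by
    intro g i f hf x
    exact hf (x * g)
  raise := by
    intro k hk i f hf y
    have hk' : y * k * y⁻¹ ∈ K := (inferInstance : K.Normal).conj_mem k hk y
    have h1 := f.2 ⟨y * k * y⁻¹, hk'⟩ y
    have h2 : (y * k * y⁻¹) * y = y * k := by group
    have h3 := hF.raise ⟨y * k * y⁻¹, hk'⟩ (Set.mem_univ _) i (f.1 y) (hf y)
    rw [← h1] at h3
    have h4 : (ind_ρ K τ k f - f : ind_V K τ).1 y = f.1 (y * k) - f.1 y := rfl
    rw [h4, ← h2]
    exact h3

open scoped Classical in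
/-- The function supported on `K`. -/
private noncomputable def ind_f {G W : Type} [Group G] [AddCommGroup W] [Module ℚ W]
    (K : Subgroup G) (τ : Representation ℚ K W) (v : W) : ind_V K τ :=
  ⟨fun x => if h : x ∈ K then τ ⟨x, h⟩ v else 0, by
    intro k x
    by_cases h : x ∈ K
    · have h' : (k : G) * x ∈ K := K.mul_mem k.2 h
      simp only [h, h', dif_pos]
      have : (⟨(k : G) * x, h'⟩ : K) = k * ⟨x, h⟩ := rfl
      rw [this, map_mul]
      rfl
    · have h' : (k : G) * x ∉ K := by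
        intro h2
        exact h ((K.mul_mem_cancel_left k.2).mp h2)
      simp only [h, h', dif_neg, not_false_eq_true, map_zero]⟩

private theorem ind_f_mem {G W : Type} [Group G] [AddCommGroup W] [Module ℚ W]
    (K : Subgroup G) (τ : Representation ℚ K W) (v : W) (x : G) (h : x ∈ K) :
    (ind_f K τ v).1 x = τ ⟨x, h⟩ v := by
  simp only [ind_f, h, dif_pos]

private theorem ind_f_one {G W : Type} [Group G] [AddCommGroup W] [Module ℚ W]
    (K : Subgroup G) (τ : Representation ℚ K W) (v : W) :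
    (ind_f K τ v).1 1 = v := by
  rw [ind_f_mem K τ v 1 K.one_mem]
  have : (⟨1, K.one_mem⟩ : K) = 1 := rfl
  rw [this, map_one]
  rfl

private theorem ind_f_not_mem {G W : Type} [Group G] [AddCommGroup W] [Module ℚ W]
    (K : Subgroup G) (τ : Representation ℚ K W) (v : W) (x : G) (h : x ∉ K) :
    (ind_f K τ v).1 x = 0 := by
  simp only [ind_f, h, dif_neg, not_false_eq_true]

private theorem ind_single' {G W : Type} [Group G] [AddCommGroup W] [Module ℚ W] (K : Subgroup G)
    [K.Normal] (τ : Representation ℚ K W) (Fl : ℕ → Submodule ℚ W) (m : ℕ)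
    (hF : Flag τ Set.univ Fl m) (v : W) (hv : v ≠ 0) (g : G)
    (hg : ∀ (h : g ∈ K) (c : ℚ), τ ⟨g, h⟩ v ≠ c • v) :
    ∃ (V : Type) (_ : AddCommGroup V) (_ : Module ℚ V) (ρ : Representation ℚ G V)
      (Fl : ℕ → Submodule ℚ V) (m : ℕ), Nontrivial V ∧ Flag ρ (K : Set G) Fl m ∧ NonSc ρ g := by
  refine ⟨ind_V K τ, inferInstance, inferInstance, ind_ρ K τ, ind_Fl K τ Fl, m, ?_,
    ind_flag K τ Fl m hF, ind_f K τ v, ?_⟩
  · refine ⟨ind_f K τ v, 0, ?_⟩
    intro h
    apply hv
    rw [← ind_f_one K τ v, h]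
    rfl
  · intro c hc
    have h1 : (ind_ρ K τ g (ind_f K τ v)).1 1 = c • v := by
      rw [hc]
      change c • (ind_f K τ v).1 1 = c • v
      rw [ind_f_one]
    rw [ind_ρ_apply, one_mul] at h1
    by_cases h : g ∈ K
    · rw [ind_f_mem K τ v g h] at h1
      exact hg h c h1
    · rw [ind_f_not_mem K τ v g h] at h1
      have hc0 : c = 0 := by
        rcases smul_eq_zero.mp h1.symm with h2 | h2
        · exact h2
        · exact absurd h2 hv
      have h3 : (ind_ρ K τ g (ind_f K τ v)).1 g⁻¹ = 0 := by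
        rw [hc, hc0, zero_smul]
        rfl
      rw [ind_ρ_apply, inv_mul_cancel, ind_f_one] at h3
      exact hv h3

/-- The trivial flag. -/
private def ind_tFl (i : ℕ) : Submodule ℚ ℚ := if i = 0 then ⊤ else ⊥

private theorem ind_trivial (G : Type) [Group G] (K : Set G) :
    Flag (1 : Representation ℚ G ℚ) K ind_tFl 1 where
  anti := by
    intro i j hij
    unfold ind_tFl
    by_cases h : i = 0
    · rw [if_pos h]
      exact le_top
    · rw [if_neg h, if_neg (by omega)]
  top := by simp [ind_tFl]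
  bot := by simp [ind_tFl]
  pres := by
    intro g i v hv
    exact hv
  raise := by
    intro g _ i v hv
    have : (1 : Representation ℚ G ℚ) g v - v = 0 := sub_self v
    rw [this]
    exact Submodule.zero_mem _

private theorem ind_single {G : Type} [Group G] (K : Subgroup G) [K.Normal] (hK : RU K) (g : G)
    (hg : g ≠ 1) :
    ∃ (V : Type) (_ : AddCommGroup V) (_ : Module ℚ V) (ρ : Representation ℚ G V)
      (Fl : ℕ → Submodule ℚ V) (m : ℕ), Nontrivial V ∧ Flag ρ (K : Set G) Fl m ∧ NonSc ρ g := by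
  by_cases h : g ∈ K
  · have hne : (⟨g, h⟩ : K) ≠ 1 := by
      intro h'
      exact hg (congrArg Subtype.val h')
    obtain ⟨W, iW, mW, τ, Fl, m, hF, v, hv⟩ := rep_of_RU hK ⟨g, h⟩ hne
    refine ind_single' K τ Fl m hF v ?_ g (fun h' c => hv c)
    intro h0
    apply hv 0
    rw [h0, map_zero, smul_zero]
  · exact ind_single' K (1 : Representation ℚ K ℚ) ind_tFl 1 (ind_trivial K Set.univ) 1 one_ne_zero g
      (fun h' => absurd h' h)

/-- The product of two representations. -/
private def ind_prod {G V₁ V₂ : Type} [Group G] [AddCommGroup V₁] [Module ℚ V₁] [AddCommGroup V₂]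
    [Module ℚ V₂] (ρ₁ : Representation ℚ G V₁) (ρ₂ : Representation ℚ G V₂) :
    Representation ℚ G (V₁ × V₂) where
  toFun g := (ρ₁ g).prodMap (ρ₂ g)
  map_one' := by
    rw [map_one, map_one]
    rfl
  map_mul' := by
    intro g g'
    rw [map_mul, map_mul]
    rfl

private theorem ind_prod_flag {G V₁ V₂ : Type} [Group G] [AddCommGroup V₁] [Module ℚ V₁]
    [AddCommGroup V₂] [Module ℚ V₂] (ρ₁ : Representation ℚ G V₁) (ρ₂ : Representation ℚ G V₂)
    (K : Set G) (F₁ : ℕ → Submodule ℚ V₁) (F₂ : ℕ → Submodule ℚ V₂) (m₁ m₂ : ℕ)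
    (h₁ : Flag ρ₁ K F₁ m₁) (h₂ : Flag ρ₂ K F₂ m₂) :
    Flag (ind_prod ρ₁ ρ₂) K (fun i => (F₁ i).prod (F₂ i)) (max m₁ m₂) where
  anti := by
    intro i j hij v hv
    exact ⟨h₁.anti hij hv.1, h₂.anti hij hv.2⟩
  top := by
    rw [h₁.top, h₂.top]
    exact Submodule.prod_top
  bot := by
    have e₁ : F₁ (max m₁ m₂) = ⊥ := by
      rw [eq_bot_iff, ← h₁.bot]
      exact h₁.anti (le_max_left _ _)
    have e₂ : F₂ (max m₁ m₂) = ⊥ := by
      rw [eq_bot_iff, ← h₂.bot]
      exact h₂.anti (le_max_right _ _)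
    rw [e₁, e₂]
    exact Submodule.prod_bot
  pres := by
    intro g i v hv
    exact ⟨h₁.pres g i v.1 hv.1, h₂.pres g i v.2 hv.2⟩
  raise := by
    intro g hg i v hv
    exact ⟨h₁.raise g hg i v.1 hv.1, h₂.raise g hg i v.2 hv.2⟩

theorem ind_rep {G : Type} [Group G] (K : Subgroup G) [K.Normal] (hK : RU K) (S : Finset G)
    (hS : (1 : G) ∉ S) :
    ∃ (V : Type) (_ : AddCommGroup V) (_ : Module ℚ V) (ρ : Representation ℚ G V)
      (Fl : ℕ → Submodule ℚ V) (m : ℕ),
      Nontrivial V ∧ Flag ρ (K : Set G) Fl m ∧ ∀ g ∈ S, NonSc ρ g := by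
  classical
  induction S using Finset.induction_on with
  | empty =>
    exact ⟨ℚ, inferInstance, inferInstance, 1, ind_tFl, 1, inferInstance, ind_trivial G _,
      fun g hg => absurd hg (Finset.notMem_empty g)⟩
  | insert a S ha ih =>
    rw [Finset.mem_insert, not_or] at hS
    obtain ⟨V₁, i₁, j₁, ρ₁, F₁, m₁, n₁, f₁, s₁⟩ := ih hS.2
    obtain ⟨V₂, i₂, j₂, ρ₂, F₂, m₂, n₂, f₂, v₂, hv₂⟩ := ind_single K hK a (Ne.symm hS.1)
    refine ⟨V₁ × V₂, inferInstance, inferInstance, ind_prod ρ₁ ρ₂, fun i => (F₁ i).prod (F₂ i),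
      max m₁ m₂, inferInstance, ind_prod_flag ρ₁ ρ₂ _ F₁ F₂ m₁ m₂ f₁ f₂, ?_⟩
    intro g hg
    rw [Finset.mem_insert] at hg
    rcases hg with rfl | hg
    · refine ⟨(0, v₂), ?_⟩
      intro c hc
      exact hv₂ c (congrArg Prod.snd hc)
    · obtain ⟨v₁, hv₁⟩ := s₁ g hg
      refine ⟨(v₁, 0), ?_⟩
      intro c hc
      exact hv₁ c (congrArg Prod.fst hc)

end Pool.H11.FC
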