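import Pool.Agent.H11.FC.Word
import Pool.Agent.H11.FC.Ind
import Pool.Agent.H11.FC.BRep

/-! # Detection of nontrivial elements by the filtration `CG`

PROOF. `exists_red f`: `f = ev a₀ L`, `Red L`. If `L = []` then `a₀ ≠ 1`. `S` = the finite set of all `inl a : MT A α` with `a ∈ {a₀} ∪ {t.2.2 | t ∈ L}`, `a ≠ 1` (`inl` is injective).
`ind_rep K hK S` gives `V, ρ, Fl, m`. `word_rep` with `κ = SemidirectProduct.inl`, `G = MT A α` gives `W, σ, Fl', M`. By induction on `CG`:
`CG N α i r → ∀ j w, w ∈ Fl' j → (σ.asAlgebraHom r) w ∈ Fl' (j + i)`: `top`: `σ f` preserves `Fl' j` for all `f`, so every `r` does; `a`: the property of `word_rep` with `bg_raise`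
(for the set `K`, `hN`, `ht`); `x`; `mul`, `add`, `zero`, `mono` clear. If `CG N α M (gr f - 1)` then `(σ f - 1) w ∈ Fl' (0 + M) = ⊥` for all `w`, contradiction. So `n = M`. -/

set_option autoImplicit false

namespace Pool.H11.FC

/-- If every group element preserves the flag then so does the group algebra. -/
private theorem det_pres {G V : Type} [Group G] [AddCommGroup V] [Module ℚ V]
    (ρ : Representation ℚ G V) (Fl : ℕ → Submodule ℚ V)
    (h : ∀ (g : G) (j : ℕ) (v : V), v ∈ Fl j → ρ g v ∈ Fl j) (r : QA G) (j : ℕ) (v : V)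
    (hv : v ∈ Fl j) : (Representation.asAlgebraHom ρ r) v ∈ Fl j := by
  induction r using MonoidAlgebra.induction_on with
  | of g =>
    rw [Representation.asAlgebraHom_of]
    exact h g j v hv
  | add a b ha hb =>
    rw [map_add, LinearMap.add_apply]
    exact Submodule.add_mem _ ha hb
  | smul c a ha =>
    rw [map_smul, LinearMap.smul_apply]
    exact Submodule.smul_mem _ _ ha

/-- The filtration acts on the flag of the word representation. -/
private theorem det_act {A : Type} [Group A] {ι : Type} (N : Subgroup A) (α : MulAut A)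
    (K : Set (MT A α)) (hN : ∀ n ∈ N, (SemidirectProduct.inl n : MT A α) ∈ K)
    (ht : (SemidirectProduct.inr (Multiplicative.ofAdd (1 : ℤ)) : MT A α) ∈ K)
    {V : Type} [AddCommGroup V] [Module ℚ V] (ρ : Representation ℚ (MT A α) V)
    (Fl : ℕ → Submodule ℚ V) (m : ℕ) (hF : Flag ρ K Fl m)
    {W : Type} [AddCommGroup W] [Module ℚ W] (σ : Representation ℚ (FP A ι) W)
    (Fl' : ℕ → Submodule ℚ W) (hanti : Antitone Fl')
    (hpres : ∀ (f : FP A ι) (j : ℕ) (w : W), w ∈ Fl' j → σ f w ∈ Fl' j)
    (hr : ∀ (r : QA A) (i : ℕ),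
        (∀ (j : ℕ) (v : V), v ∈ Fl j →
          (Representation.asAlgebraHom ρ (gmap (SemidirectProduct.inl : A →* MT A α) r)) v
            ∈ Fl (j + i)) →
        ∀ (j : ℕ) (w : W), w ∈ Fl' j →
          (Representation.asAlgebraHom σ (gmap (Monoid.Coprod.inl : A →* FP A ι) r)) w
            ∈ Fl' (j + i))
    (hx : ∀ (i : ι) (j : ℕ) (w : W), w ∈ Fl' j → σ (xx i) w - w ∈ Fl' (j + 1))
    (i : ℕ) (r : QA (FP A ι)) (h : CG N α i r) (j : ℕ) (w : W) (hw : w ∈ Fl' j) :
    (Representation.asAlgebraHom σ r) w ∈ Fl' (j + i) := by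
  induction h generalizing j w with
  | top r => exact det_pres σ Fl' hpres r j w hw
  | @a i b hb => exact hr b i (fun j v hv => bg_raise N α K hN ht ρ Fl m hF i b hb j v hv) j w hw
  | x i =>
    rw [map_sub, map_one, LinearMap.sub_apply]
    rw [show (Representation.asAlgebraHom σ (gr (xx i : FP A ι))) = σ (xx i) from
      Representation.asAlgebraHom_of σ _]
    exact hx i j w hw
  | @mul i i' r s _ _ ihr ihs =>
    rw [map_mul]
    have h := ihr (j + i') _ (ihs j w hw)
    rw [show j + i' + i = j + (i + i') by ring] at h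
    exact h
  | add _ _ iha ihb =>
    rw [map_add, LinearMap.add_apply]
    exact Submodule.add_mem _ (iha j w hw) (ihb j w hw)
  | zero i =>
    rw [map_zero, LinearMap.zero_apply]
    exact Submodule.zero_mem _
  | @mono i r _ ih =>
    exact hanti (by omega : j + i ≤ j + (i + 1)) (ih j w hw)

theorem cg_detect {A : Type} [Group A] {ι : Type} (N : Subgroup A) (α : MulAut A)
    (K : Subgroup (MT A α)) [K.Normal] (hN : ∀ n ∈ N, (SemidirectProduct.inl n : MT A α) ∈ K)
    (ht : (SemidirectProduct.inr (Multiplicative.ofAdd (1 : ℤ)) : MT A α) ∈ K) (hK : RU K)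
    (f : FP A ι) (hf : f ≠ 1) : ∃ n : ℕ, ¬ CG N α n (gr f - 1) := by
  classical
  obtain ⟨a₀, L, hL, hfe⟩ := exists_red f
  set S : Finset (MT A α) := ((a₀ :: L.map fun t => t.2.2).toFinset.image
    (SemidirectProduct.inl : A →* MT A α)).erase 1 with hS
  have hmem : ∀ a : A, a ∈ (a₀ :: L.map fun t => t.2.2) → a ≠ 1 →
      (SemidirectProduct.inl a : MT A α) ∈ S := by
    intro a ha hne
    rw [hS, Finset.mem_erase]
    refine ⟨?_, Finset.mem_image.mpr ⟨a, List.mem_toFinset.mpr ha, rfl⟩⟩
    intro h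
    apply hne
    have h1 : (SemidirectProduct.inl a : MT A α) = SemidirectProduct.inl 1 := by
      rw [h, map_one]
    exact SemidirectProduct.inl_injective h1
  obtain ⟨V, iV, jV, ρ, Fl, m, hnt, hF, hns⟩ := ind_rep K hK S (by rw [hS]; exact Finset.notMem_erase _ _)
  obtain ⟨W, iW, jW, σ, Fl', M, hanti, htop, hbot, hpres, hr, hx, hne⟩ :=
    word_rep (SemidirectProduct.inl : A →* MT A α) ρ (K : Set (MT A α)) Fl m hF a₀ L hL
    (by
      intro h0
      apply hns
      apply hmem a₀ (List.mem_cons_self)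
      intro h1
      apply hf
      rw [hfe, h0, h1]
      unfold ev
      simp)
    (by
      intro t ht' hne
      apply hns
      apply hmem _ _ hne
      exact List.mem_cons_of_mem _ (List.mem_map.mpr ⟨t, ht', rfl⟩))
  refine ⟨M, ?_⟩
  intro hcg
  apply hne
  rw [← hfe]
  ext w
  have h1 := det_act N α (K : Set (MT A α)) hN ht ρ Fl m hF σ Fl' hanti hpres hr hx M _ hcg 0 w
    (by rw [htop]; exact Submodule.mem_top)
  rw [zero_add, hbot, Submodule.mem_bot, map_sub, map_one, LinearMap.sub_apply,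
    show (Representation.asAlgebraHom σ (gr f)) = σ f from
      Representation.asAlgebraHom_of σ _] at h1
  exact sub_eq_zero.mp h1

end Pool.H11.FC
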