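import Pool.Agent.H11.FC.Defs

/-! # Refining a flag so that the mapping torus acts unipotently

PROOF. `T` is a linear automorphism with `T (ρ f w) = ρ (φ f) (T w)`. Define `σ : MT F φ →* End W` by `σ (f, t^j) = ρ f ∘ T^j`
(`T ^ j` in the group `W ≃ₗ[ℚ] W`, `j : ℤ`); it is a homomorphism (use `SemidirectProduct.lift` into the units of `End W`, or check
directly: `T^j ρ f T^{-j} = ρ (φ^j f)`, by `zpowersHom_apply`, induction on `j`).
By Choice take `E : ℕ → ℕ`; let `E₀ = 1 + max_{i<n} E i`; then `(T-1)^{E₀} Fl i ⊆ Fl (i+1)` for all `i < n` (since `(T-1)` preserves `Fl (i+1)`);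
for `i ≥ n` it is trivial as `Fl i = ⊥`. New flag: for an index `k = E₀ * i + l`, `l < E₀` (so `i = k / E₀`, `l = k % E₀`)
`Fl' k = Fl (i+1) ⊔ (Fl i).map ((T-1)^l)`. Then `Fl' 0 = Fl 1 ⊔ Fl 0 = ⊤`, `Fl' (E₀ * n) = ⊥` as `Fl n = Fl (n+1) = ⊥`.
ANTITONE and RAISING: let `X (i,l) = Fl (i+1) ⊔ (Fl i).map ((T-1)^l)` for all `l ≤ E₀`; `X (i,0) = Fl i`, `X (i,E₀) = Fl (i+1) = X (i+1,0)`.
`X (i,l+1) ≤ X (i,l)` since `(T-1) Fl i ⊆ Fl i`. So `Fl' (k+1) = X (i,l+1)` in both cases (`l+1 < E₀`, or `l + 1 = E₀` where it is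
`X (i+1,0)`). For `h ∈ H`: `(ρ h - 1) X (i,l) ⊆ Fl (i+1) ⊆ X (i,l+1)` because `X (i,l) ⊆ Fl i`. `(T - 1) X (i,l) ⊆ X (i,l+1)`:
`(T-1) Fl (i+1) ⊆ Fl (i+1)`. `T` and `T⁻¹` preserve each `X (i,l)` (they commute with `T-1` and preserve the `Fl i`), so
`T⁻¹ - 1 = -T⁻¹ (T-1)` maps `X (i,l)` into `X (i,l+1)`, and then all `T^j - 1` do (`T^{j+1} - 1 = T (T^j - 1) + (T-1)`).
Finally for `x = (h, t^j)` with `h ∈ H`: `σ x - 1 = ρ h (T^j - 1) + (ρ h - 1)` and `ρ h` preserves each `X (i,l)` (because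
`ρ h w = w + (ρ h - 1) w`). -/

set_option autoImplicit false

namespace Pool.H11.FC

private theorem refine_pow {W : Type} [AddCommGroup W] [Module ℚ W] (T : W ≃ₗ[ℚ] W)
    (A B : Submodule ℚ W) (h1 : ∀ w ∈ A, T w ∈ A) (h2 : ∀ w ∈ A, T.symm w ∈ A)
    (h3 : ∀ w ∈ A, T w - w ∈ B) (j : ℤ) : ∀ w ∈ A, (T ^ j : W ≃ₗ[ℚ] W) w - w ∈ B := by
  induction j using Int.induction_on with
  | zero =>
    intro w _
    have e : (T ^ (0 : ℤ) : W ≃ₗ[ℚ] W) w - w = 0 := by
      rw [zpow_zero]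
      exact sub_self w
    rw [e]
    exact B.zero_mem
  | succ j ih =>
    intro w hw
    rw [zpow_add_one, LinearEquiv.mul_apply]
    have e : (T ^ (j : ℤ) : W ≃ₗ[ℚ] W) (T w) - w =
        ((T ^ (j : ℤ) : W ≃ₗ[ℚ] W) (T w) - T w) + (T w - w) := by abel
    rw [e]
    exact B.add_mem (ih _ (h1 w hw)) (h3 w hw)
  | pred j ih =>
    intro w hw
    rw [zpow_sub_one, LinearEquiv.mul_apply]
    have e0 : (T⁻¹ : W ≃ₗ[ℚ] W) w = T.symm w := rfl
    rw [e0]
    have e : (T ^ (-(j : ℤ)) : W ≃ₗ[ℚ] W) (T.symm w) - w =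
        ((T ^ (-(j : ℤ)) : W ≃ₗ[ℚ] W) (T.symm w) - T.symm w) - (T (T.symm w) - T.symm w) := by
      rw [T.apply_symm_apply]
      abel
    rw [e]
    exact B.sub_mem (ih _ (h2 w hw)) (h3 _ (h2 w hw))

private theorem refine_rep {F W : Type} [Group F] [AddCommGroup W] [Module ℚ W] (φ : MulAut F)
    (ρ : Representation ℚ F W) (T : W ≃ₗ[ℚ] W) (hcomm : ∀ f w, T (ρ f w) = ρ (φ f) (T w)) :
    ∃ σ : Representation ℚ (MT F φ) W,
      (∀ (x : MT F φ) (w : W), σ x w =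
        ρ x.left ((T ^ (Multiplicative.toAdd x.right) : W ≃ₗ[ℚ] W) w)) ∧
      ∀ f : F, σ (SemidirectProduct.inl f) = ρ f := by
  let f1 : F →* (W ≃ₗ[ℚ] W) :=
    (LinearMap.GeneralLinearGroup.generalLinearEquiv ℚ W).toMonoidHom.comp ρ.toHomUnits
  have hf1 : ∀ f w, f1 f w = ρ f w := fun f w => rfl
  let f2 : Multiplicative ℤ →* (W ≃ₗ[ℚ] W) := zpowersHom _ T
  have hf2 : ∀ g, f2 g = T ^ (Multiplicative.toAdd g) := fun g => rfl
  have key1 : ∀ f, T * f1 f = f1 (φ f) * T := by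
    intro f
    ext w
    rw [LinearEquiv.mul_apply, LinearEquiv.mul_apply, hf1, hf1, hcomm]
  have key2 : ∀ f, T⁻¹ * f1 f = f1 (φ⁻¹ f) * T⁻¹ := by
    intro f
    have h := key1 (φ⁻¹ f)
    rw [MulAut.apply_inv_self] at h
    rw [eq_mul_inv_iff_mul_eq, mul_assoc, ← h, inv_mul_cancel_left]
  have key : ∀ (j : ℤ) (f : F), T ^ j * f1 f = f1 ((φ ^ j) f) * T ^ j := by
    intro j
    induction j using Int.induction_on with
    | zero =>
      intro f
      rw [zpow_zero, zpow_zero, one_mul, mul_one, MulAut.one_apply]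
    | succ j ih =>
      intro f
      rw [zpow_add_one, zpow_add_one, MulAut.mul_apply, mul_assoc, key1, ← mul_assoc, ih,
        mul_assoc]
    | pred j ih =>
      intro f
      rw [zpow_sub_one, zpow_sub_one, MulAut.mul_apply, mul_assoc, key2, ← mul_assoc, ih,
        mul_assoc]
  let τ : MT F φ →* (W ≃ₗ[ℚ] W) := SemidirectProduct.lift f1 f2 (by
    intro g
    ext1 f
    simp only [MonoidHom.comp_apply, MulEquiv.coe_toMonoidHom, MulAut.conj_apply]
    rw [hf2, key, mul_inv_cancel_right]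
    rfl)
  refine ⟨(LinearEquiv.automorphismGroup.toLinearMapMonoidHom).comp τ, ?_, ?_⟩
  · intro x w
    rfl
  · intro f
    ext w
    show τ (SemidirectProduct.inl f) w = ρ f w
    rw [← hf1]
    show SemidirectProduct.lift f1 f2 _ (SemidirectProduct.inl f) w = f1 f w
    rw [SemidirectProduct.lift_inl]

/-- The modules of the refined flag. -/
private def refine_X {W : Type} [AddCommGroup W] [Module ℚ W] (S : Module.End ℚ W)
    (Fl : ℕ → Submodule ℚ W) (i l : ℕ) : Submodule ℚ W :=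
  Fl (i + 1) ⊔ (Fl i).map (S ^ l)

theorem refine_flag {F W : Type} [Group F] [AddCommGroup W] [Module ℚ W] (φ : MulAut F)
    (ρ : Representation ℚ F W) (T : W ≃ₗ[ℚ] W) (hcomm : ∀ f w, T (ρ f w) = ρ (φ f) (T w))
    (H : Subgroup F) (Fl : ℕ → Submodule ℚ W) (n : ℕ) (hanti : Antitone Fl) (htop : Fl 0 = ⊤)
    (hbot : Fl n = ⊥) (hr : ∀ h ∈ H, ∀ (i : ℕ) (v : W), v ∈ Fl i → ρ h v - v ∈ Fl (i + 1))
    (hT : ∀ i w, w ∈ Fl i → T w ∈ Fl i) (hT' : ∀ i w, w ∈ Fl i → T.symm w ∈ Fl i)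
    (hE : ∀ i, ∃ E : ℕ, ∀ w ∈ Fl i, ((T.toLinearMap - 1) ^ E) w ∈ Fl (i + 1)) :
    ∃ (σ : Representation ℚ (MT F φ) W) (Fl' : ℕ → Submodule ℚ W) (L : ℕ),
      Antitone Fl' ∧ Fl' 0 = ⊤ ∧ Fl' L = ⊥ ∧
      (∀ x : MT F φ, x.left ∈ H → ∀ (i : ℕ) (v : W), v ∈ Fl' i → σ x v - v ∈ Fl' (i + 1)) ∧
      ∀ f : F, σ (SemidirectProduct.inl f) = ρ f := by
  obtain ⟨σ, hσ, hσ'⟩ := refine_rep φ ρ T hcomm
  obtain ⟨S, hS⟩ : ∃ S : Module.End ℚ W, S = T.toLinearMap - 1 := ⟨_, rfl⟩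
  rw [← hS] at hE
  have hSa : ∀ w, S w = T w - w := by
    intro w
    rw [hS]
    rfl
  choose E hE using hE
  -- powers of `S` preserve the flag
  have hSp : ∀ (l i : ℕ) (w : W), w ∈ Fl i → (S ^ l) w ∈ Fl i := by
    intro l
    induction l with
    | zero =>
      intro i w hw
      rw [pow_zero]
      exact hw
    | succ l ih =>
      intro i w hw
      rw [pow_succ', Module.End.mul_apply, hSa]
      exact (Fl i).sub_mem (hT _ _ (ih i w hw)) (ih i w hw)
  obtain ⟨E0, hE0pos, hE0⟩ : ∃ E0 : ℕ, 0 < E0 ∧ ∀ i w, w ∈ Fl i → (S ^ E0) w ∈ Fl (i + 1) := by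
    refine ⟨1 + ∑ i ∈ Finset.range n, E i, by omega, ?_⟩
    intro i w hw
    rcases Nat.lt_or_ge i n with hi | hi
    · have h1 : E i ≤ ∑ i ∈ Finset.range n, E i :=
        Finset.single_le_sum (fun _ _ => Nat.zero_le _) (Finset.mem_range.2 hi)
      obtain ⟨d, hd⟩ : ∃ d, 1 + ∑ i ∈ Finset.range n, E i = d + E i :=
        ⟨1 + ∑ i ∈ Finset.range n, E i - E i, by omega⟩
      rw [hd, pow_add, Module.End.mul_apply]
      exact hSp _ _ _ (hE i w hw)
    · have h1 : w ∈ (⊥ : Submodule ℚ W) := by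
        rw [← hbot]
        exact hanti hi hw
      rw [(Submodule.mem_bot ℚ).1 h1, map_zero]
      exact (Fl (i + 1)).zero_mem
  -- the modules `X i l`
  have hXle : ∀ i l, refine_X S Fl i l ≤ Fl i := by
    intro i l
    refine sup_le (hanti (Nat.le_succ i)) ?_
    rintro _ ⟨w, hw, rfl⟩
    exact hSp l i w hw
  have hleX : ∀ i l, Fl (i + 1) ≤ refine_X S Fl i l := fun i l => le_sup_left
  have hXS : ∀ i l w, w ∈ refine_X S Fl i l → S w ∈ refine_X S Fl i (l + 1) := by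
    intro i l w hw
    obtain ⟨a, ha, b, hb, rfl⟩ := Submodule.mem_sup.1 hw
    obtain ⟨c, hc, rfl⟩ := hb
    rw [map_add]
    refine Submodule.add_mem _ (hleX i _ ?_) (Submodule.mem_sup_right ⟨c, hc, ?_⟩)
    · have := hSp 1 (i + 1) a ha
      rwa [pow_one] at this
    · rw [pow_succ', Module.End.mul_apply]
  have hXanti : ∀ i l, refine_X S Fl i (l + 1) ≤ refine_X S Fl i l := by
    intro i l
    refine sup_le (hleX i l) ?_
    rintro _ ⟨w, hw, rfl⟩
    refine Submodule.mem_sup_right ⟨S w, ?_, ?_⟩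
    · have := hSp 1 i w hw
      rwa [pow_one] at this
    · rw [pow_succ, Module.End.mul_apply]
  have hXT : ∀ i l w, w ∈ refine_X S Fl i l → T w ∈ refine_X S Fl i l := by
    intro i l w hw
    have h := hXanti i l (hXS i l w hw)
    rw [hSa] at h
    have := Submodule.add_mem _ h hw
    rwa [sub_add_cancel] at this
  have hTS : ∀ l w, T.symm ((S ^ l) w) = (S ^ l) (T.symm w) := by
    intro l
    induction l with
    | zero => intro w; rfl
    | succ l ih =>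
      intro w
      rw [pow_succ, Module.End.mul_apply, Module.End.mul_apply, ih, hSa, hSa, map_sub,
        T.symm_apply_apply, T.apply_symm_apply]
  have hXT' : ∀ i l w, w ∈ refine_X S Fl i l → T.symm w ∈ refine_X S Fl i l := by
    intro i l w hw
    obtain ⟨a, ha, b, hb, rfl⟩ := Submodule.mem_sup.1 hw
    obtain ⟨c, hc, rfl⟩ := hb
    rw [map_add]
    refine Submodule.add_mem _ (hleX i _ (hT' _ _ ha)) (Submodule.mem_sup_right
      ⟨T.symm c, hT' _ _ hc, ?_⟩)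
    exact (hTS l c).symm
  have hraise : ∀ (x : MT F φ), x.left ∈ H → ∀ (i l : ℕ) (v : W), v ∈ refine_X S Fl i l →
      σ x v - v ∈ refine_X S Fl i (l + 1) := by
    intro x hx i l v hv
    have h1 : (T ^ (Multiplicative.toAdd x.right) : W ≃ₗ[ℚ] W) v - v ∈
        refine_X S Fl i (l + 1) := by
      refine refine_pow T _ _ (hXT i l) (hXT' i l) ?_ _ v hv
      intro w hw
      rw [← hSa]
      exact hXS i l w hw
    have h2 : (T ^ (Multiplicative.toAdd x.right) : W ≃ₗ[ℚ] W) v ∈ refine_X S Fl i l := by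
      have := Submodule.add_mem _ (hXanti i l h1) hv
      rwa [sub_add_cancel] at this
    rw [hσ]
    have h3 := hleX i (l + 1) (hr x.left hx i _ (hXle i l h2))
    have := Submodule.add_mem _ h3 h1
    rwa [sub_add_sub_cancel] at this
  have hX0 : ∀ i, refine_X S Fl i 0 = Fl i := by
    intro i
    refine le_antisymm (hXle i 0) ?_
    intro w hw
    exact Submodule.mem_sup_right ⟨w, hw, rfl⟩
  have hXE : ∀ i, refine_X S Fl i E0 = Fl (i + 1) := by
    intro i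
    refine le_antisymm (sup_le le_rfl ?_) (hleX i E0)
    rintro _ ⟨w, hw, rfl⟩
    exact hE0 i w hw
  have hsucc : ∀ k, refine_X S Fl ((k + 1) / E0) ((k + 1) % E0) =
      refine_X S Fl (k / E0) (k % E0 + 1) := by
    intro k
    have hlt := Nat.mod_lt k hE0pos
    have hk := Nat.div_add_mod k E0
    rcases Nat.lt_or_ge (k % E0 + 1) E0 with h | h
    · have e1 : (k + 1) / E0 = k / E0 := by
        rw [Nat.div_eq_iff hE0pos, Nat.mul_comm (k / E0) E0]
        omega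
      have e2 : (k + 1) % E0 = k % E0 + 1 := by
        have := Nat.div_add_mod (k + 1) E0
        rw [e1] at this
        omega
      rw [e1, e2]
    · have h' : k % E0 + 1 = E0 := by omega
      have e0 : k + 1 = E0 * (k / E0 + 1) := by
        rw [Nat.mul_add, Nat.mul_one]
        omega
      have e1 : (k + 1) / E0 = k / E0 + 1 := by
        rw [e0, Nat.mul_div_cancel_left _ hE0pos]
      have e2 : (k + 1) % E0 = 0 := by
        rw [e0, Nat.mul_mod_right]
      rw [e1, e2, h', hX0, hXE]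
  refine ⟨σ, fun k => refine_X S Fl (k / E0) (k % E0), E0 * n, ?_, ?_, ?_, ?_, hσ'⟩
  · refine antitone_nat_of_succ_le fun k => ?_
    rw [hsucc]
    exact hXanti _ _
  · show refine_X S Fl (0 / E0) (0 % E0) = ⊤
    rw [Nat.zero_div, Nat.zero_mod, hX0, htop]
  · show refine_X S Fl (E0 * n / E0) (E0 * n % E0) = ⊥
    rw [Nat.mul_div_cancel_left _ hE0pos, Nat.mul_mod_right, hX0, hbot]
  · intro x hx k v hv
    show σ x v - v ∈ refine_X S Fl ((k + 1) / E0) ((k + 1) % E0)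
    rw [hsucc]
    exact hraise x hx _ _ v hv

end Pool.H11.FC
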