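import Pool.Agent.H11.FC.Quot
import Pool.Agent.H11.FC.Refine

/-! # Unipotent representations of mapping tori from filtrations

PROOF. Apply `quot_rep C n φ hφ hφ'` to get `W, ρ, T, q`, and put `Fl i = (C.C i).map q`. Then `Fl` is antitone, `Fl 0 = ⊤` (surjectivity),
`Fl n = ⊥`, `ρ h - 1` maps `Fl i` into `Fl (i+1)` for `h ∈ H` (`q` is linear, `ρ h (q r) - q r = q ((gr h - 1) * r)`, `C.mul`, `1 + i = i + 1`),
`T` preserves `Fl i`, `T.symm` too (`T.symm (q r) = q (gmap φ⁻¹ r)` because `T (q (gmap φ⁻¹ r)) = q r`), `((T - 1)^E) (q r) = q ((DD φ)^E r)`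
(induction on `E`). `T (ρ f w) = ρ (φ f) (T w)`: `w = q r`, `gmap φ (gr f * r) = gr (φ f) * gmap φ r`. Now `refine_flag` gives `σ`, `Fl'`, `L`.
`σ (inl h) = ρ h ≠ 1` since `ρ h (q 1) - q 1 = q (gr h - 1) ≠ 0`. -/

set_option autoImplicit false

namespace Pool.H11.FC

theorem semi_rep {F : Type} [Group F] (φ : MulAut F) (C : Filt (QA F)) (H : Subgroup F)
    (hH : ∀ h ∈ H, gr h - 1 ∈ C.C 1)
    (hφ : ∀ (i : ℕ) (r : QA F), r ∈ C.C i → gmap (φ : F →* F) r ∈ C.C i)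
    (hφ' : ∀ (i : ℕ) (r : QA F), r ∈ C.C i → gmap ((φ⁻¹ : MulAut F) : F →* F) r ∈ C.C i)
    (hE : ∀ j : ℕ, ∃ E : ℕ, ∀ r ∈ C.C j, ((DD φ) ^ E) r ∈ C.C (j + 1))
    (n : ℕ) (h : F) (hn : gr h - 1 ∉ C.C n) :
    ∃ (W : Type) (_ : AddCommGroup W) (_ : Module ℚ W) (σ : Representation ℚ (MT F φ) W)
      (Fl' : ℕ → Submodule ℚ W) (L : ℕ),
      Antitone Fl' ∧ Fl' 0 = ⊤ ∧ Fl' L = ⊥ ∧
      (∀ x : MT F φ, x.left ∈ H → ∀ (i : ℕ) (v : W), v ∈ Fl' i → σ x v - v ∈ Fl' (i + 1)) ∧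
      σ (SemidirectProduct.inl h) ≠ 1 := by
  obtain ⟨W, i1, i2, ρ, T, q, hq, hker, hρ, hT⟩ := quot_rep C n φ hφ hφ'
  have hcomm : ∀ f w, T (ρ f w) = ρ (φ f) (T w) := by
    intro f w
    obtain ⟨r, rfl⟩ := hq w
    rw [hρ, hT, hT, hρ, map_mul, gmap_gr]
    rfl
  have hinv : ∀ r : QA F, gmap (φ : F →* F) (gmap ((φ⁻¹ : MulAut F) : F →* F) r) = r := by
    intro r
    rw [gmap_comp]
    have h1 : (φ : F →* F).comp ((φ⁻¹ : MulAut F) : F →* F) = MonoidHom.id F := by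
      ext f
      exact MulEquiv.apply_symm_apply φ f
    rw [h1, gmap_id]
  have hTs : ∀ r : QA F, T.symm (q r) = q (gmap ((φ⁻¹ : MulAut F) : F →* F) r) := by
    intro r
    rw [LinearEquiv.symm_apply_eq, hT, hinv]
  have hpow : ∀ (E : ℕ) (r : QA F), ((T.toLinearMap - 1) ^ E) (q r) = q (((DD φ) ^ E) r) := by
    intro E
    induction E with
    | zero => intro r; simp
    | succ E ih =>
      intro r
      rw [pow_succ', pow_succ', Module.End.mul_apply, Module.End.mul_apply, ih]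
      have h1 : (DD φ) ((DD φ ^ E) r) =
          gmap (φ : F →* F) ((DD φ ^ E) r) - (DD φ ^ E) r := rfl
      rw [h1, map_sub, ← hT]
      rfl
  obtain ⟨σ, Fl', L, h1, h2, h3, h4, h5⟩ := refine_flag φ ρ T hcomm H
    (fun i => (C.C i).map q) n
    (fun i j hij => Submodule.map_mono (C.anti hij))
    (by rw [C.top, Submodule.map_top, LinearMap.range_eq_top.mpr hq])
    (by
      rw [Submodule.eq_bot_iff]
      rintro x ⟨r, hr, rfl⟩
      exact (hker r).mpr hr)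
    (by
      rintro g hg i v ⟨r, hr, rfl⟩
      refine ⟨(gr g - 1) * r, ?_, ?_⟩
      · have h6 := C.mul (hH g hg) hr
        rw [add_comm] at h6
        exact h6
      · rw [hρ, sub_mul, one_mul, map_sub])
    (by
      rintro i w ⟨r, hr, rfl⟩
      exact ⟨_, hφ i r hr, (hT r).symm⟩)
    (by
      rintro i w ⟨r, hr, rfl⟩
      exact ⟨_, hφ' i r hr, (hTs r).symm⟩)
    (by
      intro i
      obtain ⟨E, hE'⟩ := hE i
      refine ⟨E, ?_⟩
      rintro w ⟨r, hr, rfl⟩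
      exact ⟨_, hE' r hr, (hpow E r).symm⟩)
  refine ⟨W, i1, i2, σ, Fl', L, h1, h2, h3, h4, ?_⟩
  rw [h5]
  intro h6
  apply hn
  rw [← hker, map_sub]
  have h7 : ρ h (q 1) = q (gr h * 1) := hρ h 1
  rw [h6, mul_one] at h7
  rw [← h7]
  exact sub_self _

end Pool.H11.FC
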