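import Pool.Agent.H11.FC.Unip
import Pool.Agent.H11.FC.Semi
import Pool.Agent.H11.FC.CGD
import Pool.Agent.H11.FC.Det

/-! # The relative homological criterion

PROOF. Let `x ∈ Ĥ`, `x ≠ 1`. If `x.right ≠ 1` use the homomorphism to `Multiplicative ℤ` (nilpotent since commutative, torsion-free). If `x.right = 1`, then `x = inl h`, `h = x.left ∈ (th ι N).ker`,
`h ≠ 1`. `K` is normal in `MT A α` (by `hK`: for `x = (a, t^j)` and `(n, t^i) ∈ K` the left part of the conjugate is `a α^j(n) (α^i(a))⁻¹ ∈ N` because `α` acts trivially on `A ⧸ N`, `hα`, and `N` is normal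
and `α`-invariant; simplest: `K` is the kernel of the homomorphism `MT A α → A ⧸ N`, `(a, t^j) ↦ mk a`, `SemidirectProduct.lift`). `K` contains `inl n` (`n ∈ N`) and `inr (ofAdd 1)`.
`cg_detect` gives `n` with `¬ CG N α n (gr h - 1)`. Apply `semi_rep` to `φ`, the filtration of `exists_cgFilt`, `H = (th ι N).ker`: `cg_ker`, `cg_stable`, `cg_stable_inv`, `cg_dnil`.
The result is a representation `σ` of `MT (FP A ι) φ`; restrict it to `Ĥ` (`σ.comp Ĥ.subtype`) and apply `unip` with `g = x`. -/

set_option autoImplicit false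

namespace Pool.H11.FC

/-- The automorphisms that act trivially modulo `N`. -/
private def crit_S {A : Type} [Group A] (N : Subgroup A) [N.Normal] : Subgroup (MulAut A) where
  carrier := {β | ∀ a, QuotientGroup.mk' N (β a) = QuotientGroup.mk' N a}
  mul_mem' := by
    intro β γ hβ hγ a
    rw [MulAut.mul_apply, hβ, hγ]
  one_mem' := by
    intro a
    rfl
  inv_mem' := by
    intro β hβ a
    have h := hβ ((β⁻¹ : MulAut A) a)
    rw [MulAut.apply_inv_self] at h
    exact h.symm

private theorem crit_normal {A : Type} [Group A] (N : Subgroup A) [N.Normal] (α : MulAut A)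
    (hα : ∀ a, α a * a⁻¹ ∈ N) (K : Subgroup (MT A α)) (hK : ∀ x : MT A α, x ∈ K ↔ x.left ∈ N) :
    K.Normal := by
  have hαS : α ∈ crit_S N := by
    intro a
    have h := (QuotientGroup.eq_one_iff _).mpr (hα a)
    have h1 : QuotientGroup.mk' N (α a * a⁻¹) = 1 := h
    rw [map_mul, map_inv, mul_inv_eq_one] at h1
    exact h1
  let Ψ : MT A α →* A ⧸ N := SemidirectProduct.lift (QuotientGroup.mk' N) 1 (by
    intro g
    ext a
    have hg : (zpowersHom (MulAut A) α) g ∈ crit_S N := by
      rw [zpowersHom_apply]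
      exact Subgroup.zpow_mem _ hαS _
    have := hg a
    simpa using this)
  have hΨ : ∀ x : MT A α, Ψ x = QuotientGroup.mk' N x.left := by
    intro x
    change QuotientGroup.mk' N x.left * 1 = _
    rw [mul_one]
  have hKe : K = Ψ.ker := by
    ext x
    rw [hK, MonoidHom.mem_ker, hΨ]
    exact (QuotientGroup.eq_one_iff _).symm
  rw [hKe]
  infer_instance

theorem crit0 {A : Type} [Group A] {ι : Type} (N : Subgroup A) [N.Normal] (α : MulAut A)
    (hα : ∀ a, α a * a⁻¹ ∈ N) (φ : MulAut (FP A ι))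
    (hφ : ∀ a : A, φ (Monoid.Coprod.inl a) = Monoid.Coprod.inl (α a))
    (hx : ∀ i : ι, th ι N (φ (xx i)) = 1) (e : ℕ)
    (he : ∀ h ∈ (th ι N).ker, (fun x => φ x * x⁻¹)^[e] h ∈ relS ι N)
    (K : Subgroup (MT A α)) (hK : ∀ x : MT A α, x ∈ K ↔ x.left ∈ N) (hRU : RU K)
    (H : Subgroup (MT (FP A ι) φ)) (hH : ∀ x : MT (FP A ι) φ, x ∈ H ↔ x.left ∈ (th ι N).ker) :
    RTFN H := by
  intro x hx1
  by_cases hr : x.1.right = 1
  · have hxe : (SemidirectProduct.inl x.1.left : MT (FP A ι) φ) = x.1 := by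
      apply SemidirectProduct.ext
      · rfl
      · exact hr.symm
    have hne : x.1.left ≠ 1 := by
      intro h
      apply hx1
      apply Subtype.ext
      rw [← hxe, h, map_one]
      rfl
    have hker := (hH x.1).mp x.2
    have : K.Normal := crit_normal N α hα K hK
    have hN : ∀ n ∈ N, (SemidirectProduct.inl n : MT A α) ∈ K := by
      intro n hn
      rw [hK]
      exact hn
    have ht : (SemidirectProduct.inr (Multiplicative.ofAdd (1 : ℤ)) : MT A α) ∈ K := by
      rw [hK]
      exact N.one_mem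
    obtain ⟨n, hn⟩ := cg_detect (ι := ι) N α K hN ht hRU x.1.left hne
    obtain ⟨C, hC⟩ := exists_cgFilt ι N α
    obtain ⟨W, iW, jW, σ, Fl', L, hanti, htop, hbot, hraise, hσ⟩ :=
      semi_rep φ C (th ι N).ker
        (fun h hh => (hC _ _).mpr (cg_ker N α h hh))
        (fun i r hr => (hC _ _).mpr (cg_stable N α hα φ hφ hx ((hC _ _).mp hr)))
        (fun i r hr => (hC _ _).mpr (cg_stable_inv N α hα φ hφ hx ((hC _ _).mp hr)))
        (fun j => ⟨(e + 1) * j + 1, fun r hr =>
          (hC _ _).mpr (cg_dnil N α hα φ hφ hx e he j r ((hC _ _).mp hr))⟩)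
        n x.1.left (fun h => hn ((hC _ _).mp h))
    rw [hxe] at hσ
    exact unip (σ.comp H.subtype) Fl' L hanti htop hbot
      (fun g i v hv => hraise g.1 ((hH g.1).mp g.2) i v hv) x hσ
  · refine ⟨Multiplicative ℤ, inferInstance, SemidirectProduct.rightHom.comp H.subtype,
      inferInstance, ?_, hr⟩
    intro q k hk hq
    have h1 : (k : ℤ) * Multiplicative.toAdd q = 0 := by
      have h2 := congrArg Multiplicative.toAdd hq
      rw [toAdd_pow, toAdd_one, nsmul_eq_mul] at h2
      exact h2
    rcases mul_eq_zero.mp h1 with h2 | h2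
    · exact absurd h2 (by exact_mod_cast hk.ne')
    · exact h2

end Pool.H11.FC
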