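import Pool.Agent.H11.FC.TFN

/-! # Finitely generated residually torsion-free nilpotent groups are residually unipotent

PROOF. `g ≠ 1`; take `f : G →* Q` with `f g ≠ 1`; `M = f.range` is f.g., nilpotent, torsion-free. `RU_of_tfn`: `¬ Aug M n (gr ⟨f g, _⟩ - 1)` for some `n`.
By `aug_map f.rangeRestrict` and `gmap_gr`, `¬ Aug G n (gr g - 1)`. -/

set_option autoImplicit false

namespace Pool.H11.FC

theorem RU_of_RTFN {G : Type} [Group G] (hfg : Group.FG G) (h : RTFN G) : RU G := by
  intro g hg
  obtain ⟨Q, hQ, f, hnil, htf, hfg1⟩ := h g hg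
  have := hfg
  have := hnil
  have hMfg : Group.FG f.range := Group.fg_of_surjective f.rangeRestrict_surjective
  have hMnil : Group.IsNilpotent f.range := inferInstance
  have hMtf : ∀ m : f.range, ∀ k : ℕ, 0 < k → m ^ k = 1 → m = 1 := by
    intro m k hk hm
    apply Subtype.ext
    apply htf (m : Q) k hk
    rw [← Subgroup.coe_pow, hm]
    rfl
  have hRU := RU_of_tfn hMfg hMnil hMtf
  have hne : f.rangeRestrict g ≠ 1 := by
    intro h1
    apply hfg1
    have := congrArg (fun m : f.range => (m : Q)) h1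
    exact this
  obtain ⟨n, hn⟩ := hRU (f.rangeRestrict g) hne
  refine ⟨n, fun hA => hn ?_⟩
  have h1 := aug_map f.rangeRestrict hA
  rw [map_sub, map_one, gmap_gr] at h1
  exact h1

end Pool.H11.FC
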