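import Pool.Agent.H11.FC.Defs

/-! # Permanence properties

PROOFS. `RTFN_of_inj`, `VRTFN_of_inj`: pull back (`Subgroup.comap`; `Subgroup.index_comap`-type facts: the index of the preimage is nonzero). `VRTFN_of_index`: map the subgroup of `H` to `G`
(`Subgroup.map H.subtype`, index = product). `exists_normal`: `Subgroup.normalCore`, of finite index. `VRTFN_prod`: `H₁.prod H₂`; `RTFN` of a product: if `(g₁,g₂) ≠ 1` project to a nontrivial factor.
`mt_pow_embed`: `f (x, t^j) = (x, t^{p j})`: `SemidirectProduct.map`/`lift`; `(φ^p)^j = φ^{pj}`. Injective for `p ≠ 0`. The image is `{x | p ∣ toAdd x.right}`, the preimage of `pℤ` under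
`MT F φ → Multiplicative ℤ`, so of finite index. `VRTFN_pow`: both directions from this.
`mt_sub_index`: the subgroup `{x : MT F φ | x.left ∈ H}` for `H = ker θ`, `θ : F →* B`, `B` finite, `θ (φ x) = θ x`, is the kernel of `MT F φ → B`, `(x, t^j) ↦ θ x`, so of finite index. -/

set_option autoImplicit false

namespace Pool.H11.FC

theorem RTFN_of_inj {G G' : Type} [Group G] [Group G'] (f : G →* G') (hf : Function.Injective f)
    (h : RTFN G') : RTFN G := by
  intro g hg
  have hg' : f g ≠ 1 := fun h1 => hg (hf (by rw [h1, map_one]))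
  obtain ⟨Q, iQ, k, hnil, htf, hk⟩ := h (f g) hg'
  exact ⟨Q, iQ, k.comp f, hnil, htf, hk⟩

theorem VRTFN_of_inj {G G' : Type} [Group G] [Group G'] (f : G →* G')
    (hf : Function.Injective f) (h : VRTFN G') : VRTFN G := by
  obtain ⟨H, hi, hr⟩ := h
  refine ⟨H.comap f, ?_, ?_⟩
  · rw [Subgroup.index_comap]
    exact fun h0 => hi (Subgroup.index_eq_zero_of_relIndex_eq_zero h0)
  · refine RTFN_of_inj (f.subgroupComap H) ?_ hr
    intro x y hxy
    apply Subtype.ext
    apply hf
    exact congrArg Subtype.val hxy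

theorem VRTFN_of_index {G : Type} [Group G] (H : Subgroup G) (hi : H.index ≠ 0) (h : VRTFN H) :
    VRTFN G := by
  obtain ⟨K, hK, hr⟩ := h
  refine ⟨K.map H.subtype, ?_, ?_⟩
  · rw [Subgroup.index_map_subtype]
    exact Nat.mul_ne_zero hK hi
  · exact RTFN_of_inj (K.equivMapOfInjective H.subtype H.subtype_injective).symm.toMonoidHom
      (MulEquiv.injective _) hr

theorem VRTFN.exists_normal {G : Type} [Group G] (h : VRTFN G) :
    ∃ K : Subgroup G, K.Normal ∧ K.index ≠ 0 ∧ RTFN K := by
  obtain ⟨H, hi, hr⟩ := h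
  haveI : H.FiniteIndex := ⟨hi⟩
  refine ⟨H.normalCore, inferInstance, Subgroup.FiniteIndex.index_ne_zero, ?_⟩
  exact RTFN_of_inj (Subgroup.inclusion (Subgroup.normalCore_le H))
    (Subgroup.inclusion_injective _) hr

theorem VRTFN_prod {G G' : Type} [Group G] [Group G'] (h : VRTFN G) (h' : VRTFN G') :
    VRTFN (G × G') := by
  obtain ⟨H, hi, hr⟩ := h
  obtain ⟨H', hi', hr'⟩ := h'
  refine ⟨H.prod H', ?_, ?_⟩
  · rw [Subgroup.index_prod]
    exact Nat.mul_ne_zero hi hi'
  · refine RTFN_of_inj (G' := H × H') (H.prodEquiv H').toMonoidHom (MulEquiv.injective _) ?_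
    rintro ⟨a, b⟩ hab
    by_cases ha : a = 1
    · have hb : b ≠ 1 := fun hb => hab (by rw [ha, hb]; rfl)
      obtain ⟨Q, iQ, k, hnil, htf, hk⟩ := hr' b hb
      exact ⟨Q, iQ, k.comp (MonoidHom.snd H H'), hnil, htf, hk⟩
    · obtain ⟨Q, iQ, k, hnil, htf, hk⟩ := hr a ha
      exact ⟨Q, iQ, k.comp (MonoidHom.fst H H'), hnil, htf, hk⟩

theorem mt_pow_embed {F : Type} [Group F] (φ : MulAut F) (p : ℕ) (hp : 0 < p) :
    ∃ f : MT F (φ ^ p) →* MT F φ, Function.Injective f ∧ f.range.index ≠ 0 ∧
      (∀ x : MT F (φ ^ p), (f x).left = x.left) ∧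
      ∀ x : MT F (φ ^ p), (f x).right = x.right ^ p := by
  have hcond : ∀ g : Multiplicative ℤ,
      (MonoidHom.id F).comp (zpowersHom (MulAut F) (φ ^ p) g).toMonoidHom =
        (zpowersHom (MulAut F) φ (powMonoidHom p g)).toMonoidHom.comp (MonoidHom.id F) := by
    intro g
    have e : zpowersHom (MulAut F) φ (powMonoidHom p g) = zpowersHom (MulAut F) (φ ^ p) g := by
      rw [zpowersHom_apply, zpowersHom_apply, powMonoidHom_apply, toAdd_pow, nsmul_eq_mul,
        zpow_mul, zpow_natCast]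
    rw [e]
    rfl
  obtain ⟨f, hf⟩ : ∃ f : MT F (φ ^ p) →* MT F φ,
      f = SemidirectProduct.map (MonoidHom.id F) (powMonoidHom p) hcond := ⟨_, rfl⟩
  have hl : ∀ x : MT F (φ ^ p), (f x).left = x.left := fun x => by rw [hf]; rfl
  have hr : ∀ x : MT F (φ ^ p), (f x).right = x.right ^ p := fun x => by rw [hf]; rfl
  refine ⟨f, ?_, ?_, hl, hr⟩
  · intro x y hxy
    apply SemidirectProduct.ext
    · rw [← hl x, ← hl y, hxy]
    · have h1 : x.right ^ p = y.right ^ p := by rw [← hr x, ← hr y, hxy]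
      have h2 := congrArg Multiplicative.toAdd h1
      rw [toAdd_pow, toAdd_pow, nsmul_eq_mul, nsmul_eq_mul] at h2
      have h3 : Multiplicative.toAdd x.right = Multiplicative.toAdd y.right :=
        mul_left_cancel₀ (by exact_mod_cast hp.ne') h2
      exact Multiplicative.toAdd.injective h3
  · haveI : NeZero p := ⟨hp.ne'⟩
    let q : MT F φ →* Multiplicative (ZMod p) :=
      (AddMonoidHom.toMultiplicative (Int.castAddHom (ZMod p))).comp SemidirectProduct.rightHom
    have hle : q.ker ≤ f.range := by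
      intro x hx
      have h1 : ((Multiplicative.toAdd x.right : ℤ) : ZMod p) = 0 := by
        have h2 : q x = 1 := hx
        exact congrArg Multiplicative.toAdd h2
      obtain ⟨j, hj⟩ := (ZMod.intCast_zmod_eq_zero_iff_dvd _ _).1 h1
      refine ⟨⟨x.left, Multiplicative.ofAdd j⟩, ?_⟩
      apply SemidirectProduct.ext
      · exact hl _
      · rw [hr]
        apply Multiplicative.toAdd.injective
        rw [toAdd_pow, nsmul_eq_mul, hj]
        rfl
    haveI : q.ker.FiniteIndex := inferInstance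
    haveI := Subgroup.finiteIndex_of_le hle
    exact Subgroup.FiniteIndex.index_ne_zero

theorem VRTFN_of_pow {F : Type} [Group F] (φ : MulAut F) (p : ℕ) (hp : 0 < p)
    (h : VRTFN (MT F (φ ^ p))) : VRTFN (MT F φ) := by
  obtain ⟨f, hf, hi, -, -⟩ := mt_pow_embed φ p hp
  refine VRTFN_of_index f.range hi ?_
  exact VRTFN_of_inj (MonoidHom.ofInjective hf).symm.toMonoidHom (MulEquiv.injective _) h

theorem mt_left_ker {F B : Type} [Group F] [Group B] (φ : MulAut F) (θ : F →* B)
    (hθ : ∀ x, θ (φ x) = θ x) :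
    ∃ f : MT F φ →* B, ∀ x : MT F φ, f x = θ x.left := by
  have key : ∀ (j : ℤ) (x : F), θ ((φ ^ j) x) = θ x := by
    intro j
    induction j using Int.induction_on with
    | zero => intro x; rw [zpow_zero, MulAut.one_apply]
    | succ j ih =>
      intro x
      rw [zpow_add_one, MulAut.mul_apply, ih, hθ]
    | pred j ih =>
      intro x
      rw [zpow_sub_one, MulAut.mul_apply, ih, ← hθ (φ⁻¹ x), MulAut.apply_inv_self]
  refine ⟨SemidirectProduct.lift θ 1 ?_, ?_⟩
  · intro g
    ext1 x
    simp only [MonoidHom.comp_apply, MulEquiv.coe_toMonoidHom, MulAut.conj_apply,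
      MonoidHom.one_apply, one_mul, inv_one, mul_one]
    exact key _ x
  · intro x
    show θ x.left * 1 = θ x.left
    rw [mul_one]

end Pool.H11.FC
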