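import Pool.Agent.H11.FC.Crit
import Pool.Agent.H11.FC.VR
import Pool.Agent.H11.FC.RUof

/-! # The criterion, virtual form

PROOF of `crit1`. By `VRTFN_of_pow φ p hp` it suffices to treat `φ^p`, with `(φ^p) (inl a) = inl ((α^p) a)`, `(α^p) a * a⁻¹ ∈ N`, `th ι N ((φ^p) (xx i)) = 1` (`th_comp`, induction on `p`).
Let `K' = {x : MT A (α^p) | x.left ∈ N}` (kernel of `MT A (α^p) → A ⧸ N`, `mt_left_ker`, with `θ = mk' N`), of finite index in `MT A (α^p)`, which is f.g. (generated by `inl` of generators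
of `A` and `inr (ofAdd 1)`), so `K'` is f.g. (`Subgroup.fg_of_index_ne_zero`). `mt_pow_embed α p` maps `K'` injectively into `K` (it preserves `left`), so `RTFN K'` (`RTFN_of_inj`), `RU K'`
(`RU_of_RTFN`). Let `H' = {x : MT (FP A ι) (φ^p) | x.left ∈ (th ι N).ker}` (kernel of the homomorphism of `mt_left_ker` for `θ = th ι N`, of finite index since `A ⧸ N` is finite).
`crit0` gives `RTFN H'`, so `VRTFN (MT (FP A ι) (φ^p))` (`VRTFN` by definition with the subgroup `H'`).
PROOF of `setup`. `(VRTFN (MT A α)).exists_normal` gives `K₀` normal of finite index with `RTFN K₀`. `t = inr (ofAdd 1)`; some `p > 0` has `t^p ∈ K₀`. `N = K₀.comap inl`, normal in `A`, of finite index.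
`(α^p) a * a⁻¹`: `inl ((α^p) a) = t^p inl a t^{-p}`, so `inl ((α^p) a * a⁻¹) = t^p (inl a t^{-p} inl a⁻¹) ∈ K₀`. For `K = {x : MT A (α^p) | x.left ∈ N}`: `mt_pow_embed α p` maps `K`
into `K₀`: `f (a, t^j) = inl a * t^{p j}`. `RTFN_of_inj`. -/

set_option autoImplicit false

namespace Pool.H11.FC

private theorem crit1_fg {A : Type} [Group A] (hfg : Group.FG A) (α : MulAut A) :
    Group.FG (MT A α) := by
  rw [Group.fg_iff] at hfg ⊢
  obtain ⟨S, hS, hSf⟩ := hfg
  refine ⟨(SemidirectProduct.inl '' S) ∪ {SemidirectProduct.inr (Multiplicative.ofAdd 1)}, ?_,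
    (hSf.image _).union (Set.finite_singleton _)⟩
  set T : Set (MT A α) :=
    (SemidirectProduct.inl '' S) ∪ {SemidirectProduct.inr (Multiplicative.ofAdd 1)} with hT
  rw [eq_top_iff]
  intro x _
  have h1 : ∀ a : A, (SemidirectProduct.inl a : MT A α) ∈ Subgroup.closure T := by
    intro a
    have h2 : a ∈ (Subgroup.closure T).comap (SemidirectProduct.inl : A →* MT A α) := by
      have h3 : Subgroup.closure S ≤
          (Subgroup.closure T).comap (SemidirectProduct.inl : A →* MT A α) := by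
        rw [Subgroup.closure_le]
        intro s hs
        exact Subgroup.subset_closure (Or.inl ⟨s, hs, rfl⟩)
      apply h3
      rw [hS]
      trivial
    exact h2
  have h2 : ∀ k : Multiplicative ℤ, (SemidirectProduct.inr k : MT A α) ∈ Subgroup.closure T := by
    intro k
    have h3 : k = (Multiplicative.ofAdd (1 : ℤ)) ^ (Multiplicative.toAdd k) := by
      rw [← ofAdd_zsmul]
      simp
    have h5 : (SemidirectProduct.inr (Multiplicative.ofAdd (1 : ℤ)) : MT A α) ∈
        Subgroup.closure T := Subgroup.subset_closure (Or.inr rfl)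
    have h6 := Subgroup.zpow_mem _ h5 (Multiplicative.toAdd k)
    rw [← map_zpow, ← h3] at h6
    exact h6
  have h4 := Subgroup.mul_mem (Subgroup.closure T) (h1 x.left) (h2 x.right)
  rwa [SemidirectProduct.inl_left_mul_inr_right] at h4

private theorem crit1_sub {A : Type} [Group A] (N : Subgroup A) [N.Normal] (α : MulAut A)
    (hα : ∀ a, α a * a⁻¹ ∈ N) (p : ℕ) : ∀ a, (α ^ p) a * a⁻¹ ∈ N := by
  induction p with
  | zero => intro a; simp
  | succ p ih =>
    intro a
    have h : (α ^ (p + 1)) a * a⁻¹ = (α ((α ^ p) a) * ((α ^ p) a)⁻¹) * ((α ^ p) a * a⁻¹) := by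
      rw [pow_succ', MulAut.mul_apply]
      group
    rw [h]
    exact N.mul_mem (hα _) (ih a)

private theorem crit1_mk {A : Type} [Group A] (N : Subgroup A) [N.Normal] (α : MulAut A)
    (hα : ∀ a, α a * a⁻¹ ∈ N) (a : A) : QuotientGroup.mk' N (α a) = QuotientGroup.mk' N a := by
  have h1 : QuotientGroup.mk' N (α a * a⁻¹) = 1 := (QuotientGroup.eq_one_iff _).2 (hα a)
  rw [map_mul, map_inv, mul_inv_eq_one] at h1
  exact h1

theorem crit1 {A : Type} [Group A] (hfg : Group.FG A) {ι : Type} [Finite ι] (N : Subgroup A)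
    [N.Normal] (hN : N.index ≠ 0) (α : MulAut A) (hα : ∀ a, α a * a⁻¹ ∈ N)
    (φ : MulAut (FP A ι))
    (hφ : ∀ a : A, φ (Monoid.Coprod.inl a) = Monoid.Coprod.inl (α a))
    (hx : ∀ i : ι, th ι N (φ (xx i)) = 1) (p : ℕ) (hp : 0 < p) (e : ℕ)
    (he : ∀ h ∈ (th ι N).ker, (fun x => (φ ^ p) x * x⁻¹)^[e] h ∈ relS ι N)
    (K : Subgroup (MT A α)) (hK : ∀ x : MT A α, x ∈ K ↔ x.left ∈ N) (hR : RTFN K) :
    VRTFN (MT (FP A ι) φ) := by
  have : N.FiniteIndex := ⟨hN⟩
  have hfin : Finite (A ⧸ N) := Subgroup.finite_quotient_of_finiteIndex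
  have hα' := crit1_sub N α hα p
  have hφ' : ∀ q : ℕ, ∀ a : A, (φ ^ q) (Monoid.Coprod.inl a) = Monoid.Coprod.inl ((α ^ q) a) := by
    intro q
    induction q with
    | zero => intro a; simp
    | succ q ih =>
      intro a
      rw [pow_succ', MulAut.mul_apply, ih, hφ, pow_succ', MulAut.mul_apply]
  have hth : ∀ q : ℕ, ∀ y : FP A ι, th ι N ((φ ^ q) y) = th ι N y := by
    intro q
    induction q with
    | zero => intro a; simp
    | succ q ih =>
      intro y
      rw [pow_succ', MulAut.mul_apply, th_comp N α hα φ hφ hx, ih]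
  have hx' : ∀ i : ι, th ι N ((φ ^ p) (xx i)) = 1 := by
    intro i
    rw [hth]
    unfold th xx
    rw [Monoid.Coprod.lift_apply_inr]
    rfl
  obtain ⟨f, hf⟩ := mt_left_ker (α ^ p) (QuotientGroup.mk' N) (crit1_mk N (α ^ p) hα')
  have hK' : ∀ x : MT A (α ^ p), x ∈ f.ker ↔ x.left ∈ N := by
    intro x
    rw [MonoidHom.mem_ker, hf]
    exact QuotientGroup.eq_one_iff _
  have hfg1 : Group.FG (MT A (α ^ p)) := crit1_fg hfg _
  have hfg2 : Group.FG f.ker := by
    have : f.ker.FiniteIndex := Subgroup.finiteIndex_ker f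
    infer_instance
  obtain ⟨g, hg1, _, hg2, _⟩ := mt_pow_embed α p hp
  have hg3 : ∀ x : f.ker, (g.comp f.ker.subtype) x ∈ K := by
    intro x
    rw [hK, MonoidHom.comp_apply, hg2]
    exact (hK' x).1 x.2
  have hR' : RTFN f.ker := by
    refine RTFN_of_inj ((g.comp f.ker.subtype).codRestrict K hg3) ?_ hR
    intro x y hxy
    have h1 : (g.comp f.ker.subtype) x = (g.comp f.ker.subtype) y := congrArg Subtype.val hxy
    exact Subtype.ext (hg1 h1)
  have hRU : RU f.ker := RU_of_RTFN hfg2 hR'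
  obtain ⟨f2, hf2⟩ := mt_left_ker (φ ^ p) (th ι N) (hth p)
  have hH : ∀ x : MT (FP A ι) (φ ^ p), x ∈ f2.ker ↔ x.left ∈ (th ι N).ker := by
    intro x
    rw [MonoidHom.mem_ker, hf2, MonoidHom.mem_ker]
  have hfi : f2.ker.FiniteIndex := Subgroup.finiteIndex_ker f2
  exact VRTFN_of_pow φ p hp ⟨f2.ker, hfi.index_ne_zero,
    crit0 N (α ^ p) hα' (φ ^ p) (hφ' p) hx' e he f.ker hK' hRU f2.ker hH⟩

theorem setup {A : Type} [Group A] (α : MulAut A) (h : VRTFN (MT A α)) :
    ∃ (p : ℕ) (N : Subgroup A), 0 < p ∧ N.Normal ∧ N.index ≠ 0 ∧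
      (∀ a, (α ^ p) a * a⁻¹ ∈ N) ∧
      ∃ K : Subgroup (MT A (α ^ p)), (∀ x : MT A (α ^ p), x ∈ K ↔ x.left ∈ N) ∧ RTFN K := by
  obtain ⟨K₀, hn, hi, hR⟩ := h.exists_normal
  set t : MT A α := SemidirectProduct.inr (Multiplicative.ofAdd 1) with ht
  obtain ⟨p, hp, _, htp⟩ := Subgroup.exists_pow_mem_of_index_ne_zero hi t
  have htp' : t ^ p = SemidirectProduct.inr (Multiplicative.ofAdd (p : ℤ)) := by
    rw [ht, ← map_pow, ← ofAdd_nsmul]
    simp
  have hφp : (zpowersHom (MulAut A) α) (Multiplicative.ofAdd (p : ℤ)) = α ^ p := by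
    simp [zpowersHom_apply]
  have hN : (K₀.comap (SemidirectProduct.inl : A →* MT A α)).Normal := Subgroup.normal_comap _
  have hNi : (K₀.comap (SemidirectProduct.inl : A →* MT A α)).FiniteIndex := by
    refine ⟨?_⟩
    rw [Subgroup.index_comap]
    exact fun h => hi (Subgroup.index_eq_zero_of_relIndex_eq_zero h)
  set N : Subgroup A := K₀.comap (SemidirectProduct.inl : A →* MT A α) with hNdef
  have hα : ∀ a, (α ^ p) a * a⁻¹ ∈ N := by
    intro a
    rw [hNdef, Subgroup.mem_comap]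
    have h1 : (SemidirectProduct.inl ((α ^ p) a * a⁻¹) : MT A α) =
        t ^ p * (SemidirectProduct.inl a * (t ^ p)⁻¹ * (SemidirectProduct.inl a)⁻¹) := by
      rw [map_mul, ← hφp, SemidirectProduct.inl_aut, htp', map_inv, map_inv]
      group
    rw [h1]
    exact K₀.mul_mem htp (hn.conj_mem _ (K₀.inv_mem htp) _)
  refine ⟨p, N, hp, hN, hNi.index_ne_zero, hα, ?_⟩
  obtain ⟨f, hf⟩ := mt_left_ker (α ^ p) (QuotientGroup.mk' N) (crit1_mk N (α ^ p) hα)
  have hK' : ∀ x : MT A (α ^ p), x ∈ f.ker ↔ x.left ∈ N := by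
    intro x
    rw [MonoidHom.mem_ker, hf]
    exact QuotientGroup.eq_one_iff _
  refine ⟨f.ker, hK', ?_⟩
  obtain ⟨g, hg1, _, hg2, hg4⟩ := mt_pow_embed α p hp
  have hg3 : ∀ x : f.ker, (g.comp f.ker.subtype) x ∈ K₀ := by
    intro x
    rw [MonoidHom.comp_apply, ← SemidirectProduct.inl_left_mul_inr_right (g (f.ker.subtype x)), hg2,
      hg4]
    apply K₀.mul_mem
    · exact (hK' x).1 x.2
    · have h3 : (f.ker.subtype x).right =
          (Multiplicative.ofAdd (1 : ℤ)) ^ (Multiplicative.toAdd (f.ker.subtype x).right) := by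
        rw [← ofAdd_zsmul]
        simp
      rw [h3, map_pow, map_zpow, ← ht, ← zpow_natCast, ← zpow_mul, mul_comm, zpow_mul, zpow_natCast]
      exact K₀.zpow_mem htp _
  refine RTFN_of_inj ((g.comp f.ker.subtype).codRestrict K₀ hg3) ?_ hR
  intro x y hxy
  have h1 : (g.comp f.ker.subtype) x = (g.comp f.ker.subtype) y := congrArg Subtype.val hxy
  exact Subtype.ext (hg1 h1)

end Pool.H11.FC
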