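import Mathlib

/-! Basic definitions for project FC (MP_065d68_al): residually torsion-free nilpotent groups,
mapping tori, filtrations of group algebras. -/

set_option autoImplicit false

namespace Pool.H11.FC

/-- Residually torsion-free nilpotent. -/
def RTFN (G : Type) [Group G] : Prop :=
  ∀ h : G, h ≠ 1 → ∃ (Q : Type) (_ : Group Q) (f : G →* Q),
    Group.IsNilpotent Q ∧ (∀ q : Q, ∀ k : ℕ, 0 < k → q ^ k = 1 → q = 1) ∧ f h ≠ 1

/-- Virtually residually torsion-free nilpotent. -/
def VRTFN (G : Type) [Group G] : Prop :=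
  ∃ H : Subgroup G, H.index ≠ 0 ∧ RTFN H

/-- The mapping torus `F ⋊ ℤ` of an automorphism. -/
abbrev MT (F : Type) [Group F] (φ : MulAut F) : Type :=
  F ⋊[zpowersHom (MulAut F) φ] Multiplicative ℤ

/-- The group algebra over the rationals. -/
abbrev QA (G : Type) [Group G] : Type := MonoidAlgebra ℚ G

/-- Group elements in the group algebra. -/
noncomputable abbrev gr {G : Type} [Group G] (g : G) : QA G := MonoidAlgebra.of ℚ G g

/-- The algebra map of a group homomorphism. -/
noncomputable def gmap {G G' : Type} [Group G] [Group G'] (f : G →* G') : QA G →ₐ[ℚ] QA G' :=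
  MonoidAlgebra.lift ℚ (QA G') G ((MonoidAlgebra.of ℚ G').comp f)

/-- `φ - 1` on the group algebra. -/
noncomputable def DD {G : Type} [Group G] (φ : MulAut G) : Module.End ℚ (QA G) :=
  (gmap (φ : G →* G)).toLinearMap - 1

/-- A decreasing multiplicative filtration of an algebra. -/
structure Filt (R : Type) [Ring R] [Algebra ℚ R] where
  C : ℕ → Submodule ℚ R
  top : C 0 = ⊤
  anti : Antitone C
  mul : ∀ {i j : ℕ} {r s : R}, r ∈ C i → s ∈ C j → r * s ∈ C (i + j)

/-- The powers of the augmentation ideal of the group algebra. -/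
inductive Aug (G : Type) [Group G] : ℕ → QA G → Prop
  | top (r : QA G) : Aug G 0 r
  | gen (g : G) : Aug G 1 (gr g - 1)
  | mul {i j : ℕ} {r s : QA G} : Aug G i r → Aug G j s → Aug G (i + j) (r * s)
  | add {i : ℕ} {r s : QA G} : Aug G i r → Aug G i s → Aug G i (r + s)
  | zero (i : ℕ) : Aug G i 0
  | mono {i : ℕ} {r : QA G} : Aug G (i + 1) r → Aug G i r

/-- Residually unipotent (over the rationals). -/
def RU (G : Type) [Group G] : Prop := ∀ g : G, g ≠ 1 → ∃ n : ℕ, ¬ Aug G n (gr g - 1)

/-- The free product of `A` and the free group on `ι`. -/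
abbrev FP (A : Type) [Group A] (ι : Type) : Type := Monoid.Coprod A (FreeGroup ι)

/-- The free letters. -/
def xx {A : Type} [Group A] {ι : Type} (i : ι) : FP A ι := Monoid.Coprod.inr (FreeGroup.of i)

/-- The projection `A * F(ι) → A / N` killing the free letters. -/
def th {A : Type} [Group A] (ι : Type) (N : Subgroup A) [N.Normal] : FP A ι →* A ⧸ N :=
  Monoid.Coprod.lift (QuotientGroup.mk' N) 1

/-- `[H, H] << N >>` for the kernel `H` of `th`. -/
def relS {A : Type} [Group A] (ι : Type) (N : Subgroup A) [N.Normal] : Subgroup (FP A ι) :=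
  ⁅(th ι N).ker, (th ι N).ker⁆ ⊔
    Subgroup.normalClosure ((Monoid.Coprod.inl : A →* FP A ι) '' (N : Set A))

/-- The filtration of the group algebra of `A` generated by `N - 1` and `α - 1`. -/
inductive BG {A : Type} [Group A] (N : Subgroup A) (α : MulAut A) : ℕ → QA A → Prop
  | top (r : QA A) : BG N α 0 r
  | gen (g : A) : g ∈ N → BG N α 1 (gr g - 1)
  | mul {i j : ℕ} {r s : QA A} : BG N α i r → BG N α j s → BG N α (i + j) (r * s)
  | add {i : ℕ} {r s : QA A} : BG N α i r → BG N α i s → BG N α i (r + s)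
  | zero (i : ℕ) : BG N α i 0
  | mono {i : ℕ} {r : QA A} : BG N α (i + 1) r → BG N α i r
  | dd {i : ℕ} {r : QA A} : BG N α i r → BG N α (i + 1) (gmap (α : A →* A) r - r)
  | ds {i : ℕ} {r : QA A} : BG N α i r → BG N α i (gmap ((α⁻¹ : MulAut A) : A →* A) r)

/-- The filtration of the group algebra of `A * F(ι)`. -/
inductive CG {A : Type} [Group A] {ι : Type} (N : Subgroup A) (α : MulAut A) :
    ℕ → QA (FP A ι) → Prop
  | top (r : QA (FP A ι)) : CG N α 0 r
  | a {i : ℕ} {b : QA A} : BG N α i b → CG N α i (gmap (Monoid.Coprod.inl : A →* FP A ι) b)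
  | x (i : ι) : CG N α 1 (gr (xx i) - 1)
  | mul {i j : ℕ} {r s : QA (FP A ι)} : CG N α i r → CG N α j s → CG N α (i + j) (r * s)
  | add {i : ℕ} {r s : QA (FP A ι)} : CG N α i r → CG N α i s → CG N α i (r + s)
  | zero (i : ℕ) : CG N α i 0
  | mono {i : ℕ} {r : QA (FP A ι)} : CG N α (i + 1) r → CG N α i r

/-- `g` acts non-scalarly. -/
def NonSc {G V : Type} [Group G] [AddCommGroup V] [Module ℚ V] (ρ : Representation ℚ G V) (g : G) :
    Prop := ∃ v : V, ∀ c : ℚ, ρ g v ≠ c • v

/-- A flagged representation: `Fl` is a finite flag preserved by `G`, and `K` raises it. -/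
structure Flag {G V : Type} [Group G] [AddCommGroup V] [Module ℚ V] (ρ : Representation ℚ G V)
    (K : Set G) (Fl : ℕ → Submodule ℚ V) (m : ℕ) : Prop where
  anti : Antitone Fl
  top : Fl 0 = ⊤
  bot : Fl m = ⊥
  pres : ∀ (g : G) (i : ℕ) (v : V), v ∈ Fl i → ρ g v ∈ Fl i
  raise : ∀ g ∈ K, ∀ (i : ℕ) (v : V), v ∈ Fl i → ρ g v - v ∈ Fl (i + 1)

end Pool.H11.FC
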