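import Pool.Agent.H11.FC.CGS

/-! # Passing to powers

`th_pow`: the set `Θ` of homomorphisms `θ : FP A ι →* A ⧸ N` with `θ (inl a) = mk a` is finite (`A ⧸ N`, `ι` finite; `θ` is determined by the `θ (xx i)`), and `θ ↦ θ ∘ φ` maps it injectively into itself
(`θ (φ (inl a)) = mk (α a) = mk a`). So it is a permutation of a finite set and some power `q > 0` is the identity; `θ = th ι N`: `th ι N ∘ φ^q = th ι N`.
`mono_pow`: `H = (th ι N).ker`, `S = relS ι N` (normal in `FP A ι`, `S ≤ H`; `φ S = S`: `φ H = H` by `th_comp`, `φ (inl N) = inl N`). Let `B` be the set of classes in `FP A ι ⧸ S` of the elements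
`f * xx j ^ ε * f⁻¹`, `ε = ± 1`. It is finite: the class depends only on `(th ι N f, j, ε)`: if `f' = f h` with `h ∈ H` then `f' x f'⁻¹ = f (h x h⁻¹) f⁻¹` and `h x h⁻¹ x⁻¹ ∈ ⁅H, H⁆`
(`xx j ∈ H`), which is normal. `φ` induces an automorphism of `FP A ι ⧸ S` mapping `B` into itself by `hmono` (`φ (f x^ε f⁻¹) = φ f (φ x)^ε (φ f)⁻¹`), injectively; so some `p > 0` has
`φ^p = id` on `B`. The set of `h` with `(φ^p) h * h⁻¹ ∈ S` is a subgroup (`S` normal and `φ^p` stable) containing `inl N` (it is in `S`), `S`, and all `f x f⁻¹`. These generate `H`: for every `f`,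
`f * (inl (π f))⁻¹` is a product of elements `g (xx i)^{±1} g⁻¹` (`π` = killing the letters; the set of `f` with this property contains `inl a`, `(xx i)^{±1}` and is closed under products, as the
subgroup generated by these conjugates is normal), and for `f ∈ H`, `π f ∈ N`. -/

set_option autoImplicit false

namespace Pool.H11.FC

private theorem powt_per {B : Type} [Finite B] (g : B → B) (hg : Function.Injective g) :
    ∃ p : ℕ, 0 < p ∧ ∀ b, g^[p] b = b := by
  let e : Equiv.Perm B := Equiv.ofBijective g (Finite.injective_iff_bijective.1 hg)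
  refine ⟨orderOf e, orderOf_pos e, fun b => ?_⟩
  have h := pow_orderOf_eq_one e
  have h2 : g^[orderOf e] = ⇑(e ^ orderOf e) := by
    rw [← Equiv.Perm.iterate_eq_pow]
    rfl
  rw [h2, h]
  rfl

private theorem powt_mk {G : Type} [Group G] (S : Subgroup G) [S.Normal] (a b : G) :
    a * b⁻¹ ∈ S ↔ QuotientGroup.mk' S a = QuotientGroup.mk' S b := by
  rw [← mul_inv_eq_one, ← map_inv, ← map_mul]
  exact (QuotientGroup.eq_one_iff (a * b⁻¹)).symm

private theorem powt_mem {G : Type} [Group G] (S : Subgroup G) [S.Normal] (a : G) :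
    a ∈ S ↔ QuotientGroup.mk' S a = 1 := (QuotientGroup.eq_one_iff a).symm

private theorem powt_th_inl {A : Type} [Group A] {ι : Type} (N : Subgroup A) [N.Normal] (a : A) :
    th ι N (Monoid.Coprod.inl a) = QuotientGroup.mk' N a := by
  unfold th
  rw [Monoid.Coprod.lift_apply_inl]

private theorem powt_th_xx {A : Type} [Group A] {ι : Type} (N : Subgroup A) [N.Normal] (i : ι) :
    th ι N (xx i) = 1 := by
  unfold th xx
  rw [Monoid.Coprod.lift_apply_inr]
  rfl

private theorem powt_hom_ext {A G : Type} [Group A] [Group G] {ι : Type} {f g : FP A ι →* G}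
    (h1 : ∀ a, f (Monoid.Coprod.inl a) = g (Monoid.Coprod.inl a))
    (h2 : ∀ i, f (xx i) = g (xx i)) : f = g := by
  apply Monoid.Coprod.hom_ext
  · ext a
    exact h1 a
  · apply FreeGroup.ext_hom
    intro i
    exact h2 i

theorem th_pow {A : Type} [Group A] {ι : Type} [Finite ι] (N : Subgroup A) [N.Normal]
    (hN : N.index ≠ 0) (α : MulAut A) (hα : ∀ a, α a * a⁻¹ ∈ N) (φ : MulAut (FP A ι))
    (hφ : ∀ a : A, φ (Monoid.Coprod.inl a) = Monoid.Coprod.inl (α a)) :
    ∃ q : ℕ, 0 < q ∧ ∀ i : ι, th ι N ((φ ^ q) (xx i)) = 1 := by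
  have hfi : N.FiniteIndex := ⟨hN⟩
  have hfin : Finite (A ⧸ N) := Subgroup.finite_quotient_of_finiteIndex
  have hB : Finite {θ : FP A ι →* A ⧸ N // ∀ a, θ (Monoid.Coprod.inl a) = QuotientGroup.mk' N a} := by
    refine Finite.of_injective (fun θ => fun i : ι => θ.1 (xx i)) ?_
    intro θ θ' h
    apply Subtype.ext
    apply powt_hom_ext
    · intro a
      rw [θ.2, θ'.2]
    · intro i
      exact congrFun h i
  let g : {θ : FP A ι →* A ⧸ N // ∀ a, θ (Monoid.Coprod.inl a) = QuotientGroup.mk' N a} →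
      {θ : FP A ι →* A ⧸ N // ∀ a, θ (Monoid.Coprod.inl a) = QuotientGroup.mk' N a} :=
    fun θ => ⟨θ.1.comp (φ : FP A ι →* FP A ι), by
      intro a
      change θ.1 (φ (Monoid.Coprod.inl a)) = _
      rw [hφ, θ.2]
      exact (powt_mk N _ _).1 (hα a)⟩
  have hgapp : ∀ θ (f : FP A ι), (g θ).1 f = θ.1 (φ f) := fun θ f => rfl
  have hg : Function.Injective g := by
    intro θ θ' h
    apply Subtype.ext
    refine MonoidHom.ext fun f => ?_
    obtain ⟨f', rfl⟩ := φ.surjective f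
    rw [← hgapp, ← hgapp, h]
  obtain ⟨q, hq, hq'⟩ := powt_per g hg
  refine ⟨q, hq, fun i => ?_⟩
  have hit : ∀ (k : ℕ) θ (f : FP A ι), (g^[k] θ).1 f = θ.1 ((φ ^ k) f) := by
    intro k
    induction k with
    | zero => intro θ f; rfl
    | succ k ih =>
      intro θ f
      rw [Function.iterate_succ_apply', hgapp, ih, pow_succ, MulAut.mul_apply]
  have h1 := hit q ⟨th ι N, powt_th_inl N⟩ (xx i)
  rw [hq'] at h1
  rw [← h1]
  exact powt_th_xx N i

theorem mono_pow {A : Type} [Group A] {ι : Type} [Finite ι] (N : Subgroup A) [N.Normal]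
    (hN : N.index ≠ 0) (α : MulAut A) (hα : ∀ a, α a * a⁻¹ ∈ N) (φ : MulAut (FP A ι))
    (hφ : ∀ a : A, φ (Monoid.Coprod.inl a) = Monoid.Coprod.inl (α a))
    (hx : ∀ i : ι, th ι N (φ (xx i)) = 1)
    (hmono : ∀ i : ι, ∃ (f : FP A ι) (j : ι) (ε : ℤ), (ε = 1 ∨ ε = -1) ∧
      φ (xx i) * (f * xx j ^ ε * f⁻¹)⁻¹ ∈ relS ι N) :
    ∃ p : ℕ, 0 < p ∧ ∀ h ∈ (th ι N).ker, (φ ^ p) h * h⁻¹ ∈ relS ι N := by
  have hSn : (relS ι N).Normal := by
    unfold relS
    infer_instance
  have hcomm : ⁅(th ι N).ker, (th ι N).ker⁆ ≤ relS ι N := le_sup_left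
  have hncl : Subgroup.normalClosure ((Monoid.Coprod.inl : A →* FP A ι) '' (N : Set A)) ≤
      relS ι N := le_sup_right
  have hinlN : ∀ n ∈ N, (Monoid.Coprod.inl n : FP A ι) ∈ relS ι N := fun n hn =>
    hncl (Subgroup.subset_normalClosure ⟨n, hn, rfl⟩)
  have hfi : N.FiniteIndex := ⟨hN⟩
  have hfin : Finite (A ⧸ N) := Subgroup.finite_quotient_of_finiteIndex
  -- stability of `relS`
  have hstab : ∀ ψ : MulAut (FP A ι), (∀ f, th ι N (ψ f) = th ι N f) →
      (∀ n ∈ N, ∃ n' ∈ N, ψ (Monoid.Coprod.inl n) = Monoid.Coprod.inl n') →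
      relS ι N ≤ (relS ι N).comap (ψ : FP A ι →* FP A ι) := by
    intro ψ hψ hψN
    conv_lhs => unfold relS
    apply sup_le
    · rw [Subgroup.commutator_le]
      intro h1 hh1 h2 hh2
      rw [Subgroup.mem_comap, MonoidHom.coe_coe, map_commutatorElement]
      apply hcomm
      apply Subgroup.commutator_mem_commutator
      · rw [MonoidHom.mem_ker, hψ]
        exact hh1
      · rw [MonoidHom.mem_ker, hψ]
        exact hh2
    · apply Subgroup.normalClosure_le_normal
      rintro _ ⟨n, hn, rfl⟩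
      obtain ⟨n', hn', h⟩ := hψN n hn
      change ψ (Monoid.Coprod.inl n) ∈ relS ι N
      rw [h]
      exact hinlN n' hn'
  have hS1 : relS ι N ≤ (relS ι N).comap (φ : FP A ι →* FP A ι) := by
    apply hstab φ (th_comp N α hα φ hφ hx)
    intro n hn
    refine ⟨α n, ?_, hφ n⟩
    have h1 := N.mul_mem (hα n) hn
    rwa [inv_mul_cancel_right] at h1
  have hS2 : relS ι N ≤ (relS ι N).comap ((φ⁻¹ : MulAut (FP A ι)) : FP A ι →* FP A ι) := by
    apply hstab φ⁻¹ (th_comp_inv N α hα φ hφ hx)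
    intro n hn
    refine ⟨α⁻¹ n, ?_, ?_⟩
    · have h1 := hα (α⁻¹ n)
      rw [MulAut.apply_inv_self] at h1
      have h2 := N.mul_mem (N.inv_mem h1) hn
      rwa [mul_inv_rev, inv_inv, inv_mul_cancel_right] at h2
    · apply φ.injective
      rw [MulAut.apply_inv_self, hφ, MulAut.apply_inv_self]
  -- the induced map of the quotient
  let m := QuotientGroup.mk' (relS ι N)
  let Ψ : FP A ι ⧸ relS ι N →* FP A ι ⧸ relS ι N :=
    QuotientGroup.map (relS ι N) (relS ι N) (φ : FP A ι →* FP A ι) hS1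
  have hΨ : ∀ f, Ψ (m f) = m (φ f) := fun f => rfl
  have hΨinj : Function.Injective Ψ := by
    rw [injective_iff_map_eq_one]
    intro q hq
    obtain ⟨f, rfl⟩ := QuotientGroup.mk'_surjective (relS ι N) q
    change Ψ (m f) = 1 at hq
    rw [hΨ] at hq
    have h1 : φ f ∈ relS ι N := (powt_mem _ _).2 hq
    have h2 := hS2 h1
    rw [Subgroup.mem_comap, MonoidHom.coe_coe, MulAut.inv_apply_self] at h2
    exact (powt_mem _ _).1 h2
  -- the classes of the conjugates of the letters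
  have hcls : ∀ (f f' : FP A ι) (j : ι) (ε : ℤ), th ι N f = th ι N f' →
      m (f * xx j ^ ε * f⁻¹) = m (f' * xx j ^ ε * f'⁻¹) := by
    intro f f' j ε hff
    rw [← powt_mk (relS ι N)]
    have hk : f'⁻¹ * f ∈ (th ι N).ker := by
      rw [MonoidHom.mem_ker, map_mul, map_inv, hff, inv_mul_cancel]
    have hxk : (xx j : FP A ι) ^ ε ∈ (th ι N).ker := by
      rw [MonoidHom.mem_ker, map_zpow, powt_th_xx, one_zpow]
    have h1 := hcomm (Subgroup.commutator_mem_commutator hk hxk)
    have h2 := hSn.conj_mem _ h1 f'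
    rw [commutatorElement_def] at h2
    have h3 : f' * (f'⁻¹ * f * xx j ^ ε * (f'⁻¹ * f)⁻¹ * ((xx j : FP A ι) ^ ε)⁻¹) * f'⁻¹ =
        f * xx j ^ ε * f⁻¹ * (f' * xx j ^ ε * f'⁻¹)⁻¹ := by
      group
    rwa [h3] at h2
  let B : Set (FP A ι ⧸ relS ι N) :=
    {b | ∃ (f : FP A ι) (j : ι) (ε : ℤ), (ε = 1 ∨ ε = -1) ∧ b = m (f * xx j ^ ε * f⁻¹)}
  have hthsurj : ∀ c : A ⧸ N, ∃ f : FP A ι, th ι N f = c := by
    intro c
    obtain ⟨a, rfl⟩ := QuotientGroup.mk'_surjective N c
    exact ⟨Monoid.Coprod.inl a, powt_th_inl N a⟩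
  choose rep hrep using hthsurj
  have hBfin : B.Finite := by
    refine Set.Finite.subset (Set.finite_range (fun t : (A ⧸ N) × ι × Bool =>
      m (rep t.1 * xx t.2.1 ^ (if t.2.2 then (1 : ℤ) else -1) * (rep t.1)⁻¹))) ?_
    rintro b ⟨f, j, ε, hε, rfl⟩
    refine ⟨(th ι N f, j, decide (ε = 1)), ?_⟩
    have h1 : (if decide (ε = 1) then (1 : ℤ) else -1) = ε := by
      rcases hε with rfl | rfl
      · simp
      · simp
    dsimp only
    rw [h1]
    exact hcls _ _ _ _ (hrep _)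
  have hBΨ : ∀ b ∈ B, Ψ b ∈ B := by
    rintro b ⟨f, i, ε, hε, rfl⟩
    obtain ⟨g, j, ε', hε', hg⟩ := hmono i
    rw [powt_mk (relS ι N)] at hg
    refine ⟨φ f * g, j, ε' * ε, ?_, ?_⟩
    · rcases hε with rfl | rfl <;> rcases hε' with rfl | rfl <;> simp
    · have h0 : φ (f * xx i ^ ε * f⁻¹) = φ f * φ (xx i) ^ ε * (φ f)⁻¹ := by
        rw [map_mul, map_mul, map_zpow, map_inv]
      rw [hΨ, h0]
      change QuotientGroup.mk' (relS ι N) _ = QuotientGroup.mk' (relS ι N) _
      rw [map_mul, map_mul, map_zpow, hg, ← map_zpow, ← map_mul, ← map_mul]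
      congr 1
      have h1 : (g * (xx j : FP A ι) ^ ε' * g⁻¹) ^ ε = g * (xx j : FP A ι) ^ (ε' * ε) * g⁻¹ := by
        rw [zpow_mul]
        exact (MulAut.conj g).toMonoidHom.map_zpow _ _ |>.symm
      rw [h1]
      group
  have hBf : Finite B := hBfin.to_subtype
  obtain ⟨p, hp, hpB⟩ := powt_per (fun b : B => (⟨Ψ b.1, hBΨ b.1 b.2⟩ : B)) (by
    intro b b' h
    apply Subtype.ext
    exact hΨinj (congrArg Subtype.val h))
  refine ⟨p, hp, ?_⟩
  have hpow : ∀ (k : ℕ) (f : FP A ι), Ψ^[k] (m f) = m ((φ ^ k) f) := by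
    intro k
    induction k with
    | zero => intro f; rfl
    | succ k ih =>
      intro f
      rw [Function.iterate_succ_apply, hΨ, ih, pow_succ, MulAut.mul_apply]
  have hval : ∀ (k : ℕ) (b : B),
      ((fun b : B => (⟨Ψ b.1, hBΨ b.1 b.2⟩ : B))^[k] b).1 = Ψ^[k] b.1 := by
    intro k
    induction k with
    | zero => intro b; rfl
    | succ k ih =>
      intro b
      rw [Function.iterate_succ_apply, Function.iterate_succ_apply, ih]
  let W : Subgroup (FP A ι) := MonoidHom.eqLocus (m.comp ((φ ^ p : MulAut (FP A ι)) : FP A ι →* FP A ι)) m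
  have hWmem : ∀ f, f ∈ W ↔ m ((φ ^ p) f) = m f := fun f => Iff.rfl
  have hWconj : ∀ (f : FP A ι) (j : ι), f * xx j * f⁻¹ ∈ W := by
    intro f j
    rw [hWmem, ← hpow]
    have h1 := congrArg Subtype.val (hpB ⟨m (f * xx j * f⁻¹), f, j, 1, Or.inl rfl, by rw [zpow_one]⟩)
    rw [hval] at h1
    exact h1
  have hWS : relS ι N ≤ W := by
    intro s hs
    rw [hWmem]
    have h1 : ∀ k : ℕ, (φ ^ k) s ∈ relS ι N := by
      intro k
      induction k with
      | zero => exact hs
      | succ k ih =>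
        rw [pow_succ', MulAut.mul_apply]
        exact hS1 ih
    rw [(powt_mem (relS ι N) _).1 (h1 p), (powt_mem (relS ι N) _).1 hs]
  have hNx : Subgroup.normalClosure (Set.range (xx : ι → FP A ι)) ≤ W := by
    unfold Subgroup.normalClosure
    rw [Subgroup.closure_le]
    intro y hy
    obtain ⟨_, ⟨j, rfl⟩, hj⟩ := Group.mem_conjugatesOfSet_iff.1 hy
    obtain ⟨f, hf⟩ := isConj_iff.1 hj
    rw [← hf]
    exact hWconj f j
  let π : FP A ι →* FP A ι := (Monoid.Coprod.inl : A →* FP A ι).comp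
    (Monoid.Coprod.lift (MonoidHom.id A) 1)
  have hπ1 : ∀ a : A, π (Monoid.Coprod.inl a) = Monoid.Coprod.inl a := by
    intro a
    change Monoid.Coprod.inl (Monoid.Coprod.lift (MonoidHom.id A) 1 (Monoid.Coprod.inl a)) = _
    rw [Monoid.Coprod.lift_apply_inl]
    rfl
  have hπ2 : ∀ i : ι, π (xx i) = 1 := by
    intro i
    change Monoid.Coprod.inl (Monoid.Coprod.lift (MonoidHom.id A) 1 (Monoid.Coprod.inr _)) = _
    rw [Monoid.Coprod.lift_apply_inr]
    exact map_one _
  intro h hh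
  rw [powt_mk (relS ι N)]
  change h ∈ W
  have h1 : (QuotientGroup.mk' (Subgroup.normalClosure (Set.range (xx : ι → FP A ι)))) =
      (QuotientGroup.mk' (Subgroup.normalClosure (Set.range (xx : ι → FP A ι)))).comp π := by
    apply powt_hom_ext
    · intro a
      rw [MonoidHom.comp_apply, hπ1]
    · intro i
      rw [MonoidHom.comp_apply, hπ2, map_one]
      exact (powt_mem _ _).1 (Subgroup.subset_normalClosure ⟨i, rfl⟩)
  have h2 : h * (π h)⁻¹ ∈ Subgroup.normalClosure (Set.range (xx : ι → FP A ι)) := by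
    rw [powt_mk]
    exact DFunLike.congr_fun h1 h
  have h3 : π h ∈ relS ι N := by
    have h4 : th ι N = (QuotientGroup.mk' N).comp (Monoid.Coprod.lift (MonoidHom.id A) 1) := by
      apply powt_hom_ext
      · intro a
        rw [powt_th_inl, MonoidHom.comp_apply, Monoid.Coprod.lift_apply_inl]
        rfl
      · intro i
        rw [powt_th_xx, MonoidHom.comp_apply]
        change 1 = QuotientGroup.mk' N (Monoid.Coprod.lift (MonoidHom.id A) 1 (Monoid.Coprod.inr _))
        rw [Monoid.Coprod.lift_apply_inr]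
        exact (map_one _).symm
    rw [MonoidHom.mem_ker, h4, MonoidHom.comp_apply] at hh
    exact hinlN _ ((powt_mem _ _).2 hh)
  have h5 := W.mul_mem (hNx h2) (hWS h3)
  rwa [inv_mul_cancel_right] at h5

end Pool.H11.FC
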