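import Pool.Agent.H11.FC.Crit1
import Pool.Agent.H11.FC.PowT

/-! # Free splittings and relative symmetric automorphisms

COMMON START. `setup α h`: `p₀`, `N`, `K`. `φ₁ = φ^{p₀}`, `α₁ = α^{p₀}`, `φ₁ (inl a) = inl (α₁ a)`.
PROOF of `vrtfn_split`. For every `k`: `(φ^k) (xx i) = inl u * xx j ^ ε * inl v` for some `u, v ∈ A`, `j`, `ε = ± 1` (induction on `k`; for `ε = -1` the inverse of `inl u * x^{±1} * inl v` has the same
shape). `th_pow` for `φ₁, α₁`: `q > 0` with `th ι N ((φ₁^q) (xx i)) = 1`. `φ₂ = φ₁^q`, `α₂ = α₁^q` (`α₂ a * a⁻¹ ∈ N`). `φ₂ (xx i) = inl u * xx j ^ ε * inl v` and applying `th`: `u v ∈ N`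
(so `v u ∈ N`). `hmono` of `mono_pow` with `f = inl u`: `φ₂ (xx i) * (inl u * x^ε * inl u⁻¹)⁻¹ = (inl u * x^ε) * inl (v u) * (inl u * x^ε)⁻¹` is in the normal closure of `inl N`. `mono_pow` gives `p₃` with
`(φ₂^{p₃}) h * h⁻¹ ∈ relS ι N`; `crit1` for `φ₂`, `p = p₃`, `e = 1`, the subgroup `K₂ = {x : MT A α₂ | x.left ∈ N}`, `RTFN K₂` by `mt_pow_embed α₁ q` (note `α₂ = α₁^q`). So `VRTFN (MT _ φ₂)`, and
`VRTFN_of_pow` twice (or `φ₂ = φ^{p₀ q}`).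
PROOF of `vrtfn_symm`. For every `k ≥ 1`: `(φ^k) (xx i) = w * xx j ^ ε * w⁻¹`. So `th ι N ((φ₁) (xx i)) = 1` (as `th (xx j) = 1`) and `hmono` holds for `φ₁` with the element `1 ∈ relS ι N`. `mono_pow`, `crit1`. -/

set_option autoImplicit false

namespace Pool.H11.FC

private theorem ext_pow_inl {A : Type} [Group A] {ι : Type} (α : MulAut A)
    (φ : MulAut (FP A ι))
    (hφ : ∀ a : A, φ (Monoid.Coprod.inl a) = Monoid.Coprod.inl (α a)) (k : ℕ) :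
    ∀ a : A, (φ ^ k) (Monoid.Coprod.inl a) = Monoid.Coprod.inl ((α ^ k) a) := by
  induction k with
  | zero => intro a; simp
  | succ k ih =>
    intro a
    rw [pow_succ, pow_succ, MulAut.mul_apply, MulAut.mul_apply, hφ, ih]

private theorem ext_pow_mem {A : Type} [Group A] (N : Subgroup A) (α : MulAut A)
    (hα : ∀ a, α a * a⁻¹ ∈ N) (k : ℕ) : ∀ a, (α ^ k) a * a⁻¹ ∈ N := by
  induction k with
  | zero => intro a; simp [N.one_mem]
  | succ k ih =>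
    intro a
    rw [pow_succ, MulAut.mul_apply]
    have h1 := N.mul_mem (ih (α a)) (hα a)
    rwa [mul_assoc, inv_mul_cancel_left] at h1

/-- The shape `inl u * x ^ (± 1) * inl v`. -/
private def ext_Sh {A : Type} [Group A] {ι : Type} (g : FP A ι) : Prop :=
  ∃ (u v : A) (j : ι) (ε : ℤ), (ε = 1 ∨ ε = -1) ∧
    g = Monoid.Coprod.inl u * xx j ^ ε * Monoid.Coprod.inl v

private theorem ext_Sh_inv {A : Type} [Group A] {ι : Type} {g : FP A ι} (h : ext_Sh g) :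
    ext_Sh g⁻¹ := by
  obtain ⟨u, v, j, ε, hε, rfl⟩ := h
  refine ⟨v⁻¹, u⁻¹, j, -ε, ?_, ?_⟩
  · rcases hε with h1 | h1
    · right; rw [h1]
    · left; rw [h1]; norm_num
  · rw [mul_inv_rev, mul_inv_rev, zpow_neg, map_inv, map_inv, mul_assoc]

private theorem ext_Sh_mul {A : Type} [Group A] {ι : Type} {g : FP A ι} (h : ext_Sh g)
    (a b : A) : ext_Sh (Monoid.Coprod.inl a * g * Monoid.Coprod.inl b) := by
  obtain ⟨u, v, j, ε, hε, rfl⟩ := h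
  refine ⟨a * u, v * b, j, ε, hε, ?_⟩
  rw [map_mul, map_mul]
  simp only [mul_assoc]

private theorem ext_Sh_pow {A : Type} [Group A] {ι : Type} (α : MulAut A)
    (φ : MulAut (FP A ι))
    (hφ : ∀ a : A, φ (Monoid.Coprod.inl a) = Monoid.Coprod.inl (α a))
    (hx : ∀ i : ι, ext_Sh (φ (xx i))) (k : ℕ) :
    ∀ i : ι, ext_Sh ((φ ^ k) (xx i)) := by
  induction k with
  | zero =>
    intro i
    refine ⟨1, 1, i, 1, Or.inl rfl, ?_⟩
    simp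
  | succ k ih =>
    intro i
    rw [pow_succ', MulAut.mul_apply]
    obtain ⟨u, v, j, ε, hε, he⟩ := ih i
    rw [he, map_mul, map_mul, hφ, hφ, map_zpow]
    refine ext_Sh_mul ?_ _ _
    rcases hε with h1 | h1
    · rw [h1, zpow_one]
      exact hx j
    · rw [h1, zpow_neg, zpow_one]
      exact ext_Sh_inv (hx j)

private theorem ext_conj_pow {A : Type} [Group A] {ι : Type}
    (φ : MulAut (FP A ι))
    (hx : ∀ i : ι, ∃ (w : FP A ι) (j : ι) (ε : ℤ), (ε = 1 ∨ ε = -1) ∧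
      φ (xx i) = w * xx j ^ ε * w⁻¹) (k : ℕ) :
    ∀ i : ι, ∃ (w : FP A ι) (j : ι) (ε : ℤ), (ε = 1 ∨ ε = -1) ∧
      (φ ^ k) (xx i) = w * xx j ^ ε * w⁻¹ := by
  induction k with
  | zero =>
    intro i
    refine ⟨1, i, 1, Or.inl rfl, ?_⟩
    simp
  | succ k ih =>
    intro i
    rw [pow_succ', MulAut.mul_apply]
    obtain ⟨w, j, ε, hε, he⟩ := ih i
    obtain ⟨w', j', ε', hε', he'⟩ := hx j
    rw [he, map_mul, map_mul, map_zpow, he', map_inv]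
    refine ⟨φ w * w', j', ε' * ε, ?_, ?_⟩
    · rcases hε with h1 | h1 <;> rcases hε' with h2 | h2 <;> rw [h1, h2] <;> norm_num
    · have h3 : (w' * xx j' ^ ε' * w'⁻¹) ^ ε = w' * xx j' ^ (ε' * ε) * w'⁻¹ := by
        rw [conj_zpow, zpow_mul]
      rw [h3]
      group

private theorem ext_th_xx {A : Type} [Group A] {ι : Type} (N : Subgroup A) [N.Normal] (j : ι) :
    th ι N (xx j) = 1 := by
  unfold th xx
  rw [Monoid.Coprod.lift_apply_inr]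
  rfl

private theorem ext_th_inl {A : Type} [Group A] {ι : Type} (N : Subgroup A) [N.Normal] (a : A) :
    th ι N (Monoid.Coprod.inl a) = QuotientGroup.mk' N a := by
  unfold th
  rw [Monoid.Coprod.lift_apply_inl]

theorem vrtfn_split {A : Type} [Group A] (hfg : Group.FG A) {ι : Type} [Finite ι] (α : MulAut A)
    (φ : MulAut (FP A ι))
    (hφ : ∀ a : A, φ (Monoid.Coprod.inl a) = Monoid.Coprod.inl (α a))
    (hx : ∀ i : ι, ∃ (u v : A) (j : ι) (ε : ℤ), (ε = 1 ∨ ε = -1) ∧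
      φ (xx i) = Monoid.Coprod.inl u * xx j ^ ε * Monoid.Coprod.inl v)
    (h : VRTFN (MT A α)) : VRTFN (MT (FP A ι) φ) := by
  obtain ⟨p₀, N, hp₀, hNn, hNi, hα1, K, hK, hR⟩ := setup α h
  have hφ1 := ext_pow_inl α φ hφ p₀
  obtain ⟨q, hq, hthq⟩ := th_pow N hNi (α ^ p₀) hα1 (φ ^ p₀) hφ1
  have hα2 := ext_pow_mem N (α ^ p₀) hα1 q
  have hφ2 := ext_pow_inl (α ^ p₀) (φ ^ p₀) hφ1 q
  have hsh1 : ∀ i : ι, ext_Sh ((φ ^ p₀) (xx i)) := ext_Sh_pow α φ hφ hx p₀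
  have hsh2 : ∀ i : ι, ext_Sh (((φ ^ p₀) ^ q) (xx i)) :=
    ext_Sh_pow (α ^ p₀) (φ ^ p₀) hφ1 hsh1 q
  have hmono : ∀ i : ι, ∃ (f : FP A ι) (j : ι) (ε : ℤ), (ε = 1 ∨ ε = -1) ∧
      ((φ ^ p₀) ^ q) (xx i) * (f * xx j ^ ε * f⁻¹)⁻¹ ∈ relS ι N := by
    intro i
    obtain ⟨u, v, j, ε, hε, he⟩ := hsh2 i
    have h1 := hthq i
    rw [he, map_mul, map_mul, map_zpow, ext_th_xx, ext_th_inl, ext_th_inl, one_zpow, mul_one,
      ← map_mul] at h1
    have huv : u * v ∈ N := (QuotientGroup.eq_one_iff _).1 h1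
    have hvu : v * u ∈ N := (hNn.mem_comm_iff).1 huv
    refine ⟨Monoid.Coprod.inl u, j, ε, hε, ?_⟩
    have h2 : ((φ ^ p₀) ^ q) (xx i) *
        (Monoid.Coprod.inl u * xx j ^ ε * (Monoid.Coprod.inl u)⁻¹)⁻¹ =
        (Monoid.Coprod.inl u * xx j ^ ε) * Monoid.Coprod.inl (v * u) *
          (Monoid.Coprod.inl u * xx j ^ ε)⁻¹ := by
      rw [he, map_mul]
      group
    rw [h2]
    unfold relS
    refine Subgroup.mem_sup_right ?_
    refine Subgroup.normalClosure_normal.conj_mem _ ?_ _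
    exact Subgroup.subset_normalClosure ⟨v * u, hvu, rfl⟩
  obtain ⟨p₃, hp₃, hmem⟩ := mono_pow N hNi ((α ^ p₀) ^ q) hα2 ((φ ^ p₀) ^ q) hφ2 hthq hmono
  obtain ⟨f, hfi, -, hfl, -⟩ := mt_pow_embed (α ^ p₀) q hq
  have hR2 : RTFN (K.comap f) := by
    refine RTFN_of_inj ((f.comp (K.comap f).subtype).codRestrict K ?_) ?_ hR
    · intro x
      exact x.2
    · intro x y hxy
      apply Subtype.ext
      apply hfi
      exact congrArg Subtype.val hxy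
  have hK2 : ∀ x : MT A ((α ^ p₀) ^ q), x ∈ K.comap f ↔ x.left ∈ N := by
    intro x
    rw [Subgroup.mem_comap, hK, hfl]
  have h9 := crit1 hfg N hNi ((α ^ p₀) ^ q) hα2 ((φ ^ p₀) ^ q) hφ2 hthq p₃ hp₃ 1
    (fun x hx => hmem x hx) (K.comap f) hK2 hR2
  exact VRTFN_of_pow φ p₀ hp₀ (VRTFN_of_pow (φ ^ p₀) q hq h9)

theorem vrtfn_symm {A : Type} [Group A] (hfg : Group.FG A) {ι : Type} [Finite ι] (α : MulAut A)
    (φ : MulAut (FP A ι))
    (hφ : ∀ a : A, φ (Monoid.Coprod.inl a) = Monoid.Coprod.inl (α a))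
    (hx : ∀ i : ι, ∃ (w : FP A ι) (j : ι) (ε : ℤ), (ε = 1 ∨ ε = -1) ∧
      φ (xx i) = w * xx j ^ ε * w⁻¹)
    (h : VRTFN (MT A α)) : VRTFN (MT (FP A ι) φ) := by
  obtain ⟨p₀, N, hp₀, hNn, hNi, hα1, K, hK, hR⟩ := setup α h
  have hφ1 := ext_pow_inl α φ hφ p₀
  have hc := ext_conj_pow φ hx p₀
  have hth : ∀ i : ι, th ι N ((φ ^ p₀) (xx i)) = 1 := by
    intro i
    obtain ⟨w, j, ε, -, he⟩ := hc i
    rw [he, map_mul, map_mul, map_zpow, ext_th_xx, one_zpow, mul_one, ← map_mul,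
      mul_inv_cancel, map_one]
  have hmono : ∀ i : ι, ∃ (f : FP A ι) (j : ι) (ε : ℤ), (ε = 1 ∨ ε = -1) ∧
      (φ ^ p₀) (xx i) * (f * xx j ^ ε * f⁻¹)⁻¹ ∈ relS ι N := by
    intro i
    obtain ⟨w, j, ε, hε, he⟩ := hc i
    refine ⟨w, j, ε, hε, ?_⟩
    rw [he, mul_inv_cancel]
    exact Subgroup.one_mem _
  obtain ⟨p₃, hp₃, hmem⟩ := mono_pow N hNi (α ^ p₀) hα1 (φ ^ p₀) hφ1 hth hmono
  have h9 := crit1 hfg N hNi (α ^ p₀) hα1 (φ ^ p₀) hφ1 hth p₃ hp₃ 1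
    (fun x hx => hmem x hx) K hK hR
  exact VRTFN_of_pow φ p₀ hp₀ h9

end Pool.H11.FC
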