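import Pool.Agent.H11.FC.Semi
import Pool.Agent.H11.FC.DNil
import Pool.Agent.H11.FC.AugRep

/-! # Extensions by `ℤ` inside nilpotent groups

PROOF. Let `g ≠ 1` in `L`.
Case `χ g ≠ 1`: `W = ℚ × ℚ`, `ρ l (a, b) = (a, b + (toAdd (χ l)) a)`, flag `⊤, {a = 0}, ⊥`; `not_aug_of_rep`.
Case `χ g = 1`. If `χ` is trivial then `χ.ker = ⊤`, `RU_of_inj`. Otherwise the range of `χ` is generated by some `χ t ≠ 1` (subgroups of `ℤ` are cyclic). Let
`S = χ.ker`, `α = ` conjugation by `t` on `S` (`MulAut.conjNormal t`). The map `MT S α → L`, `(s, t^j) ↦ s t^j` is an isomorphism (`SemidirectProduct.lift`; injective: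
`χ t` has infinite order). `L` nilpotent: there is `e` with `(fun x => α x * x⁻¹)^[e] s = 1` for all `s ∈ S`: `α x * x⁻¹ = ⁅t, x⁆`, and iterates lie in
`lowerCentralSeries ⊤ e` of `L` (or descend in the upper central series). Apply `semi_rep` to `F = S`, `φ = α`, `C` the augmentation filtration (`exists_augFilt`), `H = ⊤`:
stability from `aug_map`, `hE` from `dnil_aug`, `n` from `RU S` for the element `⟨g, _⟩ ≠ 1`. We get a representation of `MT S α` on `W` with a flag raised by every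
element and `σ (inl g) ≠ 1`; transport it to `L` and use `not_aug_of_rep`. -/

set_option autoImplicit false

namespace Pool.H11.FC

/-- the unipotent action of `ℤ` on `ℚ × ℚ` -/
private def extz_rep {L : Type} [Group L] (χ : L →* Multiplicative ℤ) :
    Representation ℚ L (ℚ × ℚ) where
  toFun l := LinearMap.id +
    ((Multiplicative.toAdd (χ l) : ℤ) : ℚ) • (LinearMap.inr ℚ ℚ ℚ ∘ₗ LinearMap.fst ℚ ℚ ℚ)
  map_one' := by
    rw [map_one, toAdd_one, Int.cast_zero, zero_smul, add_zero]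
    rfl
  map_mul' k l := by
    refine LinearMap.ext fun v => ?_
    rw [map_mul, toAdd_mul, Int.cast_add]
    refine Prod.ext ?_ ?_
    · simp
    · simp
      ring

private theorem extz_rep_apply {L : Type} [Group L] (χ : L →* Multiplicative ℤ) (l : L)
    (v : ℚ × ℚ) : extz_rep χ l v = (v.1, v.2 + ((Multiplicative.toAdd (χ l) : ℤ) : ℚ) * v.1) := by
  refine Prod.ext ?_ ?_
  · simp [extz_rep]
  · simp [extz_rep]

private def extz_Fl : ℕ → Submodule ℚ (ℚ × ℚ)
  | 0 => ⊤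
  | 1 => LinearMap.ker (LinearMap.fst ℚ ℚ ℚ)
  | _ + 2 => ⊥

private theorem extz_case1 {L : Type} [Group L] (χ : L →* Multiplicative ℤ) (g : L)
    (hg : χ g ≠ 1) : ∃ n : ℕ, ¬ Aug L n (gr g - 1) := by
  refine ⟨2, not_aug_of_rep (extz_rep χ) extz_Fl 2 ?_ rfl rfl ?_ g ?_⟩
  · refine antitone_nat_of_succ_le fun n => ?_
    rcases n with _ | _ | n
    · exact le_top
    · exact bot_le
    · exact le_rfl
  · intro l i v hv
    rw [extz_rep_apply]
    rcases i with _ | _ | i
    · show _ ∈ LinearMap.ker (LinearMap.fst ℚ ℚ ℚ)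
      rw [LinearMap.mem_ker]
      simp
    · have h1 : v ∈ LinearMap.ker (LinearMap.fst ℚ ℚ ℚ) := hv
      rw [LinearMap.mem_ker] at h1
      have h2 : v.1 = 0 := h1
      show _ ∈ (⊥ : Submodule ℚ (ℚ × ℚ))
      rw [Submodule.mem_bot, h2]
      refine Prod.ext ?_ ?_
      · simp [h2]
      · simp
    · have h1 : v ∈ (⊥ : Submodule ℚ (ℚ × ℚ)) := hv
      rw [Submodule.mem_bot] at h1
      show _ ∈ (⊥ : Submodule ℚ (ℚ × ℚ))
      rw [Submodule.mem_bot, h1]
      simp
  · intro h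
    have h1 := congrArg (fun f : Module.End ℚ (ℚ × ℚ) => (f (1, 0)).2) h
    simp only [extz_rep_apply, Module.End.one_apply, mul_one, zero_add] at h1
    apply hg
    have h2 : Multiplicative.toAdd (χ g) = 0 := by exact_mod_cast h1
    exact toAdd_eq_zero.1 h2

private theorem extz_case2 {L : Type} [Group L] (hL : Group.IsNilpotent L)
    (χ : L →* Multiplicative ℤ) (h : RU χ.ker) (t : L) (ht : χ t ≠ 1)
    (hgen : ∀ l : L, ∃ j : ℤ, χ l = χ t ^ j) (g : L) (hg : g ≠ 1) (hχ : χ g = 1) :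
    ∃ n : ℕ, ¬ Aug L n (gr g - 1) := by
  have hαj : ∀ (j : ℤ) (s : χ.ker),
      (((MulAut.conjNormal t : MulAut χ.ker) ^ j) s : L) = t ^ j * s * (t ^ j)⁻¹ := by
    intro j s
    rw [← map_zpow, MulAut.conjNormal_apply]
  -- the isomorphism
  have hcomp : ∀ z : Multiplicative ℤ, (χ.ker.subtype).comp
      (MulEquiv.toMonoidHom (zpowersHom (MulAut χ.ker) (MulAut.conjNormal t) z)) =
      (MulEquiv.toMonoidHom (MulAut.conj (zpowersHom L t z))).comp (χ.ker.subtype) := by
    intro z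
    refine MonoidHom.ext fun s => ?_
    show (((zpowersHom (MulAut χ.ker) (MulAut.conjNormal t) z) s : χ.ker) : L) =
      MulAut.conj (zpowersHom L t z) (s : L)
    rw [zpowersHom_apply, zpowersHom_apply, hαj, MulAut.conj_apply]
  obtain ⟨Ψ, hΨ⟩ : ∃ Ψ : MT χ.ker (MulAut.conjNormal t) →* L,
      ∀ x : MT χ.ker (MulAut.conjNormal t), Ψ x = (x.left : L) * t ^ (Multiplicative.toAdd x.right) :=
    ⟨SemidirectProduct.lift (χ.ker.subtype) (zpowersHom L t) hcomp, fun x => rfl⟩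
  have htz : ∀ j : ℤ, χ t ^ j = 1 → j = 0 := by
    intro j hj
    have h1 := congrArg Multiplicative.toAdd hj
    rw [toAdd_zpow, toAdd_one, smul_eq_mul] at h1
    rcases mul_eq_zero.1 h1 with h2 | h2
    · exact h2
    · exact absurd (toAdd_eq_zero.1 h2) ht
  have hinj : Function.Injective Ψ := by
    rw [injective_iff_map_eq_one]
    intro x hx
    rw [hΨ] at hx
    have h1 := congrArg χ hx
    rw [map_mul, map_one, map_zpow, (MonoidHom.mem_ker).1 x.left.2, one_mul] at h1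
    have h2 := htz _ h1
    rw [h2, zpow_zero, mul_one] at hx
    refine SemidirectProduct.ext ?_ ?_
    · exact Subtype.ext hx
    · exact toAdd_eq_zero.1 h2
  have hsurj : Function.Surjective Ψ := by
    intro l
    obtain ⟨j, hj⟩ := hgen l
    refine ⟨⟨⟨l * (t ^ j)⁻¹, ?_⟩, Multiplicative.ofAdd j⟩, ?_⟩
    · rw [MonoidHom.mem_ker, map_mul, map_inv, map_zpow, hj, mul_inv_cancel]
    · rw [hΨ]
      show l * (t ^ j)⁻¹ * t ^ j = l
      rw [inv_mul_cancel_right]
  -- nilpotency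
  obtain ⟨e, H, ⟨hH0, hHs⟩, hHe⟩ :=
    (Subgroup.nilpotent_iff_finite_descending_central_series L).1 hL
  have hit : ∀ (k : ℕ) (s : χ.ker), (((fun x : χ.ker =>
      (MulAut.conjNormal t : MulAut χ.ker) x * x⁻¹)^[k] s : χ.ker) : L) ∈ H k := by
    intro k s
    induction k with
    | zero => rw [hH0]; exact Subgroup.mem_top _
    | succ k ih =>
      rw [Function.iterate_succ_apply']
      have h1 := hHs _ k ih t
      have h2 := (H (k + 1)).inv_mem h1
      refine (congrArg (· ∈ H (k + 1)) ?_).mp h2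
      show _ = (((MulAut.conjNormal t : MulAut χ.ker) _ : χ.ker) : L) * ((_ : χ.ker) : L)⁻¹
      rw [MulAut.conjNormal_apply]
      rw [commutatorElement_def]
      group
  have he : ∀ s : χ.ker, (fun x : χ.ker =>
      (MulAut.conjNormal t : MulAut χ.ker) x * x⁻¹)^[e] s = 1 := by
    intro s
    have h1 := hit e s
    rw [hHe, Subgroup.mem_bot] at h1
    exact Subtype.ext h1
  obtain ⟨C, hC⟩ := exists_augFilt χ.ker
  have hgk : (⟨g, hχ⟩ : χ.ker) ≠ 1 := fun h1 => hg (congrArg Subtype.val h1)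
  obtain ⟨n, hn⟩ := h _ hgk
  obtain ⟨W, i1, i2, σ, Fl, m, ha, h0, hm, hr, hne⟩ := semi_rep (MulAut.conjNormal t) C ⊤
    (fun x _ => (hC 1 _).2 (Aug.gen x))
    (fun i r hr => (hC i _).2 (aug_map _ ((hC i _).1 hr)))
    (fun i r hr => (hC i _).2 (aug_map _ ((hC i _).1 hr)))
    (fun j => ⟨e * j + 1, fun r hr => (hC _ _).2 (dnil_aug _ e he j r ((hC j _).1 hr))⟩)
    n ⟨g, hχ⟩ (fun h1 => hn ((hC n _).1 h1))
  obtain ⟨E, hE⟩ : ∃ E : L →* MT χ.ker (MulAut.conjNormal t), ∀ x, E (Ψ x) = x :=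
    ⟨((MulEquiv.ofBijective Ψ ⟨hinj, hsurj⟩).symm : L ≃* _).toMonoidHom,
      fun x => (MulEquiv.ofBijective Ψ ⟨hinj, hsurj⟩).symm_apply_apply x⟩
  refine ⟨m, not_aug_of_rep (σ.comp E) Fl m ha h0 hm ?_ g ?_⟩
  · intro l i v hv
    exact hr (E l) (Subgroup.mem_top _) i v hv
  · have h1 : E g = SemidirectProduct.inl (⟨g, hχ⟩ : χ.ker) := by
      have h2 := hE (SemidirectProduct.inl (⟨g, hχ⟩ : χ.ker))
      rw [hΨ] at h2
      have h3 : (((SemidirectProduct.inl (⟨g, hχ⟩ : χ.ker) :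
          MT χ.ker (MulAut.conjNormal t)).left : χ.ker) : L) *
          t ^ (Multiplicative.toAdd (SemidirectProduct.inl (⟨g, hχ⟩ : χ.ker) :
          MT χ.ker (MulAut.conjNormal t)).right) = g := by
        rw [SemidirectProduct.left_inl, SemidirectProduct.right_inl, toAdd_one, zpow_zero, mul_one]
      rwa [h3] at h2
    intro h2
    apply hne
    rw [← h1]
    exact h2

theorem RU_ext {L : Type} [Group L] (hL : Group.IsNilpotent L) (χ : L →* Multiplicative ℤ)
    (h : RU χ.ker) : RU L := by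
  by_cases htriv : ∀ l : L, χ l = 1
  · refine RU_of_inj (MonoidHom.mk' (fun l => (⟨l, htriv l⟩ : χ.ker)) fun a b => rfl) ?_ h
    intro a b hab
    exact congrArg Subtype.val hab
  intro g hg
  by_cases hχ : χ g = 1
  · obtain ⟨⟨x, hx⟩, hgen⟩ := IsCyclic.exists_generator (α := χ.range)
    obtain ⟨t, rfl⟩ := hx
    have hgen' : ∀ l : L, ∃ j : ℤ, χ l = χ t ^ j := by
      intro l
      obtain ⟨j, hj⟩ := Subgroup.mem_zpowers_iff.1 (hgen ⟨χ l, ⟨l, rfl⟩⟩)
      exact ⟨j, (congrArg Subtype.val hj).symm⟩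
    have ht : χ t ≠ 1 := by
      intro ht
      apply htriv
      intro l
      obtain ⟨j, hj⟩ := hgen' l
      rw [hj, ht, one_zpow]
    exact extz_case2 hL χ h t ht hgen' g hg hχ
  · exact extz_case1 χ g hχ

end Pool.H11.FC
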