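import Pool.Agent.H11.FC.Amal

/-! # Embedding a free product of several factors

`F = (*_j A j) * F(ι)`, `C = ∀ j, A j`, `κ : F → FP C (J ⊕ ι)`, `κ (fac A ι j a) = x_j * inl (Pi.mulSingle j a) * x_j⁻¹`, `κ (inr (of i)) = xx (Sum.inr i)`, `x_j = xx (Sum.inl j)`.
PROOF OF INJECTIVITY. A letter is a pair `(j, a)` with `a ≠ 1` in `A j`, or `(i, n)` with `n ≠ 0` an integer (`i : ι`), standing for `fac A ι j a` and `inr (of i ^ n)`. A list of letters is reduced if
consecutive letters have different index in `J ⊕ ι`. Every `f : F` is the product of a reduced list: the set of such `f` contains `1` and is closed under left multiplication by every `fac A ι j a` and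
`inr (of i ^ n)` (merge with the first letter if it has the same index; if the result is trivial drop it, and the rest is still reduced). If `f ≠ 1` the list is not empty. `κ f = ev 1 L'` where `L'` is the
concatenation of `[(inl j, 1, mulSingle j a), (inl j, -1, 1)]` and `[(inr i, n, 1)]`: `Red L'` because `mulSingle j a ≠ 1` and all other consecutive indices differ. `ev_ne_one`. -/

set_option autoImplicit false


namespace Pool.H11.FC

/-- The free product of the `A j` and the free group on `ι`. -/
abbrev FM {J : Type} (A : J → Type) [∀ j, Group (A j)] (ι : Type) : Type :=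
  Monoid.Coprod (Monoid.CoprodI A) (FreeGroup ι)

/-- The inclusion of a factor. -/
def fac {J : Type} (A : J → Type) [∀ j, Group (A j)] (ι : Type) (j : J) : A j →* FM A ι :=
  (Monoid.Coprod.inl : Monoid.CoprodI A →* FM A ι).comp Monoid.CoprodI.of

section

variable {J : Type} (A : J → Type) [∀ j, Group (A j)] (ι : Type)

/-- Letters. -/
private abbrev memb_Lt : Type := (Σ j, A j) ⊕ (ι × ℤ)

variable {A ι}

private def memb_ix : memb_Lt A ι → J ⊕ ι := Sum.map Sigma.fst Prod.fst

private def memb_nt : memb_Lt A ι → Prop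
  | Sum.inl s => s.2 ≠ 1
  | Sum.inr s => s.2 ≠ 0

private def memb_vl : memb_Lt A ι → FM A ι
  | Sum.inl s => fac A ι s.1 s.2
  | Sum.inr s => Monoid.Coprod.inr (FreeGroup.of s.1 ^ s.2)

private def memb_P (f : FM A ι) : Prop :=
  ∃ L : List (memb_Lt A ι), (∀ t ∈ L, memb_nt t) ∧
    L.IsChain (fun s t => memb_ix s ≠ memb_ix t) ∧ f = (L.map memb_vl).prod

private theorem memb_P_one : memb_P (1 : FM A ι) := ⟨[], by simp, List.isChain_nil, by simp⟩

omit [∀ j, Group (A j)] in
private theorem memb_swap (t s : memb_Lt A ι) (L : List (memb_Lt A ι))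
    (hs : memb_ix t = memb_ix s)
    (h2 : (s :: L).IsChain (fun s t => memb_ix s ≠ memb_ix t)) :
    (t :: L).IsChain (fun s t => memb_ix s ≠ memb_ix t) := by
  rw [List.isChain_cons] at h2 ⊢
  rw [hs]
  exact h2

private theorem memb_left (t : memb_Lt A ι) (f : FM A ι) (hf : memb_P f) :
    memb_P (memb_vl t * f) := by
  classical
  obtain ⟨L, h1, h2, rfl⟩ := hf
  by_cases ht : memb_nt t
  swap
  · have h3 : memb_vl t = 1 := by
      rcases t with ⟨j, a⟩ | ⟨i, n⟩
      · simp only [memb_nt, not_not] at ht
        simp only [memb_vl, ht, map_one]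
      · simp only [memb_nt, not_not] at ht
        simp only [memb_vl, ht, zpow_zero, map_one]
    rw [h3, one_mul]
    exact ⟨L, h1, h2, rfl⟩
  rcases L with _ | ⟨s, L⟩
  · refine ⟨[t], ?_, List.isChain_singleton _, by simp⟩
    intro u hu
    rw [List.mem_singleton] at hu
    rw [hu]
    exact ht
  by_cases hst : memb_ix t = memb_ix s
  · have hL1 : ∀ u ∈ L, memb_nt u := fun u hu => h1 u (List.mem_cons_of_mem _ hu)
    have hL2 : L.IsChain (fun s t => memb_ix s ≠ memb_ix t) := h2.tail
    -- the merged letter
    have key : ∃ u : memb_Lt A ι, memb_ix u = memb_ix s ∧ memb_vl u = memb_vl t * memb_vl s := by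
      rcases t with ⟨j, a⟩ | ⟨i, n⟩ <;> rcases s with ⟨j', b⟩ | ⟨i', m⟩
      · simp only [memb_ix, Sum.map_inl, Sum.inl.injEq] at hst
        subst hst
        exact ⟨Sum.inl ⟨j, a * b⟩, rfl, by simp only [memb_vl, map_mul]⟩
      · simp [memb_ix] at hst
      · simp [memb_ix] at hst
      · simp only [memb_ix, Sum.map_inr, Sum.inr.injEq] at hst
        subst hst
        exact ⟨Sum.inr (i, n + m), rfl, by simp only [memb_vl, zpow_add, map_mul]⟩
    obtain ⟨u, hu1, hu2⟩ := key
    by_cases hu : memb_nt u
    · refine ⟨u :: L, ?_, memb_swap u s L hu1 h2, ?_⟩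
      · intro v hv
        rcases List.mem_cons.1 hv with rfl | hv
        · exact hu
        · exact hL1 v hv
      · rw [List.map_cons, List.map_cons, List.prod_cons, List.prod_cons, hu2, mul_assoc]
    · have h3 : memb_vl u = 1 := by
        rcases u with ⟨j, a⟩ | ⟨i, n⟩
        · simp only [memb_nt, not_not] at hu
          simp only [memb_vl, hu, map_one]
        · simp only [memb_nt, not_not] at hu
          simp only [memb_vl, hu, zpow_zero, map_one]
      refine ⟨L, hL1, hL2, ?_⟩
      rw [List.map_cons, List.prod_cons, ← mul_assoc, ← hu2, h3, one_mul]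
  · refine ⟨t :: s :: L, ?_, ?_, ?_⟩
    · intro v hv
      rcases List.mem_cons.1 hv with rfl | hv
      · exact ht
      · exact h1 v hv
    · exact List.isChain_cons_cons.2 ⟨hst, h2⟩
    · simp only [List.map_cons, List.prod_cons]

private theorem memb_all (f : FM A ι) : memb_P f := by
  have h : ∀ g : FM A ι, ∀ f, memb_P f → memb_P (g * f) := by
    intro g
    induction g using Monoid.Coprod.induction_on with
    | inl c =>
      induction c using Monoid.CoprodI.induction_on with
      | one => intro f hf; rw [map_one, one_mul]; exact hf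
      | of j a => intro f hf; exact memb_left (Sum.inl ⟨j, a⟩) f hf
      | mul x y hx hy => intro f hf; rw [map_mul, mul_assoc]; exact hx _ (hy _ hf)
    | inr w =>
      induction w using FreeGroup.induction_on with
      | C1 => intro f hf; rw [map_one, one_mul]; exact hf
      | of i =>
        intro f hf
        have h3 := memb_left (Sum.inr (i, 1)) f hf
        simpa only [memb_vl, zpow_one] using h3
      | inv_of i _ =>
        intro f hf
        have h3 := memb_left (Sum.inr (i, -1)) f hf
        simpa only [memb_vl, zpow_neg, zpow_one] using h3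
      | mul x y hx hy => intro f hf; rw [map_mul, mul_assoc]; exact hx _ (hy _ hf)
    | mul x y hx hy => intro f hf; rw [mul_assoc]; exact hx _ (hy _ hf)
  have h2 := h f 1 memb_P_one
  rwa [mul_one] at h2

variable [DecidableEq J]

private def memb_ex : memb_Lt A ι → List ((J ⊕ ι) × ℤ × (∀ j, A j))
  | Sum.inl s => [(Sum.inl s.1, 1, Pi.mulSingle s.1 s.2), (Sum.inl s.1, -1, 1)]
  | Sum.inr s => [(Sum.inr s.1, s.2, 1)]

private theorem memb_head (L : List (memb_Lt A ι)) :
    ∀ y ∈ (L.flatMap memb_ex).head?, ∃ s ∈ L.head?, y.1 = memb_ix s := by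
  intro y hy
  rcases L with _ | ⟨s, L⟩
  · simp at hy
  · refine ⟨s, rfl, ?_⟩
    rcases s with ⟨j, a⟩ | ⟨i, n⟩
    · simp only [List.flatMap_cons, memb_ex, List.cons_append, List.head?_cons,
        Option.mem_def, Option.some.injEq] at hy
      rw [← hy]
      rfl
    · simp only [List.flatMap_cons, memb_ex, List.cons_append, List.head?_cons,
        Option.mem_def, Option.some.injEq] at hy
      rw [← hy]
      rfl

private theorem memb_last (t : memb_Lt A ι) : ∀ x ∈ (memb_ex t).getLast?, x.1 = memb_ix t := by
  intro x hx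
  rcases t with ⟨j, a⟩ | ⟨i, n⟩
  · simp only [memb_ex, List.getLast?_cons_cons, List.getLast?_singleton, Option.mem_def,
      Option.some.injEq] at hx
    rw [← hx]
    rfl
  · simp only [memb_ex, List.getLast?_singleton, Option.mem_def, Option.some.injEq] at hx
    rw [← hx]
    rfl

private theorem memb_red (L : List (memb_Lt A ι)) (h1 : ∀ t ∈ L, memb_nt t)
    (h2 : L.IsChain (fun s t => memb_ix s ≠ memb_ix t)) : Red (L.flatMap memb_ex) := by
  refine ⟨?_, ?_⟩
  · intro u hu
    rw [List.mem_flatMap] at hu
    obtain ⟨t, ht, hu⟩ := hu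
    have h3 := h1 t ht
    rcases t with ⟨j, a⟩ | ⟨i, n⟩
    · simp only [memb_ex, List.mem_cons, List.not_mem_nil, or_false] at hu
      rcases hu with rfl | rfl <;> simp
    · simp only [memb_ex, List.mem_cons, List.not_mem_nil, or_false] at hu
      rw [hu]
      exact h3
  · induction L with
    | nil => exact List.isChain_nil
    | cons t L ih =>
      rw [List.flatMap_cons, List.isChain_append]
      rw [List.isChain_cons] at h2
      refine ⟨?_, ih (fun u hu => h1 u (List.mem_cons_of_mem _ hu)) h2.2, ?_⟩
      · have h3 := h1 t (List.mem_cons_self)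
        rcases t with ⟨j, a⟩ | ⟨i, n⟩
        · simp only [memb_ex]
          rw [List.isChain_cons_cons]
          refine ⟨fun _ => ?_, List.isChain_singleton _⟩
          simp only [memb_nt] at h3
          intro h4
          apply h3
          have h5 := congrFun h4 j
          simpa using h5
        · simp only [memb_ex]
          exact List.isChain_singleton _
      · intro x hx y hy hxy
        exfalso
        obtain ⟨s, hs, hys⟩ := memb_head L y hy
        have h4 := memb_last t x hx
        exact h2.1 s hs (by rw [← h4, ← hys, hxy])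

end

theorem exists_kap {J : Type} [DecidableEq J] (A : J → Type) [∀ j, Group (A j)] (ι : Type) :
    ∃ κ : FM A ι →* FP (∀ j, A j) (J ⊕ ι), Function.Injective κ ∧
      (∀ (j : J) (a : A j), κ (fac A ι j a) =
        xx (Sum.inl j) * Monoid.Coprod.inl (Pi.mulSingle j a) * (xx (Sum.inl j))⁻¹) ∧
      ∀ i : ι, κ (Monoid.Coprod.inr (FreeGroup.of i)) = xx (Sum.inr i) := by
  set κ : FM A ι →* FP (∀ j, A j) (J ⊕ ι) := Monoid.Coprod.lift
    (Monoid.CoprodI.lift (fun j => (MulAut.conj (xx (Sum.inl j) :
      FP (∀ j, A j) (J ⊕ ι))).toMonoidHom.comp (Monoid.Coprod.inl.comp (MonoidHom.mulSingle A j))))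
    (FreeGroup.lift (fun i => xx (Sum.inr i))) with hκ
  have hk1 : ∀ (j : J) (a : A j), κ (fac A ι j a) =
        xx (Sum.inl j) * Monoid.Coprod.inl (Pi.mulSingle j a) * (xx (Sum.inl j))⁻¹ := by
    intro j a
    rw [hκ]
    unfold fac
    rw [MonoidHom.comp_apply, Monoid.Coprod.lift_apply_inl, Monoid.CoprodI.lift_of]
    rfl
  have hk2 : ∀ i : ι, κ (Monoid.Coprod.inr (FreeGroup.of i)) = xx (Sum.inr i) := by
    intro i
    rw [hκ, Monoid.Coprod.lift_apply_inr, FreeGroup.lift_apply_of]
  refine ⟨κ, ?_, hk1, hk2⟩
  have hk3 : ∀ t : memb_Lt A ι, κ (memb_vl t) =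
      ((memb_ex t).map fun t => (xx t.1 : FP (∀ j, A j) (J ⊕ ι)) ^ t.2.1 *
        Monoid.Coprod.inl t.2.2).prod := by
    rintro (⟨j, a⟩ | ⟨i, n⟩)
    · simp only [memb_vl, memb_ex, hk1, List.map_cons, List.map_nil, List.prod_cons, List.prod_nil,
        zpow_one, zpow_neg, map_one, mul_one]
    · simp only [memb_vl, memb_ex, map_zpow, hk2, List.map_cons, List.map_nil, List.prod_cons,
        List.prod_nil, map_one, mul_one]
  have hk4 : ∀ L : List (memb_Lt A ι), κ (L.map memb_vl).prod = ev 1 (L.flatMap memb_ex) := by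
    intro L
    unfold ev
    rw [map_one, one_mul]
    induction L with
    | nil => simp
    | cons t L ih =>
      rw [List.map_cons, List.prod_cons, map_mul, ih, List.flatMap_cons, List.map_append,
        List.prod_append, hk3]
  rw [injective_iff_map_eq_one]
  intro f hf
  obtain ⟨L, h1, h2, rfl⟩ := memb_all f
  rcases L with _ | ⟨t, L⟩
  · simp
  · exfalso
    rw [hk4] at hf
    refine ev_ne_one 1 _ (memb_red _ h1 h2) ?_ hf
    rw [List.flatMap_cons]
    rcases t with ⟨j, a⟩ | ⟨i, n⟩ <;> simp [memb_ex]

end Pool.H11.FC
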