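import Pool.Agent.H11.FC.MEmb
import Pool.Agent.H11.FC.Crit1

/-! # Invariant free factor systems

PROOF of `rtfn_multi`. `C = ∀ j, A j`, `κ` from `exists_kap`. `Φ : MulAut (FP C (J ⊕ ι))`: `Φ (inl c) = inl (fun j => α j (c j))`, `Φ x_j = κ (w j) * x_j`, `Φ (xx (inr i)) = κ (φ (inr (of i)))`.
The endomorphism `Φ` satisfies `Φ ∘ κ = κ ∘ φ` (check on `fac` and `inr (of i)`). Inverse: the same construction for `φ⁻¹`, `(α j)⁻¹`, `w' j = (φ⁻¹ (w j))⁻¹` (`φ⁻¹ (fac a) = w' fac ((α j)⁻¹ a) w'⁻¹`):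
`Φ (Φ' x_j) = κ (φ (w' j)) κ (w j) x_j = x_j`, and symmetrically.
`RTFN (MT C α)` (`α` the product automorphism): `x ≠ 1`: if `x.right ≠ 1` map to `Multiplicative ℤ`; else some coordinate `x.left j ≠ 1`, and `(c, t^k) ↦ (c j, t^k)` is a homomorphism to
`MT (A j) (α j)`. `C` is f.g. (`J` finite), so `MT C α` is f.g., `RU (MT C α)` by `RU_of_RTFN`, `RU (⊤ : Subgroup _)`. `crit0` with `N = ⊤`, `K = ⊤`, `H = ⊤` (`C ⧸ ⊤` is trivial, so `hα`, `hx` are trivial), with
`e + 1` in place of `e`: for all `f`, `δ^[e+1] f ∈ relS (J ⊕ ι) ⊤ = ⁅⊤,⊤⁆ ⊔ normalClosure (inl '' univ) =: S`, `δ f = Φ f * f⁻¹`. Modulo `S` (`FP / S` is commutative, `Φ S ≤ S`) `δ` is multiplicative, so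
the set of `f` with `δ^[e+1] f ∈ S` is a subgroup; it contains `inl c` (in `S`), `x_j`: `δ x_j = κ (w j)`, `δ^[e] (κ (w j)) = κ (δ_φ^[e] (w j)) ∈ κ (..) ≤ S` by `he` (`κ` maps commutators to commutators and
`fac a` to a conjugate of an element of `inl`), and `xx (inr i) = κ (..)` similarly. So it is everything. `RTFN (⊤ : Subgroup (MT (FP C (J ⊕ ι)) Φ))`, and `MT (FM A ι) φ` embeds (`(f, t^k) ↦ (κ f, t^k)`).
PROOF of `vrtfn_multi`. Apply `rtfn_multi` to `φ^p`, `(α j)^p`, `w^{(p)} j` (`(φ^p) (fac a) = w^{(p)} fac ((α j ^ p) a) (w^{(p)})⁻¹` by induction), `RTFN (MT (A j) (α j ^ p))` by `mt_pow_embed`, then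
`VRTFN_of_pow` (RTFN implies VRTFN with the subgroup `⊤`). -/

set_option autoImplicit false

namespace Pool.H11.FC

/-- A map commuting with automorphisms commutes with their powers. -/
private theorem mmain_zpow {F F' : Type} [Group F] [Group F'] (φ : MulAut F) (φ' : MulAut F')
    (f : F →* F') (h : ∀ x, f (φ x) = φ' (f x)) (n : ℤ) (x : F) :
    f ((φ ^ n) x) = (φ' ^ n) (f x) := by
  have hinv : ∀ x, f (φ⁻¹ x) = φ'⁻¹ (f x) := by
    intro x
    have h1 := h (φ⁻¹ x)
    have h2 : φ (φ⁻¹ x) = x := by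
      rw [← MulAut.mul_apply, mul_inv_cancel, MulAut.one_apply]
    rw [h2] at h1
    rw [h1, ← MulAut.mul_apply, inv_mul_cancel, MulAut.one_apply]
  induction n using Int.induction_on generalizing x with
  | zero => simp
  | succ i ih =>
    rw [zpow_add_one, zpow_add_one, MulAut.mul_apply, MulAut.mul_apply, ih, h]
  | pred i ih =>
    rw [zpow_sub_one, zpow_sub_one, MulAut.mul_apply, MulAut.mul_apply, ih, hinv]

/-- The map of mapping tori. -/
private theorem mmain_mt {F F' : Type} [Group F] [Group F'] (φ : MulAut F) (φ' : MulAut F')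
    (f : F →* F') (h : ∀ x, f (φ x) = φ' (f x)) :
    ∃ g : MT F φ →* MT F' φ', ∀ x, (g x).left = f x.left ∧ (g x).right = x.right := by
  refine ⟨SemidirectProduct.map f (MonoidHom.id _) ?_, fun x => ⟨rfl, rfl⟩⟩
  intro n
  ext x
  have := mmain_zpow φ φ' f h (Multiplicative.toAdd n) x
  simpa [zpowersHom_apply] using this

open scoped commutatorElement in
private theorem mmain_cm {G : Type} [Group G] (a b : G) :
    (a * b)⁻¹ * (b * a) ∈ ⁅(⊤ : Subgroup G), (⊤ : Subgroup G)⁆ := by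
  have h1 : (a * b)⁻¹ * (b * a) = ⁅b⁻¹, a⁻¹⁆ := by
    rw [commutatorElement_def]
    group
  rw [h1]
  exact Subgroup.commutator_mem_commutator (Subgroup.mem_top _) (Subgroup.mem_top _)

private theorem mmain_mt_inj {F F' : Type} [Group F] [Group F'] {φ : MulAut F} {φ' : MulAut F'}
    {f : F →* F'} {g : MT F φ →* MT F' φ'}
    (h : ∀ x, (g x).left = f x.left ∧ (g x).right = x.right) (hf : Function.Injective f) :
    Function.Injective g := by
  intro x y hxy
  refine SemidirectProduct.ext (hf ?_) ?_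
  · rw [← (h x).1, ← (h y).1, hxy]
  · rw [← (h x).2, ← (h y).2, hxy]

private theorem mmain_fg {C : Type} [Group C] [Group.FG C] (α : MulAut C) : Group.FG (MT C α) := by
  rw [Group.fg_def]
  have h1 : (⊤ : Subgroup (MT C α)) =
      (⊤ : Subgroup C).map (SemidirectProduct.inl : C →* MT C α) ⊔
      (⊤ : Subgroup (Multiplicative ℤ)).map
        (SemidirectProduct.inr : Multiplicative ℤ →* MT C α) := by
    refine (eq_top_iff.2 ?_).symm
    intro x _
    rw [← SemidirectProduct.inl_left_mul_inr_right x]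
    exact Subgroup.mul_mem _ (Subgroup.mem_sup_left (Subgroup.mem_map_of_mem _ trivial))
      (Subgroup.mem_sup_right (Subgroup.mem_map_of_mem _ trivial))
  rw [h1]
  have h2 : (⊤ : Subgroup C).FG := (Group.fg_def).1 inferInstance
  have h3 : (⊤ : Subgroup (Multiplicative ℤ)).FG := (Group.fg_def).1 inferInstance
  have h4 : ((⊤ : Subgroup C).map (SemidirectProduct.inl : C →* MT C α)).FG := by
    rw [← MonoidHom.range_eq_map]
    exact (Group.fg_iff_subgroup_fg _).1 inferInstance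
  have h5 : ((⊤ : Subgroup (Multiplicative ℤ)).map
      (SemidirectProduct.inr : Multiplicative ℤ →* MT C α)).FG := by
    rw [← MonoidHom.range_eq_map]
    exact (Group.fg_iff_subgroup_fg _).1 inferInstance
  exact h4.sup h5

/-- Mapping tori of products. -/
private theorem mmain_pi {J : Type} (A : J → Type) [∀ j, Group (A j)] (α : ∀ j, MulAut (A j))
    (αC : MulAut (∀ j, A j)) (hα : ∀ c j, αC c j = α j (c j)) (hR : ∀ j, RTFN (MT (A j) (α j))) :
    RTFN (MT (∀ j, A j) αC) := by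
  intro x hx
  by_cases hr : x.right = 1
  · have hl : x.left ≠ 1 := by
      intro hl
      exact hx (SemidirectProduct.ext hl hr)
    obtain ⟨j, hj⟩ : ∃ j, x.left j ≠ 1 := by
      by_contra hcon
      push Not at hcon
      exact hl (funext hcon)
    obtain ⟨g, hg⟩ := mmain_mt αC (α j) (Pi.evalMonoidHom A j) (fun c => hα c j)
    have hgx : g x ≠ 1 := by
      intro h
      have h1 := (hg x).1
      rw [h] at h1
      exact hj h1.symm
    obtain ⟨Q, hQ, f, h1, h2, h3⟩ := hR j (g x) hgx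
    exact ⟨Q, hQ, f.comp g, h1, h2, h3⟩
  · refine ⟨Multiplicative ℤ, inferInstance, SemidirectProduct.rightHom, inferInstance, ?_, hr⟩
    intro q k hk hq
    have h1 : k • Multiplicative.toAdd q = 0 := by
      rw [← toAdd_pow, hq, toAdd_one]
    rw [smul_eq_zero] at h1
    rcases h1 with h1 | h1
    · omega
    · exact Multiplicative.toAdd.injective h1

section endo

variable {J ι : Type} (A : J → Type) [∀ j, Group (A j)]

/-- The endomorphism of `C * F` given by automorphisms of the factors. -/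
private def mmain_end (κ : FM A ι →* FP (∀ j, A j) (J ⊕ ι)) (α : ∀ j, MulAut (A j))
    (φ : MulAut (FM A ι)) (w : J → FM A ι) :
    FP (∀ j, A j) (J ⊕ ι) →* FP (∀ j, A j) (J ⊕ ι) :=
  Monoid.Coprod.lift
    ((Monoid.Coprod.inl : (∀ j, A j) →* FP (∀ j, A j) (J ⊕ ι)).comp
      (MulEquiv.piCongrRight α).toMonoidHom)
    (FreeGroup.lift (fun s => Sum.elim (fun j => κ (w j) * xx (Sum.inl j))
      (fun i => κ (φ (Monoid.Coprod.inr (FreeGroup.of i)))) s))

variable (κ : FM A ι →* FP (∀ j, A j) (J ⊕ ι)) (α : ∀ j, MulAut (A j))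
    (φ : MulAut (FM A ι)) (w : J → FM A ι)

private theorem mmain_end_inl (c : ∀ j, A j) :
    mmain_end A κ α φ w (Monoid.Coprod.inl c) =
      Monoid.Coprod.inl (MulEquiv.piCongrRight α c) := rfl

private theorem mmain_end_xl (j : J) :
    mmain_end A κ α φ w (xx (Sum.inl j)) = κ (w j) * xx (Sum.inl j) := by
  change FreeGroup.lift _ (FreeGroup.of (Sum.inl j)) = _
  rw [FreeGroup.lift_apply_of]
  rfl

private theorem mmain_end_xr (i : ι) :
    mmain_end A κ α φ w (xx (Sum.inr i)) =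
      κ (φ (Monoid.Coprod.inr (FreeGroup.of i))) := by
  change FreeGroup.lift _ (FreeGroup.of (Sum.inr i)) = _
  rw [FreeGroup.lift_apply_of]
  rfl

/-- A homomorphism of `FM A ι` is determined on the factors and on the letters. -/
private theorem mmain_ext {G : Type} [Group G] (f g : FM A ι →* G)
    (h1 : ∀ j a, f (fac A ι j a) = g (fac A ι j a))
    (h2 : ∀ i, f (Monoid.Coprod.inr (FreeGroup.of i)) = g (Monoid.Coprod.inr (FreeGroup.of i))) :
    f = g := by
  refine Monoid.Coprod.hom_ext ?_ ?_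
  · refine Monoid.CoprodI.ext_hom _ _ fun j => ?_
    ext a
    exact h1 j a
  · exact FreeGroup.ext_hom _ _ h2

private theorem mmain_ext' {C ι' G : Type} [Group C] [Group G] (f g : FP C ι' →* G)
    (h1 : ∀ c, f (Monoid.Coprod.inl c) = g (Monoid.Coprod.inl c))
    (h2 : ∀ i, f (xx i) = g (xx i)) : f = g := by
  refine Monoid.Coprod.hom_ext ?_ ?_
  · ext c
    exact h1 c
  · exact FreeGroup.ext_hom _ _ h2

private theorem mmain_comm [DecidableEq J]
    (hκ1 : ∀ (j : J) (a : A j), κ (fac A ι j a) =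
        xx (Sum.inl j) * Monoid.Coprod.inl (Pi.mulSingle j a) * (xx (Sum.inl j))⁻¹)
    (hκ2 : ∀ i : ι, κ (Monoid.Coprod.inr (FreeGroup.of i)) = xx (Sum.inr i))
    (hφ : ∀ (j : J) (a : A j), φ (fac A ι j a) = w j * fac A ι j (α j a) * (w j)⁻¹)
    (f : FM A ι) : mmain_end A κ α φ w (κ f) = κ (φ f) := by
  have h : (mmain_end A κ α φ w).comp κ = κ.comp φ.toMonoidHom := by
    refine mmain_ext A _ _ ?_ ?_
    · intro j a
      change mmain_end A κ α φ w (κ (fac A ι j a)) = κ (φ (fac A ι j a))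
      rw [hκ1, map_mul, map_mul, map_inv, mmain_end_inl, mmain_end_xl, hφ, map_mul, map_mul,
        map_inv, hκ1]
      have h1 : MulEquiv.piCongrRight α (Pi.mulSingle j a) = Pi.mulSingle j (α j a) := by
        funext k
        change α k (Pi.mulSingle j a k) = Pi.mulSingle j (α j a) k
        by_cases hk : k = j
        · subst hk
          simp
        · simp [hk]
      rw [h1]
      group
    · intro i
      change mmain_end A κ α φ w (κ (Monoid.Coprod.inr (FreeGroup.of i))) =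
        κ (φ (Monoid.Coprod.inr (FreeGroup.of i)))
      rw [hκ2, mmain_end_xr]
  exact DFunLike.congr_fun h f

end endo

section quot

variable {G : Type} [Group G] (Φ : G →* G) (S : Subgroup G)

private theorem mmain_iter_mem (hS : ∀ f ∈ S, Φ f ∈ S) (k : ℕ) (f : G) (hf : f ∈ S) :
    (fun x => Φ x * x⁻¹)^[k] f ∈ S := by
  induction k generalizing f with
  | zero => exact hf
  | succ k ih =>
    rw [Function.iterate_succ_apply]
    exact ih _ (S.mul_mem (hS f hf) (S.inv_mem hf))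

private theorem mmain_iter_congr [S.Normal] (hS : ∀ f ∈ S, Φ f ∈ S) (k : ℕ) (f g : G)
    (hfg : QuotientGroup.mk' S f = QuotientGroup.mk' S g) :
    QuotientGroup.mk' S ((fun x => Φ x * x⁻¹)^[k] f) =
      QuotientGroup.mk' S ((fun x => Φ x * x⁻¹)^[k] g) := by
  induction k generalizing f g with
  | zero => exact hfg
  | succ k ih =>
    rw [Function.iterate_succ_apply, Function.iterate_succ_apply]
    refine ih _ _ ?_
    have h1 : QuotientGroup.mk' S (Φ f) = QuotientGroup.mk' S (Φ g) := by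
      have h2 : f⁻¹ * g ∈ S := QuotientGroup.eq.1 hfg
      have h3 : (Φ f)⁻¹ * Φ g ∈ S := by
        rw [← map_inv, ← map_mul]
        exact hS _ h2
      exact QuotientGroup.eq.2 h3
    rw [map_mul, map_mul, map_inv, map_inv, h1, hfg]

private theorem mmain_iter_mul [S.Normal] (hS : ∀ f ∈ S, Φ f ∈ S)
    (hc : ∀ a b : G ⧸ S, a * b = b * a) (k : ℕ) (f g : G) :
    QuotientGroup.mk' S ((fun x => Φ x * x⁻¹)^[k] (f * g)) =
      QuotientGroup.mk' S ((fun x => Φ x * x⁻¹)^[k] f) *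
      QuotientGroup.mk' S ((fun x => Φ x * x⁻¹)^[k] g) := by
  induction k generalizing f g with
  | zero => exact map_mul _ _ _
  | succ k ih =>
    rw [Function.iterate_succ_apply, Function.iterate_succ_apply, Function.iterate_succ_apply,
      ← ih]
    refine mmain_iter_congr Φ S hS k _ _ ?_
    simp only [map_mul, map_inv, mul_inv_rev]
    rw [hc (QuotientGroup.mk' S (Φ f)) (QuotientGroup.mk' S (Φ g)),
      hc ((QuotientGroup.mk' S g)⁻¹) ((QuotientGroup.mk' S f)⁻¹)]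
    rw [hc (QuotientGroup.mk' S (Φ f) * (QuotientGroup.mk' S f)⁻¹)]
    rw [mul_assoc, mul_assoc, ← mul_assoc (QuotientGroup.mk' S (Φ f)),
      hc (QuotientGroup.mk' S (Φ f) * (QuotientGroup.mk' S f)⁻¹)]

/-- The elements killed by an iterate of `Φ - 1` modulo `S`. -/
private def mmain_T [S.Normal] (hS : ∀ f ∈ S, Φ f ∈ S)
    (hc : ∀ a b : G ⧸ S, a * b = b * a) (k : ℕ) : Subgroup G where
  carrier := {f | (fun x => Φ x * x⁻¹)^[k] f ∈ S}
  mul_mem' := by
    intro f g hf hg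
    have hf' : QuotientGroup.mk' S ((fun x => Φ x * x⁻¹)^[k] f) = 1 :=
      (QuotientGroup.eq_one_iff _).2 hf
    have hg' : QuotientGroup.mk' S ((fun x => Φ x * x⁻¹)^[k] g) = 1 :=
      (QuotientGroup.eq_one_iff _).2 hg
    have h := mmain_iter_mul Φ S hS hc k f g
    rw [hf', hg', one_mul] at h
    exact (QuotientGroup.eq_one_iff _).1 h
  one_mem' := mmain_iter_mem Φ S hS k 1 S.one_mem
  inv_mem' := by
    intro f hf
    have hf' : QuotientGroup.mk' S ((fun x => Φ x * x⁻¹)^[k] f) = 1 :=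
      (QuotientGroup.eq_one_iff _).2 hf
    have h := mmain_iter_mul Φ S hS hc k f f⁻¹
    rw [hf', one_mul, mul_inv_cancel] at h
    have h1 : QuotientGroup.mk' S ((fun x => Φ x * x⁻¹)^[k] (1 : G)) = 1 :=
      (QuotientGroup.eq_one_iff _).2 (mmain_iter_mem Φ S hS k 1 S.one_mem)
    rw [h1] at h
    exact (QuotientGroup.eq_one_iff _).1 h.symm

end quot

theorem rtfn_multi {J ι : Type} [Finite J] [Finite ι] (A : J → Type) [∀ j, Group (A j)]
    (hfg : ∀ j, Group.FG (A j)) (α : ∀ j, MulAut (A j)) (φ : MulAut (FM A ι)) (w : J → FM A ι)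
    (hφ : ∀ (j : J) (a : A j), φ (fac A ι j a) = w j * fac A ι j (α j a) * (w j)⁻¹)
    (hR : ∀ j, RTFN (MT (A j) (α j))) (e : ℕ)
    (he : ∀ f : FM A ι, (fun x => φ x * x⁻¹)^[e] f ∈
      ⁅(⊤ : Subgroup (FM A ι)), (⊤ : Subgroup (FM A ι))⁆ ⊔
        Subgroup.normalClosure (⋃ j, Set.range (fac A ι j))) :
    RTFN (MT (FM A ι) φ) := by
  classical
  obtain ⟨κ, hκi, hκ1, hκ2⟩ := exists_kap A ι
  have hφ' : ∀ (j : J) (a : A j), φ⁻¹ (fac A ι j a) =
      (φ⁻¹ (w j))⁻¹ * fac A ι j ((α j)⁻¹ a) * ((φ⁻¹ (w j))⁻¹)⁻¹ := by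
    intro j a
    apply φ.injective
    have e1 : ∀ x, φ (φ⁻¹ x) = x := fun x => by
      rw [← MulAut.mul_apply, mul_inv_cancel, MulAut.one_apply]
    have e2 : (α j) ((α j)⁻¹ a) = a := by
      rw [← MulAut.mul_apply, mul_inv_cancel, MulAut.one_apply]
    rw [map_mul, map_mul, map_inv, map_inv, map_inv, e1, e1, hφ, e2]
    group
  set w' : J → FM A ι := fun j => (φ⁻¹ (w j))⁻¹ with hw'
  set Φ₁ := mmain_end A κ α φ w with hΦ₁
  set Φ₂ := mmain_end A κ (fun j => (α j)⁻¹) φ⁻¹ w' with hΦ₂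
  have hc1 : ∀ f, Φ₁ (κ f) = κ (φ f) := mmain_comm A κ α φ w hκ1 hκ2 hφ
  have hc2 : ∀ f, Φ₂ (κ f) = κ (φ⁻¹ f) :=
    mmain_comm A κ (fun j => (α j)⁻¹) φ⁻¹ w' hκ1 hκ2 hφ'
  have e1 : ∀ x, φ (φ⁻¹ x) = x := fun x => by
    rw [← MulAut.mul_apply, mul_inv_cancel, MulAut.one_apply]
  have e2 : ∀ x, φ⁻¹ (φ x) = x := fun x => by
    rw [← MulAut.mul_apply, inv_mul_cancel, MulAut.one_apply]
  have h12 : Φ₁.comp Φ₂ = MonoidHom.id _ := by
    refine mmain_ext' _ _ ?_ ?_
    · intro c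
      change Φ₁ (Φ₂ (Monoid.Coprod.inl c)) = Monoid.Coprod.inl c
      rw [hΦ₂, mmain_end_inl, hΦ₁, mmain_end_inl]
      congr 1
      funext j
      change (α j) ((α j)⁻¹ (c j)) = c j
      rw [← MulAut.mul_apply, mul_inv_cancel, MulAut.one_apply]
    · rintro (j | i)
      · change Φ₁ (Φ₂ (xx (Sum.inl j))) = xx (Sum.inl j)
        have h1 : Φ₂ (xx (Sum.inl j)) = κ (w' j) * xx (Sum.inl j) := mmain_end_xl A κ _ _ _ j
        have h2 : Φ₁ (xx (Sum.inl j)) = κ (w j) * xx (Sum.inl j) := mmain_end_xl A κ _ _ _ j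
        rw [h1, map_mul, hc1, h2, hw']
        simp only
        rw [map_inv φ, e1, map_inv, inv_mul_cancel_left]
      · change Φ₁ (Φ₂ (xx (Sum.inr i))) = xx (Sum.inr i)
        have h1 : Φ₂ (xx (Sum.inr i)) = κ (φ⁻¹ (Monoid.Coprod.inr (FreeGroup.of i))) :=
          mmain_end_xr A κ _ _ _ i
        rw [h1, hc1, e1, hκ2]
  have h21 : Φ₂.comp Φ₁ = MonoidHom.id _ := by
    refine mmain_ext' _ _ ?_ ?_
    · intro c
      change Φ₂ (Φ₁ (Monoid.Coprod.inl c)) = Monoid.Coprod.inl c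
      rw [hΦ₁, mmain_end_inl, hΦ₂, mmain_end_inl]
      congr 1
      funext j
      change (α j)⁻¹ ((α j) (c j)) = c j
      rw [← MulAut.mul_apply, inv_mul_cancel, MulAut.one_apply]
    · rintro (j | i)
      · change Φ₂ (Φ₁ (xx (Sum.inl j))) = xx (Sum.inl j)
        have h1 : Φ₂ (xx (Sum.inl j)) = κ (w' j) * xx (Sum.inl j) := mmain_end_xl A κ _ _ _ j
        have h2 : Φ₁ (xx (Sum.inl j)) = κ (w j) * xx (Sum.inl j) := mmain_end_xl A κ _ _ _ j
        rw [h2, map_mul, hc2, h1, hw']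
        simp only
        rw [map_inv κ, mul_inv_cancel_left]
      · change Φ₂ (Φ₁ (xx (Sum.inr i))) = xx (Sum.inr i)
        have h1 : Φ₁ (xx (Sum.inr i)) = κ (φ (Monoid.Coprod.inr (FreeGroup.of i))) :=
          mmain_end_xr A κ _ _ _ i
        rw [h1, hc2, e2, hκ2]
  set Φ : MulAut (FP (∀ j, A j) (J ⊕ ι)) := MonoidHom.toMulEquiv Φ₁ Φ₂ h21 h12 with hΦ
  have hΦa : ∀ x, Φ x = Φ₁ x := fun x => rfl
  set αC : MulAut (∀ j, A j) := MulEquiv.piCongrRight α with hαC
  -- the criterion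
  have hRC : RTFN (MT (∀ j, A j) αC) := mmain_pi A α αC (fun _ _ => rfl) hR
  have : ∀ j, Group.FG (A j) := hfg
  have hFG : Group.FG (MT (∀ j, A j) αC) := mmain_fg αC
  have hFGt : Group.FG ((⊤ : Subgroup (MT (∀ j, A j) αC))) :=
    (Group.fg_iff_subgroup_fg _).2 ((Group.fg_def).1 hFG)
  have hRUt : RU ((⊤ : Subgroup (MT (∀ j, A j) αC))) :=
    RU_of_RTFN hFGt (RTFN_of_inj (Subgroup.subtype _) (Subgroup.subtype_injective _) hRC)
  have hsub : Subsingleton ((∀ j, A j) ⧸ (⊤ : Subgroup (∀ j, A j))) :=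
    QuotientGroup.subsingleton_quotient_top
  have hker : (th (J ⊕ ι) (⊤ : Subgroup (∀ j, A j))).ker = ⊤ := by
    rw [eq_top_iff]
    intro x _
    rw [MonoidHom.mem_ker]
    exact Subsingleton.elim _ _
  set S := relS (J ⊕ ι) (⊤ : Subgroup (∀ j, A j)) with hS
  have hSeq : S = ⁅(⊤ : Subgroup (FP (∀ j, A j) (J ⊕ ι))), (⊤ : Subgroup (FP (∀ j, A j) (J ⊕ ι)))⁆ ⊔
      Subgroup.normalClosure ((Monoid.Coprod.inl : (∀ j, A j) →* FP (∀ j, A j) (J ⊕ ι)) ''
        ((⊤ : Subgroup (∀ j, A j)) : Set (∀ j, A j))) := by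
    rw [hS, relS, hker]
  have hSn : S.Normal := by
    rw [hSeq]
    infer_instance
  have hSc : ⁅(⊤ : Subgroup (FP (∀ j, A j) (J ⊕ ι))), (⊤ : Subgroup (FP (∀ j, A j) (J ⊕ ι)))⁆ ≤ S := by
    rw [hSeq]
    exact le_sup_left
  have hSinl : ∀ c : (∀ j, A j), (Monoid.Coprod.inl c : FP (∀ j, A j) (J ⊕ ι)) ∈ S := by
    intro c
    rw [hSeq]
    exact Subgroup.mem_sup_right (Subgroup.subset_normalClosure ⟨c, trivial, rfl⟩)
  have hSΦ : ∀ f ∈ S, Φ₁ f ∈ S := by
    have h1 : S ≤ S.comap Φ₁ := by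
      conv_lhs => rw [hSeq]
      refine sup_le ?_ ?_
      · rw [Subgroup.commutator_le]
        intro a _ b _
        rw [Subgroup.mem_comap, map_commutatorElement]
        exact hSc (Subgroup.commutator_mem_commutator (Subgroup.mem_top _) (Subgroup.mem_top _))
      · have : (S.comap Φ₁).Normal := hSn.comap Φ₁
        refine Subgroup.normalClosure_le_normal ?_
        rintro _ ⟨c, -, rfl⟩
        change Φ₁ (Monoid.Coprod.inl c) ∈ S
        rw [hΦ₁, mmain_end_inl]
        exact hSinl _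
    exact fun f hf => h1 hf
  have hcomm : ∀ a b : FP (∀ j, A j) (J ⊕ ι) ⧸ S, a * b = b * a := by
    intro a b
    obtain ⟨a, rfl⟩ := QuotientGroup.mk'_surjective S a
    obtain ⟨b, rfl⟩ := QuotientGroup.mk'_surjective S b
    rw [← map_mul, ← map_mul]
    exact QuotientGroup.eq.2 (hSc (mmain_cm a b))
  -- the image of the smaller group
  have hκS : ∀ f ∈ ⁅(⊤ : Subgroup (FM A ι)), (⊤ : Subgroup (FM A ι))⁆ ⊔
      Subgroup.normalClosure (⋃ j, Set.range (fac A ι j)), κ f ∈ S := by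
    have h1 : ⁅(⊤ : Subgroup (FM A ι)), (⊤ : Subgroup (FM A ι))⁆ ⊔
        Subgroup.normalClosure (⋃ j, Set.range (fac A ι j)) ≤ S.comap κ := by
      refine sup_le ?_ ?_
      · rw [Subgroup.commutator_le]
        intro a _ b _
        rw [Subgroup.mem_comap, map_commutatorElement]
        exact hSc (Subgroup.commutator_mem_commutator (Subgroup.mem_top _) (Subgroup.mem_top _))
      · have : (S.comap κ).Normal := hSn.comap κ
        refine Subgroup.normalClosure_le_normal ?_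
        intro f hf
        obtain ⟨j, a, rfl⟩ := Set.mem_iUnion.1 hf
        change κ (fac A ι j a) ∈ S
        rw [hκ1]
        exact hSn.conj_mem _ (hSinl _) _
    exact fun f hf => h1 hf
  have hiter : ∀ (k : ℕ) (f : FM A ι), (fun x => Φ₁ x * x⁻¹)^[k] (κ f) =
      κ ((fun x => φ x * x⁻¹)^[k] f) := by
    intro k
    induction k with
    | zero => intro f; rfl
    | succ k ih =>
      intro f
      rw [Function.iterate_succ_apply, Function.iterate_succ_apply, ← ih, hc1, map_mul, map_inv]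
  have hT : mmain_T Φ₁ S hSΦ hcomm (e + 1) = ⊤ := by
    have hx : ∀ s : J ⊕ ι, (xx s : FP (∀ j, A j) (J ⊕ ι)) ∈ mmain_T Φ₁ S hSΦ hcomm (e + 1) := by
      rintro (j | i)
      · change (fun x => Φ₁ x * x⁻¹)^[e + 1] (xx (Sum.inl j)) ∈ S
        rw [Function.iterate_succ_apply]
        have h2 : Φ₁ (xx (Sum.inl j)) = κ (w j) * xx (Sum.inl j) := mmain_end_xl A κ _ _ _ j
        rw [h2, mul_inv_cancel_right, hiter]
        exact hκS _ (he _)
      · change (fun x => Φ₁ x * x⁻¹)^[e + 1] (xx (Sum.inr i)) ∈ S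
        rw [← hκ2, hiter, Function.iterate_succ_apply]
        exact hκS _ (he _)
    rw [eq_top_iff]
    intro x _
    induction x using Monoid.Coprod.induction_on with
    | inl c => exact mmain_iter_mem Φ₁ S hSΦ (e + 1) _ (hSinl c)
    | inr n =>
      have h1 : (⊤ : Subgroup (FreeGroup (J ⊕ ι))) ≤
          (mmain_T Φ₁ S hSΦ hcomm (e + 1)).comap Monoid.Coprod.inr := by
        rw [← FreeGroup.closure_range_of, Subgroup.closure_le]
        rintro _ ⟨s, rfl⟩
        exact hx s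
      exact h1 trivial
    | mul x y hx hy => exact Subgroup.mul_mem _ (hx trivial) (hy trivial)
  have hfin : RTFN ((⊤ : Subgroup (MT (FP (∀ j, A j) (J ⊕ ι)) Φ))) := by
    refine crit0 (⊤ : Subgroup (∀ j, A j)) αC (fun a => trivial) Φ (fun a => rfl)
      (fun i => Subsingleton.elim _ _) (e + 1) ?_ ⊤ (fun x => ⟨fun _ => trivial, fun _ => trivial⟩)
      hRUt ⊤ (fun x => ⟨fun _ => ?_, fun _ => trivial⟩)
    · intro h _
      have h1 : h ∈ mmain_T Φ₁ S hSΦ hcomm (e + 1) := by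
        rw [hT]
        trivial
      exact h1
    · rw [hker]
      trivial
  obtain ⟨g, hg⟩ := mmain_mt φ Φ κ (fun x => (hc1 x).symm)
  have hgi := mmain_mt_inj hg hκi
  refine RTFN_of_inj ((Subgroup.topEquiv.symm.toMonoidHom).comp g) ?_ hfin
  exact (Subgroup.topEquiv.symm.injective).comp hgi

theorem vrtfn_multi {J ι : Type} [Finite J] [Finite ι] (A : J → Type) [∀ j, Group (A j)]
    (hfg : ∀ j, Group.FG (A j)) (α : ∀ j, MulAut (A j)) (φ : MulAut (FM A ι)) (w : J → FM A ι)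
    (hφ : ∀ (j : J) (a : A j), φ (fac A ι j a) = w j * fac A ι j (α j a) * (w j)⁻¹)
    (hR : ∀ j, RTFN (MT (A j) (α j))) (p : ℕ) (hp : 0 < p) (e : ℕ)
    (he : ∀ f : FM A ι, (fun x => (φ ^ p) x * x⁻¹)^[e] f ∈
      ⁅(⊤ : Subgroup (FM A ι)), (⊤ : Subgroup (FM A ι))⁆ ⊔
        Subgroup.normalClosure (⋃ j, Set.range (fac A ι j))) :
    VRTFN (MT (FM A ι) φ) := by
  have hw : ∀ (n : ℕ) (j : J), ∃ v : FM A ι, ∀ a : A j,
      (φ ^ n) (fac A ι j a) = v * fac A ι j ((α j ^ n) a) * v⁻¹ := by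
    intro n j
    induction n with
    | zero => exact ⟨1, fun a => by simp⟩
    | succ n ih =>
      obtain ⟨v, hv⟩ := ih
      refine ⟨φ v * w j, fun a => ?_⟩
      rw [pow_succ', pow_succ', MulAut.mul_apply, MulAut.mul_apply, hv, map_mul, map_mul, map_inv,
        hφ]
      group
  choose v hv using fun j => hw p j
  have h1 : RTFN (MT (FM A ι) (φ ^ p)) := by
    refine rtfn_multi A hfg (fun j => α j ^ p) (φ ^ p) v hv ?_ e he
    intro j
    obtain ⟨f, hf, -⟩ := mt_pow_embed (α j) p hp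
    exact RTFN_of_inj f hf (hR j)
  refine VRTFN_of_pow φ p hp ⟨⊤, ?_, ?_⟩
  · rw [Subgroup.index_top]
    exact one_ne_zero
  · exact RTFN_of_inj (Subgroup.subtype _) (Subgroup.subtype_injective _) h1

end Pool.H11.FC
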