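import Pool.Agent.H11.FC.Defs

/-! # Reduced expressions in `A * F(ι)`

`ev a₀ [(i₁,n₁,a₁), ...] = a₀ x_{i₁}^{n₁} a₁ x_{i₂}^{n₂} a₂ ...`; reduced: all `n_l ≠ 0` and `i_l = i_{l+1} → a_l ≠ 1`.
PROOF of `exists_red`: the set of `f` with a reduced expression contains `1` and is stable under left multiplication by `inl a` (change `a₀`) and by `xx i ^ ε`, `ε = ± 1`: if
`a₀ = 1` and the first index is `i`: the first exponent becomes `n₁ + ε`; if it is `≠ 0` fine; if it is `0` the element equals `ev a₁ (rest)`, which is reduced. Otherwise prepend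
`(i, ε, a₀)` and put `a₀' = 1`: reduced since if `i = i₁` then `a₀ ≠ 1`. Every `f` is a product of such letters: `Monoid.Coprod.induction_on`-type argument: the set
`{g | ∀ f, P f → P (g * f)}` is a submonoid containing `inl a`, `xx i`, `(xx i)⁻¹`, hence all `inr w` (`FreeGroup.induction_on`) and everything; apply it to `f = 1`. -/

set_option autoImplicit false

namespace Pool.H11.FC

/-- The element given by an expression. -/
def ev {A : Type} [Group A] {ι : Type} (a₀ : A) (L : List (ι × ℤ × A)) : FP A ι :=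
  Monoid.Coprod.inl a₀ * (L.map fun t => xx t.1 ^ t.2.1 * Monoid.Coprod.inl t.2.2).prod

/-- Reduced expressions. -/
def Red {A : Type} [Group A] {ι : Type} (L : List (ι × ℤ × A)) : Prop :=
  (∀ t ∈ L, t.2.1 ≠ 0) ∧ L.IsChain fun s t => s.1 = t.1 → s.2.2 ≠ 1

private theorem nf_inl {A : Type} [Group A] {ι : Type} (a : A) (a₀ : A)
    (L : List (ι × ℤ × A)) : (Monoid.Coprod.inl a : FP A ι) * ev a₀ L = ev (a * a₀) L := by
  unfold ev
  rw [map_mul, mul_assoc]

private theorem nf_cons {A : Type} [Group A] {ι : Type} (a₀ : A) (i : ι) (n : ℤ) (a : A)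
    (L : List (ι × ℤ × A)) :
    ev a₀ ((i, n, a) :: L) = (Monoid.Coprod.inl a₀ : FP A ι) * (xx i ^ n * ev a L) := by
  unfold ev
  rw [List.map_cons, List.prod_cons]
  simp only [mul_assoc]

private theorem nf_step {A : Type} [Group A] {ι : Type} (i : ι) (e : ℤ) (he : e ≠ 0) (a₀ : A)
    (L : List (ι × ℤ × A)) (hL : Red L) :
    ∃ (a' : A) (L' : List (ι × ℤ × A)), Red L' ∧ (xx i ^ e : FP A ι) * ev a₀ L = ev a' L' := by
  by_cases hc : a₀ = 1 ∧ ∃ (n : ℤ) (a : A) (R : List (ι × ℤ × A)), L = (i, n, a) :: R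
  · obtain ⟨h1, n, a, R, rfl⟩ := hc
    subst h1
    by_cases hn : e + n = 0
    · refine ⟨a, R, ⟨fun t ht => hL.1 t (List.mem_cons_of_mem _ ht), hL.2.tail⟩, ?_⟩
      rw [nf_cons, map_one, one_mul, ← mul_assoc, ← zpow_add, hn, zpow_zero, one_mul]
    · refine ⟨1, (i, e + n, a) :: R, ⟨?_, ?_⟩, ?_⟩
      · intro t ht
        rcases List.mem_cons.1 ht with h | h
        · rw [h]; exact hn
        · exact hL.1 t (List.mem_cons_of_mem _ h)
      · cases R with
        | nil => exact List.isChain_singleton _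
        | cons s R =>
          have h2 := List.isChain_cons_cons.1 hL.2
          exact List.isChain_cons_cons.2 ⟨h2.1, h2.2⟩
      · rw [nf_cons, nf_cons, map_one, one_mul, one_mul, ← mul_assoc, ← zpow_add]
  · refine ⟨1, (i, e, a₀) :: L, ⟨?_, ?_⟩, ?_⟩
    · intro t ht
      rcases List.mem_cons.1 ht with h | h
      · rw [h]; exact he
      · exact hL.1 t h
    · cases L with
      | nil => exact List.isChain_singleton _
      | cons s R =>
        refine List.isChain_cons_cons.2 ⟨?_, hL.2⟩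
        intro h3 h4
        obtain ⟨j, n, a⟩ := s
        have h3' : i = j := h3
        subst h3'
        exact hc ⟨h4, n, a, R, rfl⟩
    · rw [nf_cons, map_one, one_mul]

theorem exists_red {A : Type} [Group A] {ι : Type} (f : FP A ι) :
    ∃ (a₀ : A) (L : List (ι × ℤ × A)), Red L ∧ f = ev a₀ L := by
  have key : ∀ g : FP A ι, ∀ h : FP A ι,
      (∃ (a₀ : A) (L : List (ι × ℤ × A)), Red L ∧ h = ev a₀ L) →
      ∃ (a₀ : A) (L : List (ι × ℤ × A)), Red L ∧ g * h = ev a₀ L := by
    intro g
    have hmul : ∀ g g' : FP A ι,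
        (∀ h : FP A ι, (∃ (a₀ : A) (L : List (ι × ℤ × A)), Red L ∧ h = ev a₀ L) →
          ∃ (a₀ : A) (L : List (ι × ℤ × A)), Red L ∧ g * h = ev a₀ L) →
        (∀ h : FP A ι, (∃ (a₀ : A) (L : List (ι × ℤ × A)), Red L ∧ h = ev a₀ L) →
          ∃ (a₀ : A) (L : List (ι × ℤ × A)), Red L ∧ g' * h = ev a₀ L) →
        ∀ h : FP A ι, (∃ (a₀ : A) (L : List (ι × ℤ × A)), Red L ∧ h = ev a₀ L) →
          ∃ (a₀ : A) (L : List (ι × ℤ × A)), Red L ∧ (g * g') * h = ev a₀ L := by
      intro g g' hg hg' h hh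
      rw [mul_assoc]
      exact hg _ (hg' h hh)
    induction g using Monoid.Coprod.induction_on with
    | inl a =>
      rintro h ⟨a₀, L, hL, rfl⟩
      exact ⟨a * a₀, L, hL, nf_inl a a₀ L⟩
    | inr w =>
      induction w using FreeGroup.induction_on with
      | C1 =>
        intro h hh
        rwa [map_one, one_mul]
      | of i =>
        rintro h ⟨a₀, L, hL, rfl⟩
        have h1 := nf_step i 1 one_ne_zero a₀ L hL
        rw [zpow_one] at h1
        exact h1
      | inv_of i _ =>
        rintro h ⟨a₀, L, hL, rfl⟩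
        have h1 := nf_step i (-1) (by norm_num) a₀ L hL
        rw [zpow_neg, zpow_one] at h1
        rw [map_inv]
        exact h1
      | mul w w' hw hw' =>
        rw [map_mul]
        exact hmul _ _ hw hw'
    | mul g g' hg hg' => exact hmul _ _ hg hg'
  have h1 := key f 1 ⟨1, [], ⟨by simp, List.isChain_nil⟩, by simp [ev]⟩
  rwa [mul_one] at h1

end Pool.H11.FC
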