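import Mathlib

/-! # Subgroups of finitely generated nilpotent groups are finitely generated -/

set_option autoImplicit false

open scoped commutatorElement

namespace Pool.H11.FC

private theorem noeth_ext {G : Type} [Group G] (γ : Subgroup G) [γ.Normal] (H : Subgroup G)
    (h1 : (H ⊓ γ).FG) (h2 : (H.map (QuotientGroup.mk' γ)).FG) : H.FG := by
  classical
  obtain ⟨S1, hS1⟩ := h1
  obtain ⟨T, hT⟩ := h2
  have hT' : ∀ t ∈ T, ∃ g ∈ H, (QuotientGroup.mk' γ) g = t := by
    intro t ht
    have : t ∈ H.map (QuotientGroup.mk' γ) := by rw [← hT]; exact Subgroup.subset_closure ht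
    obtain ⟨g, hg, rfl⟩ := this
    exact ⟨g, hg, rfl⟩
  choose! f hf1 hf2 using hT'
  refine ⟨S1 ∪ T.image f, ?_⟩
  apply le_antisymm
  · rw [Subgroup.closure_le]
    intro x hx
    rw [Finset.coe_union, Set.mem_union] at hx
    rcases hx with hx | hx
    · have : x ∈ H ⊓ γ := by rw [← hS1]; exact Subgroup.subset_closure hx
      exact this.1
    · simp only [Finset.coe_image, Set.mem_image, Finset.mem_coe] at hx
      obtain ⟨t, ht, rfl⟩ := hx
      exact hf1 t ht
  · intro h hh
    have h3 : (QuotientGroup.mk' γ) h ∈
        (Subgroup.closure ((T.image f : Finset G) : Set G)).map (QuotientGroup.mk' γ) := by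
      rw [MonoidHom.map_closure]
      have h4 : (QuotientGroup.mk' γ) h ∈ Subgroup.closure (T : Set (G ⧸ γ)) := by
        rw [hT]; exact ⟨h, hh, rfl⟩
      refine Subgroup.closure_mono ?_ h4
      intro t ht
      exact ⟨f t, by simpa using ⟨t, ht, rfl⟩, hf2 t ht⟩
    obtain ⟨g, hg, hgh⟩ := h3
    have hgH : g ∈ H := by
      have : Subgroup.closure ((T.image f : Finset G) : Set G) ≤ H := by
        rw [Subgroup.closure_le]
        intro x hx
        simp only [Finset.coe_image, Set.mem_image, Finset.mem_coe] at hx
        obtain ⟨t, ht, rfl⟩ := hx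
        exact hf1 t ht
      exact this hg
    have hk : g⁻¹ * h ∈ γ := by
      rw [QuotientGroup.mk'_apply, QuotientGroup.mk'_apply, QuotientGroup.eq] at hgh
      exact hgh
    have hk2 : g⁻¹ * h ∈ Subgroup.closure (S1 : Set G) := by
      rw [hS1]; exact ⟨H.mul_mem (H.inv_mem hgH) hh, hk⟩
    have h5 : h = g * (g⁻¹ * h) := by group
    rw [h5]
    refine Subgroup.mul_mem _ ?_ ?_
    · refine Subgroup.closure_mono ?_ hg
      intro x hx
      rw [Finset.coe_union]
      exact Or.inr hx
    · refine Subgroup.closure_mono ?_ hk2
      intro x hx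
      rw [Finset.coe_union]
      exact Or.inl hx

private theorem noeth_comm {A : Type} [CommGroup A] [Group.FG A] (H : Subgroup A) : H.FG := by
  rw [Subgroup.fg_iff_add_fg]
  have : Module.Finite ℤ (Additive A) := Module.Finite.iff_addGroup_fg.2 inferInstance
  have h : (AddSubgroup.toIntSubmodule H.toAddSubgroup).FG := IsNoetherian.noetherian _
  rw [Submodule.fg_iff_addSubgroup_fg, AddSubgroup.toIntSubmodule_toAddSubgroup] at h
  exact h

private theorem noeth_central {G : Type} [Group G] (γ : Subgroup G)
    (hc : ∀ x ∈ γ, ∀ y ∈ γ, x * y = y * x) (hfg : γ.FG) (H : Subgroup G) (hH : H ≤ γ) : H.FG := by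
  let inst : CommGroup γ :=
    { (inferInstance : Group γ) with
      mul_comm := fun x y => Subtype.ext (hc x x.2 y y.2) }
  have h1 : Group.FG γ := (Group.fg_iff_subgroup_fg γ).2 hfg
  have h2 : (H.subgroupOf γ).FG := @noeth_comm γ inst h1 (H.subgroupOf γ)
  have h3 : ((H.subgroupOf γ).map γ.subtype).FG := by
    obtain ⟨S, hS⟩ := h2
    classical
    refine ⟨S.image γ.subtype, ?_⟩
    rw [Finset.coe_image, ← MonoidHom.map_closure, hS]
  rwa [Subgroup.map_subgroupOf_eq_of_le hH] at h3

private theorem noeth_aux (n : ℕ) : ∀ (G : Type) [Group G], Group.FG G →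
    (⊤ : Subgroup G).lowerCentralSeries n = ⊥ → ∀ H : Subgroup G, H.FG := by
  induction n with
  | zero =>
    intro G _ _ h H
    rw [Subgroup.lowerCentralSeries_zero] at h
    have : H = ⊥ := by rw [eq_bot_iff, ← h]; exact le_top
    rw [this]
    exact Subgroup.FG.bot
  | succ n ih =>
    intro G _ hfg h H
    set γ : Subgroup G := (⊤ : Subgroup G).lowerCentralSeries n with hγ
    have hcen : ∀ x ∈ γ, ∀ y : G, x * y = y * x := by
      intro x hx y
      have h1 : ⁅x, y⁆ ∈ (⊤ : Subgroup G).lowerCentralSeries (n + 1) :=
        Subgroup.commutator_mem_commutator hx (Subgroup.mem_top y)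
      rw [h, Subgroup.mem_bot, commutatorElement_def] at h1
      have h2 : x * y * x⁻¹ = y := by
        have := mul_inv_eq_one.1 h1
        exact this
      exact (mul_inv_eq_iff_eq_mul.1 h2)
    have hnorm : γ.Normal := ⟨fun x hx g => by
      have : g * x * g⁻¹ = x := by rw [← hcen x hx g]; group
      rwa [this]⟩
    -- the quotient
    have hq : (⊤ : Subgroup (G ⧸ γ)).lowerCentralSeries n = ⊥ := by
      have h1 : ∀ k, (⊤ : Subgroup (G ⧸ γ)).lowerCentralSeries k =
          ((⊤ : Subgroup G).lowerCentralSeries k).map (QuotientGroup.mk' γ) := by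
        intro k
        induction k with
        | zero =>
          rw [Subgroup.lowerCentralSeries_zero, Subgroup.lowerCentralSeries_zero]
          exact (Subgroup.map_top_of_surjective _ (QuotientGroup.mk'_surjective γ)).symm
        | succ k ihk =>
          rw [Subgroup.lowerCentralSeries_succ, Subgroup.lowerCentralSeries_succ, ihk,
            Subgroup.map_commutator]
          congr 1
          exact (Subgroup.map_top_of_surjective _ (QuotientGroup.mk'_surjective γ)).symm
      rw [h1 n, ← hγ]
      rw [Subgroup.map_eq_bot_iff, QuotientGroup.ker_mk']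
    have hfgq : Group.FG (G ⧸ γ) := QuotientGroup.fg γ
    have ihq := ih (G ⧸ γ) hfgq hq
    -- γ is finitely generated
    have hγfg : γ.FG := by
      rcases Nat.eq_zero_or_pos n with hn | hn
      · have : γ = ⊤ := by rw [hγ, hn, Subgroup.lowerCentralSeries_zero]
        rw [this]
        exact Group.fg_def.1 hfg
      · obtain ⟨k, rfl⟩ : ∃ k, n = k + 1 := ⟨n - 1, by omega⟩
        set γ' : Subgroup G := (⊤ : Subgroup G).lowerCentralSeries k with hγ'
        have hγ2 : γ = ⁅γ', ⊤⁆ := rfl
        classical
        obtain ⟨T, hT⟩ := ihq (γ'.map (QuotientGroup.mk' γ))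
        have hT' : ∀ t ∈ T, ∃ g ∈ γ', (QuotientGroup.mk' γ) g = t := by
          intro t ht
          have : t ∈ γ'.map (QuotientGroup.mk' γ) := by
            rw [← hT]; exact Subgroup.subset_closure ht
          obtain ⟨g, hg, rfl⟩ := this
          exact ⟨g, hg, rfl⟩
        choose! f hf1 hf2 using hT'
        obtain ⟨X, hX⟩ := Group.fg_def.1 hfg
        let P : Finset G := (T ×ˢ X).image fun z => ⁅f z.1, z.2⁆
        set C : Subgroup G := Subgroup.closure (P : Set G) with hC
        have hcomm_mem : ∀ y ∈ γ', ∀ x : G, ⁅y, x⁆ ∈ γ := fun y hy x =>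
          Subgroup.commutator_mem_commutator hy (Subgroup.mem_top x)
        -- step 1
        have s1 : ∀ t ∈ T, ∀ x : G, ⁅f t, x⁆ ∈ C := by
          intro t ht x
          have hx : x ∈ Subgroup.closure (X : Set G) := by rw [hX]; trivial
          induction hx using Subgroup.closure_induction with
          | mem x hx =>
            apply Subgroup.subset_closure
            simp only [P, Finset.coe_image, Set.mem_image, Finset.mem_coe, Finset.mem_product]
            exact ⟨(t, x), ⟨ht, hx⟩, rfl⟩
          | one => rw [commutatorElement_one_right]; exact C.one_mem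
          | mul x y _ _ hx hy =>
            have hc := hcen _ (hcomm_mem _ (hf1 t ht) y) x
            have e : ⁅f t, x * y⁆ = ⁅f t, x⁆ * ⁅f t, y⁆ := by
              have e1 : ⁅f t, x * y⁆ = ⁅f t, x⁆ * (x * ⁅f t, y⁆ * x⁻¹) := by
                simp only [commutatorElement_def]; group
              rw [e1, ← hc]; group
            rw [e]; exact C.mul_mem hx hy
          | inv x _ hx =>
            have hc := hcen _ (hcomm_mem _ (hf1 t ht) x⁻¹) x
            have e : ⁅f t, x⁻¹⁆ = ⁅f t, x⁆⁻¹ := by
              have e1 : ⁅f t, x⁆ * (x * ⁅f t, x⁻¹⁆ * x⁻¹) = 1 := by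
                simp only [commutatorElement_def]; group
              have e2 : x * ⁅f t, x⁻¹⁆ * x⁻¹ = ⁅f t, x⁻¹⁆ := by rw [← hc]; group
              rw [e2] at e1
              exact (inv_eq_of_mul_eq_one_right e1).symm
            rw [e]; exact C.inv_mem hx
        -- step 2
        have s2 : ∀ y ∈ γ', ∀ x : G, ⁅y, x⁆ ∈ C := by
          intro y hy x
          have hy2 : (QuotientGroup.mk' γ) y ∈ Subgroup.closure (T : Set (G ⧸ γ)) := by
            rw [hT]; exact ⟨y, hy, rfl⟩
          -- lift
          have h3 : ∃ z ∈ Subgroup.closure ((T.image f : Finset G) : Set G),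
              (QuotientGroup.mk' γ) z = (QuotientGroup.mk' γ) y := by
            have : (QuotientGroup.mk' γ) y ∈
                (Subgroup.closure ((T.image f : Finset G) : Set G)).map
                  (QuotientGroup.mk' γ) := by
              rw [MonoidHom.map_closure]
              refine Subgroup.closure_mono ?_ hy2
              intro t ht
              exact ⟨f t, by simpa using ⟨t, ht, rfl⟩, hf2 t ht⟩
            obtain ⟨z, hz, hz2⟩ := this
            exact ⟨z, hz, hz2⟩
          obtain ⟨z, hz, hzy⟩ := h3
          have hzy' : z⁻¹ * y ∈ γ := by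
            rw [QuotientGroup.mk'_apply, QuotientGroup.mk'_apply, QuotientGroup.eq] at hzy
            exact hzy
          have hcl : Subgroup.closure ((T.image f : Finset G) : Set G) ≤ γ' := by
            rw [Subgroup.closure_le]
            intro w hw
            simp only [Finset.coe_image, Set.mem_image, Finset.mem_coe] at hw
            obtain ⟨t, ht, rfl⟩ := hw
            exact hf1 t ht
          -- [z,x] in C
          have hzC : z ∈ γ' ∧ ⁅z, x⁆ ∈ C := by
            refine ⟨hcl hz, ?_⟩
            have : ∀ w, w ∈ Subgroup.closure ((T.image f : Finset G) : Set G) →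
                ⁅w, x⁆ ∈ C := by
              intro w hw
              induction hw using Subgroup.closure_induction with
              | mem w hw =>
                simp only [Finset.coe_image, Set.mem_image, Finset.mem_coe] at hw
                obtain ⟨t, ht, rfl⟩ := hw
                exact s1 t ht x
              | one => rw [commutatorElement_one_left]; exact C.one_mem
              | mul u v hu hv hu' hv' =>
                have hc := hcen _ (hcomm_mem _ (hcl hv) x) u
                have e : ⁅u * v, x⁆ = ⁅v, x⁆ * ⁅u, x⁆ := by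
                  have e1 : ⁅u * v, x⁆ = (u * ⁅v, x⁆ * u⁻¹) * ⁅u, x⁆ := by
                    simp only [commutatorElement_def]; group
                  rw [e1, ← hc]; group
                rw [e]; exact C.mul_mem hv' hu'
              | inv u hu hu' =>
                have hc := hcen _ (hcomm_mem _ (γ'.inv_mem (hcl hu)) x) u
                have e : ⁅u⁻¹, x⁆ = ⁅u, x⁆⁻¹ := by
                  have e1 : (u * ⁅u⁻¹, x⁆ * u⁻¹) * ⁅u, x⁆ = 1 := by
                    simp only [commutatorElement_def]; group
                  have e2 : u * ⁅u⁻¹, x⁆ * u⁻¹ = ⁅u⁻¹, x⁆ := by rw [← hc]; group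
                  rw [e2] at e1
                  exact eq_inv_of_mul_eq_one_left e1
                rw [e]; exact C.inv_mem hu'
            exact this z hz
          have hc := hcen _ hzy' x
          have e : ⁅y, x⁆ = ⁅z, x⁆ := by
            have ey : y = z * (z⁻¹ * y) := by group
            have e1 : ⁅z * (z⁻¹ * y), x⁆ = z * ((z⁻¹ * y) * x * (z⁻¹ * y)⁻¹) * z⁻¹ * x⁻¹ := by
              simp only [commutatorElement_def]; group
            have e2 : (z⁻¹ * y) * x * (z⁻¹ * y)⁻¹ = x := by rw [hc]; group
            rw [ey, e1, e2, commutatorElement_def]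
          rw [e]; exact hzC.2
        have hγC : γ = C := by
          apply le_antisymm
          · rw [hγ2, Subgroup.commutator_le]
            intro y hy x _
            exact s2 y hy x
          · rw [hC, Subgroup.closure_le]
            intro w hw
            simp only [P, Finset.coe_image, Set.mem_image, Finset.mem_coe,
              Finset.mem_product] at hw
            obtain ⟨⟨t, x⟩, ⟨ht, _⟩, rfl⟩ := hw
            exact hcomm_mem _ (hf1 t ht) x
        rw [hγC]
        exact ⟨P, rfl⟩
    refine noeth_ext γ H ?_ (ihq _)
    exact noeth_central γ (fun x hx y _ => hcen x hx y) hγfg _ inf_le_right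

theorem fg_subgroup_of_nilpotent {G : Type} [Group G] (hfg : Group.FG G)
    (hn : Group.IsNilpotent G) (H : Subgroup G) : H.FG := by
  obtain ⟨n, h⟩ := Subgroup.nilpotent_iff_lowerCentralSeries.1 hn
  exact noeth_aux n G hfg h H

end Pool.H11.FC
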