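import Pool.Agent.H11.FC.OO

/-! # Automorphisms of the free group of rank two extend to `ℤ/2 * ℤ/2 * ℤ/2`

Write `a b c` for `so 0, so 1, so 2`; `a² = b² = c² = 1`; `x = of 0 ↦ ab`, `y = of 1 ↦ bc`.
PROOF of `j2_inj`. Let `ι` be the automorphism `x ↦ x⁻¹, y ↦ y⁻¹` of `F = FreeGroup (Fin 2)` (an involution). Homomorphism `OO → Equiv.Perm F` (`PresentedGroup.toGroup`):
`a ↦ (f ↦ x * ι f)`, `b ↦ ι`, `c ↦ (f ↦ ι (y * f))`; all three are involutions (`x * ι (x * ι f) = x x⁻¹ f`). `ab ↦ (f ↦ x f)`, `bc ↦ (f ↦ y f)`, so `j2 w` acts by left multiplication by `w`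
(`FreeGroup.induction_on` or equality of homomorphisms `FreeGroup (Fin 2) → Perm F`, `FreeGroup.ext_hom`). If `j2 w = 1` then `w * 1 = 1`.
PROOF of `extend_F2`. The set of `φ` with such a `ψ` is a subgroup: `ψ ψ'`, `ψ⁻¹` (`ψ (j2 f) = j2 (φ f)` gives `ψ⁻¹ (j2 f) = j2 (φ⁻¹ f)`), and `PresP` is closed under products and inverses. So it
suffices to treat the elementary automorphisms (`Subgroup.closure_induction` or `Subgroup.closure_le`). An automorphism of `OO` is given by two mutually inverse homomorphisms (`PresentedGroup.toGroup`,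
`MonoidHom.toMulEquiv`; homomorphisms from `OO` agree if they agree on `so i`, `PresentedGroup.ext`):
(1) `x ↦ xy, y ↦ y`: `ψ : a ↦ a, b ↦ c, c ↦ c b c`; inverse `a ↦ a, b ↦ b c b, c ↦ b`. `ψ (ab) = ac = (ab)(bc)`, `ψ (bc) = c c b c = bc`, `ψ (abc) = a c c b c = abc`.
(2) `x ↔ y`: `ψ : a ↦ b c b, b ↦ b, c ↦ b a b` (an involution). `ψ (ab) = bc`, `ψ (bc) = ab`, `ψ (abc) = b c b b b a b = b (cba) b = b (abc)⁻¹ b⁻¹`.
(3) `x ↦ x⁻¹, y ↦ y`: `ψ : a ↦ b a b, b ↦ b, c ↦ c` (an involution). `ψ (ab) = ba`, `ψ (bc) = bc`, `ψ (abc) = b a c = c (cba) c⁻¹`, since `c c b a c⁻¹ = b a c`.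
In each case `ψ (j2 f) = j2 (ν f)` by `FreeGroup.ext_hom` (`Fin 2`). -/

set_option autoImplicit false

namespace Pool.H11.FC

/-- Homomorphisms out of `OO`. -/
private noncomputable def oa_hom {G : Type} [Group G] (f : Fin 3 → G) (hf : ∀ i, f i * f i = 1) :
    OO →* G :=
  PresentedGroup.toGroup (f := f) (by
    rintro r ⟨i, rfl⟩
    rw [map_pow, FreeGroup.lift_apply_of, pow_two]
    exact hf i)

private theorem oa_hom_so {G : Type} [Group G] (f : Fin 3 → G) (hf : ∀ i, f i * f i = 1)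
    (i : Fin 3) : oa_hom f hf (so i) = f i :=
  PresentedGroup.toGroup.of _

private theorem oa_sq (i : Fin 3) : so i * so i = 1 := by
  rw [← pow_two]
  have h : PresentedGroup.mk (Set.range fun i : Fin 3 => (FreeGroup.of i : FreeGroup (Fin 3)) ^ 2)
      (FreeGroup.of i ^ 2) = 1 := PresentedGroup.one_of_mem ⟨i, rfl⟩
  rw [map_pow] at h
  exact h

private theorem oa_sq' (i : Fin 3) (z : OO) : so i * (so i * z) = z := by
  rw [← mul_assoc, oa_sq, one_mul]

private theorem oa_inv (i : Fin 3) : (so i)⁻¹ = so i :=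
  inv_eq_of_mul_eq_one_left (oa_sq i)

private theorem oa_mk (f g : Fin 3 → OO) (hf : ∀ i, f i * f i = 1) (hg : ∀ i, g i * g i = 1)
    (h1 : ∀ i, oa_hom g hg (f i) = so i) (h2 : ∀ i, oa_hom f hf (g i) = so i) :
    ∃ ψ : MulAut OO, ∀ i, ψ (so i) = f i := by
  refine ⟨MonoidHom.toMulEquiv (oa_hom f hf) (oa_hom g hg) ?_ ?_, fun i => ?_⟩
  · apply PresentedGroup.ext
    intro i
    change oa_hom g hg (oa_hom f hf (so i)) = so i
    rw [oa_hom_so, h1]
  · apply PresentedGroup.ext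
    intro i
    change oa_hom f hf (oa_hom g hg (so i)) = so i
    rw [oa_hom_so, h2]
  · exact oa_hom_so f hf i

private theorem oa_x : j2 (FreeGroup.of 0) = so 0 * so 1 := by
  unfold j2
  rw [FreeGroup.lift_apply_of]
  rfl

private theorem oa_y : j2 (FreeGroup.of 1) = so 1 * so 2 := by
  unfold j2
  rw [FreeGroup.lift_apply_of]
  rfl

private theorem oa_comm (ψ : MulAut OO) (ν : MulAut (FreeGroup (Fin 2)))
    (h0 : ψ (so 0 * so 1) = j2 (ν (FreeGroup.of 0)))
    (h1 : ψ (so 1 * so 2) = j2 (ν (FreeGroup.of 1))) (f : FreeGroup (Fin 2)) :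
    ψ (j2 f) = j2 (ν f) := by
  have h : (ψ : OO →* OO).comp j2 = j2.comp (ν : FreeGroup (Fin 2) →* FreeGroup (Fin 2)) := by
    apply FreeGroup.ext_hom
    intro i
    fin_cases i
    · change ψ (j2 (FreeGroup.of 0)) = j2 (ν (FreeGroup.of 0))
      rw [← h0, oa_x]
    · change ψ (j2 (FreeGroup.of 1)) = j2 (ν (FreeGroup.of 1))
      rw [← h1, oa_y]
  exact DFunLike.congr_fun h f

/-- The inversion of the letters. -/
private noncomputable def oa_io : FreeGroup (Fin 2) →* FreeGroup (Fin 2) :=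
  FreeGroup.lift fun i => (FreeGroup.of i)⁻¹

private theorem oa_io_of (i : Fin 2) : oa_io (FreeGroup.of i) = (FreeGroup.of i)⁻¹ := by
  unfold oa_io
  rw [FreeGroup.lift_apply_of]

private theorem oa_io_io (f : FreeGroup (Fin 2)) : oa_io (oa_io f) = f := by
  have h : oa_io.comp oa_io = MonoidHom.id _ := by
    apply FreeGroup.ext_hom
    intro i
    change oa_io (oa_io (FreeGroup.of i)) = FreeGroup.of i
    rw [oa_io_of, map_inv, oa_io_of, inv_inv]
  exact DFunLike.congr_fun h f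

private noncomputable def oa_pa : Equiv.Perm (FreeGroup (Fin 2)) where
  toFun f := FreeGroup.of 0 * oa_io f
  invFun f := FreeGroup.of 0 * oa_io f
  left_inv f := by
    change FreeGroup.of 0 * oa_io (FreeGroup.of 0 * oa_io f) = f
    rw [map_mul, oa_io_of, oa_io_io, mul_inv_cancel_left]
  right_inv f := by
    change FreeGroup.of 0 * oa_io (FreeGroup.of 0 * oa_io f) = f
    rw [map_mul, oa_io_of, oa_io_io, mul_inv_cancel_left]

private noncomputable def oa_pb : Equiv.Perm (FreeGroup (Fin 2)) where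
  toFun f := oa_io f
  invFun f := oa_io f
  left_inv f := oa_io_io f
  right_inv f := oa_io_io f

private noncomputable def oa_pc : Equiv.Perm (FreeGroup (Fin 2)) where
  toFun f := oa_io (FreeGroup.of 1 * f)
  invFun f := oa_io (FreeGroup.of 1 * f)
  left_inv f := by
    change oa_io (FreeGroup.of 1 * oa_io (FreeGroup.of 1 * f)) = f
    rw [map_mul, oa_io_of, oa_io_io, inv_mul_cancel_left]
  right_inv f := by
    change oa_io (FreeGroup.of 1 * oa_io (FreeGroup.of 1 * f)) = f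
    rw [map_mul, oa_io_of, oa_io_io, inv_mul_cancel_left]

private theorem oa_act_sq (i : Fin 3) :
    (![oa_pa, oa_pb, oa_pc] : Fin 3 → Equiv.Perm (FreeGroup (Fin 2))) i *
      (![oa_pa, oa_pb, oa_pc] : Fin 3 → Equiv.Perm (FreeGroup (Fin 2))) i = 1 := by
  fin_cases i
  · exact Equiv.ext fun f => oa_pa.left_inv f
  · exact Equiv.ext fun f => oa_pb.left_inv f
  · exact Equiv.ext fun f => oa_pc.left_inv f

theorem j2_inj : Function.Injective j2 := by
  have h : (oa_hom ![oa_pa, oa_pb, oa_pc] oa_act_sq).comp j2 =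
      MulAction.toPermHom (FreeGroup (Fin 2)) (FreeGroup (Fin 2)) := by
    apply FreeGroup.ext_hom
    intro i
    fin_cases i
    · change oa_hom ![oa_pa, oa_pb, oa_pc] oa_act_sq (j2 (FreeGroup.of 0)) = _
      rw [oa_x, map_mul, oa_hom_so, oa_hom_so]
      apply Equiv.ext
      intro f
      change FreeGroup.of 0 * oa_io (oa_io f) = FreeGroup.of 0 * f
      rw [oa_io_io]
    · change oa_hom ![oa_pa, oa_pb, oa_pc] oa_act_sq (j2 (FreeGroup.of 1)) = _
      rw [oa_y, map_mul, oa_hom_so, oa_hom_so]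
      apply Equiv.ext
      intro f
      change oa_io (oa_io (FreeGroup.of 1 * f)) = FreeGroup.of 1 * f
      rw [oa_io_io]
  rw [injective_iff_map_eq_one]
  intro w hw
  have h1 : MulAction.toPermHom (FreeGroup (Fin 2)) (FreeGroup (Fin 2)) w = 1 := by
    rw [← h, MonoidHom.comp_apply, hw, map_one]
  have h2 := DFunLike.congr_fun h1 (1 : FreeGroup (Fin 2))
  change w * 1 = 1 at h2
  rwa [mul_one] at h2

private theorem oa_nielsen (ν : MulAut (FreeGroup (Fin 2))) (hν : IsNielsen ν) :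
    ∃ ψ : MulAut OO, (∀ f, ψ (j2 f) = j2 (ν f)) ∧ PresP ψ := by
  rcases hν with ⟨h0, h1⟩ | ⟨h0, h1⟩ | ⟨h0, h1⟩
  · obtain ⟨ψ, hψ⟩ := oa_mk ![so 0, so 2, so 2 * so 1 * so 2] ![so 0, so 1 * so 2 * so 1, so 1]
      (by intro i; fin_cases i <;>
        simp [mul_assoc, oa_sq, oa_sq'])
      (by intro i; fin_cases i <;>
        simp [mul_assoc, oa_sq, oa_sq'])
      (by intro i; fin_cases i <;>
        simp [mul_assoc, oa_sq, oa_sq', oa_hom_so])
      (by intro i; fin_cases i <;>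
        simp [mul_assoc, oa_sq, oa_sq', oa_hom_so])
    have e0 : ψ (so 0) = so 0 := hψ 0
    have e1 : ψ (so 1) = so 2 := hψ 1
    have e2 : ψ (so 2) = so 2 * so 1 * so 2 := hψ 2
    refine ⟨ψ, oa_comm ψ ν ?_ ?_, 1, 1, Or.inl rfl, ?_⟩
    · rw [h0, map_mul, map_mul, oa_x, oa_y, e0, e1]
      simp only [mul_assoc, oa_sq']
    · rw [h1, map_mul, oa_y, e1, e2]
      simp only [mul_assoc, oa_sq']
    · unfold pp
      rw [map_mul, map_mul, e0, e1, e2]
      simp only [mul_assoc, oa_sq', zpow_one, one_mul, inv_one, mul_one]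
  · obtain ⟨ψ, hψ⟩ := oa_mk ![so 1 * so 2 * so 1, so 1, so 1 * so 0 * so 1]
      ![so 1 * so 2 * so 1, so 1, so 1 * so 0 * so 1]
      (by intro i; fin_cases i <;>
        simp [mul_assoc, oa_sq, oa_sq'])
      (by intro i; fin_cases i <;>
        simp [mul_assoc, oa_sq, oa_sq'])
      (by intro i; fin_cases i <;>
        simp [mul_assoc, oa_sq, oa_sq', oa_hom_so])
      (by intro i; fin_cases i <;>
        simp [mul_assoc, oa_sq, oa_sq', oa_hom_so])
    have e0 : ψ (so 0) = so 1 * so 2 * so 1 := hψ 0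
    have e1 : ψ (so 1) = so 1 := hψ 1
    have e2 : ψ (so 2) = so 1 * so 0 * so 1 := hψ 2
    refine ⟨ψ, oa_comm ψ ν ?_ ?_, so 1, -1, Or.inr rfl, ?_⟩
    · rw [h0, map_mul, oa_y, e0, e1]
      simp only [mul_assoc, oa_sq, mul_one]
    · rw [h1, map_mul, oa_x, e1, e2]
      simp only [mul_assoc, oa_sq']
    · unfold pp
      rw [map_mul, map_mul, e0, e1, e2]
      simp only [mul_assoc, oa_sq', zpow_neg, zpow_one, mul_inv_rev, oa_inv]
  · obtain ⟨ψ, hψ⟩ := oa_mk ![so 1 * so 0 * so 1, so 1, so 2]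
      ![so 1 * so 0 * so 1, so 1, so 2]
      (by intro i; fin_cases i <;>
        simp [mul_assoc, oa_sq, oa_sq'])
      (by intro i; fin_cases i <;>
        simp [mul_assoc, oa_sq, oa_sq'])
      (by intro i; fin_cases i <;>
        simp [mul_assoc, oa_sq, oa_sq', oa_hom_so])
      (by intro i; fin_cases i <;>
        simp [mul_assoc, oa_sq, oa_sq', oa_hom_so])
    have e0 : ψ (so 0) = so 1 * so 0 * so 1 := hψ 0
    have e1 : ψ (so 1) = so 1 := hψ 1
    have e2 : ψ (so 2) = so 2 := hψ 2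
    refine ⟨ψ, oa_comm ψ ν ?_ ?_, so 2, -1, Or.inr rfl, ?_⟩
    · rw [h0, map_mul, map_inv, oa_x, e0, e1]
      simp only [mul_assoc, oa_sq, mul_one, mul_inv_rev, oa_inv]
    · rw [h1, map_mul, oa_y, e1, e2]
    · unfold pp
      rw [map_mul, map_mul, e0, e1, e2]
      simp only [mul_assoc, oa_sq', zpow_neg, zpow_one, mul_inv_rev, oa_inv]

theorem extend_F2 (φ : MulAut (FreeGroup (Fin 2)))
    (hφ : φ ∈ Subgroup.closure {ν : MulAut (FreeGroup (Fin 2)) | IsNielsen ν}) :
    ∃ ψ : MulAut OO, (∀ f, ψ (j2 f) = j2 (φ f)) ∧ PresP ψ := by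
  induction hφ using Subgroup.closure_induction with
  | mem ν hν => exact oa_nielsen ν hν
  | one =>
    refine ⟨1, fun f => rfl, 1, 1, Or.inl rfl, ?_⟩
    simp
  | mul ν ν' _ _ hν hν' =>
    obtain ⟨ψ, h1, g, ε, hε, h2⟩ := hν
    obtain ⟨ψ', h1', g', ε', hε', h2'⟩ := hν'
    refine ⟨ψ * ψ', fun f => ?_, ψ g' * g, ε * ε', ?_, ?_⟩
    · rw [MulAut.mul_apply, MulAut.mul_apply, h1', h1]
    · rcases hε with rfl | rfl <;> rcases hε' with rfl | rfl <;> simp
    · rw [MulAut.mul_apply, h2', map_mul, map_mul, map_inv, map_zpow, h2, conj_zpow, ← zpow_mul]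
      simp only [mul_assoc, mul_inv_rev]
  | inv ν _ hν =>
    obtain ⟨ψ, h1, g, ε, hε, h2⟩ := hν
    refine ⟨ψ⁻¹, fun f => ?_, (ψ⁻¹ g)⁻¹, ε, hε, ?_⟩
    · apply ψ.injective
      rw [h1, MulAut.apply_inv_self, MulAut.apply_inv_self]
    · apply ψ.injective
      rw [MulAut.apply_inv_self, map_mul, map_mul, map_inv, map_inv, map_inv,
        MulAut.apply_inv_self, map_zpow, h2, conj_zpow, ← zpow_mul]
      have e : ε * ε = 1 := by rcases hε with rfl | rfl <;> rfl
      rw [e, zpow_one]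
      group

end Pool.H11.FC
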