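import Pool.Agent.H11.FC.OO

/-! # The free subgroup of rank three and index four of `ℤ/2 * ℤ/2 * ℤ/2`

Write `a b c` for `so 0, so 1, so 2` (involutions), `F = FreeGroup (Fin 3)`, `x₀ x₁ x₂` its generators; `j3 x₀ = abc = pp`, `j3 x₁ = bca`, `j3 x₂ = cab`.
PROOF of `j3_inj`. Let `T = Fin 4` stand for the coset representatives `1, a, b, c` (indices `0,1,2,3`). Homomorphism `OO → (Equiv.Perm (F × T))ᵐᵒᵖ` or, equivalently, an action from the right: for a
generator `s ∈ {a,b,c}` put `(f, t) · s = (f * g(t,s), t')` with `t'` the class of `t s` in the Klein four group (`a b = c` etc.) and the Schreier generator `g(t,s)`: `g(1,s) = 1`, `g(a,a) = g(b,b) = g(c,c) = 1`,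
`g(a,b) = x₀` (`ab = (abc) c`), `g(a,c) = x₁⁻¹` (`ac = (acb) b`, `acb = (bca)⁻¹`), `g(b,a) = x₂⁻¹` (`ba = (bac) c`, `bac = (cab)⁻¹`), `g(b,c) = x₁` (`bc = (bca) a`), `g(c,a) = x₂` (`ca = (cab) b`),
`g(c,b) = x₀⁻¹` (`cb = (cba) a`). Each generator acts as an involution: `g(t,s) g(ts,s) = 1`. (To have a left action use `f ↦ g⁻¹ f` in place of `f ↦ f g`, i.e. invert everything.) The element `abc` maps
`(f, 1) → (f, a) → (f x₀, c) → (f x₀, 1)`; `bca`: `(f,1) → (f,b) → (f x₁, a) → (f x₁, 1)`; `cab`: `(f,1) → (f,c) → (f x₂, b) → (f x₂, 1)`. So `j3 w` maps `(f, 1)` to `(f w, 1)`, and `j3 w = 1` implies `w = 1`.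
PROOF of `j3_range`. `K = range j3`. Every element of `OO` is in `K ∪ K a ∪ K b ∪ K c`: this set contains `1` and is stable under right multiplication by `a, b, c`, by the list above (`OO` is generated by the involutions
`so i`, e.g. `PresentedGroup.induction_on` and `FreeGroup.induction_on`). So the index is at most `4`, not `0`. `K = normalClosure {pp}`: `bca = a (abc) a`, `cab = c (abc) c`, so `K ≤ normalClosure {pp}`; and `K` is
normal: conjugation by `a`: `a (abc) a = bca ∈ K`, `a (bca) a = abc ∈ K`, `a (cab) a = acaba`: `= (acb)(bac)...`: `(bca)⁻¹ (cab)⁻¹ (abc)⁻¹ = acb · bac · cba = acac... `; a convenient way: `K` is the kernel of the homomorphism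
`OO → ZMod 2 × ZMod 2` (multiplicative), `a ↦ (1,0), b ↦ (0,1), c ↦ (1,1)`: `K ≤ ker` clear, and an element `k t` (`k ∈ K`, `t ∈ {1,a,b,c}`) in the kernel has `t = 1`. So `K` is normal and contains `pp`. -/

set_option autoImplicit false

namespace Pool.H11.FC

/-- Schreier generators. -/
private def ob_g : Fin 4 → Fin 3 → FreeGroup (Fin 3) :=
  ![![1, 1, 1], ![1, FreeGroup.of 0, (FreeGroup.of 1)⁻¹], ![(FreeGroup.of 2)⁻¹, 1, FreeGroup.of 1],
    ![FreeGroup.of 2, (FreeGroup.of 0)⁻¹, 1]]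

/-- The action on the cosets. -/
private def ob_t : Fin 4 → Fin 3 → Fin 4 :=
  ![![1, 2, 3], ![0, 3, 2], ![3, 0, 1], ![2, 1, 0]]

private theorem ob_tt (t : Fin 4) (i : Fin 3) : ob_t (ob_t t i) i = t := by
  fin_cases t <;> fin_cases i <;> rfl

private theorem ob_gg (t : Fin 4) (i : Fin 3) : ob_g t i * ob_g (ob_t t i) i = 1 := by
  fin_cases t <;> fin_cases i <;> simp [ob_g, ob_t]

private def ob_f (i : Fin 3) (p : FreeGroup (Fin 3) × Fin 4) : FreeGroup (Fin 3) × Fin 4 :=
  (p.1 * ob_g p.2 i, ob_t p.2 i)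

private theorem ob_ff (i : Fin 3) : Function.Involutive (ob_f i) := by
  intro p
  unfold ob_f
  simp only [ob_tt, mul_assoc, ob_gg, mul_one]

private def ob_s (i : Fin 3) : Equiv.Perm (FreeGroup (Fin 3) × Fin 4) := (ob_ff i).toPerm

private theorem ob_s_apply (i : Fin 3) (p : FreeGroup (Fin 3) × Fin 4) :
    ob_s i p = (p.1 * ob_g p.2 i, ob_t p.2 i) := rfl

private theorem ob_s_sq (i : Fin 3) : ob_s i * ob_s i = 1 := by
  ext1 p
  exact ob_ff i p

private theorem ob_s_inv (i : Fin 3) : (ob_s i)⁻¹ = ob_s i :=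
  inv_eq_of_mul_eq_one_left (ob_s_sq i)

/-- The permutation representation. -/
private def ob_P : OO →* Equiv.Perm (FreeGroup (Fin 3) × Fin 4) :=
  PresentedGroup.toGroup (f := ob_s) (by
    rintro _ ⟨i, rfl⟩
    rw [map_pow, FreeGroup.lift_apply_of, pow_two, ob_s_sq])

private theorem ob_P_so (i : Fin 3) : ob_P (so i) = ob_s i := PresentedGroup.toGroup.of _

private theorem ob_j3_0 : j3 (FreeGroup.of 0) = so 0 * so 1 * so 2 := by
  unfold j3
  rw [FreeGroup.lift_apply_of]
  rfl

private theorem ob_j3_1 : j3 (FreeGroup.of 1) = so 1 * so 2 * so 0 := by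
  unfold j3
  rw [FreeGroup.lift_apply_of]
  rfl

private theorem ob_j3_2 : j3 (FreeGroup.of 2) = so 2 * so 0 * so 1 := by
  unfold j3
  rw [FreeGroup.lift_apply_of]
  rfl

private theorem ob_pure (i : Fin 3) (f : FreeGroup (Fin 3)) :
    (ob_P (j3 (FreeGroup.of i)))⁻¹ (f, 0) = (f * FreeGroup.of i, 0) := by
  fin_cases i
  · simp only [Fin.zero_eta, ob_j3_0, map_mul, ob_P_so, mul_inv_rev, ob_s_inv,
      Equiv.Perm.mul_apply, ob_s_apply]
    simp [ob_g, ob_t]
  · simp only [Fin.mk_one, ob_j3_1, map_mul, ob_P_so, mul_inv_rev, ob_s_inv,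
      Equiv.Perm.mul_apply, ob_s_apply]
    simp [ob_g, ob_t]
  · have h : (⟨2, by omega⟩ : Fin 3) = 2 := rfl
    simp only [h, ob_j3_2, map_mul, ob_P_so, mul_inv_rev, ob_s_inv,
      Equiv.Perm.mul_apply, ob_s_apply]
    simp [ob_g, ob_t]

private theorem ob_act (w : FreeGroup (Fin 3)) :
    ∀ f : FreeGroup (Fin 3), (ob_P (j3 w))⁻¹ (f, 0) = (f * w, 0) := by
  refine FreeGroup.induction_on w ?_ ?_ ?_ ?_
  · intro f
    simp
  · intro i f
    exact ob_pure i f
  · intro i hi f
    have h := hi (f * (FreeGroup.of i)⁻¹)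
    rw [inv_mul_cancel_right] at h
    rw [map_inv, map_inv, inv_inv]
    rw [Equiv.Perm.inv_eq_iff_eq] at h
    exact h.symm
  · intro u v hu hv f
    rw [map_mul, map_mul, mul_inv_rev, Equiv.Perm.mul_apply, hu f, hv (f * u), mul_assoc]

theorem j3_inj : Function.Injective j3 := by
  rw [injective_iff_map_eq_one]
  intro w hw
  have h := ob_act w 1
  rw [hw, map_one, inv_one, Equiv.Perm.one_apply, one_mul] at h
  exact (congrArg Prod.fst h).symm

/-- Coset representatives. -/
private def ob_r : Fin 4 → OO := ![1, so 0, so 1, so 2]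

private theorem ob_so_sq (i : Fin 3) : so i * so i = 1 := by
  have h := PresentedGroup.one_of_mem
    (rels := Set.range fun i : Fin 3 => (FreeGroup.of i : FreeGroup (Fin 3)) ^ 2) ⟨i, rfl⟩
  rw [map_pow, pow_two] at h
  exact h

private theorem ob_so_sq' (i : Fin 3) (x : OO) : so i * (so i * x) = x := by
  rw [← mul_assoc, ob_so_sq, one_mul]

private theorem ob_so_inv (i : Fin 3) : (so i)⁻¹ = so i :=
  inv_eq_of_mul_eq_one_left (ob_so_sq i)

private theorem ob_rs (t : Fin 4) (i : Fin 3) :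
    ob_r t * so i = j3 (ob_g t i) * ob_r (ob_t t i) := by
  fin_cases t <;> fin_cases i <;>
    simp [ob_r, ob_g, ob_t, ob_j3_0, ob_j3_1, ob_j3_2, mul_assoc, ob_so_inv, ob_so_sq, ob_so_sq']

private theorem ob_dec (x : OO) :
    ∀ t : Fin 4, ∃ k ∈ j3.range, ∃ t' : Fin 4, ob_r t * x = k * ob_r t' := by
  obtain ⟨z, rfl⟩ := PresentedGroup.mk_surjective _ x
  refine FreeGroup.induction_on z ?_ ?_ ?_ ?_
  · intro t
    exact ⟨1, one_mem _, t, by simp⟩
  · intro i t
    exact ⟨j3 (ob_g t i), ⟨_, rfl⟩, ob_t t i, ob_rs t i⟩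
  · intro i _ t
    refine ⟨j3 (ob_g t i), ⟨_, rfl⟩, ob_t t i, ?_⟩
    rw [map_inv]
    have h := ob_rs t i
    rw [← ob_so_inv i] at h
    exact h
  · intro u v hu hv t
    obtain ⟨k, hk, t', h1⟩ := hu t
    obtain ⟨k', hk', t'', h2⟩ := hv t'
    refine ⟨k * k', mul_mem hk hk', t'', ?_⟩
    rw [map_mul, ← mul_assoc, h1, mul_assoc, h2, mul_assoc]

/-- The values of the homomorphism to the Klein four group. -/
private def ob_k : Fin 3 → Multiplicative (ZMod 2 × ZMod 2) :=
  ![Multiplicative.ofAdd (1, 0), Multiplicative.ofAdd (0, 1), Multiplicative.ofAdd (1, 1)]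

private def ob_K : OO →* Multiplicative (ZMod 2 × ZMod 2) :=
  PresentedGroup.toGroup (f := ob_k) (by
    rintro _ ⟨i, rfl⟩
    rw [map_pow, FreeGroup.lift_apply_of, pow_two]
    fin_cases i <;> decide)

private theorem ob_K_so (i : Fin 3) : ob_K (so i) = ob_k i := PresentedGroup.toGroup.of _

private theorem ob_K_j3 (w : FreeGroup (Fin 3)) : ob_K (j3 w) = 1 := by
  have h : ob_K.comp j3 = 1 := by
    refine FreeGroup.ext_hom _ _ (fun i => ?_)
    rw [MonoidHom.comp_apply, MonoidHom.one_apply]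
    fin_cases i
    · simp only [Fin.zero_eta, ob_j3_0, map_mul, ob_K_so]
      decide
    · simp only [Fin.mk_one, ob_j3_1, map_mul, ob_K_so]
      decide
    · have h : (⟨2, by omega⟩ : Fin 3) = 2 := rfl
      simp only [h, ob_j3_2, map_mul, ob_K_so]
      decide
  exact DFunLike.congr_fun h w

private theorem ob_ker : j3.range = ob_K.ker := by
  apply le_antisymm
  · rintro _ ⟨w, rfl⟩
    exact ob_K_j3 w
  · intro x hx
    obtain ⟨k, hk, t, h⟩ := ob_dec x 0
    have h0 : ob_r 0 = 1 := rfl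
    rw [h0, one_mul] at h
    have h1 : ob_K (ob_r t) = 1 := by
      obtain ⟨w, rfl⟩ := hk
      have h2 : ob_K x = 1 := hx
      rw [h, map_mul, ob_K_j3, one_mul] at h2
      exact h2
    have h3 : t = 0 := by
      fin_cases t
      · rfl
      · exfalso
        have h4 : ob_K (so 0) = 1 := h1
        rw [ob_K_so] at h4
        exact absurd h4 (by decide)
      · exfalso
        have h4 : ob_K (so 1) = 1 := h1
        rw [ob_K_so] at h4
        exact absurd h4 (by decide)
      · exfalso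
        have h4 : ob_K (so 2) = 1 := h1
        rw [ob_K_so] at h4
        exact absurd h4 (by decide)
    rw [h, h3, h0, mul_one]
    exact hk

theorem j3_range : j3.range = Subgroup.normalClosure {pp} ∧ j3.range.index ≠ 0 := by
  have hpp : pp ∈ Subgroup.normalClosure ({pp} : Set OO) :=
    Subgroup.subset_normalClosure rfl
  have hn : (Subgroup.normalClosure ({pp} : Set OO)).Normal := inferInstance
  constructor
  · apply le_antisymm
    · unfold j3
      rw [FreeGroup.range_lift_eq_closure, Subgroup.closure_le]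
      rintro _ ⟨i, rfl⟩
      fin_cases i
      · exact hpp
      · change so 1 * so 2 * so 0 ∈ Subgroup.normalClosure {pp}
        have h := hn.conj_mem pp hpp (so 0)
        have h2 : so 0 * pp * (so 0)⁻¹ = so 1 * so 2 * so 0 := by
          unfold pp
          rw [ob_so_inv]
          simp only [mul_assoc, ob_so_sq']
        rwa [h2] at h
      · change so 2 * so 0 * so 1 ∈ Subgroup.normalClosure {pp}
        have h := hn.conj_mem pp hpp (so 2)
        have h2 : so 2 * pp * (so 2)⁻¹ = so 2 * so 0 * so 1 := by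
          unfold pp
          rw [ob_so_inv]
          simp only [mul_assoc, ob_so_sq, mul_one]
        rwa [h2] at h
    · rw [ob_ker]
      refine Subgroup.normalClosure_le_normal ?_
      rw [Set.singleton_subset_iff, ← ob_ker]
      exact ⟨FreeGroup.of 0, ob_j3_0⟩
  · rw [ob_ker, Subgroup.index_ker]
    exact Nat.card_pos.ne'

end Pool.H11.FC
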