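import Pool.Agent.H11.FC.OA
import Pool.Agent.H11.FC.OB
import Pool.Agent.H11.FC.Ext

/-! # The free group of rank two

PROOF of `vrtfn_OO`. `K = j3.range = normalClosure {pp}` is normal of finite index; `ψ K = K` (`ψ pp`, `ψ⁻¹ pp` are conjugate to `pp^{±1}`). `ψ pp = h pp^ε h⁻¹`. The map `β : OO ⧸ K → OO ⧸ K`,
`g K ↦ ψ g h K`, is a well defined bijection of a finite set (`ψ (g k) h = ψ g h (h⁻¹ ψ k h)`). By induction `(ψ^m) pp = h_m pp^{ε_m} h_m⁻¹` with `ε_m = ± 1` and `β^m (g K) = (ψ^m) g h_m K`. Take `m > 0` with `β^m = id`: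
for all `g`: `(ψ^m) g * h_m = g * k`, `k ∈ K`, so `(ψ^m) (g pp g⁻¹) = (g k) pp^{ε_m} (g k)⁻¹ = k' (g pp g⁻¹)^{ε_m} k'⁻¹`, `k' = g k g⁻¹ ∈ K`. The generators of `K`: `j3 x₀ = pp`, `j3 x₁ = a pp a⁻¹`, `j3 x₂ = c pp c⁻¹`
(`a = so 0`, `c = so 2`). Since `ψ^m` preserves `K = range j3` and `j3` is injective there is `θ : MulAut (FreeGroup (Fin 3))` with `j3 (θ f) = (ψ^m) (j3 f)`, and `θ (x_i) = w_i x_i^{ε} w_i⁻¹`. Let `A = Unit` (trivial group,
or `PUnit`), `FP A (Fin 3) ≃* FreeGroup (Fin 3)`; transport `θ` to `Θ : MulAut (FP A (Fin 3))`; `Θ (inl a) = inl a`, `Θ (xx i) = w xx i ^ ε w⁻¹`. `MT A 1` is isomorphic to `ℤ`, commutative and torsion-free, so `VRTFN`.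
`vrtfn_symm` gives `VRTFN (MT (FP A (Fin 3)) Θ)`, hence `VRTFN (MT (FreeGroup (Fin 3)) θ)`. The map `(f, t^k) ↦ (j3 f, t^k)` embeds it in `MT OO (ψ^m)` with image `{x | x.left ∈ K}`, of finite index (the kernel of
`MT OO (ψ^m) → ...`, or: the index of `{x | x.left ∈ K}` equals the index of `K`; e.g. finitely many cosets represented by `inl g`). `VRTFN_of_index`, `VRTFN_of_pow`.
PROOF of `vrtfn_F2`. `extend_F2 φ hφ`: `ψ`; `(f, t^k) ↦ (j2 f, t^k)` embeds `MT (FreeGroup (Fin 2)) φ` in `MT OO ψ` (`j2_inj`). `VRTFN_of_inj`. -/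

set_option autoImplicit false

namespace Pool.H11.FC

/-- functoriality of mapping tori -/
private theorem oc_map {F F' : Type} [Group F] [Group F'] (φ : MulAut F) (φ' : MulAut F')
    (f : F →* F') (hf : ∀ x, f (φ x) = φ' (f x)) :
    ∃ Φ : MT F φ →* MT F' φ', (∀ x, (Φ x).left = f x.left) ∧ ∀ x, (Φ x).right = x.right := by
  have key : ∀ (j : ℤ) (x : F), f ((φ ^ j) x) = (φ' ^ j) (f x) := by
    intro j
    induction j using Int.induction_on with
    | zero => intro x; rw [zpow_zero, zpow_zero, MulAut.one_apply, MulAut.one_apply]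
    | succ j ih =>
      intro x
      rw [zpow_add_one, zpow_add_one, MulAut.mul_apply, MulAut.mul_apply, ih, hf]
    | pred j ih =>
      intro x
      rw [zpow_sub_one, zpow_sub_one, MulAut.mul_apply, MulAut.mul_apply, ih]
      congr 1
      have h1 := hf (φ⁻¹ x)
      rw [MulAut.apply_inv_self] at h1
      rw [h1, MulAut.inv_apply_self]
  have hcond : ∀ g : Multiplicative ℤ,
      f.comp (zpowersHom (MulAut F) φ g).toMonoidHom =
        (zpowersHom (MulAut F') φ' (MonoidHom.id _ g)).toMonoidHom.comp f := by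
    intro g
    refine MonoidHom.ext fun x => ?_
    exact key _ x
  exact ⟨SemidirectProduct.map f (MonoidHom.id _) hcond, fun x => rfl, fun x => rfl⟩

private theorem oc_map_inj {F F' : Type} [Group F] [Group F'] {φ : MulAut F} {φ' : MulAut F'}
    {f : F →* F'} (hf : Function.Injective f) {Φ : MT F φ →* MT F' φ'}
    (h1 : ∀ x, (Φ x).left = f x.left) (h2 : ∀ x, (Φ x).right = x.right) :
    Function.Injective Φ := by
  intro x y hxy
  apply SemidirectProduct.ext
  · apply hf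
    rw [← h1, ← h1, hxy]
  · rw [← h2, ← h2 y, hxy]

private theorem oc_unit : VRTFN (MT Unit (1 : MulAut Unit)) := by
  refine ⟨⊤, ?_, ?_⟩
  · rw [Subgroup.index_top]
    exact one_ne_zero
  · refine RTFN_of_inj (Subgroup.subtype _) (Subgroup.subtype_injective _) ?_
    intro x hx
    refine ⟨Multiplicative ℤ, inferInstance, SemidirectProduct.rightHom, inferInstance, ?_, ?_⟩
    · intro q k hk hq
      have h1 := congrArg Multiplicative.toAdd hq
      rw [toAdd_pow, toAdd_one, nsmul_eq_mul] at h1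
      have h2 : Multiplicative.toAdd q = 0 :=
        (mul_eq_zero.1 h1).resolve_left (by exact_mod_cast hk.ne')
      exact toAdd_eq_zero.1 h2
    · intro h
      apply hx
      apply SemidirectProduct.ext
      · exact Subsingleton.elim _ _
      · exact h

/-- the case of symmetric automorphisms of free groups -/
private theorem oc_symm (θ : MulAut (FreeGroup (Fin 3)))
    (hθ : ∀ i : Fin 3, ∃ (w : FreeGroup (Fin 3)) (ε : ℤ), (ε = 1 ∨ ε = -1) ∧
      θ (FreeGroup.of i) = w * FreeGroup.of i ^ ε * w⁻¹) :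
    VRTFN (MT (FreeGroup (Fin 3)) θ) := by
  obtain ⟨η, hη⟩ : ∃ η : FP Unit (Fin 3) ≃* FreeGroup (Fin 3),
      ∀ f, η.symm f = Monoid.Coprod.inr f := ⟨MulEquiv.punitCoprod (FreeGroup (Fin 3)), fun f => rfl⟩
  have hη' : ∀ f, η (Monoid.Coprod.inr f) = f := fun f => by
    rw [← hη, MulEquiv.apply_symm_apply]
  obtain ⟨Θ, hΘ⟩ : ∃ Θ : MulAut (FP Unit (Fin 3)), ∀ x, Θ x = η.symm (θ (η x)) :=
    ⟨(η.trans θ).trans η.symm, fun x => rfl⟩
  have hΘr : ∀ f, Θ (Monoid.Coprod.inr f) = Monoid.Coprod.inr (θ f) := fun f => by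
    rw [hΘ, hη', hη]
  have h1 : VRTFN (MT (FP Unit (Fin 3)) Θ) := by
    refine vrtfn_symm (A := Unit) Group.fg_of_finite 1 Θ ?_ ?_ oc_unit
    · intro a
      have ha : a = 1 := Subsingleton.elim _ _
      rw [ha, map_one, map_one]
    · intro i
      obtain ⟨w, ε, hε, he⟩ := hθ i
      refine ⟨Monoid.Coprod.inr w, i, ε, hε, ?_⟩
      unfold xx
      rw [hΘr, he, map_mul, map_mul, map_zpow, map_inv]
  obtain ⟨Φ, hl, hr⟩ := oc_map θ Θ Monoid.Coprod.inr (fun x => (hΘr x).symm)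
  exact VRTFN_of_inj Φ (oc_map_inj (fun a b hab => by rw [← hη' a, hab, hη']) hl hr) h1

private theorem oc_mem {ψ : MulAut OO} (hψ : PresP ψ) (x : OO) :
    ψ x ∈ j3.range ↔ x ∈ j3.range := by
  obtain ⟨g, ε, hε, hg⟩ := hψ
  have hmap : j3.range.map (ψ : OO →* OO) = j3.range := by
    rw [j3_range.1, Subgroup.map_normalClosure _ _ (MulEquiv.surjective ψ), Set.image_singleton]
    have e1 : (ψ : OO →* OO) pp = g * pp ^ ε * g⁻¹ := hg
    rw [e1]
    refine le_antisymm ?_ ?_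
    · refine Subgroup.normalClosure_le_normal ?_
      rw [Set.singleton_subset_iff]
      have h1 : pp ∈ Subgroup.normalClosure {pp} :=
        Subgroup.subset_normalClosure (Set.mem_singleton _)
      exact Subgroup.normalClosure_normal.conj_mem _ (Subgroup.zpow_mem _ h1 ε) g
    · refine Subgroup.normalClosure_le_normal ?_
      rw [Set.singleton_subset_iff]
      have h1 : g * pp ^ ε * g⁻¹ ∈ Subgroup.normalClosure {g * pp ^ ε * g⁻¹} :=
        Subgroup.subset_normalClosure (Set.mem_singleton _)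
      have h2 := Subgroup.normalClosure_normal.conj_mem _ h1 g⁻¹
      have h3 := Subgroup.zpow_mem _ h2 ε
      have h4 : (g⁻¹ * (g * pp ^ ε * g⁻¹) * g⁻¹⁻¹) ^ ε = pp := by
        have h5 : g⁻¹ * (g * pp ^ ε * g⁻¹) * g⁻¹⁻¹ = pp ^ ε := by group
        rw [h5, ← zpow_mul]
        rcases hε with h | h <;> rw [h]
        · rw [mul_one, zpow_one]
        · rw [show (-1 : ℤ) * -1 = 1 by norm_num, zpow_one]
      rwa [h4] at h3
  constructor
  · intro hx
    rw [← hmap] at hx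
    obtain ⟨y, hy, hyx⟩ := hx
    rwa [MulEquiv.injective ψ hyx] at hy
  · intro hx
    rw [← hmap]
    exact ⟨x, hx, rfl⟩

theorem vrtfn_OO (ψ : MulAut OO) (hψ : PresP ψ) : VRTFN (MT OO ψ) := by
  have hmem : ∀ (n : ℕ) (x : OO), (ψ ^ n) x ∈ j3.range ↔ x ∈ j3.range := by
    intro n
    induction n with
    | zero => intro x; rw [pow_zero, MulAut.one_apply]
    | succ n ih =>
      intro x
      rw [pow_succ, MulAut.mul_apply, ih, oc_mem hψ]
  obtain ⟨h, ε, hε, hpp⟩ := id hψ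
  have hn : j3.range.Normal := by rw [j3_range.1]; infer_instance
  have hfin : j3.range.FiniteIndex := ⟨j3_range.2⟩
  have hfinQ : Finite (OO ⧸ j3.range) := Subgroup.finite_quotient_of_finiteIndex
  have hmapψ : j3.range.map (ψ : OO →* OO) = j3.range := by
    ext y
    constructor
    · rintro ⟨x, hx, rfl⟩
      exact (oc_mem hψ x).2 hx
    · intro hy
      refine ⟨ψ⁻¹ y, ?_, MulAut.apply_inv_self OO ψ y⟩
      exact (oc_mem hψ _).1 (by rwa [MulAut.apply_inv_self])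
  obtain ⟨β, hβ⟩ : ∃ β : Equiv.Perm (OO ⧸ j3.range), ∀ x : OO,
      β (QuotientGroup.mk x) = QuotientGroup.mk (ψ x * h) :=
    ⟨(QuotientGroup.congr j3.range j3.range ψ hmapψ).toEquiv.trans
      (Equiv.mulRight (QuotientGroup.mk h : OO ⧸ j3.range)), fun x => rfl⟩
  obtain ⟨Bf, hBf⟩ : ∃ Bf : OO → OO, ∀ y, Bf y = ψ y * h := ⟨fun y => ψ y * h, fun y => rfl⟩
  have hβn : ∀ (n : ℕ) (x : OO), (β ^ n) (QuotientGroup.mk x) = QuotientGroup.mk (Bf^[n] x) := by
    intro n x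
    induction n with
    | zero => rfl
    | succ n ih =>
      rw [pow_succ', Equiv.Perm.mul_apply, ih, hβ, Function.iterate_succ_apply', hBf]
  have hBn : ∀ (n : ℕ) (x : OO), Bf^[n] x = (ψ ^ n) x * Bf^[n] 1 := by
    intro n x
    induction n with
    | zero =>
      rw [Function.iterate_zero, pow_zero, MulAut.one_apply]
      exact (mul_one x).symm
    | succ n ih =>
      rw [Function.iterate_succ_apply', Function.iterate_succ_apply', hBf, hBf, ih, map_mul,
        pow_succ', MulAut.mul_apply, mul_assoc]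
  have hpn : ∀ n : ℕ, ∃ ε' : ℤ, (ε' = 1 ∨ ε' = -1) ∧
      (ψ ^ n) pp = Bf^[n] 1 * pp ^ ε' * (Bf^[n] 1)⁻¹ := by
    intro n
    induction n with
    | zero =>
      refine ⟨1, Or.inl rfl, ?_⟩
      rw [pow_zero, MulAut.one_apply, Function.iterate_zero, id, zpow_one, one_mul, inv_one,
        mul_one]
    | succ n ih =>
      obtain ⟨ε', hε', he⟩ := ih
      refine ⟨ε * ε', ?_, ?_⟩
      · rcases hε with h1 | h1 <;> rcases hε' with h2 | h2 <;> rw [h1, h2] <;> norm_num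
      · rw [pow_succ', MulAut.mul_apply, he, map_mul, map_mul, map_zpow, map_inv, hpp,
          Function.iterate_succ_apply', hBf, conj_zpow, ← zpow_mul]
        group
  obtain ⟨m, hm0, hm⟩ : ∃ m : ℕ, 0 < m ∧ β ^ m = 1 := ⟨orderOf β, orderOf_pos β, pow_orderOf_eq_one β⟩
  have hB1 : ∀ x : OO, (QuotientGroup.mk (Bf^[m] x) : OO ⧸ j3.range) = QuotientGroup.mk x := by
    intro x
    rw [← hβn, hm, Equiv.Perm.one_apply]
  have hH : Bf^[m] 1 ∈ j3.range := by
    have h1 := hB1 1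
    exact (QuotientGroup.eq_one_iff _).1 h1
  have hq : ∀ x : OO, (QuotientGroup.mk ((ψ ^ m) x) : OO ⧸ j3.range) = QuotientGroup.mk x := by
    intro x
    rw [← hB1 x, hBn]
    rw [QuotientGroup.mk_mul, (QuotientGroup.eq_one_iff _).2 hH, mul_one]
  obtain ⟨ε', hε', hpm⟩ := hpn m
  -- conjugates of `pp`
  have hconj : ∀ g : OO, ∃ w : FreeGroup (Fin 3),
      (ψ ^ m) (g * pp * g⁻¹) = j3 w * (g * pp * g⁻¹) ^ ε' * (j3 w)⁻¹ := by
    intro g
    have h1 : g⁻¹ * Bf^[m] g ∈ j3.range := QuotientGroup.eq.1 (hB1 g).symm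
    have h2 : g * (g⁻¹ * Bf^[m] g) * g⁻¹ ∈ j3.range := hn.conj_mem _ h1 g
    obtain ⟨w, hw⟩ := h2
    refine ⟨w, ?_⟩
    rw [hw, hBn, map_mul, map_mul, map_inv, hpm, conj_zpow]
    group
  -- the automorphism of the free group
  obtain ⟨e, he⟩ : ∃ e : FreeGroup (Fin 3) ≃* j3.range, ∀ f, ((e f : j3.range) : OO) = j3 f :=
    ⟨MonoidHom.ofInjective j3_inj, fun f => rfl⟩
  have hmapm : j3.range.map ((ψ ^ m : MulAut OO) : OO →* OO) = j3.range := by
    ext y
    constructor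
    · rintro ⟨x, hx, rfl⟩
      exact (hmem m x).2 hx
    · intro hy
      refine ⟨(ψ ^ m)⁻¹ y, ?_, MulAut.apply_inv_self OO (ψ ^ m) y⟩
      exact (hmem m _).1 (by rwa [MulAut.apply_inv_self])
  obtain ⟨ρ, hρ⟩ : ∃ ρ : j3.range ≃* j3.range, ∀ y : j3.range,
      ((ρ y : j3.range) : OO) = (ψ ^ m) (y : OO) :=
    ⟨(MulEquiv.subgroupMap (ψ ^ m : MulAut OO) j3.range).trans (MulEquiv.subgroupCongr hmapm),
      fun y => rfl⟩
  obtain ⟨θ, hθ⟩ : ∃ θ : MulAut (FreeGroup (Fin 3)), ∀ f, j3 (θ f) = (ψ ^ m) (j3 f) :=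
    ⟨(e.trans ρ).trans e.symm, fun f => by
      rw [← he, ← he f, ← hρ]
      congr 1
      exact MulEquiv.apply_symm_apply e (ρ (e f))⟩
  have hgen : ∀ i : Fin 3, ∃ g : OO, j3 (FreeGroup.of i) = g * pp * g⁻¹ := by
    have hsq : ∀ i : Fin 3, so i * so i = 1 := by
      intro i
      have h1 : (PresentedGroup.mk (Set.range fun i : Fin 3 =>
          (FreeGroup.of i : FreeGroup (Fin 3)) ^ 2)) ((FreeGroup.of i) ^ 2) = 1 :=
        PresentedGroup.one_of_mem ⟨i, rfl⟩
      rw [map_pow, pow_two] at h1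
      exact h1
    have hinv : ∀ i : Fin 3, (so i)⁻¹ = so i := fun i =>
      inv_eq_of_mul_eq_one_left (hsq i)
    intro i
    fin_cases i
    · refine ⟨1, ?_⟩
      show j3 (FreeGroup.of 0) = _
      unfold j3 pp
      rw [FreeGroup.lift_apply_of]
      show so 0 * so 1 * so 2 = _
      group
    · refine ⟨so 0, ?_⟩
      show j3 (FreeGroup.of 1) = _
      unfold j3 pp
      rw [FreeGroup.lift_apply_of, hinv]
      show so 1 * so 2 * so 0 = _
      calc so 1 * so 2 * so 0 = 1 * (so 1 * so 2 * so 0) := (one_mul _).symm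
        _ = (so 0 * so 0) * (so 1 * so 2 * so 0) := by rw [hsq]
        _ = _ := by group
    · refine ⟨so 2, ?_⟩
      show j3 (FreeGroup.of 2) = _
      unfold j3 pp
      rw [FreeGroup.lift_apply_of, hinv]
      show so 2 * so 0 * so 1 = _
      calc so 2 * so 0 * so 1 = (so 2 * so 0 * so 1) * 1 := (mul_one _).symm
        _ = (so 2 * so 0 * so 1) * (so 2 * so 2) := by rw [hsq]
        _ = _ := by group
  have hV := oc_symm θ (fun i => by
    obtain ⟨g, hg⟩ := hgen i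
    obtain ⟨w, hw⟩ := hconj g
    refine ⟨w, ε', hε', j3_inj ?_⟩
    rw [hθ, hg, hw, map_mul, map_mul, map_zpow, map_inv, hg])
  -- back to `OO`
  obtain ⟨Φ, hl, hr⟩ := oc_map θ (ψ ^ m) j3 hθ
  have hinj := oc_map_inj j3_inj hl hr
  obtain ⟨q, hqq⟩ := mt_left_ker (ψ ^ m) (QuotientGroup.mk' j3.range) hq
  have hle : q.ker ≤ Φ.range := by
    intro x hx
    have h1 : QuotientGroup.mk' j3.range x.left = 1 := by rw [← hqq]; exact hx
    obtain ⟨f, hf⟩ := (QuotientGroup.eq_one_iff _).1 h1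
    refine ⟨⟨f, x.right⟩, ?_⟩
    apply SemidirectProduct.ext
    · rw [hl]
      exact hf
    · rw [hr]
  have hker : q.ker.FiniteIndex := inferInstance
  have hrange := Subgroup.finiteIndex_of_le hle
  have hV2 : VRTFN (MT OO (ψ ^ m)) := by
    refine VRTFN_of_index Φ.range Subgroup.FiniteIndex.index_ne_zero ?_
    exact VRTFN_of_inj (MonoidHom.ofInjective hinj).symm.toMonoidHom (MulEquiv.injective _) hV
  exact VRTFN_of_pow ψ m hm0 hV2

theorem vrtfn_F2 (φ : MulAut (FreeGroup (Fin 2)))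
    (hφ : φ ∈ Subgroup.closure {ν : MulAut (FreeGroup (Fin 2)) | IsNielsen ν}) :
    VRTFN (MT (FreeGroup (Fin 2)) φ) := by
  obtain ⟨ψ, h1, h2⟩ := extend_F2 φ hφ
  obtain ⟨Φ, hl, hr⟩ := oc_map φ ψ j2 (fun x => (h1 x).symm)
  exact VRTFN_of_inj Φ (oc_map_inj j2_inj hl hr) (vrtfn_OO ψ h2)

end Pool.H11.FC
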