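import Pool.Agent.H11.FC.Defs

/-! # The group `ℤ/2 * ℤ/2 * ℤ/2` : definitions -/

set_option autoImplicit false

namespace Pool.H11.FC

/-- The free product of three groups of order two. -/
abbrev OO : Type :=
  PresentedGroup (Set.range fun i : Fin 3 => (FreeGroup.of i : FreeGroup (Fin 3)) ^ 2)

/-- The three generators. -/
def so (i : Fin 3) : OO := PresentedGroup.of i

/-- The product of the three generators. -/
def pp : OO := so 0 * so 1 * so 2

/-- The embedding of the free group of rank two. -/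
def j2 : FreeGroup (Fin 2) →* OO := FreeGroup.lift ![so 0 * so 1, so 1 * so 2]

/-- The embedding of the free group of rank three. -/
def j3 : FreeGroup (Fin 3) →* OO :=
  FreeGroup.lift ![so 0 * so 1 * so 2, so 1 * so 2 * so 0, so 2 * so 0 * so 1]

/-- The elementary Nielsen automorphisms of the free group of rank two. -/
def IsNielsen (ν : MulAut (FreeGroup (Fin 2))) : Prop :=
  (ν (FreeGroup.of 0) = FreeGroup.of 0 * FreeGroup.of 1 ∧ ν (FreeGroup.of 1) = FreeGroup.of 1) ∨
  (ν (FreeGroup.of 0) = FreeGroup.of 1 ∧ ν (FreeGroup.of 1) = FreeGroup.of 0) ∨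
  (ν (FreeGroup.of 0) = (FreeGroup.of 0)⁻¹ ∧ ν (FreeGroup.of 1) = FreeGroup.of 1)

/-- Automorphisms of `OO` preserving the class of `pp` up to inversion. -/
def PresP (ψ : MulAut OO) : Prop :=
  ∃ (g : OO) (ε : ℤ), (ε = 1 ∨ ε = -1) ∧ ψ pp = g * pp ^ ε * g⁻¹

end Pool.H11.FC
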