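import Pool.Agent.H11.FC.Defs

/-! # The quotient representation of a filtration

PROOF. `W = QA F ⧸ C.C n`, `q = (C.C n).mkQ`. `C.C n` is a left ideal: `r ∈ C.C n → s * r ∈ C.C n` (`C.mul` with `C.top`, `0 + n = n`).
`ρ f` = the map induced by `LinearMap.mulLeft ℚ (gr f)` (`Submodule.mapQ`); `ρ 1 = 1`, `ρ (f f') = ρ f ρ f'` since `gr` is
multiplicative. `T` = the map induced by `gmap φ` (`Submodule.mapQ`, stable by `hφ`), with inverse induced by `gmap φ⁻¹`
(`gmap φ (gmap φ⁻¹ r) = r`: `gmap` is functorial; e.g. by `MonoidAlgebra.algHom_ext` or induction on `r`). -/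

set_option autoImplicit false

namespace Pool.H11.FC

theorem gmap_gr {G G' : Type} [Group G] [Group G'] (f : G →* G') (g : G) :
    gmap f (gr g) = gr (f g) := by
  unfold gmap
  simp [gr]

theorem gmap_comp {G G' G'' : Type} [Group G] [Group G'] [Group G''] (f : G →* G')
    (f' : G' →* G'') (r : QA G) : gmap f' (gmap f r) = gmap (f'.comp f) r := by
  have h : (gmap f').comp (gmap f) = gmap (f'.comp f) := by
    refine MonoidAlgebra.algHom_ext ?_ (Subsingleton.elim _ _)
    intro g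
    have e1 : (MonoidAlgebra.single g 1 : QA G) = gr g := rfl
    rw [e1, AlgHom.comp_apply, gmap_gr, gmap_gr, gmap_gr]
    rfl
  rw [← h]
  rfl

theorem gmap_id {G : Type} [Group G] (r : QA G) : gmap (MonoidHom.id G) r = r := by
  have h : gmap (MonoidHom.id G) = AlgHom.id ℚ (QA G) := by
    refine MonoidAlgebra.algHom_ext ?_ (Subsingleton.elim _ _)
    intro g
    have e1 : (MonoidAlgebra.single g 1 : QA G) = gr g := rfl
    rw [e1, gmap_gr]
    rfl
  rw [h]
  rfl

theorem quot_rep {F : Type} [Group F] (C : Filt (QA F)) (n : ℕ) (φ : MulAut F)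
    (hφ : ∀ (i : ℕ) (r : QA F), r ∈ C.C i → gmap (φ : F →* F) r ∈ C.C i)
    (hφ' : ∀ (i : ℕ) (r : QA F), r ∈ C.C i → gmap ((φ⁻¹ : MulAut F) : F →* F) r ∈ C.C i) :
    ∃ (W : Type) (_ : AddCommGroup W) (_ : Module ℚ W) (ρ : Representation ℚ F W)
      (T : W ≃ₗ[ℚ] W) (q : QA F →ₗ[ℚ] W),
      Function.Surjective q ∧ (∀ r, q r = 0 ↔ r ∈ C.C n) ∧
      (∀ (f : F) (r : QA F), ρ f (q r) = q (gr f * r)) ∧
      (∀ r : QA F, T (q r) = q (gmap (φ : F →* F) r)) := by
  have hl : ∀ (s r : QA F), r ∈ C.C n → s * r ∈ C.C n := by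
    intro s r hr
    have h1 := C.mul (i := 0) (j := n) (r := s) (s := r) (by rw [C.top]; trivial) hr
    rwa [zero_add] at h1
  have hinv : ∀ (ψ ψ' : MulAut F), ψ * ψ' = 1 → ∀ r : QA F,
      gmap (ψ : F →* F) (gmap (ψ' : F →* F) r) = r := by
    intro ψ ψ' h r
    rw [gmap_comp]
    have e : (ψ : F →* F).comp (ψ' : F →* F) = MonoidHom.id F := by
      ext x
      change (ψ * ψ') x = x
      rw [h]
      rfl
    rw [e, gmap_id]
  refine ⟨QA F ⧸ C.C n, inferInstance, inferInstance,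
    { toFun := fun f => (C.C n).mapQ (C.C n) (LinearMap.mulLeft ℚ (gr f)) (fun r hr => hl _ r hr)
      map_one' := ?_
      map_mul' := ?_ },
    LinearEquiv.ofLinearMap
      ((C.C n).mapQ (C.C n) (gmap (φ : F →* F)).toLinearMap (fun r hr => hφ n r hr))
      ((C.C n).mapQ (C.C n) (gmap ((φ⁻¹ : MulAut F) : F →* F)).toLinearMap
        (fun r hr => hφ' n r hr)) ?_ ?_,
    (C.C n).mkQ, Submodule.mkQ_surjective _, ?_, ?_, ?_⟩
  · apply Submodule.linearMap_qext
    refine LinearMap.ext fun r => ?_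
    change (C.C n).mkQ (gr (1 : F) * r) = (C.C n).mkQ r
    rw [show (gr (1 : F) : QA F) = 1 from map_one _, one_mul]
  · intro f g
    apply Submodule.linearMap_qext
    refine LinearMap.ext fun r => ?_
    change (C.C n).mkQ (gr (f * g) * r) = (C.C n).mkQ (gr f * (gr g * r))
    rw [show (gr (f * g) : QA F) = gr f * gr g from map_mul _ _ _, mul_assoc]
  · apply Submodule.linearMap_qext
    refine LinearMap.ext fun r => ?_
    change (C.C n).mkQ (gmap (φ : F →* F) (gmap ((φ⁻¹ : MulAut F) : F →* F) r)) = (C.C n).mkQ r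
    rw [hinv φ φ⁻¹ (mul_inv_cancel φ)]
  · apply Submodule.linearMap_qext
    refine LinearMap.ext fun r => ?_
    change (C.C n).mkQ (gmap ((φ⁻¹ : MulAut F) : F →* F) (gmap (φ : F →* F) r)) = (C.C n).mkQ r
    rw [hinv φ⁻¹ φ (inv_mul_cancel φ)]
  · intro r
    rw [Submodule.mkQ_apply, Submodule.Quotient.mk_eq_zero]
  · intro f r
    rfl
  · intro r
    rfl

end Pool.H11.FC
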