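import Pool.Agent.H11.FC.VR

/-! # Mapping tori of conjugate automorphisms and outer classes

`VRTFN_congr`: `(x, t^k) ↦ (e x, t^k)` is an isomorphism `MT F φ ≃* MT F' φ'` (`SemidirectProduct.map` for both directions, or `VRTFN_of_inj` with the injective homomorphism of the inverse).
`VRTFN_conj`: the homomorphism `MT F φ → MT F (conj g * φ)`, `inl x ↦ inl x`, `t ↦ inl g⁻¹ * t` (`SemidirectProduct.lift`, `zpowersHom`; in `MT F (conj g * φ)` the element `inl g⁻¹ * t` acts on `inl x` by
conjugation as `φ`) is injective (it preserves `right`, and on `right = 1` it is the identity). `VRTFN_of_inj`. -/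

set_option autoImplicit false

namespace Pool.H11.FC

theorem VRTFN_congr {F F' : Type} [Group F] [Group F'] (e : F ≃* F') (φ : MulAut F)
    (φ' : MulAut F') (h : ∀ x, e (φ x) = φ' (e x)) (hV : VRTFN (MT F φ)) :
    VRTFN (MT F' φ') := by
  have hφ' : φ' = MulAut.congr e φ := by
    ext y
    show φ' y = e (φ (e.symm y))
    rw [h, MulEquiv.apply_symm_apply]
  have key : ∀ (j : ℤ) (y : F'), e.symm ((φ' ^ j) y) = (φ ^ j) (e.symm y) := by
    intro j y
    have h1 : φ' ^ j = MulAut.congr e (φ ^ j) := by rw [hφ', map_zpow]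
    rw [h1]
    show e.symm (e ((φ ^ j) (e.symm y))) = _
    rw [MulEquiv.symm_apply_apply]
  have hcond : ∀ g : Multiplicative ℤ,
      e.symm.toMonoidHom.comp (zpowersHom (MulAut F') φ' g).toMonoidHom =
        (zpowersHom (MulAut F) φ (MonoidHom.id _ g)).toMonoidHom.comp e.symm.toMonoidHom := by
    intro g
    ext1 y
    exact key _ y
  refine VRTFN_of_inj (SemidirectProduct.map e.symm.toMonoidHom (MonoidHom.id _) hcond) ?_ hV
  intro x y hxy
  apply SemidirectProduct.ext
  · exact e.symm.injective (congrArg SemidirectProduct.left hxy)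
  · have h3 := congrArg (fun w : MT F φ => w.right) hxy
    exact h3

theorem VRTFN_conj {F : Type} [Group F] (φ : MulAut F) (g : F)
    (h : VRTFN (MT F (MulAut.conj g * φ))) : VRTFN (MT F φ) := by
  obtain ⟨a, ha⟩ : ∃ a : MT F (MulAut.conj g * φ),
      a = SemidirectProduct.inl g⁻¹ * SemidirectProduct.inr (Multiplicative.ofAdd 1) := ⟨_, rfl⟩
  have h1 : ∀ x : F, a * SemidirectProduct.inl x * a⁻¹ = SemidirectProduct.inl (φ x) := by
    intro x
    have e1 : (SemidirectProduct.inr (Multiplicative.ofAdd (1 : ℤ)) : MT F (MulAut.conj g * φ)) *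
        SemidirectProduct.inl x * (SemidirectProduct.inr (Multiplicative.ofAdd (1 : ℤ)))⁻¹ =
        SemidirectProduct.inl (g * φ x * g⁻¹) := by
      have e2 := SemidirectProduct.inl_aut (φ := zpowersHom (MulAut F) (MulAut.conj g * φ))
        (Multiplicative.ofAdd (1 : ℤ)) x
      rw [map_inv] at e2
      rw [← e2, zpowersHom_apply, toAdd_ofAdd, zpow_one]
      rfl
    rw [ha, mul_inv_rev]
    calc SemidirectProduct.inl g⁻¹ * SemidirectProduct.inr (Multiplicative.ofAdd 1) *
          SemidirectProduct.inl x * ((SemidirectProduct.inr (Multiplicative.ofAdd 1))⁻¹ *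
            (SemidirectProduct.inl g⁻¹ : MT F (MulAut.conj g * φ))⁻¹) =
          SemidirectProduct.inl g⁻¹ * (SemidirectProduct.inr (Multiplicative.ofAdd 1) *
          SemidirectProduct.inl x * (SemidirectProduct.inr (Multiplicative.ofAdd 1))⁻¹) *
            (SemidirectProduct.inl g⁻¹ : MT F (MulAut.conj g * φ))⁻¹ := by
          simp only [mul_assoc]
      _ = SemidirectProduct.inl (φ x) := by
          rw [e1, ← map_inv, ← map_mul, ← map_mul]
          congr 1
          group
  have key : ∀ (j : ℤ) (x : F),
      a ^ j * SemidirectProduct.inl x * (a ^ j)⁻¹ = SemidirectProduct.inl ((φ ^ j) x) := by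
    intro j
    induction j using Int.induction_on with
    | zero =>
      intro x
      rw [zpow_zero, zpow_zero, one_mul, inv_one, mul_one, MulAut.one_apply]
    | succ j ih =>
      intro x
      rw [zpow_add_one, zpow_add_one, MulAut.mul_apply, ← ih, ← h1]
      simp only [mul_assoc, mul_inv_rev]
    | pred j ih =>
      intro x
      have h2 : a⁻¹ * SemidirectProduct.inl x * a = SemidirectProduct.inl (φ⁻¹ x) := by
        have h3 := h1 (φ⁻¹ x)
        rw [MulAut.apply_inv_self] at h3
        rw [← h3]
        group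
      rw [zpow_sub_one, zpow_sub_one, MulAut.mul_apply, ← ih, ← h2]
      simp only [mul_assoc, mul_inv_rev, inv_inv]
  have hcond : ∀ n : Multiplicative ℤ,
      (SemidirectProduct.inl : F →* MT F (MulAut.conj g * φ)).comp
        (zpowersHom (MulAut F) φ n).toMonoidHom =
      (MulAut.conj (zpowersHom (MT F (MulAut.conj g * φ)) a n)).toMonoidHom.comp
        SemidirectProduct.inl := by
    intro n
    ext1 x
    exact (key _ x).symm
  obtain ⟨f, hf⟩ : ∃ f : MT F φ →* MT F (MulAut.conj g * φ),
      f = SemidirectProduct.lift SemidirectProduct.inl (zpowersHom _ a) hcond := ⟨_, rfl⟩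
  have hfx : ∀ x : MT F φ, f x = SemidirectProduct.inl x.left *
      a ^ (Multiplicative.toAdd x.right) := fun x => by rw [hf]; rfl
  have hr : ∀ x : MT F φ, SemidirectProduct.rightHom (f x) = x.right := by
    intro x
    have h2 : SemidirectProduct.rightHom a = Multiplicative.ofAdd (1 : ℤ) := by
      rw [ha, map_mul, SemidirectProduct.rightHom_inl, SemidirectProduct.rightHom_inr, one_mul]
    rw [hfx, map_mul, SemidirectProduct.rightHom_inl, one_mul, map_zpow, h2, ← ofAdd_zsmul,
      smul_eq_mul, mul_one, ofAdd_toAdd]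
  refine VRTFN_of_inj f ?_ h
  intro x y hxy
  have h2 : x.right = y.right := by rw [← hr x, ← hr y, hxy]
  rw [hfx, hfx, h2] at hxy
  exact SemidirectProduct.ext (SemidirectProduct.inl_injective (mul_right_cancel hxy)) h2

end Pool.H11.FC
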