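import Mathlib

/-!
# Residual torsion-free nilpotence of mapping tori: definitions (MP_065d68_al)
-/

set_option autoImplicit false

namespace Pool.Agent.H11.FC.Statement

open Monoid

/-- Residually torsion-free nilpotent groups. -/
def IsRTFN (G : Type) [Group G] : Prop :=
  ∀ h : G, h ≠ 1 → ∃ (Q : Type) (_ : Group Q) (f : G →* Q),
    Group.IsNilpotent Q ∧ (∀ q : Q, ∀ k : ℕ, 0 < k → q ^ k = 1 → q = 1) ∧ f h ≠ 1

/-- Virtually residually torsion-free nilpotent groups. -/
def IsVRTFN (G : Type) [Group G] : Prop :=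
  ∃ H : Subgroup G, H.index ≠ 0 ∧ IsRTFN H

/-- The mapping torus `F ⋊ ℤ` of an automorphism `φ` of `F`; the generator of `ℤ` acts by `φ`. -/
abbrev MappingTorus (F : Type) [Group F] (φ : MulAut F) : Type :=
  F ⋊[zpowersHom (MulAut F) φ] Multiplicative ℤ

/-- The mapping torus of `φ` is residually torsion-free nilpotent. -/
def TorusRTFN {F : Type} [Group F] (φ : MulAut F) : Prop := IsRTFN (MappingTorus F φ)

/-- The mapping torus of `φ` is virtually residually torsion-free nilpotent. -/
def TorusVRTFN {F : Type} [Group F] (φ : MulAut F) : Prop := IsVRTFN (MappingTorus F φ)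

/-- The free product `A * F(ι)`. -/
abbrev FreeExt (A : Type) [Group A] (ι : Type) : Type := Coprod A (FreeGroup ι)

/-- The inclusion of `A`. -/
abbrev base {A : Type} [Group A] (ι : Type) (a : A) : FreeExt A ι := Coprod.inl a

/-- The free letters of `A * F(ι)`. -/
abbrev letter (A : Type) [Group A] {ι : Type} (i : ι) : FreeExt A ι :=
  Coprod.inr (FreeGroup.of i)

end Pool.Agent.H11.FC.Statement
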