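import Pool.Agent.H11.FC.ExtZ
import Pool.Agent.H11.FC.Noeth
import Pool.Agent.H11.FC.Center

/-! # Finitely generated torsion-free nilpotent groups are residually unipotent

PROOF of `RU_ext_pow`: induction on `r` for all `L`. `r = 0`: `χ.ker = ⊤`, `RU_of_inj`. `r + 1`: `χ₀ : L →* Multiplicative ℤ` the `0`-th coordinate, `L₁ = χ₀.ker`
(nilpotent), `χ' : L₁ →* Multiplicative (Fin r → ℤ)` the other coordinates; `χ'.ker` embeds in `χ.ker`. `RU_ext hL χ₀`.
PROOF of `RU_of_tfn`: show `RU (upperCentralSeries M i)` by induction on `i` (subgroups as groups). `i = 0`: trivial group. `i + 1`: `L = upperCentralSeries M (i+1)`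
is f.g. (`fg_subgroup_of_nilpotent`), nilpotent; `P = (upperCentralSeries M i).subgroupOf L` is normal, `L ⧸ P` is abelian (`⁅x, y⁆ ∈ upperCentralSeries M i`), f.g. and
torsion-free (`upper_pure`), so `Additive (L ⧸ P)` is a free `ℤ`-module of finite rank (`Module.free_of_finite_type_torsion_free'`, `Module.finBasis`/`Module.Free.chooseBasis`),
which gives `χ : L →* Multiplicative (Fin r → ℤ)` with `χ.ker = P`; `P` embeds in `upperCentralSeries M i`. `RU_ext_pow`. Finally `upperCentralSeries M n = ⊤`. -/

set_option autoImplicit false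

namespace Pool.H11.FC

private def tfn_head (r : ℕ) : Multiplicative (Fin (r + 1) → ℤ) →* Multiplicative ℤ :=
  AddMonoidHom.toMultiplicative
    { toFun := fun v => v 0
      map_zero' := rfl
      map_add' := fun _ _ => rfl }

private def tfn_tail (r : ℕ) :
    Multiplicative (Fin (r + 1) → ℤ) →* Multiplicative (Fin r → ℤ) :=
  AddMonoidHom.toMultiplicative
    { toFun := fun v i => v i.succ
      map_zero' := rfl
      map_add' := fun _ _ => rfl }

private theorem tfn_eq_one (r : ℕ) (v : Multiplicative (Fin (r + 1) → ℤ))
    (h0 : tfn_head r v = 1) (h1 : tfn_tail r v = 1) : v = 1 := by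
  have a0 : (Multiplicative.toAdd v) 0 = 0 := congrArg Multiplicative.toAdd h0
  have a1 : (fun i : Fin r => (Multiplicative.toAdd v) i.succ) = 0 :=
    congrArg Multiplicative.toAdd h1
  apply Multiplicative.toAdd.injective
  funext i
  refine Fin.cases ?_ (fun j => ?_) i
  · exact a0
  · exact congrFun a1 j

theorem RU_ext_pow {L : Type} [Group L] (hL : Group.IsNilpotent L) (r : ℕ)
    (χ : L →* Multiplicative (Fin r → ℤ)) (h : RU χ.ker) : RU L := by
  induction r generalizing L with
  | zero =>
    have hk : ∀ l : L, l ∈ χ.ker := fun l => by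
      rw [MonoidHom.mem_ker]
      exact Multiplicative.toAdd.injective (Subsingleton.elim _ _)
    refine RU_of_inj ((MonoidHom.id L).codRestrict χ.ker hk) ?_ h
    intro a b hab
    exact congrArg (Subtype.val) hab
  | succ r ih =>
    let χ₀ : L →* Multiplicative ℤ := (tfn_head r).comp χ
    let χ' : χ₀.ker →* Multiplicative (Fin r → ℤ) := ((tfn_tail r).comp χ).comp χ₀.ker.subtype
    have hnil : Group.IsNilpotent χ₀.ker := by
      haveI := hL
      exact Subgroup.isNilpotent χ₀.ker
    have hmem : ∀ x : χ'.ker, ((x : χ₀.ker) : L) ∈ χ.ker := by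
      intro x
      rw [MonoidHom.mem_ker]
      refine tfn_eq_one r _ ?_ ?_
      · exact (x : χ₀.ker).2
      · exact x.2
    let f : χ'.ker →* χ.ker := (χ₀.ker.subtype.comp χ'.ker.subtype).codRestrict χ.ker hmem
    have hf : Function.Injective f := by
      intro a b hab
      have : ((a : χ₀.ker) : L) = ((b : χ₀.ker) : L) := congrArg (fun z : χ.ker => (z : L)) hab
      exact Subtype.ext (Subtype.ext this)
    exact RU_ext hL χ₀ (ih hnil χ' (RU_of_inj f hf h))

theorem RU_of_tfn {M : Type} [Group M] (hfg : Group.FG M) (hn : Group.IsNilpotent M)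
    (ht : ∀ g : M, ∀ k : ℕ, 0 < k → g ^ k = 1 → g = 1) : RU M := by
  have key : ∀ i : ℕ, RU (Subgroup.upperCentralSeries M i) := by
    intro i
    induction i with
    | zero =>
      intro g hg
      exfalso
      apply hg
      apply Subtype.ext
      have h0 : (g : M) ∈ (⊥ : Subgroup M) := g.2
      exact Subgroup.mem_bot.1 h0
    | succ i ih =>
      set L := Subgroup.upperCentralSeries M (i + 1) with hLdef
      let P : Subgroup L := (Subgroup.upperCentralSeries M i).subgroupOf L
      haveI hPn : P.Normal := Subgroup.normal_subgroupOf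
      haveI hLn : Group.IsNilpotent L := by
        haveI := hn
        exact Subgroup.isNilpotent L
      haveI hLfg : Group.FG L :=
        (Group.fg_iff_subgroup_fg L).2 (fg_subgroup_of_nilpotent hfg hn L)
      have hcomm : ∀ a b : L ⧸ P, a * b = b * a := by
        intro a b
        obtain ⟨x, rfl⟩ := QuotientGroup.mk'_surjective P a
        obtain ⟨y, rfl⟩ := QuotientGroup.mk'_surjective P b
        rw [← map_mul, ← map_mul]
        rw [QuotientGroup.mk'_apply, QuotientGroup.mk'_apply, QuotientGroup.eq]
        rw [Subgroup.mem_subgroupOf]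
        have hx := (Subgroup.mem_upperCentralSeries_succ_iff.1 (Subgroup.inv_mem _ (y : L).2))
          ((x : M)⁻¹)
        rw [commutatorElement_def] at hx
        have e : ((((x * y)⁻¹ * (y * x) : L)) : M) =
            ((y : M))⁻¹ * ((x : M))⁻¹ * (((y : M))⁻¹)⁻¹ * (((x : M))⁻¹)⁻¹ := by
          simp only [Subgroup.coe_mul, Subgroup.coe_inv]
          group
        rw [e]
        exact hx
      letI : CommGroup (L ⧸ P) := { (inferInstance : Group (L ⧸ P)) with mul_comm := hcomm }
      haveI hQfg : Group.FG (L ⧸ P) := Group.fg_of_surjective (QuotientGroup.mk'_surjective P)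
      haveI : AddGroup.FG (Additive (L ⧸ P)) := GroupFG.iff_add_fg.1 hQfg
      haveI : Module.Finite ℤ (Additive (L ⧸ P)) := Module.Finite.iff_addGroup_fg.2 inferInstance
      have hpure : ∀ x : L, ∀ k : ℕ, 0 < k → x ^ k ∈ P → x ∈ P := by
        intro x k hk hx
        rw [Subgroup.mem_subgroupOf] at hx ⊢
        exact upper_pure hn ht i (x : M) k hk (by simpa using hx)
      haveI htf : IsAddTorsionFree (Additive (L ⧸ P)) := by
        refine ⟨fun k hk a b hab => ?_⟩
        have h1 : k • (a - b) = 0 := by
          rw [nsmul_sub, sub_eq_zero]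
          exact hab
        obtain ⟨x, hx⟩ := QuotientGroup.mk'_surjective P (Additive.toMul (a - b))
        have h2 : (QuotientGroup.mk' P x) ^ k = 1 := by
          rw [hx]
          exact h1
        rw [← map_pow] at h2
        have h3 : x ^ k ∈ P := by
          rw [← QuotientGroup.ker_mk' P]
          exact h2
        have h4 := hpure x k (Nat.pos_of_ne_zero hk) h3
        have h5 : QuotientGroup.mk' P x = 1 := by
          have : x ∈ (QuotientGroup.mk' P).ker := by
            rw [QuotientGroup.ker_mk' P]
            exact h4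
          exact this
        have h6 : a - b = 0 := by
          rw [h5] at hx
          exact hx.symm
        exact sub_eq_zero.1 h6
      haveI : Module.Free ℤ (Additive (L ⧸ P)) := Module.free_of_finite_type_torsion_free'
      let bs := Module.finBasis ℤ (Additive (L ⧸ P))
      let e : Additive (L ⧸ P) →+ (Fin (Module.finrank ℤ (Additive (L ⧸ P))) → ℤ) :=
        bs.equivFun.toLinearMap.toAddMonoidHom
      let χ : L →* Multiplicative (Fin (Module.finrank ℤ (Additive (L ⧸ P))) → ℤ) :=
        (AddMonoidHom.toMultiplicativeRight e).comp (QuotientGroup.mk' P)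
      have hker : ∀ x : χ.ker, ((x : L) : M) ∈ Subgroup.upperCentralSeries M i := by
        intro x
        have hx : χ (x : L) = 1 := x.2
        have h1 : e (Additive.ofMul (QuotientGroup.mk' P (x : L))) = 0 :=
          congrArg Multiplicative.toAdd hx
        have h2 : Additive.ofMul (QuotientGroup.mk' P (x : L)) = 0 := by
          apply bs.equivFun.injective
          rw [map_zero]
          exact h1
        have h3 : QuotientGroup.mk' P (x : L) = 1 := h2
        have h4 : (x : L) ∈ P := (QuotientGroup.eq_one_iff (N := P) (x : L)).1 h3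
        exact Subgroup.mem_subgroupOf.1 h4
      let f : χ.ker →* Subgroup.upperCentralSeries M i :=
        (L.subtype.comp χ.ker.subtype).codRestrict _ hker
      have hf : Function.Injective f := by
        intro a b hab
        have : ((a : L) : M) = ((b : L) : M) :=
          congrArg (fun z : Subgroup.upperCentralSeries M i => (z : M)) hab
        exact Subtype.ext (Subtype.ext this)
      exact RU_ext_pow hLn _ χ (RU_of_inj f hf ih)
  obtain ⟨n, hn'⟩ := hn.nilpotent'
  have hmem : ∀ g : M, g ∈ Subgroup.upperCentralSeries M n := fun g => by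
    rw [hn']; exact Subgroup.mem_top g
  refine RU_of_inj ((MonoidHom.id M).codRestrict _ hmem) ?_ (key n)
  intro a b hab
  exact congrArg Subtype.val hab

end Pool.H11.FC
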