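import Pool.Agent.H11.FC.Defs

/-! # Unipotent groups of matrices are torsion-free nilpotent

PROOF. Let `Q` be the range of `ρ.toHomUnits : G →* (Module.End ℚ W)ˣ` (a `Type`). Every `q ∈ Q` satisfies
`(q - 1) Fl i ⊆ Fl (i + 1)`, hence `q Fl i ⊆ Fl i`.
(1) NILPOTENT. For `a ≥ 1` let `U a = {q ∈ Q | ∀ i, (q - 1) Fl i ⊆ Fl (i + a)}`; it is a subgroup of `Q`: products are clear
(`qq' - 1 = (q-1)q' + (q'-1)`), inverses: `q⁻¹ ∈ Q` preserves every `Fl i`, and `q⁻¹ - 1 = - q⁻¹ (q - 1)`.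
`U 1 = ⊤`, and `⁅U a, ⊤⁆ ≤ U (a + 1)`: for `p ∈ U a`, `q ∈ Q`:
`p q p⁻¹ q⁻¹ - 1 = (pq - qp) p⁻¹ q⁻¹ = ((p-1)(q-1) - (q-1)(p-1)) p⁻¹ q⁻¹`, which maps `Fl i` into `Fl (i + a + 1)`.
So `Subgroup.lowerCentralSeries`/`lowerCentralSeries Q n ≤ U (n + 1)` and `U m = ⊥` since `Fl 0 = ⊤`, `Fl m = ⊥`
(for `m = 0` the space `W` is zero and `Q` is trivial, but then `ρ g = 1`, contradiction with `hg`). Hence `Q` is nilpotent
(`nilpotent_iff_lowerCentralSeries` or the like).
(2) TORSION-FREE. Let `q ^ k = 1`, `0 < k`, `ν = q - 1`. Claim: `ν Fl i ⊆ Fl (i + a)` for all `i` and all `a ≥ 1`. For `a = 1` this is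
given. If it holds for `a ≥ 1` then `0 = q^k - 1 = (1+ν)^k - 1 = k ν + ν² (...)`: more precisely
`(1+ν)^k = 1 + k ν + ν² c` with `c` a polynomial in `ν` (induction on `k`), `c` preserves the flag, so for `w ∈ Fl i`:
`k ν w = - ν² c w ∈ Fl (i + 2a) ⊆ Fl (i + a + 1)`, and `k` is invertible. Take `a = m` (`m ≥ 1`): `ν = 0`, `q = 1`.
(3) `f = ρ.toHomUnits` restricted to its range; `f g ≠ 1` because `ρ g ≠ 1`. -/

set_option autoImplicit false

namespace Pool.H11.FC

/-- a subgroup of units which raises the flag -/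
private theorem unip_pres {W : Type} [AddCommGroup W] [Module ℚ W] {Fl : ℕ → Submodule ℚ W}
    (hanti : Antitone Fl) {q : Module.End ℚ W}
    (hq : ∀ (i : ℕ) (v : W), v ∈ Fl i → q v - v ∈ Fl (i + 1)) {i : ℕ} {v : W} (hv : v ∈ Fl i) :
    q v ∈ Fl i := by
  have h1 := (Fl i).add_mem (hanti (Nat.le_succ i) (hq i v hv)) hv
  rwa [sub_add_cancel] at h1

private def unip_U {W : Type} [AddCommGroup W] [Module ℚ W] (Fl : ℕ → Submodule ℚ W)
    (hanti : Antitone Fl) (Q : Subgroup (Module.End ℚ W)ˣ)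
    (hQ : ∀ q ∈ Q, ∀ (i : ℕ) (v : W), v ∈ Fl i → (q : Module.End ℚ W) v - v ∈ Fl (i + 1))
    (a : ℕ) : Subgroup Q where
  carrier := {q | ∀ (i : ℕ) (v : W), v ∈ Fl i →
    ((q : (Module.End ℚ W)ˣ) : Module.End ℚ W) v - v ∈ Fl (i + a)}
  one_mem' := fun i v _ => by
    show (1 : Module.End ℚ W) v - v ∈ Fl (i + a)
    rw [Module.End.one_apply, sub_self]
    exact (Fl (i + a)).zero_mem
  mul_mem' := by
    intro p q hp hq i v hv
    show ((p : (Module.End ℚ W)ˣ) : Module.End ℚ W) (((q : (Module.End ℚ W)ˣ) :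
      Module.End ℚ W) v) - v ∈ Fl (i + a)
    have h1 := unip_pres hanti (hQ p p.2) (hq i v hv)
    have h2 := (Fl (i + a)).add_mem h1 (hp i v hv)
    rwa [map_sub, sub_add_sub_cancel] at h2
  inv_mem' := by
    intro q hq i v hv
    have h1 := unip_pres hanti (hQ (q⁻¹ : Q) (q⁻¹ : Q).2) (hq i v hv)
    have h2 : (((q⁻¹ : Q) : (Module.End ℚ W)ˣ) : Module.End ℚ W)
        (((q : (Module.End ℚ W)ˣ) : Module.End ℚ W) v) = v := by
      show ((((q⁻¹ * q : Q)) : (Module.End ℚ W)ˣ) : Module.End ℚ W) v = v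
      rw [inv_mul_cancel]
      rfl
    rw [map_sub, h2] at h1
    have h3 := (Fl (i + a)).neg_mem h1
    rwa [neg_sub] at h3

theorem unip {G W : Type} [Group G] [AddCommGroup W] [Module ℚ W] (ρ : Representation ℚ G W)
    (Fl : ℕ → Submodule ℚ W) (m : ℕ) (hanti : Antitone Fl) (htop : Fl 0 = ⊤) (hbot : Fl m = ⊥)
    (hr : ∀ (g : G) (i : ℕ) (v : W), v ∈ Fl i → ρ g v - v ∈ Fl (i + 1)) (g : G) (hg : ρ g ≠ 1) :
    ∃ (Q : Type) (_ : Group Q) (f : G →* Q),
      Group.IsNilpotent Q ∧ (∀ q : Q, ∀ k : ℕ, 0 < k → q ^ k = 1 → q = 1) ∧ f g ≠ 1 := by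
  have hQ : ∀ q ∈ (MonoidHom.toHomUnits ρ).range, ∀ (i : ℕ) (v : W), v ∈ Fl i →
      (q : Module.End ℚ W) v - v ∈ Fl (i + 1) := by
    rintro q ⟨x, rfl⟩ i v hv
    exact hr x i v hv
  have hbot' : ∀ q : (MonoidHom.toHomUnits ρ).range,
      q ∈ unip_U Fl hanti _ hQ (m + 1) → q = 1 := by
    intro q hq
    apply Subtype.ext
    apply Units.ext
    refine LinearMap.ext fun v => ?_
    have h1 : v ∈ Fl 0 := by rw [htop]; exact Submodule.mem_top
    have h2 := hanti (show m ≤ 0 + (m + 1) by omega) (hq 0 v h1)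
    rw [hbot, Submodule.mem_bot] at h2
    exact sub_eq_zero.1 h2
  refine ⟨(MonoidHom.toHomUnits ρ).range, inferInstance, (MonoidHom.toHomUnits ρ).rangeRestrict,
    ?_, ?_, ?_⟩
  · rw [Subgroup.nilpotent_iff_finite_descending_central_series]
    refine ⟨m, fun a => unip_U Fl hanti _ hQ (a + 1), ⟨?_, ?_⟩, ?_⟩
    · rw [eq_top_iff]
      intro q _ i v hv
      exact hQ q q.2 i v hv
    · intro p a hp q i v hv
      show ((((p * q * p⁻¹ * q⁻¹ : (MonoidHom.toHomUnits ρ).range)) : (Module.End ℚ W)ˣ) :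
        Module.End ℚ W) v - v ∈ Fl (i + (a + 1 + 1))
      have hz : (((p⁻¹ * q⁻¹ : (MonoidHom.toHomUnits ρ).range) : (Module.End ℚ W)ˣ) :
        Module.End ℚ W) v ∈ Fl i := unip_pres hanti (hQ _ (p⁻¹ * q⁻¹).2) hv
      obtain ⟨z, hzz⟩ : ∃ z, z = (((p⁻¹ * q⁻¹ : (MonoidHom.toHomUnits ρ).range) :
        (Module.End ℚ W)ˣ) : Module.End ℚ W) v := ⟨_, rfl⟩
      rw [← hzz] at hz
      have hv' : v = ((q : (Module.End ℚ W)ˣ) : Module.End ℚ W)
          (((p : (Module.End ℚ W)ˣ) : Module.End ℚ W) z) := by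
        rw [hzz]
        show v = ((((q * p * (p⁻¹ * q⁻¹) : (MonoidHom.toHomUnits ρ).range)) :
          (Module.End ℚ W)ˣ) : Module.End ℚ W) v
        rw [show q * p * (p⁻¹ * q⁻¹) = 1 by group]
        rfl
      have hx : ((((p * q * p⁻¹ * q⁻¹ : (MonoidHom.toHomUnits ρ).range)) :
          (Module.End ℚ W)ˣ) : Module.End ℚ W) v = ((p : (Module.End ℚ W)ˣ) : Module.End ℚ W)
          (((q : (Module.End ℚ W)ˣ) : Module.End ℚ W) z) := by
        rw [hzz]
        show _ = ((((p * q * (p⁻¹ * q⁻¹) : (MonoidHom.toHomUnits ρ).range)) :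
          (Module.End ℚ W)ˣ) : Module.End ℚ W) v
        rw [show p * q * p⁻¹ * q⁻¹ = p * q * (p⁻¹ * q⁻¹) by group]
      rw [hx]
      have h1 := hp (i + 1) _ (hQ q q.2 i z hz)
      have h2 := hQ q q.2 _ _ (hp i z hz)
      rw [show i + 1 + (a + 1) = i + (a + 1 + 1) by omega] at h1
      rw [show i + (a + 1) + 1 = i + (a + 1 + 1) by omega] at h2
      have h3 := (Fl (i + (a + 1 + 1))).sub_mem h1 h2
      rw [map_sub, map_sub] at h3
      have h4 : ((p : (Module.End ℚ W)ˣ) : Module.End ℚ W)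
            (((q : (Module.End ℚ W)ˣ) : Module.End ℚ W) z) - v =
          ((p : (Module.End ℚ W)ˣ) : Module.End ℚ W)
            (((q : (Module.End ℚ W)ˣ) : Module.End ℚ W) z) -
            ((p : (Module.End ℚ W)ˣ) : Module.End ℚ W) z -
            (((q : (Module.End ℚ W)ˣ) : Module.End ℚ W) z - z) -
          (((q : (Module.End ℚ W)ˣ) : Module.End ℚ W)
            (((p : (Module.End ℚ W)ˣ) : Module.End ℚ W) z) -
            ((q : (Module.End ℚ W)ˣ) : Module.End ℚ W) z -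
            (((p : (Module.End ℚ W)ˣ) : Module.End ℚ W) z - z)) := by
        nth_rewrite 1 [hv']
        abel
      rw [h4]
      exact h3
    · rw [eq_bot_iff]
      intro q hq
      exact Subgroup.mem_bot.2 (hbot' q hq)
  · intro q k hk hqk
    apply hbot'
    have key : ∀ a : ℕ, q ∈ unip_U Fl hanti _ hQ (a + 1) := by
      intro a
      induction a with
      | zero => exact fun i v hv => hQ q q.2 i v hv
      | succ a ih =>
        intro i v hv
        have hz := ih i v hv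
        obtain ⟨z, hzz⟩ : ∃ z, z = ((q : (Module.End ℚ W)ˣ) : Module.End ℚ W) v - v := ⟨_, rfl⟩
        rw [← hzz] at hz ⊢
        -- telescoping
        have h1 : ∑ j ∈ Finset.range k,
            (((q ^ j : (MonoidHom.toHomUnits ρ).range) : (Module.End ℚ W)ˣ) :
              Module.End ℚ W) z = 0 := by
          have h2 := Finset.sum_range_sub (fun j : ℕ =>
            (((q ^ j : (MonoidHom.toHomUnits ρ).range) : (Module.End ℚ W)ˣ) :
              Module.End ℚ W) v) k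
          have h3 : (((q ^ k : (MonoidHom.toHomUnits ρ).range) : (Module.End ℚ W)ˣ) :
              Module.End ℚ W) v - (((q ^ 0 : (MonoidHom.toHomUnits ρ).range) :
              (Module.End ℚ W)ˣ) : Module.End ℚ W) v = 0 := by
            rw [hqk, pow_zero, sub_self]
          rw [← h3, ← h2]
          refine Finset.sum_congr rfl fun j _ => ?_
          rw [hzz, map_sub]
          congr 1
        have h2 : ∑ j ∈ Finset.range k,
            ((((q ^ j : (MonoidHom.toHomUnits ρ).range) : (Module.End ℚ W)ˣ) :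
              Module.End ℚ W) z - z) ∈ Fl (i + (a + 1) + 1) :=
          Submodule.sum_mem _ fun j _ => hQ _ (q ^ j).2 _ _ hz
        rw [Finset.sum_sub_distrib, h1, zero_sub, Finset.sum_const, Finset.card_range] at h2
        have h3 := (Fl (i + (a + 1) + 1)).smul_mem (-((k : ℚ)⁻¹)) h2
        have h4 : (-((k : ℚ)⁻¹)) • -(k • z) = z := by
          have hk' : (k : ℚ) ≠ 0 := by exact_mod_cast hk.ne'
          rw [smul_neg, neg_smul, neg_neg, ← Nat.cast_smul_eq_nsmul ℚ, smul_smul,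
            inv_mul_cancel₀ hk', one_smul]
        rw [h4] at h3
        exact h3
    exact key m
  · intro h
    apply hg
    have h1 := congrArg (fun q : (MonoidHom.toHomUnits ρ).range =>
      ((q : (Module.End ℚ W)ˣ) : Module.End ℚ W)) h
    exact h1

end Pool.H11.FC
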