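import Pool.Agent.H11.FC.Quot
import Pool.Agent.H11.FC.NF

/-! # The word representation

`L = [(i_1,n_1,a_1), ..., (i_d,n_d,a_d)]`, `d = L.length`. Write `a v` for `ρ (κ a) v`.
CHOICES. `v_1 ≠ 0` arbitrary, `ξ_d ≠ 0` arbitrary in the dual; for `1 ≤ l < d`: `v_{l+1} ∈ V`, `ξ_l ∈ V*` with `ξ_l (a_l v_{l+1}) ≠ 0` and (`i_l = i_{l+1} → ξ_l v_{l+1} = 0`): if
`i_l = i_{l+1}` then `a_l ≠ 1` (`Red`), so `NonSc`: some `v` with `a_l v ∉ span v`, and a functional vanishing at `v` but not at `a_l v`; otherwise any `v ≠ 0` (`a_l v ≠ 0`).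
SPACE. `W = ℕ → V`, `(σ (inl a) w)_l = a (w_l)`; `(X_i w)_l = ξ_{l+1} (w_{l+1}) • v_{l+1}` if `l < d` and `i_{l+1} = i`, else `0`. `X_i ∘ X_i = 0`: component `l` is
`ξ_{l+1} (ξ_{l+2} (..) • v_{l+2}) v_{l+1}` with `i_{l+1} = i_{l+2} = i`. `σ (xx i) = 1 + X_i` (inverse `1 - X_i`), so `σ (xx i ^ n) = 1 + n X_i`. `σ` is defined by `Monoid.Coprod.lift` and `FreeGroup.lift`
(into the units of `Module.End ℚ W`, or use `MonoidHom.toHomUnits`).
FLAG. `Fl' j = {w | ∀ l, w_l ∈ Fl (j - (d - l) * m)}` (natural subtraction), `M = (d + 1) * m`; `m ≥ 1` as `V ≠ 0`. Antitone, `Fl' 0 = ⊤`; `Fl' M = ⊥`: `M - (d-l) m ≥ m`.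
`X_i Fl' j ⊆ Fl' (j+1)`: for `l < d`: if `j + 1 ≤ (d-l) m` the condition at `l` is `Fl 0 = ⊤`; else `j ≥ (d-l) m = (d-(l+1)) m + m` so `w_{l+1} ∈ Fl (j - (d-l-1) m) ≤ Fl m = ⊥`, and the component is `0`.
If `r : QA A` raises `Fl` by `i`, then `(σ (inl r) w)_l = R (w_l) ∈ Fl (j - (d-l) m + i) ≤ Fl (j + i - (d-l) m)`. All of `FP A ι` preserves `Fl' j` (generators and inverses).
NONTRIVIAL. `L = []`: `NonSc` with `c = 1`, vector `(v, v, ...)`. `L ≠ []`: choose `w_*` with `ξ_d (a_d w_*) ≠ 0` and `w = w_*` in position `d`, `0` elsewhere. Let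
`u_l = σ (xx i_l ^ n_l * inl a_l * ... * xx i_d ^ n_d * inl a_d) w`. Claim (downward induction from `l = d` to `1`): `(u_l)_j = 0` for `j < l - 1` and `(u_l)_{l-1} = c_l v_l` with `c_l ≠ 0`:
if `y = σ (inl a_{l-1}) u_l` then `y_{l-1} = c_l a_{l-1} v_l`, `y_j = 0` for `j < l - 1`, `u_{l-1} = y + n_{l-1} X_{i_{l-1}} y`, `(u_{l-1})_{l-2} = n_{l-1} c_l ξ_{l-1} (a_{l-1} v_l) v_{l-1}`.
So `σ (ev a₀ L) w` has `0`-component `c_1 a_0 v_1 ≠ 0`, but `w_0 = 0`. -/

set_option autoImplicit false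

namespace Pool.H11.FC

section word

variable {A : Type} {ι : Type} {G : Type} [Group G]
    {V : Type} [AddCommGroup V] [Module ℚ V]

private theorem word_choice [Nontrivial V] (ρ : Representation ℚ G V) (g : G) :
    ∃ (v : V) (ξ : V →ₗ[ℚ] ℚ), ξ (ρ g v) ≠ 0 ∧ (NonSc ρ g → ξ v = 0) := by
  classical
  by_cases h : NonSc ρ g
  · obtain ⟨v, hv⟩ := h
    have hn : ρ g v ∉ Submodule.span ℚ {v} := by
      intro hm
      obtain ⟨c, hc⟩ := Submodule.mem_span_singleton.1 hm
      exact hv c hc.symm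
    obtain ⟨f, hf, hp⟩ := Submodule.exists_le_ker_of_notMem hn
    exact ⟨v, f, hf, fun _ => hp (Submodule.mem_span_singleton_self v)⟩
  · obtain ⟨v, hv⟩ := exists_ne (0 : V)
    have hn : ρ g v ∉ (⊥ : Submodule ℚ V) := by
      intro hm
      have h0 : ρ g v = 0 := (Submodule.mem_bot ℚ).1 hm
      apply hv
      have : ρ g⁻¹ (ρ g v) = v := by
        rw [← Module.End.mul_apply, ← map_mul]; simp
      rw [← this, h0, map_zero]
    obtain ⟨f, hf, _⟩ := Submodule.exists_le_ker_of_notMem hn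
    exact ⟨v, f, hf, fun hns => absurd hns h⟩

/-- The coefficient operator at one position. -/
private noncomputable def word_co (L : List (ι × ℤ × A)) (xi : A → V →ₗ[ℚ] ℚ) (B : ℕ → V) (i : ι)
    (l : ℕ) : V →ₗ[ℚ] V :=
  open Classical in
  match L[l]? with
  | some t => if t.1 = i then (xi t.2.2).smulRight (B l) else 0
  | none => 0

/-- The shift operator. -/
private noncomputable def word_X (L : List (ι × ℤ × A)) (xi : A → V →ₗ[ℚ] ℚ) (B : ℕ → V) (i : ι) :
    Module.End ℚ (ℕ → V) :=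
  LinearMap.pi fun l => (word_co L xi B i l).comp (LinearMap.proj (l + 1))

private theorem word_X_apply (L : List (ι × ℤ × A)) (xi : A → V →ₗ[ℚ] ℚ) (B : ℕ → V) (i : ι)
    (w : ℕ → V) (l : ℕ) : word_X L xi B i w l = word_co L xi B i l (w (l + 1)) := rfl

private theorem word_co_some {L : List (ι × ℤ × A)} {xi : A → V →ₗ[ℚ] ℚ} {B : ℕ → V}
    {l : ℕ} {t : ι × ℤ × A} (h : L[l]? = some t) (v : V) :
    word_co L xi B t.1 l v = xi t.2.2 v • B l := by
  simp [word_co, h]

private theorem word_co_cases (L : List (ι × ℤ × A)) (xi : A → V →ₗ[ℚ] ℚ) (B : ℕ → V) (i : ι)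
    (l : ℕ) : word_co L xi B i l = 0 ∨
      ∃ t, L[l]? = some t ∧ t.1 = i ∧ ∀ v, word_co L xi B i l v = xi t.2.2 v • B l := by
  classical
  rcases h : L[l]? with _ | t
  · left; simp [word_co, h]
  · by_cases hi : t.1 = i
    · right
      exact ⟨t, rfl, hi, fun v => by simp [word_co, h, hi]⟩
    · left; simp [word_co, h, hi]

private theorem word_XX [Group A] {L : List (ι × ℤ × A)} (hL : Red L) {xi : A → V →ₗ[ℚ] ℚ}
    {B : ℕ → V} {vv : A → V} (hB : ∀ l t, L[l]? = some t → B (l + 1) = vv t.2.2)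
    (hxi : ∀ t ∈ L, t.2.2 ≠ 1 → xi t.2.2 (vv t.2.2) = 0) (i : ι) :
    word_X L xi B i * word_X L xi B i = 0 := by
  ext w : 1
  funext l
  rw [Module.End.mul_apply, word_X_apply, word_X_apply]
  simp only [LinearMap.zero_apply, Pi.zero_apply]
  rcases word_co_cases L xi B i l with h | ⟨t, ht, hti, hv⟩
  · rw [h]; rfl
  rcases word_co_cases L xi B i (l + 1) with h | ⟨s, hs, hsi, hv'⟩
  · rw [h]; simp
  rw [hv', hv, map_smul, hB l t ht]
  have hne : t.2.2 ≠ 1 := by
    have h2 := hL.2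
    rw [List.isChain_iff_getElem] at h2
    obtain ⟨hl1, hl1'⟩ := List.getElem?_eq_some_iff.1 hs
    obtain ⟨hl0, hl0'⟩ := List.getElem?_eq_some_iff.1 ht
    have h3 := h2 l hl1
    rw [hl1', hl0'] at h3
    exact h3 (hti.trans hsi.symm)
  have hmem : t ∈ L := List.mem_of_getElem? ht
  rw [hxi t hmem hne]; simp

/-- The diagonal action of `A`. -/
private noncomputable def word_dia [Group A] (κ : A →* G) (ρ : Representation ℚ G V) :
    A →* Module.End ℚ (ℕ → V) where
  toFun a := LinearMap.pi fun l => (ρ (κ a)).comp (LinearMap.proj l)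
  map_one' := by
    ext w : 1
    funext l
    simp
  map_mul' a b := by
    ext w : 1
    funext l
    simp

private theorem word_dia_apply [Group A] (κ : A →* G) (ρ : Representation ℚ G V) (a : A)
    (w : ℕ → V) (l : ℕ) : word_dia κ ρ a w l = ρ (κ a) (w l) := rfl

/-- The unit `1 + X`. -/
private noncomputable def word_unit (X : Module.End ℚ (ℕ → V)) (hX : X * X = 0) :
    (Module.End ℚ (ℕ → V))ˣ where
  val := 1 + X
  inv := 1 - X
  val_inv := by
    have : (1 + X) * (1 - X) = 1 - X * X := by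
      simp only [add_mul, mul_sub, one_mul, mul_one]; abel
    rw [this, hX, sub_zero]
  inv_val := by
    have : (1 - X) * (1 + X) = 1 - X * X := by
      simp only [sub_mul, mul_add, one_mul, mul_one]; abel
    rw [this, hX, sub_zero]

/-- The representation of the free product. -/
private noncomputable def word_sig [Group A] (κ : A →* G) (ρ : Representation ℚ G V)
    (X : ι → Module.End ℚ (ℕ → V)) (hX : ∀ i, X i * X i = 0) :
    Representation ℚ (FP A ι) (ℕ → V) :=
  Monoid.Coprod.lift (word_dia κ ρ)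
    ((Units.coeHom (Module.End ℚ (ℕ → V))).comp (FreeGroup.lift fun i => word_unit (X i) (hX i)))

private theorem word_sig_inl [Group A] (κ : A →* G) (ρ : Representation ℚ G V)
    (X : ι → Module.End ℚ (ℕ → V)) (hX : ∀ i, X i * X i = 0) (a : A) :
    word_sig κ ρ X hX (Monoid.Coprod.inl a) = word_dia κ ρ a := by
  simp [word_sig]

private theorem word_sig_xx [Group A] (κ : A →* G) (ρ : Representation ℚ G V)
    (X : ι → Module.End ℚ (ℕ → V)) (hX : ∀ i, X i * X i = 0) (i : ι) :
    word_sig κ ρ X hX (xx i) = 1 + X i := by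
  simp [word_sig, xx, word_unit]

private theorem word_sig_xx_inv [Group A] (κ : A →* G) (ρ : Representation ℚ G V)
    (X : ι → Module.End ℚ (ℕ → V)) (hX : ∀ i, X i * X i = 0) (i : ι) :
    word_sig κ ρ X hX (xx i)⁻¹ = 1 - X i := by
  have h1 : word_sig κ ρ X hX (xx i)⁻¹ * word_sig κ ρ X hX (xx i) = 1 := by
    rw [← map_mul]; simp
  have h2 : (1 + X i) * (1 - X i) = 1 := by
    have : (1 + X i) * (1 - X i) = 1 - X i * X i := by
      simp only [add_mul, mul_sub, one_mul, mul_one]; abel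
    rw [this, hX i, sub_zero]
  rw [word_sig_xx] at h1
  calc word_sig κ ρ X hX (xx i)⁻¹ = word_sig κ ρ X hX (xx i)⁻¹ * ((1 + X i) * (1 - X i)) := by
        rw [h2, mul_one]
    _ = 1 - X i := by rw [← mul_assoc, h1, one_mul]

private theorem word_sig_zpow [Group A] (κ : A →* G) (ρ : Representation ℚ G V)
    (X : ι → Module.End ℚ (ℕ → V)) (hX : ∀ i, X i * X i = 0) (i : ι) (n : ℤ) :
    word_sig κ ρ X hX (xx i ^ n) = 1 + (n : ℚ) • X i := by
  have hX' := hX i
  induction n using Int.induction_on with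
  | zero => simp
  | succ n ih =>
    rw [zpow_add, zpow_one, map_mul, ih, word_sig_xx]
    have : (1 + ((n : ℤ) : ℚ) • X i) * (1 + X i) =
        1 + ((n : ℤ) : ℚ) • X i + X i + ((n : ℤ) : ℚ) • (X i * X i) := by
      simp only [add_mul, mul_add, mul_one, one_mul, smul_mul_assoc]
      abel
    rw [this, hX', smul_zero, add_zero]
    push_cast
    rw [add_smul, one_smul, add_assoc]
  | pred n ih =>
    rw [sub_eq_add_neg, zpow_add, zpow_neg_one, map_mul, ih, word_sig_xx_inv]
    have : (1 + ((-(n : ℤ) : ℤ) : ℚ) • X i) * (1 - X i) =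
        1 + ((-(n : ℤ) : ℤ) : ℚ) • X i - X i - ((-(n : ℤ) : ℤ) : ℚ) • (X i * X i) := by
      simp only [add_mul, mul_sub, mul_one, one_mul, smul_mul_assoc]
      abel
    rw [this, hX', smul_zero, sub_zero]
    push_cast
    rw [add_smul, neg_one_smul, sub_eq_add_neg, add_assoc]

/-- Elements preserving a submodule. -/
private theorem word_pres [Group A] (κ : A →* G) (ρ : Representation ℚ G V)
    (X : ι → Module.End ℚ (ℕ → V)) (hX : ∀ i, X i * X i = 0) (S : Submodule ℚ (ℕ → V))
    (ha : ∀ a, ∀ w ∈ S, word_dia κ ρ a w ∈ S) (hx : ∀ i, ∀ w ∈ S, X i w ∈ S)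
    (f : FP A ι) : ∀ w ∈ S, word_sig κ ρ X hX f w ∈ S := by
  have hxx : ∀ i, ∀ w ∈ S, word_sig κ ρ X hX (xx i) w ∈ S := by
    intro i w hw
    rw [word_sig_xx]
    exact S.add_mem hw (hx i w hw)
  have hxx' : ∀ i, ∀ w ∈ S, word_sig κ ρ X hX (xx i)⁻¹ w ∈ S := by
    intro i w hw
    rw [word_sig_xx_inv]
    exact S.sub_mem hw (hx i w hw)
  have hinr : ∀ g : FreeGroup ι, ∀ w ∈ S, word_sig κ ρ X hX (Monoid.Coprod.inr g) w ∈ S := by
    intro g
    induction g using FreeGroup.induction_on with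
    | C1 => intro w hw; simpa using hw
    | of i => exact hxx i
    | inv_of i _ =>
      intro w hw
      have := hxx' i w hw
      rwa [xx, ← map_inv] at this
    | mul x y hx hy =>
      intro w hw
      rw [map_mul, map_mul, Module.End.mul_apply]
      exact hx _ (hy _ hw)
  induction f using Monoid.Coprod.induction_on with
  | inl a => intro w hw; rw [word_sig_inl]; exact ha a w hw
  | inr g => exact hinr g
  | mul x y hx hy =>
    intro w hw
    rw [map_mul, Module.End.mul_apply]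
    exact hx _ (hy _ hw)

private theorem word_alg [Group A] (κ : A →* G) (ρ : Representation ℚ G V)
    (X : ι → Module.End ℚ (ℕ → V)) (hX : ∀ i, X i * X i = 0) (r : QA A) (w : ℕ → V) (l : ℕ) :
    (Representation.asAlgebraHom (word_sig κ ρ X hX)
      (gmap (Monoid.Coprod.inl : A →* FP A ι) r)) w l =
    (Representation.asAlgebraHom ρ (gmap κ r)) (w l) := by
  induction r using MonoidAlgebra.induction_on with
  | of g =>
    have h1 : gmap (Monoid.Coprod.inl : A →* FP A ι) (MonoidAlgebra.of ℚ A g)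
        = MonoidAlgebra.of ℚ _ (Monoid.Coprod.inl g) := gmap_gr _ g
    have h2 : gmap κ (MonoidAlgebra.of ℚ A g) = MonoidAlgebra.of ℚ _ (κ g) := gmap_gr _ g
    rw [h1, h2, Representation.asAlgebraHom_of, Representation.asAlgebraHom_of, word_sig_inl,
      word_dia_apply]
  | add a b ha hb =>
    rw [map_add, map_add, map_add, map_add]
    simp only [LinearMap.add_apply, Pi.add_apply]
    rw [ha, hb]
  | smul c a ha =>
    rw [map_smul, map_smul, map_smul, map_smul]
    simp only [LinearMap.smul_apply, Pi.smul_apply]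
    rw [ha]

/-- The claim along the tails. -/
private theorem word_tail [Group A] {L : List (ι × ℤ × A)} (hL : Red L) (κ : A →* G)
    (ρ : Representation ℚ G V) {xi : A → V →ₗ[ℚ] ℚ} {B : ℕ → V} {vv : A → V}
    (hB : ∀ l t, L[l]? = some t → B (l + 1) = vv t.2.2)
    (hxi0 : ∀ a, xi a (ρ (κ a) (vv a)) ≠ 0)
    (hX : ∀ i, word_X L xi B i * word_X L xi B i = 0) (e : ℕ) :
    ∀ k, k + e = L.length → ∃ c : ℚ, c ≠ 0 ∧
      (∀ j < k, word_sig κ ρ (word_X L xi B) hX
        (((L.drop k).map fun t => xx t.1 ^ t.2.1 * Monoid.Coprod.inl t.2.2).prod)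
        (Pi.single L.length (B L.length)) j = 0) ∧
      word_sig κ ρ (word_X L xi B) hX
        (((L.drop k).map fun t => xx t.1 ^ t.2.1 * Monoid.Coprod.inl t.2.2).prod)
        (Pi.single L.length (B L.length)) k = c • B k := by
  induction e with
  | zero =>
    intro k hk
    rw [add_zero] at hk
    subst hk
    refine ⟨1, one_ne_zero, ?_, ?_⟩
    · intro j hj
      simp [hj.ne]
    · simp
  | succ e ih =>
    intro k hk
    obtain ⟨c, hc, h0, h1⟩ := ih (k + 1) (by omega)
    have hkl : k < L.length := by omega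
    have ht : L[k]? = some L[k] := List.getElem?_eq_getElem hkl
    set t := L[k] with htdef
    have hdrop : L.drop k = t :: L.drop (k + 1) := List.drop_eq_getElem_cons hkl
    rw [hdrop, List.map_cons, List.prod_cons]
    set u := word_sig κ ρ (word_X L xi B) hX
        (((L.drop (k + 1)).map fun t => xx t.1 ^ t.2.1 * Monoid.Coprod.inl t.2.2).prod)
        (Pi.single L.length (B L.length)) with hu
    have hstep : word_sig κ ρ (word_X L xi B) hX
        (xx t.1 ^ t.2.1 * Monoid.Coprod.inl t.2.2 *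
          ((L.drop (k + 1)).map fun t => xx t.1 ^ t.2.1 * Monoid.Coprod.inl t.2.2).prod)
        (Pi.single L.length (B L.length)) =
        word_dia κ ρ t.2.2 u + (t.2.1 : ℚ) • word_X L xi B t.1 (word_dia κ ρ t.2.2 u) := by
      rw [map_mul, map_mul, word_sig_zpow, word_sig_inl]
      rfl
    rw [hstep]
    have hn : t.2.1 ≠ 0 := hL.1 t (List.getElem_mem hkl)
    refine ⟨(t.2.1 : ℚ) * (c * xi t.2.2 (ρ (κ t.2.2) (vv t.2.2))), ?_, ?_, ?_⟩
    · exact mul_ne_zero (by exact_mod_cast hn) (mul_ne_zero hc (hxi0 _))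
    · intro j hj
      have e1 : word_dia κ ρ t.2.2 u j = 0 := by
        rw [word_dia_apply, h0 j (by omega), map_zero]
      have e2 : word_dia κ ρ t.2.2 u (j + 1) = 0 := by
        rw [word_dia_apply, h0 (j + 1) (by omega), map_zero]
      rw [Pi.add_apply, Pi.smul_apply, word_X_apply, e1, e2, map_zero]
      simp
    · have e1 : word_dia κ ρ t.2.2 u k = 0 := by
        rw [word_dia_apply, h0 k (by omega), map_zero]
      have e2 : word_dia κ ρ t.2.2 u (k + 1) = c • ρ (κ t.2.2) (vv t.2.2) := by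
        rw [word_dia_apply, h1, map_smul, hB k t ht]
      rw [Pi.add_apply, Pi.smul_apply, word_X_apply, e1, e2, word_co_some ht, map_smul, zero_add,
        smul_smul, smul_eq_mul]

end word

theorem word_rep {A : Type} [Group A] {ι : Type} {G : Type} [Group G] (κ : A →* G)
    {V : Type} [AddCommGroup V] [Module ℚ V] [Nontrivial V] (ρ : Representation ℚ G V)
    (K : Set G) (Fl : ℕ → Submodule ℚ V) (m : ℕ) (hF : Flag ρ K Fl m) (a₀ : A)
    (L : List (ι × ℤ × A)) (hL : Red L) (h0 : L = [] → NonSc ρ (κ a₀))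
    (hS : ∀ t ∈ L, t.2.2 ≠ 1 → NonSc ρ (κ t.2.2)) :
    ∃ (W : Type) (_ : AddCommGroup W) (_ : Module ℚ W) (σ : Representation ℚ (FP A ι) W)
      (Fl' : ℕ → Submodule ℚ W) (M : ℕ),
      Antitone Fl' ∧ Fl' 0 = ⊤ ∧ Fl' M = ⊥ ∧
      (∀ (f : FP A ι) (j : ℕ) (w : W), w ∈ Fl' j → σ f w ∈ Fl' j) ∧
      (∀ (r : QA A) (i : ℕ),
        (∀ (j : ℕ) (v : V), v ∈ Fl j →
          (Representation.asAlgebraHom ρ (gmap κ r)) v ∈ Fl (j + i)) →
        ∀ (j : ℕ) (w : W), w ∈ Fl' j →
          (Representation.asAlgebraHom σ (gmap (Monoid.Coprod.inl : A →* FP A ι) r)) w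
            ∈ Fl' (j + i)) ∧
      (∀ (i : ι) (j : ℕ) (w : W), w ∈ Fl' j → σ (xx i) w - w ∈ Fl' (j + 1)) ∧
      σ (ev a₀ L) ≠ 1 := by
  classical
  choose vv0 xi0 hxi0 using fun a : A => word_choice ρ (κ a)
  obtain ⟨v0, hv0⟩ := exists_ne (0 : V)
  set B : ℕ → V := fun l => match l with
    | 0 => v0
    | l + 1 => match L[l]? with
      | some t => vv0 t.2.2
      | none => 0 with hBdef
  have hB : ∀ l t, L[l]? = some t → B (l + 1) = vv0 t.2.2 := by
    intro l t ht
    simp [hBdef, ht]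
  have hX : ∀ i, word_X L xi0 B i * word_X L xi0 B i = 0 :=
    word_XX hL hB fun t ht h1 => (hxi0 t.2.2).2 (hS t ht h1)
  set d := L.length with hd
  set Fl' : ℕ → Submodule ℚ (ℕ → V) := fun j =>
    Submodule.pi Set.univ fun l => Fl (j - (d - l) * m) with hFl'
  have hmem : ∀ (j : ℕ) (w : ℕ → V), w ∈ Fl' j ↔ ∀ l, w l ∈ Fl (j - (d - l) * m) := by
    intro j w
    simp [hFl', Submodule.mem_pi]
  have hanti : Antitone Fl' := by
    intro j j' hjj w hw
    rw [hmem] at hw ⊢
    intro l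
    exact hF.anti (by omega) (hw l)
  have hshift : ∀ (i : ι) (j : ℕ) (w : ℕ → V), w ∈ Fl' j → word_X L xi0 B i w ∈ Fl' (j + 1) := by
    intro i j w hw
    rw [hmem] at hw ⊢
    intro l
    rw [word_X_apply]
    rcases word_co_cases L xi0 B i l with h | ⟨t, ht, hti, hv⟩
    · rw [h]; exact Submodule.zero_mem _
    · have hl : l < d := (List.getElem?_eq_some_iff.1 ht).1
      by_cases hc : j + 1 ≤ (d - l) * m
      · have e : j + 1 - (d - l) * m = 0 := by omega
        rw [e, hF.top]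
        exact Submodule.mem_top
      · have e : (d - l) * m = (d - (l + 1)) * m + m := by
          have : d - l = (d - (l + 1)) + 1 := by omega
          rw [this]; ring
        have h1 : w (l + 1) ∈ Fl m := hF.anti (by omega) (hw (l + 1))
        rw [hF.bot, Submodule.mem_bot] at h1
        rw [h1, map_zero]
        exact Submodule.zero_mem _
  refine ⟨ℕ → V, inferInstance, inferInstance, word_sig κ ρ (word_X L xi0 B) hX, Fl',
    (d + 1) * m, hanti, ?_, ?_, ?_, ?_, ?_, ?_⟩
  · rw [eq_top_iff]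
    intro w _
    rw [hmem]
    intro l
    rw [Nat.zero_sub, hF.top]
    exact Submodule.mem_top
  · rw [eq_bot_iff]
    intro w hw
    rw [hmem] at hw
    rw [Submodule.mem_bot]
    funext l
    have h1 : (d - l) * m ≤ d * m := Nat.mul_le_mul_right m (Nat.sub_le d l)
    have h2 : (d + 1) * m = d * m + m := by ring
    have h3 : w l ∈ Fl m := hF.anti (by omega) (hw l)
    rw [hF.bot, Submodule.mem_bot] at h3
    exact h3
  · intro f j w hw
    refine word_pres κ ρ (word_X L xi0 B) hX (Fl' j) ?_ ?_ f w hw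
    · intro a w hw
      rw [hmem] at hw ⊢
      intro l
      exact hF.pres _ _ _ (hw l)
    · intro i w hw
      exact hanti (Nat.le_succ j) (hshift i j w hw)
  · intro r i hr j w hw
    rw [hmem] at hw ⊢
    intro l
    rw [word_alg]
    exact hF.anti (by omega) (hr _ _ (hw l))
  · intro i j w hw
    rw [word_sig_xx]
    have : (1 + word_X L xi0 B i) w - w = word_X L xi0 B i w := by
      rw [LinearMap.add_apply, Module.End.one_apply]; abel
    rw [this]
    exact hshift i j w hw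
  · intro hone
    by_cases hL0 : L = []
    · subst hL0
      obtain ⟨v, hv⟩ := h0 rfl
      have h1 : word_sig κ ρ (word_X [] xi0 B) hX (ev a₀ []) (fun _ => v) 0 = v := by
        rw [hone]; rfl
      have h2 : word_sig κ ρ (word_X [] xi0 B) hX (ev a₀ []) (fun _ => v) 0 = ρ (κ a₀) v := by
        have : ev a₀ ([] : List (ι × ℤ × A)) = Monoid.Coprod.inl a₀ := by simp [ev]
        rw [this, word_sig_inl]; rfl
      exact hv 1 (by rw [one_smul, ← h2, h1])
    · have hdpos : 0 < d := List.length_pos_of_ne_nil hL0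
      obtain ⟨c, hc, _, h1⟩ := word_tail hL κ ρ hB (fun a => (hxi0 a).1) hX L.length 0 (by simp)
      rw [List.drop_zero] at h1
      have h2 : word_sig κ ρ (word_X L xi0 B) hX (ev a₀ L) (Pi.single L.length (B L.length)) 0
          = ρ (κ a₀) (c • B 0) := by
        rw [ev, map_mul, word_sig_inl, Module.End.mul_apply, word_dia_apply, h1]
      have h3 : word_sig κ ρ (word_X L xi0 B) hX (ev a₀ L) (Pi.single L.length (B L.length)) 0
          = 0 := by
        rw [hone, Module.End.one_apply]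
        exact Pi.single_eq_of_ne (by omega) _
      rw [h2] at h3
      have h4 : c • B 0 = 0 := by
        have : ρ (κ a₀)⁻¹ (ρ (κ a₀) (c • B 0)) = c • B 0 := by
          rw [← Module.End.mul_apply, ← map_mul]; simp
        rw [← this, h3, map_zero]
      rcases smul_eq_zero.1 h4 with h5 | h5
      · exact hc h5
      · exact hv0 h5

end Pool.H11.FC
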